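import Pool.Agent.H77.GN.QDef

/-!
# [H77 GN QBIL] the commutator form, 110-170 lines (finite group theory)

`N` a central series (`[G, N j] ⊆ N (j+1)`), `π : G → F_p^m` surjective with `[ker π, N j] ⊆ N (j+2)`, coordinates `Crs N lev cc`. There is a bilinear map `B : F_p^m × F_p^l → F_p^l` with `B (π x) y k = cc k [x, u]` if `lev k = j + 1`, `u ∈ N j`, `y k' = cc k' u` for the `k'` of level `j`, and `B v y k = 0` if `lev k = 0`.

Proof. For `lev k = j + 1`: `F k x u = cc k [x, u]`, `x ∈ G`, `u ∈ N j`. It is additive in `u` (`[x, u u'] = [x, u] (u [x, u'] u⁻¹)`, and `u w u⁻¹ w⁻¹ ∈ N (j+2)` for `w ∈ N (j+1)`, so `cc k (u w u⁻¹) = cc k w`), zero for `u ∈ N (j+1)` (`[x, u] ∈ N (j+2)`), additive in `x` (`[x x', u] = (x [x', u] x⁻¹) [x, u]`), zero for `x ∈ ker π`. So it depends only on `π x` and on the coordinates of `u` of level `j` (if `u, u'` have the same coordinates then `u u'⁻¹ ∈ N (j+1)` by `inj`).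
Choose `x(v)` with `π (x v) = v` and `u(j, y) ∈ N j` with the coordinates `y` (`sur`), and put `B v y k = F k (x v) (u (j, y))`; additive in `v` and `y` by the above, hence `ZMod p`-linear (`AddMonoidHom.toZModLinearMap`, twice; or build it with `LinearMap.mk₂` and prove the `smul` parts from additivity: `map_zmod_smul`, or `ZMod.smul` by induction on natural numbers).
-/

set_option autoImplicit false

open scoped Classical

noncomputable section

namespace H77.GN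

open H77.AB

theorem qbil {p m l : ℕ} (hp : p.Prime) {G : Type} [Group G] [Finite G]
    (N : ℕ → Subgroup G) (nn : ∀ j, (N j).Normal) (anti : ∀ j, N (j + 1) ≤ N j)
    (com : ∀ j x, ∀ u ∈ N j, x * u * x⁻¹ * u⁻¹ ∈ N (j + 1))
    (π : G →* Multiplicative (Fin m → ZMod p)) (πs : Function.Surjective π)
    (fac : ∀ j x, π x = 1 → ∀ u ∈ N j, x * u * x⁻¹ * u⁻¹ ∈ N (j + 2))
    (lev : Fin l → ℕ) (cc : Fin l → G → ZMod p) (hc : Crs N lev cc) :
    ∃ B : (Fin m → ZMod p) →ₗ[ZMod p] (Fin l → ZMod p) →ₗ[ZMod p] (Fin l → ZMod p),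
      (∀ k j, lev k = j + 1 → ∀ x, ∀ u ∈ N j, ∀ y : Fin l → ZMod p,
        (∀ k', lev k' = j → y k' = cc k' u) →
          B (Multiplicative.toAdd (π x)) y k = cc k (x * u * x⁻¹ * u⁻¹)) ∧
      ∀ k, lev k = 0 → ∀ v y, B v y k = 0 := by
  have hadd : ∀ k i, lev k = i → ∀ a ∈ N i, ∀ b ∈ N i, cc k (a * b) = cc k a + cc k b := by
    intro k i hk a ha b hb
    subst hk
    exact hc.add k a ha b hb
  have hz : ∀ k i, lev k = i → ∀ a ∈ N (i + 1), cc k a = 0 := by
    intro k i hk a ha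
    subst hk
    exact hc.z k a ha
  have hconj : ∀ k i, lev k = i → ∀ w ∈ N i, ∀ h : G, cc k (h * w * h⁻¹) = cc k w := by
    intro k i hk w hw h
    have e1 : h * w * h⁻¹ = (h * w * h⁻¹ * w⁻¹) * w := by group
    have h1 := com i h w hw
    rw [e1, hadd k i hk _ (anti i h1) w hw, hz k i hk _ h1, zero_add]
  -- additivity in the second variable
  have A1 : ∀ k j, lev k = j + 1 → ∀ x, ∀ u ∈ N j, ∀ u' ∈ N j,
      cc k (x * (u * u') * x⁻¹ * (u * u')⁻¹)
        = cc k (x * u * x⁻¹ * u⁻¹) + cc k (x * u' * x⁻¹ * u'⁻¹) := by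
    intro k j hk x u hu u' hu'
    have e1 : x * (u * u') * x⁻¹ * (u * u')⁻¹
        = (x * u * x⁻¹ * u⁻¹) * (u * (x * u' * x⁻¹ * u'⁻¹) * u⁻¹) := by group
    have h1 := com j x u' hu'
    rw [e1, hadd k (j + 1) hk _ (com j x u hu) _ ((nn (j + 1)).conj_mem _ h1 u),
      hconj k (j + 1) hk _ h1 u]
  have A2 : ∀ k j, lev k = j + 1 → ∀ x, ∀ u ∈ N (j + 1), cc k (x * u * x⁻¹ * u⁻¹) = 0 := by
    intro k j hk x u hu
    exact hz k (j + 1) hk _ (com (j + 1) x u hu)
  have A3 : ∀ k j, lev k = j + 1 → ∀ x x', ∀ u ∈ N j,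
      cc k (x * x' * u * (x * x')⁻¹ * u⁻¹)
        = cc k (x * u * x⁻¹ * u⁻¹) + cc k (x' * u * x'⁻¹ * u⁻¹) := by
    intro k j hk x x' u hu
    have e1 : x * x' * u * (x * x')⁻¹ * u⁻¹
        = (x * (x' * u * x'⁻¹ * u⁻¹) * x⁻¹) * (x * u * x⁻¹ * u⁻¹) := by group
    have h1 := com j x' u hu
    rw [e1, hadd k (j + 1) hk _ ((nn (j + 1)).conj_mem _ h1 x) _ (com j x u hu),
      hconj k (j + 1) hk _ h1 x, add_comm]
  have A5 : ∀ k j, lev k = j + 1 → ∀ x, ∀ u ∈ N j, ∀ u' ∈ N j,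
      (∀ k', lev k' = j → cc k' u = cc k' u') →
        cc k (x * u * x⁻¹ * u⁻¹) = cc k (x * u' * x⁻¹ * u'⁻¹) := by
    intro k j hk x u hu u' hu' h
    have h1 : u * u'⁻¹ ∈ N j := (N j).mul_mem hu ((N j).inv_mem hu')
    have h2 : u * u'⁻¹ ∈ N (j + 1) := by
      refine hc.inj j _ h1 fun k' hk' => ?_
      have h3 := hadd k' j hk' (u * u'⁻¹) h1 u' hu'
      rw [inv_mul_cancel_right, h k' hk'] at h3
      exact right_eq_add.1 h3
    have h4 := A1 k j hk x (u * u'⁻¹) h1 u' hu'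
    rw [inv_mul_cancel_right, A2 k j hk x _ h2, zero_add] at h4
    exact h4
  have A6 : ∀ k j, lev k = j + 1 → ∀ x x', π x = π x' → ∀ u ∈ N j,
      cc k (x * u * x⁻¹ * u⁻¹) = cc k (x' * u * x'⁻¹ * u⁻¹) := by
    intro k j hk x x' h u hu
    have h1 : π (x * x'⁻¹) = 1 := by rw [map_mul, map_inv, h, mul_inv_cancel]
    have h2 := A3 k j hk (x * x'⁻¹) x' u hu
    rw [inv_mul_cancel_right, hz k (j + 1) hk _ (fac j _ h1 u hu), zero_add] at h2
    exact h2
  choose xr hxr using fun v : Fin m → ZMod p => πs (Multiplicative.ofAdd v)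
  choose ur hur hur' using hc.sur
  let Bf : (Fin m → ZMod p) → (Fin l → ZMod p) → (Fin l → ZMod p) := fun v y k =>
    if lev k = 0 then 0 else
      cc k (xr v * ur (lev k - 1) y * (xr v)⁻¹ * (ur (lev k - 1) y)⁻¹)
  have hB1 : ∀ v y k j, lev k = j + 1 →
      Bf v y k = cc k (xr v * ur j y * (xr v)⁻¹ * (ur j y)⁻¹) := by
    intro v y k j hk
    have h1 : lev k ≠ 0 := by omega
    have h2 : lev k - 1 = j := by omega
    show (if lev k = 0 then 0 else
      cc k (xr v * ur (lev k - 1) y * (xr v)⁻¹ * (ur (lev k - 1) y)⁻¹)) = _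
    rw [if_neg h1, h2]
  have hB0 : ∀ v y k, lev k = 0 → Bf v y k = 0 := by
    intro v y k hk
    show (if lev k = 0 then 0 else
      cc k (xr v * ur (lev k - 1) y * (xr v)⁻¹ * (ur (lev k - 1) y)⁻¹)) = _
    rw [if_pos hk]
  have hBadd2 : ∀ v y y', Bf v (y + y') = Bf v y + Bf v y' := by
    intro v y y'
    funext k
    rw [Pi.add_apply]
    rcases Nat.eq_zero_or_pos (lev k) with hk | hk
    · rw [hB0 _ _ k hk, hB0 _ _ k hk, hB0 _ _ k hk, add_zero]
    · obtain ⟨j, hj⟩ : ∃ j, lev k = j + 1 := ⟨lev k - 1, by omega⟩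
      rw [hB1 _ _ k j hj, hB1 _ _ k j hj, hB1 _ _ k j hj,
        ← A1 k j hj (xr v) _ (hur j y) _ (hur j y')]
      refine A5 k j hj _ _ (hur j _) _ ((N j).mul_mem (hur j y) (hur j y')) fun k' hk' => ?_
      rw [hur' j _ k' hk', hadd k' j hk' _ (hur j y) _ (hur j y'), hur' j _ k' hk',
        hur' j _ k' hk', Pi.add_apply]
  have hBadd1 : ∀ v v' y, Bf (v + v') y = Bf v y + Bf v' y := by
    intro v v' y
    funext k
    rw [Pi.add_apply]
    rcases Nat.eq_zero_or_pos (lev k) with hk | hk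
    · rw [hB0 _ _ k hk, hB0 _ _ k hk, hB0 _ _ k hk, add_zero]
    · obtain ⟨j, hj⟩ : ∃ j, lev k = j + 1 := ⟨lev k - 1, by omega⟩
      rw [hB1 _ _ k j hj, hB1 _ _ k j hj, hB1 _ _ k j hj,
        ← A3 k j hj (xr v) (xr v') _ (hur j y)]
      refine A6 k j hj _ _ ?_ _ (hur j y)
      rw [hxr, map_mul, hxr, hxr, ofAdd_add]
  refine ⟨(AddMonoidHom.mk' (fun v => (AddMonoidHom.mk' (Bf v) (hBadd2 v)).toZModLinearMap p)
    (fun v v' => ?_)).toZModLinearMap p, ?_, ?_⟩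
  · refine LinearMap.ext fun y => ?_
    exact hBadd1 v v' y
  · intro k j hk x u hu y hy
    show Bf (Multiplicative.toAdd (π x)) y k = _
    rw [hB1 _ _ k j hk]
    rw [A6 k j hk (xr (Multiplicative.toAdd (π x))) x (by rw [hxr, ofAdd_toAdd]) _ (hur j y)]
    refine A5 k j hk x _ (hur j y) u hu fun k' hk' => ?_
    rw [hur' j y k' hk', hy k' hk']
  · intro k hk v y
    show Bf v y k = 0
    exact hB0 v y k hk

end H77.GN
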