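import Pool.Agent.H77.GN.QDef

/-!
# [H77 GN QDD] the subspaces D and C, 120-180 lines (finite group theory)

`N` a descending central series, coordinates `Crs N lev cc`, `g ∈ G` with `[G, g] ⊆ N 0`.
* `qdd`: the set of the `y ∈ F_p^l` such that for every `j` there is `h` with `[h, g] ∈ N j` and `y k = cc k [h, g]` for the `k` of level `j` is a subspace `D`; for all `t` conjugate to `g` and `h`, `j` with `[h, t] ∈ N j` it contains the vector `k ↦ if lev k = j then cc k [h, t] else 0`.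
  Additive: `[h h', g] = (h [h', g] h⁻¹) [h, g]` is in `N j` and `cc k (h w h⁻¹) = cc k w` for `w ∈ N j`, `lev k = j` (`h w h⁻¹ w⁻¹ ∈ N (j+1)`). Zero: `h = 1`. Multiples: `(r : ZMod p) • y = r.val • y` is a repeated sum (`p > 0`), or `AddSubgroup.toZModSubmodule` (for the negative: `-y = (p-1) • y`). The vector: for `t = w g w⁻¹`: `[h, t] = w [w⁻¹ h w, g] w⁻¹`, so `[w⁻¹ h w, g] ∈ N j` (normal), with the same coordinates; for the levels `j' ≠ j` take `h = 1` (`cc k 1 = 0`).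
* `qcc`: the set `C = {v : ∃ F, F g = g F, toAdd (π F) = v}` is a subspace; it contains `toAdd (π F)` for all `t` conjugate to `g` and `F` commuting with `t` (`w⁻¹ F w` commutes with `g` and has the same image).
-/

set_option autoImplicit false

open scoped Classical

noncomputable section

namespace H77.GN

open H77.AB

theorem qdd {p l : ℕ} (hp : p.Prime) {G : Type} [Group G] [Finite G]
    (N : ℕ → Subgroup G) (nn : ∀ j, (N j).Normal) (anti : ∀ j, N (j + 1) ≤ N j)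
    (com : ∀ j x, ∀ u ∈ N j, x * u * x⁻¹ * u⁻¹ ∈ N (j + 1))
    (lev : Fin l → ℕ) (cc : Fin l → G → ZMod p) (hc : Crs N lev cc) (g : G) :
    ∃ Dd : Submodule (ZMod p) (Fin l → ZMod p),
      (∀ y, y ∈ Dd ↔ ∀ j, ∃ h : G, h * g * h⁻¹ * g⁻¹ ∈ N j ∧
        ∀ k, lev k = j → y k = cc k (h * g * h⁻¹ * g⁻¹)) ∧
      ∀ t, IsConj t g → ∀ h j, h * t * h⁻¹ * t⁻¹ ∈ N j →
        (fun k => if lev k = j then cc k (h * t * h⁻¹ * t⁻¹) else 0) ∈ Dd := by
  have hadd : ∀ k i, lev k = i → ∀ a ∈ N i, ∀ b ∈ N i, cc k (a * b) = cc k a + cc k b := by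
    intro k i hk a ha b hb
    subst hk
    exact hc.add k a ha b hb
  have hz : ∀ k i, lev k = i → ∀ a ∈ N (i + 1), cc k a = 0 := by
    intro k i hk a ha
    subst hk
    exact hc.z k a ha
  have hone : ∀ k, cc k 1 = 0 := fun k => hc.z k 1 (one_mem _)
  have hconj : ∀ k i, lev k = i → ∀ w ∈ N i, ∀ h : G, cc k (h * w * h⁻¹) = cc k w := by
    intro k i hk w hw h
    have e1 : h * w * h⁻¹ = (h * w * h⁻¹ * w⁻¹) * w := by group
    have h1 := com i h w hw
    rw [e1, hadd k i hk _ (anti i h1) w hw, hz k i hk _ h1, zero_add]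
  have hinv : ∀ k i, lev k = i → ∀ w ∈ N i, cc k w⁻¹ = - cc k w := by
    intro k i hk w hw
    have h1 := hadd k i hk w hw w⁻¹ ((N i).inv_mem hw)
    rw [mul_inv_cancel, hone] at h1
    exact (neg_eq_of_add_eq_zero_right h1.symm).symm
  let D : AddSubgroup (Fin l → ZMod p) :=
    { carrier := {y | ∀ j, ∃ h : G, h * g * h⁻¹ * g⁻¹ ∈ N j ∧
        ∀ k, lev k = j → y k = cc k (h * g * h⁻¹ * g⁻¹)}
      zero_mem' := by
        intro j
        refine ⟨1, ?_, fun k _ => ?_⟩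
        · have e1 : (1 : G) * g * 1⁻¹ * g⁻¹ = 1 := by group
          rw [e1]
          exact one_mem _
        · have e1 : (1 : G) * g * 1⁻¹ * g⁻¹ = 1 := by group
          rw [e1, hone]
          rfl
      add_mem' := by
        intro y y' hy hy' j
        obtain ⟨h, h1, h2⟩ := hy j
        obtain ⟨h', h1', h2'⟩ := hy' j
        have e1 : h * h' * g * (h * h')⁻¹ * g⁻¹
            = (h * (h' * g * h'⁻¹ * g⁻¹) * h⁻¹) * (h * g * h⁻¹ * g⁻¹) := by group
        have h3 := (nn j).conj_mem _ h1' h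
        refine ⟨h * h', ?_, fun k hk => ?_⟩
        · rw [e1]
          exact (N j).mul_mem h3 h1
        · rw [e1, hadd k j hk _ h3 _ h1, hconj k j hk _ h1' h, Pi.add_apply, h2 k hk, h2' k hk,
            add_comm]
      neg_mem' := by
        intro y hy j
        obtain ⟨h, h1, h2⟩ := hy j
        have e1 : h⁻¹ * g * (h⁻¹)⁻¹ * g⁻¹ = h⁻¹ * (h * g * h⁻¹ * g⁻¹)⁻¹ * (h⁻¹)⁻¹ := by group
        have h3 := (N j).inv_mem h1
        refine ⟨h⁻¹, ?_, fun k hk => ?_⟩
        · rw [e1]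
          exact (nn j).conj_mem _ h3 _
        · rw [e1, hconj k j hk _ h3, hinv k j hk _ h1, Pi.neg_apply, h2 k hk] }
  have hD : ∀ y, y ∈ AddSubgroup.toZModSubmodule p D ↔ ∀ j, ∃ h : G, h * g * h⁻¹ * g⁻¹ ∈ N j ∧
      ∀ k, lev k = j → y k = cc k (h * g * h⁻¹ * g⁻¹) := by
    intro y
    rw [AddSubgroup.mem_toZModSubmodule]
    exact Iff.rfl
  refine ⟨AddSubgroup.toZModSubmodule p D, hD, ?_⟩
  intro t ht h j hj
  rw [hD]
  obtain ⟨c, hct⟩ := isConj_iff.1 ht
  intro j'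
  by_cases hjj : j' = j
  · subst hjj
    have e1 : (c * h * c⁻¹) * g * (c * h * c⁻¹)⁻¹ * g⁻¹ = c * (h * t * h⁻¹ * t⁻¹) * c⁻¹ := by
      rw [← hct]
      group
    refine ⟨c * h * c⁻¹, ?_, fun k hk => ?_⟩
    · rw [e1]
      exact (nn j').conj_mem _ hj c
    · simp only [if_pos hk]
      rw [e1, hconj k j' hk _ hj c]
  · refine ⟨1, ?_, fun k hk => ?_⟩
    · have e1 : (1 : G) * g * 1⁻¹ * g⁻¹ = 1 := by group
      rw [e1]
      exact one_mem _
    · have e1 : (1 : G) * g * 1⁻¹ * g⁻¹ = 1 := by group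
      have h1 : lev k ≠ j := by
        intro h2
        exact hjj (hk.symm.trans h2)
      simp only [if_neg h1]
      rw [e1, hone]

theorem qcc {p m : ℕ} (hp : p.Prime) {G : Type} [Group G] [Finite G]
    (π : G →* Multiplicative (Fin m → ZMod p)) (g : G) :
    ∃ C : Submodule (ZMod p) (Fin m → ZMod p),
      (∀ v, v ∈ C ↔ ∃ F, F * g = g * F ∧ Multiplicative.toAdd (π F) = v) ∧
      ∀ F t, IsConj t g → F * t = t * F → Multiplicative.toAdd (π F) ∈ C := by
  let C : AddSubgroup (Fin m → ZMod p) :=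
    { carrier := {v | ∃ F, F * g = g * F ∧ Multiplicative.toAdd (π F) = v}
      zero_mem' := ⟨1, by rw [one_mul, mul_one], by rw [map_one, toAdd_one]⟩
      add_mem' := by
        rintro v v' ⟨F, h1, rfl⟩ ⟨F', h1', rfl⟩
        refine ⟨F * F', ?_, ?_⟩
        · rw [mul_assoc, h1', ← mul_assoc, h1, mul_assoc]
        · rw [map_mul, toAdd_mul]
      neg_mem' := by
        rintro v ⟨F, h1, rfl⟩
        refine ⟨F⁻¹, ?_, ?_⟩
        · rw [inv_mul_eq_iff_eq_mul, ← mul_assoc, h1, mul_inv_cancel_right]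
        · rw [map_inv, toAdd_inv] }
  have hC : ∀ v, v ∈ AddSubgroup.toZModSubmodule p C ↔
      ∃ F, F * g = g * F ∧ Multiplicative.toAdd (π F) = v := by
    intro v
    rw [AddSubgroup.mem_toZModSubmodule]
    exact Iff.rfl
  refine ⟨AddSubgroup.toZModSubmodule p C, hC, ?_⟩
  intro F t ht hF
  rw [hC]
  obtain ⟨c, hct⟩ := isConj_iff.1 ht
  refine ⟨c * F * c⁻¹, ?_, ?_⟩
  · rw [← hct]
    have e1 : c * F * c⁻¹ * (c * t * c⁻¹) = c * (F * t) * c⁻¹ := by group
    have e2 : c * t * c⁻¹ * (c * F * c⁻¹) = c * (t * F) * c⁻¹ := by group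
    rw [e1, e2, hF]
  · have e3 : π (c * F * c⁻¹) = π F := by
      rw [map_mul, map_mul, map_inv, mul_comm (π c), mul_inv_cancel_right]
    rw [e3]

end H77.GN
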