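import Pool.Agent.H77.GN.QDef

/-!
# [H77 GN QINEQ] the inequality in coordinates, 130-190 lines (finite group theory, counting)

The inequality of `SgH` for `g` gives `#(Dd ⊓ ker B (t)) * #C ≤ p^m`, `t = π g`.

Proof. (1) Let `K_j = {x : [x, g] ∈ N j, [[x, g], g] ∈ N (j+2)}`, `H_{j+1} = {x : [x, g] ∈ N (j+1)}`, `X_j` = the set of the vectors `(cc k [x, g])_{lev k = j}` (as functions `Fin l → ZMod p`, `0` outside level `j`), `x ∈ K_j`. `#X_j * #H_{j+1} ≤ #K_j`: for every element `z ∈ X_j` choose `x_z ∈ K_j`; the map `X_j × H_{j+1} → K_j`, `(z, h) ↦ x_z h` is well defined and injective: `[x h, g] = (x [h, g] x⁻¹) [x, g]` with `[h, g] ∈ N (j+1)`, so it is in `N j` and has the same coordinates of level `j` as `[x, g]`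
(so `z` is determined, then `h`), and `[[x h, g], g]`: with `w = [x, g]`, `w' = x [h, g] x⁻¹ ∈ N (j+1)`: `[w' w, g] = w' [w, g] w'⁻¹ [w', g] ∈ N (j+2)`.
(2) `#(Dd ⊓ ker B t) ≤ ∏_{j < c} #X_j`: for `y ∈ Dd ⊓ ker (B t)` and `j < c` there is `h` with `[h, g] ∈ N j` and `y k = cc k [h, g]` for `lev k = j` (`hD`). For `k` of level `j + 1`: `0 = B t y k = cc k [g, u]`, `u = [h, g]` (`hB` with `x = g`), so `[g, u] ∈ N (j+2)` (`inj` for `j + 1`), and `[u, g] = [g, u]⁻¹ ∈ N (j+2)`: `h ∈ K_j`. So the level `j` part of `y` is in `X_j`; `y` is determined by its parts (`lev k < c`).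
(3) `#C * #Fr = #{x : ∃ y, y g = g y, y⁻¹ x ∈ Fr}` (this set is `{x : toAdd (π x) ∈ C}`, since `ker π = Fr`; every fibre of `π` has `#Fr` elements and `π` is surjective) and `p^m * #Fr = #G`. So `#(Dd ⊓ ker) * #C * #Fr * ∏ #H_{j+1} ≤ ∏ #X_j #H_{j+1} * #(..) ≤ ∏ #K_j * #(..) ≤ ∏ #H_{j+1} * #G = ∏ #H_{j+1} * p^m * #Fr`; cancel `#Fr ∏ #H_{j+1} > 0` (`1 ∈ H_{j+1}`).
-/

set_option autoImplicit false

open scoped Classical

noncomputable section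

namespace H77.GN

open H77.AB

private theorem qineq_ct {G : Type} [Group G] (x h g : G) :
    (x * h) * g * (x * h)⁻¹ * g⁻¹ = (x * (h * g * h⁻¹ * g⁻¹) * x⁻¹) * (x * g * x⁻¹ * g⁻¹) := by
  group

private theorem qineq_step {p l : ℕ} {G : Type} [Group G] [Finite G]
    (N : ℕ → Subgroup G) (nn : ∀ j, (N j).Normal) (anti : ∀ j, N (j + 1) ≤ N j)
    (com : ∀ j x, ∀ u ∈ N j, x * u * x⁻¹ * u⁻¹ ∈ N (j + 1))
    (lev : Fin l → ℕ) (cc : Fin l → G → ZMod p) (hc : Crs N lev cc) (g : G) (j : ℕ) :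
    Nat.card {v : Fin l → ZMod p // ∃ x : G, (x * g * x⁻¹ * g⁻¹ ∈ N j ∧
        (x * g * x⁻¹ * g⁻¹) * g * (x * g * x⁻¹ * g⁻¹)⁻¹ * g⁻¹ ∈ N (j + 2)) ∧
        ∀ k, v k = if lev k = j then cc k (x * g * x⁻¹ * g⁻¹) else 0} *
      Nat.card {x : G // x * g * x⁻¹ * g⁻¹ ∈ N (j + 1)} ≤
      Nat.card {x : G // x * g * x⁻¹ * g⁻¹ ∈ N j ∧
        (x * g * x⁻¹ * g⁻¹) * g * (x * g * x⁻¹ * g⁻¹)⁻¹ * g⁻¹ ∈ N (j + 2)} := by
  set X := {v : Fin l → ZMod p // ∃ x : G, (x * g * x⁻¹ * g⁻¹ ∈ N j ∧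
        (x * g * x⁻¹ * g⁻¹) * g * (x * g * x⁻¹ * g⁻¹)⁻¹ * g⁻¹ ∈ N (j + 2)) ∧
        ∀ k, v k = if lev k = j then cc k (x * g * x⁻¹ * g⁻¹) else 0} with hX
  set H := {x : G // x * g * x⁻¹ * g⁻¹ ∈ N (j + 1)} with hH
  set K := {x : G // x * g * x⁻¹ * g⁻¹ ∈ N j ∧
        (x * g * x⁻¹ * g⁻¹) * g * (x * g * x⁻¹ * g⁻¹)⁻¹ * g⁻¹ ∈ N (j + 2)} with hK
  have hw' : ∀ (x h : G), h * g * h⁻¹ * g⁻¹ ∈ N (j + 1) → x * (h * g * h⁻¹ * g⁻¹) * x⁻¹ ∈ N (j + 1) :=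
    fun x h hh => (nn (j + 1)).conj_mem _ hh x
  have hmem : ∀ (x h : G), (x * g * x⁻¹ * g⁻¹ ∈ N j ∧
        (x * g * x⁻¹ * g⁻¹) * g * (x * g * x⁻¹ * g⁻¹)⁻¹ * g⁻¹ ∈ N (j + 2)) → h * g * h⁻¹ * g⁻¹ ∈ N (j + 1) →
      ((x * h) * g * (x * h)⁻¹ * g⁻¹ ∈ N j ∧
        ((x * h) * g * (x * h)⁻¹ * g⁻¹) * g * ((x * h) * g * (x * h)⁻¹ * g⁻¹)⁻¹ * g⁻¹ ∈ N (j + 2)) := by
    intro x h hx hh
    have h1 := hw' x h hh
    rw [qineq_ct]
    generalize x * (h * g * h⁻¹ * g⁻¹) * x⁻¹ = w' at *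
    generalize x * g * x⁻¹ * g⁻¹ = w at *
    refine ⟨(N j).mul_mem (anti j h1) hx.1, ?_⟩
    have e : w' * w * g * (w' * w)⁻¹ * g⁻¹ = (w' * (w * g * w⁻¹ * g⁻¹) * w'⁻¹) * (g * w' * g⁻¹ * w'⁻¹)⁻¹ := by
      group
    rw [e]
    exact (N (j + 2)).mul_mem ((nn (j + 2)).conj_mem _ hx.2 w') ((N (j + 2)).inv_mem (com (j + 1) g w' h1))
  have hcoord : ∀ (x h : G), x * g * x⁻¹ * g⁻¹ ∈ N j → h * g * h⁻¹ * g⁻¹ ∈ N (j + 1) → ∀ k, lev k = j →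
      cc k ((x * h) * g * (x * h)⁻¹ * g⁻¹) = cc k (x * g * x⁻¹ * g⁻¹) := by
    intro x h hx hh k hk
    have h1 := hw' x h hh
    rw [qineq_ct, hc.add k _ (by rw [hk]; exact anti j h1) _ (by rw [hk]; exact hx), hc.z k _ (by rw [hk]; exact h1), zero_add]
  choose xx hxx using fun v : X => v.2
  have hinj : Function.Injective (fun q : X × H => (⟨xx q.1 * q.2.1, hmem _ _ (hxx q.1).1 q.2.2⟩ : K)) := by
    rintro ⟨z, h⟩ ⟨z', h'⟩ he
    have he' : xx z * h.1 = xx z' * h'.1 := congrArg Subtype.val he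
    have hz : z = z' := by
      apply Subtype.ext
      funext k
      rw [(hxx z).2 k, (hxx z').2 k]
      by_cases hk : lev k = j
      · rw [if_pos hk, if_pos hk, ← hcoord (xx z) h.1 (hxx z).1.1 h.2 k hk, ← hcoord (xx z') h'.1 (hxx z').1.1 h'.2 k hk, he']
      · rw [if_neg hk, if_neg hk]
    subst hz
    have hh : h = h' := Subtype.ext (mul_left_cancel he')
    rw [hh]
  rw [← Nat.card_prod]
  exact Nat.card_le_card_of_injective _ hinj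

theorem qineq {p m l : ℕ} (hp : p.Prime) {G : Type} [Group G] [Finite G] (c : ℕ)
    (N : ℕ → Subgroup G) (nn : ∀ j, (N j).Normal) (anti : ∀ j, N (j + 1) ≤ N j)
    (com : ∀ j x, ∀ u ∈ N j, x * u * x⁻¹ * u⁻¹ ∈ N (j + 1))
    (π : G →* Multiplicative (Fin m → ZMod p)) (πs : Function.Surjective π)
    (πk : ∀ x, π x = 1 ↔ x ∈ Fr p G)
    (lev : Fin l → ℕ) (cc : Fin l → G → ZMod p) (hl : ∀ k, lev k < c) (hc : Crs N lev cc)
    (B : (Fin m → ZMod p) →ₗ[ZMod p] (Fin l → ZMod p) →ₗ[ZMod p] (Fin l → ZMod p))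
    (hB : ∀ k j, lev k = j + 1 → ∀ x, ∀ u ∈ N j, ∀ y : Fin l → ZMod p,
      (∀ k', lev k' = j → y k' = cc k' u) →
        B (Multiplicative.toAdd (π x)) y k = cc k (x * u * x⁻¹ * u⁻¹)) (g : G)
    (Dd : Submodule (ZMod p) (Fin l → ZMod p))
    (hD : ∀ y, y ∈ Dd ↔ ∀ j, ∃ h : G, h * g * h⁻¹ * g⁻¹ ∈ N j ∧
      ∀ k, lev k = j → y k = cc k (h * g * h⁻¹ * g⁻¹))
    (C : Submodule (ZMod p) (Fin m → ZMod p))
    (hC : ∀ v, v ∈ C ↔ ∃ F, F * g = g * F ∧ Multiplicative.toAdd (π F) = v)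
    (ineq : (∏ j ∈ Finset.range c, Nat.card {x : G // x * g * x⁻¹ * g⁻¹ ∈ N j ∧
        (x * g * x⁻¹ * g⁻¹) * g * (x * g * x⁻¹ * g⁻¹)⁻¹ * g⁻¹ ∈ N (j + 2)}) *
        Nat.card {x : G // ∃ y : G, y * g = g * y ∧ y⁻¹ * x ∈ Fr p G} ≤
      (∏ j ∈ Finset.range c, Nat.card {x : G // x * g * x⁻¹ * g⁻¹ ∈ N (j + 1)}) * Nat.card G) :
    Nat.card ↥(Dd ⊓ LinearMap.ker (B (Multiplicative.toAdd (π g)))) * Nat.card ↥C ≤ p ^ m := by
  have : Fact p.Prime := ⟨hp⟩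
  have : NeZero p := ⟨hp.ne_zero⟩
  -- (1)
  have h1 : (∏ j ∈ Finset.range c, Nat.card {v : Fin l → ZMod p // ∃ x : G, (x * g * x⁻¹ * g⁻¹ ∈ N j ∧
        (x * g * x⁻¹ * g⁻¹) * g * (x * g * x⁻¹ * g⁻¹)⁻¹ * g⁻¹ ∈ N (j + 2)) ∧
        ∀ k, v k = if lev k = j then cc k (x * g * x⁻¹ * g⁻¹) else 0}) *
      (∏ j ∈ Finset.range c, Nat.card {x : G // x * g * x⁻¹ * g⁻¹ ∈ N (j + 1)}) ≤
      ∏ j ∈ Finset.range c, Nat.card {x : G // x * g * x⁻¹ * g⁻¹ ∈ N j ∧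
        (x * g * x⁻¹ * g⁻¹) * g * (x * g * x⁻¹ * g⁻¹)⁻¹ * g⁻¹ ∈ N (j + 2)} := by
    rw [← Finset.prod_mul_distrib]
    exact Finset.prod_le_prod' fun j _ => qineq_step N nn anti com lev cc hc g j
  -- (2)
  have h2 : Nat.card ↥(Dd ⊓ LinearMap.ker (B (Multiplicative.toAdd (π g)))) ≤
      ∏ j ∈ Finset.range c, Nat.card {v : Fin l → ZMod p // ∃ x : G, (x * g * x⁻¹ * g⁻¹ ∈ N j ∧
        (x * g * x⁻¹ * g⁻¹) * g * (x * g * x⁻¹ * g⁻¹)⁻¹ * g⁻¹ ∈ N (j + 2)) ∧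
        ∀ k, v k = if lev k = j then cc k (x * g * x⁻¹ * g⁻¹) else 0} := by
    rw [Finset.prod_range, ← Nat.card_pi]
    have hmem : ∀ (y : ↥(Dd ⊓ LinearMap.ker (B (Multiplicative.toAdd (π g))))) (j : ℕ),
        ∃ x : G, (x * g * x⁻¹ * g⁻¹ ∈ N j ∧
        (x * g * x⁻¹ * g⁻¹) * g * (x * g * x⁻¹ * g⁻¹)⁻¹ * g⁻¹ ∈ N (j + 2)) ∧
        ∀ k, (fun k => if lev k = j then y.1 k else 0 : Fin l → ZMod p) k = if lev k = j then cc k (x * g * x⁻¹ * g⁻¹) else 0 := by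
      intro y j
      obtain ⟨hy1, hy2⟩ := Submodule.mem_inf.1 y.2
      obtain ⟨h, hh1, hh2⟩ := (hD y.1).1 hy1 j
      refine ⟨h, ⟨hh1, ?_⟩, ?_⟩
      · have h3 : g * (h * g * h⁻¹ * g⁻¹) * g⁻¹ * (h * g * h⁻¹ * g⁻¹)⁻¹ ∈ N (j + 2) := by
          apply hc.inj (j + 1) _ (com j g _ hh1)
          intro k hk
          rw [← hB k j hk g _ hh1 y.1 hh2]
          rw [LinearMap.mem_ker] at hy2
          rw [hy2]
          rfl
        have e : (h * g * h⁻¹ * g⁻¹) * g * (h * g * h⁻¹ * g⁻¹)⁻¹ * g⁻¹ =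
            (g * (h * g * h⁻¹ * g⁻¹) * g⁻¹ * (h * g * h⁻¹ * g⁻¹)⁻¹)⁻¹ := by group
        rw [e]
        exact (N (j + 2)).inv_mem h3
      · intro k
        show (if lev k = j then y.1 k else 0) = _
        by_cases hk : lev k = j
        · rw [if_pos hk, if_pos hk, hh2 k hk]
        · rw [if_neg hk, if_neg hk]
    refine Nat.card_le_card_of_injective (fun y => fun j : Fin c => ⟨_, hmem y j⟩) ?_
    intro y y' he
    apply Subtype.ext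
    funext k
    have h3 := congrFun (congrArg Subtype.val (congrFun he ⟨lev k, hl k⟩)) k
    have h4 : (if lev k = lev k then y.1 k else 0) = (if lev k = lev k then y'.1 k else 0) := h3
    rwa [if_pos rfl, if_pos rfl] at h4
  -- (3)
  choose s hs using πs
  have h3 : Nat.card ↥C * Nat.card (Fr p G) ≤ Nat.card {x : G // ∃ y : G, y * g = g * y ∧ y⁻¹ * x ∈ Fr p G} := by
    rw [← Nat.card_prod]
    have hmem : ∀ q : ↥C × Fr p G, ∃ y : G, y * g = g * y ∧ y⁻¹ * (s (Multiplicative.ofAdd q.1.1) * q.2.1) ∈ Fr p G := by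
      intro q
      obtain ⟨F, hF1, hF2⟩ := (hC q.1.1).1 q.1.2
      refine ⟨F, hF1, ?_⟩
      rw [← πk, map_mul, map_mul, map_inv, hs, (πk _).2 q.2.2, mul_one]
      have : π F = Multiplicative.ofAdd q.1.1 := by
        rw [← hF2]
        rfl
      rw [this, inv_mul_cancel]
    refine Nat.card_le_card_of_injective (fun q => ⟨s (Multiplicative.ofAdd q.1.1) * q.2.1, hmem q⟩) ?_
    rintro ⟨v, f⟩ ⟨v', f'⟩ he
    have he' : s (Multiplicative.ofAdd v.1) * f.1 = s (Multiplicative.ofAdd v'.1) * f'.1 := congrArg Subtype.val he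
    have h4 := congrArg π he'
    rw [map_mul, map_mul, hs, hs, (πk _).2 f.2, (πk _).2 f'.2, mul_one, mul_one] at h4
    have hv : v = v' := Subtype.ext (Multiplicative.ofAdd.injective h4)
    subst hv
    have hf : f = f' := Subtype.ext (mul_left_cancel he')
    rw [hf]
  have h4 : Nat.card G ≤ p ^ m * Nat.card (Fr p G) := by
    have e : Nat.card (Fin m → ZMod p) = p ^ m := by
      rw [Nat.card_eq_fintype_card, Fintype.card_fun, ZMod.card, Fintype.card_fin]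
    rw [← e, ← Nat.card_prod]
    have hmem : ∀ x : G, (s (π x))⁻¹ * x ∈ Fr p G := by
      intro x
      rw [← πk, map_mul, map_inv, hs, inv_mul_cancel]
    refine Nat.card_le_card_of_injective (fun x => (Multiplicative.toAdd (π x), (⟨(s (π x))⁻¹ * x, hmem x⟩ : Fr p G))) ?_
    intro x x' he
    have e1 : Multiplicative.toAdd (π x) = Multiplicative.toAdd (π x') := congrArg Prod.fst he
    have e2 : (s (π x))⁻¹ * x = (s (π x'))⁻¹ * x' := congrArg (fun q => (Prod.snd q).1) he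
    have e3 : π x = π x' := Multiplicative.toAdd.injective e1
    rw [e3] at e2
    exact mul_left_cancel e2
  have hF : 0 < Nat.card (Fr p G) := Nat.card_pos
  have hPH : 0 < ∏ j ∈ Finset.range c, Nat.card {x : G // x * g * x⁻¹ * g⁻¹ ∈ N (j + 1)} := by
    refine Finset.prod_pos fun j _ => ?_
    have : Nonempty {x : G // x * g * x⁻¹ * g⁻¹ ∈ N (j + 1)} :=
      ⟨⟨1, by simp⟩⟩
    exact Nat.card_pos
  generalize (∏ j ∈ Finset.range c, Nat.card {v : Fin l → ZMod p // ∃ x : G, (x * g * x⁻¹ * g⁻¹ ∈ N j ∧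
        (x * g * x⁻¹ * g⁻¹) * g * (x * g * x⁻¹ * g⁻¹)⁻¹ * g⁻¹ ∈ N (j + 2)) ∧
        ∀ k, v k = if lev k = j then cc k (x * g * x⁻¹ * g⁻¹) else 0}) = PX at *
  generalize (∏ j ∈ Finset.range c, Nat.card {x : G // x * g * x⁻¹ * g⁻¹ ∈ N (j + 1)}) = PH at *
  generalize (∏ j ∈ Finset.range c, Nat.card {x : G // x * g * x⁻¹ * g⁻¹ ∈ N j ∧
        (x * g * x⁻¹ * g⁻¹) * g * (x * g * x⁻¹ * g⁻¹)⁻¹ * g⁻¹ ∈ N (j + 2)}) = PK at *
  generalize Nat.card ↥(Dd ⊓ LinearMap.ker (B (Multiplicative.toAdd (π g)))) = A at *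
  generalize Nat.card ↥C = Cc at *
  generalize Nat.card {x : G // ∃ y : G, y * g = g * y ∧ y⁻¹ * x ∈ Fr p G} = S at *
  generalize Nat.card (Fr p G) = F at *
  generalize Nat.card G = GG at *
  have h5 : (A * Cc) * (F * PH) ≤ p ^ m * (F * PH) := by
    calc (A * Cc) * (F * PH) = (A * PH) * (Cc * F) := by ring
      _ ≤ (PX * PH) * (Cc * F) := Nat.mul_le_mul_right _ (Nat.mul_le_mul_right _ h2)
      _ ≤ PK * S := Nat.mul_le_mul h1 h3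
      _ ≤ PH * GG := ineq
      _ ≤ PH * (p ^ m * F) := Nat.mul_le_mul_left _ h4
      _ = p ^ m * (F * PH) := by ring
  exact Nat.le_of_mul_le_mul_right h5 (Nat.mul_pos hF hPH)

end H77.GN
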