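import Pool.Agent.H77.GN.QCrd
import Pool.Agent.H77.GN.QBil
import Pool.Agent.H77.GN.QDd
import Pool.Agent.H77.GN.QIneq

/-!
# H77-GN-QGD: the group data of a group with `SgH`
-/

set_option autoImplicit false

open scoped Classical

noncomputable section

namespace H77.GN

open H77.AB

theorem qgd {p : ℕ} (hp : p.Prime) {G : Type} [Group G] [Finite G] {Λ : Set G}
    (S : SgH p G Λ) {N₀ : ℕ} (g : Fin N₀ → G) (hg : ∀ i, g i ∈ Λ) (pow : ∀ i, g i ^ p = 1)
    (ne : ∀ i, g i ≠ 1) (uni : ∀ i j, IsConj (g i) (g j) → i = j) :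
    ∃ (m l : ℕ) (Dg : GDa p m l N₀ G), Dg.g = g := by
  obtain ⟨l, lev, cc, hl, hc⟩ := qcrs hp S.c S.N S.nc S.anti S.com S.pw
  obtain ⟨m, π, πs, πk⟩ := qpi hp G
  have fac : ∀ j x, π x = 1 → ∀ u ∈ S.N j, x * u * x⁻¹ * u⁻¹ ∈ S.N (j + 2) :=
    fun j x hx u hu => qfac S.N S.nn S.anti S.com S.pw j x ((πk x).1 hx) u hu
  obtain ⟨B, hB, hBz⟩ := qbil hp S.N S.nn S.anti S.com π πs fac lev cc hc
  choose Dd hD hD' using fun i => qdd hp S.N S.nn S.anti S.com lev cc hc (g i)
  choose C hC hC' using fun i => qcc hp π (g i)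
  refine ⟨m, l, {
    nd := {
      t := fun i => Multiplicative.toAdd (π (g i))
      C := C
      Dd := Dd
      B := B
      tC := fun i => hC' i (g i) (g i) (IsConj.refl _) rfl
      ineq := fun i => qineq hp S.c S.N S.nn S.anti S.com π πs πk lev cc hl hc B hB (g i)
        (Dd i) (hD i) (C i) (hC i) (S.ineq (g i) (hg i)) }
    π := π
    πs := πs
    g := g
    pow := pow
    ne := ne
    uni := uni
    tg := fun i => rfl
    c := S.c
    N := S.N
    nn := S.nn
    nc := S.nc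
    anti := S.anti
    n0 := fun i h => S.n0 (g i) (hg i) h
    com := S.com
    π0 := fun u hu => (πk u).2 (S.n0le hu)
    fac := fac
    lev := lev
    cc := cc
    cadd := hc.add
    cz := hc.z
    cinj := hc.inj
    Bk := hB
    Bz := hBz
    hD := hD'
    hC := hC' }, rfl⟩

end H77.GN
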