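import Pool.Agent.H77.GN.NGup
import Pool.Agent.H77.GN.QGd
import Pool.Agent.H77.AB.LFin

/-!
# H77-GN-NFIN: the general upper bound

`gmain`: `G ≤ S_n` transitive and nilpotent, `p` a prime, all elements `g` of least index satisfy `g ^ p = 1`, and `SgH p G Λ` for the set `Λ` of the elements of least index. Then for all number fields `K ≥ K₀` the number of extensions with `G` is at most `C B^{1/ind} (log B)^{β - 1}`.
-/

set_option autoImplicit false

open scoped NumberField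
open IsDedekindDomain H38.ML

noncomputable section

namespace H77.GN

open H63.MA H38.BB H38.BG H77.AB

/-- representatives of the classes in a set of elements `≠ 1` closed under conjugation -/
theorem ncl (G : Type) [Group G] [Finite G] (Λ : Set G) (h1 : ∀ h ∈ Λ, h ≠ 1)
    (hc : ∀ h ∈ Λ, ∀ k, IsConj h k → k ∈ Λ) :
    ∃ (N₀ : ℕ) (g : Fin N₀ → G), (∀ i, g i ∈ Λ) ∧ (∀ i j, IsConj (g i) (g j) → i = j) ∧
      ∀ h, h ∈ Λ ↔ ∃ i, IsConj h (g i) := by
  classical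
  let S := {c : ConjClasses G // ∃ h : G, h ∈ Λ ∧ ConjClasses.mk h = c}
  have hfin : Finite S := inferInstance
  have hft : Fintype S := Fintype.ofFinite S
  have e := Fintype.equivFin S
  choose r hr using fun c : S => c.2
  refine ⟨Fintype.card S, fun i => r (e.symm i), fun i => (hr _).1, ?_, ?_⟩
  · intro i j hij
    have h1 : ConjClasses.mk (r (e.symm i)) = ConjClasses.mk (r (e.symm j)) :=
      ConjClasses.mk_eq_mk_iff_isConj.2 hij
    have h2 := ((hr (e.symm i)).2).symm.trans (h1.trans (hr (e.symm j)).2)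
    exact e.symm.injective (Subtype.ext h2)
  · intro h
    constructor
    · intro hh
      obtain ⟨c, hc⟩ : ∃ c : S, c.1 = ConjClasses.mk h := ⟨⟨ConjClasses.mk h, h, hh, rfl⟩, rfl⟩
      refine ⟨e c, ?_⟩
      have h4 : e.symm (e c) = c := e.symm_apply_apply c
      have h3 := (hr c).2
      rw [hc] at h3
      show IsConj h (r (e.symm (e c)))
      rw [h4]
      exact (ConjClasses.mk_eq_mk_iff_isConj.1 h3).symm
    · rintro ⟨i, hi⟩
      exact hc _ (hr (e.symm i)).1 h hi.symm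

theorem gmain {n : ℕ} (hn : 2 ≤ n) (G : Subgroup (Equiv.Perm (Fin n)))
    (hG : MulAction.IsPretransitive G (Fin n)) (hnil : Group.IsNilpotent G) {p : ℕ}
    (hp : p.Prime)
    (hI : ∀ h : G, h ≠ 1 → ind (h : Equiv.Perm (Fin n)) = indG G → h ^ p = 1)
    (S : SgH p G {h : G | h ≠ 1 ∧ ind (h : Equiv.Perm (Fin n)) = indG G}) :
    ∃ K₀ : IntermediateField ℚ QBar, NumberField K₀ ∧
      ∀ K : IntermediateField ℚ QBar, K₀ ≤ K → ∀ _ : NumberField K,
        ∃ C B₀ : ℝ, 0 < C ∧ ∀ B : ℝ, B₀ ≤ B → ∃ k : ℕ,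
          Spec.nK K QBar G B = (k : ℕ∞) ∧
          (k : ℝ) ≤ C * B ^ (1 / (indG G : ℝ)) *
            Real.log B ^ (Spec.betaAll K QBar G - 1) := by
  have : NeZero p := ⟨hp.ne_zero⟩
  have : Fact p.Prime := ⟨hp⟩
  obtain ⟨ha, ⟨g₀, hg₀, hg₀'⟩, hmin, hcj, hJ⟩ := pidx_pos hn G hG
  obtain ⟨N₀, g, hgΛ, uni, hI'⟩ := ncl G {h : G | h ≠ 1 ∧ ind (h : Equiv.Perm (Fin n)) = indG G}
    (fun h hh => hh.1) (by
      rintro h ⟨h1, h2⟩ k hk
      refine ⟨?_, ?_⟩
      · intro hk1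
        rw [hk1] at hk
        exact h1 (isConj_one_left.1 hk)
      · obtain ⟨x, rfl⟩ := isConj_iff.1 hk
        exact hcj h x h1 h2)
  have hN₀ : 1 ≤ N₀ := by
    obtain ⟨i, -⟩ := (hI' g₀).1 ⟨hg₀, hg₀'⟩
    have := i.2
    omega
  obtain ⟨m, l, Dg, hDg⟩ := qgd hp S g hgΛ (fun i => hI _ (hgΛ i).1 (hgΛ i).2)
    (fun i => (hgΛ i).1) uni
  have hcardpos : 0 < Nat.card G := Nat.card_pos
  have hpd : p ∣ Nat.card G := by
    have h2 := hI g₀ hg₀ hg₀'
    have h3 : orderOf g₀ = p := orderOf_eq_prime h2 hg₀ (hp := ⟨hp⟩)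
    rw [← h3]
    exact orderOf_dvd_natCard g₀
  obtain ⟨K₀, hK₀, hK⟩ := akn G
  refine ⟨K₀, hK₀, fun K hKK hKf => ?_⟩
  obtain ⟨⟨φ₀, hs, hφ₀⟩, ⟨z, hz⟩, i, hi⟩ := hK K hKK hKf
  have hp2 : H63.MA.MOne p K := by
    by_cases h2 : p = 2
    · exact ⟨i, by rw [h2]; exact hi⟩
    · exact H63.MA.mone_odd hp h2 K
  obtain ⟨r, hr⟩ := hpd
  have hζ : IsPrimitiveRoot (z ^ r) p := hz.pow hcardpos (by rw [hr]; ring)
  obtain ⟨D, hD, hun⟩ := ard (Ω := QBar) hp hp2 hζ φ₀ hφ₀ (Nat.card G) hcardpos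
  obtain ⟨L⟩ := exists_LDs QBar hp hζ D.toRD0
  rw [lbet G K z hz g uni hI']
  refine afu hn G hG K D.toRD0 L N₀ ?_
  exact ngup hζ D L hnil Dg hN₀ z hz hD (indG G) ha
    (fun H => n - orbs (H.map G.subtype))
    (fun H hH => by
      have := hJ H hH
      omega)
    (fun g hg h => by
      rw [hDg]
      refine (hI' g).1 ⟨hg, le_antisymm ?_ (hmin g hg)⟩
      have h1 : (Subgroup.zpowers g).map G.subtype =
          Subgroup.zpowers (g : Equiv.Perm (Fin n)) := by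
        rw [MonoidHom.map_zpowers]
        rfl
      rw [h1] at h
      exact h)

end H77.GN
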