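import Pool.Agent.H77.GN.GOm
import Pool.Agent.H77.AB.Hrc

/-!
# [H77 GN GABS] the absolute bound, 60-110 lines (as AbsB in H77/AB)

`hrc` (H77/AB/Hrc) for `t v = ∑_{a ∈ Lg} om (τ a) v` (`0 ≤ t ≤ #J` by `om_le`; take `A₀ = #J + 1`), index type `ι = J × (Fin m → ZMod p)`: by `om_re` and `om_ch`, `om (τ a) v = (q (τ a))⁻¹ ∑_{δ ∈ Δ (τ a)} Re ep(fE E (μ_δ) (κ δ) v)` for good `v`, `μ_δ w = lam w * dord b δ w`. So `μ (a, δ) = μ_δ`, `κ (a, δ) = κ δ`, and `cf (a, δ) = (q (τ a))⁻¹` if `a ∈ Lg` and `δ ∈ Δ (τ a)`, `0` otherwise (`0 ≤ cf ≤ 1`).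
For `0 ≠ δ ∈ Δ (τ a)` the character is not trivial (`om_ch`, `Inb`), so the sum of the `cf` over the trivial ones is at most `∑_{a ∈ Lg} (q (τ a))⁻¹ = mwt q τ Lg` (only `δ = 0` contributes).
-/

set_option autoImplicit false

open scoped NumberField
open IsDedekindDomain
open scoped Classical

noncomputable section

namespace H77.GN

open H63.MA H38.BB H77.AB

theorem gabs {K : Type} [Field K] [NumberField K] {p : ℕ} {ζ : K} [NeZero p] (hp : p.Prime)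
    (hζ : IsPrimitiveRoot ζ p) (D : RD K p ζ) {m β : ℕ} (J : Type) [Fintype J]
    (τ : J → Fin β) (q : Fin β → ℕ) (Δ : Fin β → Submodule (ZMod p) (Fin m → ZMod p))
    (hq0 : ∀ i, 0 < q i) (hq : ∀ i, Nat.card (Δ i) ≤ q i) (η : ℝ) (hη : 0 < η) :
    ∃ C : ℝ, 0 < C ∧ ∀ (E : Finset (Pl K)) (b : Fin m → Kˣ), BS2 D.toRD0 b E → Inb p Δ b →
      ∀ (Lg : Finset J) (Y : ℝ), 3 ≤ Y →
        ∑ n ∈ (GF D.toRD0 Y).filter (fun n => Disjoint n E),
          ∏ v ∈ n, ∑ a ∈ Lg, om D.toRD0 q Δ b (τ a) v ≤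
          C * nr E ^ η * Y * Real.log Y ^ (mwt q τ Lg - 1) := by
  obtain ⟨C, hC, hall⟩ := hrc hp hζ D (J × (Fin m → ZMod p)) ((Fintype.card J : ℝ) + 1) η
    (by positivity) hη
  refine ⟨C, hC, fun E b hb hi Lg Y hY => ?_⟩
  obtain ⟨κ, hκ, hκ2⟩ := om_ch hp hζ D b E hb
  obtain ⟨μ', hμ'⟩ : ∃ μ' : J × (Fin m → ZMod p) → Pl K → ZMod p, μ' = fun j =>
      fun w => D.lam w * dord b j.2 w := ⟨_, rfl⟩
  obtain ⟨κ', hκ'⟩ : ∃ κ' : J × (Fin m → ZMod p) → Fin D.r → ZMod p, κ' = fun j => κ j.2 :=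
    ⟨_, rfl⟩
  obtain ⟨cf, hcf⟩ : ∃ cf : J × (Fin m → ZMod p) → ℝ, cf = fun j =>
      if j.1 ∈ Lg then (if j.2 ∈ Δ (τ j.1) then ((q (τ j.1) : ℝ))⁻¹ else 0) else 0 := ⟨_, rfl⟩
  have hq1 : ∀ i, (0 : ℝ) ≤ ((q i : ℝ))⁻¹ ∧ ((q i : ℝ))⁻¹ ≤ 1 := by
    intro i
    refine ⟨by positivity, inv_le_one_of_one_le₀ ?_⟩
    exact_mod_cast hq0 i
  have hcf01 : ∀ j, 0 ≤ cf j ∧ cf j ≤ 1 := by
    intro j
    rw [hcf]
    simp only
    split_ifs
    · exact hq1 _
    · exact ⟨le_rfl, zero_le_one⟩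
    · exact ⟨le_rfl, zero_le_one⟩
  have hcard : (0 : ℝ) ≤ Fintype.card J := Nat.cast_nonneg _
  refine hall E hb.1 μ' κ' cf (fun v => ∑ a ∈ Lg, om D.toRD0 q Δ b (τ a) v)
    (mwt q τ Lg) (fun j => ⟨(hcf01 j).1, (hcf01 j).2.trans (by linarith)⟩)
    (fun v => ⟨?_, ?_⟩) (fun v hv _ => ?_) ?_ Y hY
  · exact Finset.sum_nonneg fun a _ => (om_le D.toRD0 q Δ b _ (hq0 _) (hq _) v).1
  · have h1 : ∑ a ∈ Lg, om D.toRD0 q Δ b (τ a) v ≤ ∑ _a ∈ Lg, (1 : ℝ) :=
      Finset.sum_le_sum fun a _ => (om_le D.toRD0 q Δ b _ (hq0 _) (hq _) v).2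
    rw [Finset.sum_const, nsmul_eq_mul, mul_one] at h1
    have h2 : (Lg.card : ℝ) ≤ Fintype.card J := by exact_mod_cast Finset.card_le_univ Lg
    linarith
  · rw [Fintype.sum_prod_type]
    have e1 : ∑ a ∈ Lg, om D.toRD0 q Δ b (τ a) v =
        ∑ a : J, if a ∈ Lg then om D.toRD0 q Δ b (τ a) v else 0 := by
      rw [← Finset.sum_filter]
      congr 1
      ext a
      simp
    rw [e1]
    refine Finset.sum_le_sum fun a _ => ?_
    rw [hcf, hμ', hκ']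
    simp only
    by_cases ha : a ∈ Lg
    · simp only [if_pos ha]
      rw [om_re hp D.toRD0 q Δ b (τ a) v, Finset.mul_sum, Finset.sum_filter]
      refine (Finset.sum_le_sum fun z _ => ?_)
      by_cases hz : z ∈ Δ (τ a)
      · rw [if_pos hz, if_pos hz, hκ z v hv]
      · rw [if_neg hz, if_neg hz, zero_mul]
    · simp only [if_neg ha, zero_mul]
      exact (Finset.sum_const_zero).ge
  · rw [Finset.sum_filter, Fintype.sum_prod_type]
    have e1 : mwt q τ Lg = ∑ a : J, if a ∈ Lg then ((q (τ a) : ℝ))⁻¹ else 0 := by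
      unfold mwt
      rw [← Finset.sum_filter]
      congr 1
      ext a
      simp
    rw [e1]
    refine Finset.sum_le_sum fun a _ => ?_
    have e3 : ∀ z : Fin m → ZMod p,
        (if (∀ w ∈ E, μ' (a, z) w = 0) ∧ κ' (a, z) = 0 then cf (a, z) else 0) ≤
          if z = 0 then (if a ∈ Lg then ((q (τ a) : ℝ))⁻¹ else 0) else 0 := by
      intro z
      by_cases hz : z = 0
      · rw [if_pos hz]
        have e4 : cf (a, z) = if a ∈ Lg then ((q (τ a) : ℝ))⁻¹ else 0 := by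
          rw [hcf]
          simp only
          rw [if_pos (show z ∈ Δ (τ a) by rw [hz]; exact (Δ (τ a)).zero_mem)]
        rw [← e4]
        split_ifs
        · exact le_rfl
        · exact (hcf01 _).1
      · rw [if_neg hz]
        by_cases hzΔ : z ∈ Δ (τ a)
        · rw [if_neg]
          rintro ⟨h1, h2⟩
          rw [hμ'] at h1
          rw [hκ'] at h2
          simp only at h1 h2
          rcases hκ2 z (hi (τ a) z hzΔ hz) with ⟨w, hw, h3⟩ | h3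
          · exact h3 (h1 w hw)
          · exact h3 h2
        · have e4 : cf (a, z) = 0 := by
            rw [hcf]
            simp only [if_neg hzΔ, ite_self]
          rw [e4, ite_self]
    refine (Finset.sum_le_sum fun z _ => e3 z).trans (le_of_eq ?_)
    rw [Finset.sum_ite_eq' Finset.univ (0 : Fin m → ZMod p), if_pos (Finset.mem_univ _)]

end H77.GN
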