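import Pool.Agent.H77.GN.GOm
import Pool.Agent.H77.AB.Sav

/-!
# [H77 GN GSAV] saving if two characters of the same type are different, 120-180 lines (as Sav in H77/AB)

`f v = ∑_{a'' ∈ Lg} om (τ a'') v * Ψ_{a''}(v)`, `Ψ_a(v) = ep(fE E' (μ a) (κ a) v)`. `a ≠ a' ∈ Lg` have the same type `i = τ a = τ a'`, and `Ψ_a conj Ψ_{a'}` times the character of `δ` (`fE E (lam * dord b δ) (κz δ)`) is not trivial for every `δ ∈ Δ i`. Then `∑_n ∏_{v ∈ n} |f v|` is smaller than the absolute bound by `(log Y)^{-1/(2 q_i)}`.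

Proof. (1) `|Ψ_a + Ψ_{a'}| = |1 + Ψ| ≤ 2 - (1/2)(1 - Re Ψ)`, `Ψ = Ψ_a conj Ψ_{a'} = ep(fE E' (μ a - μ a') (κ a - κ a') v)` (`sav_one` in H77/AB/Sav with `w = 1`; `sav_fE_add`), so with `w = om i v ≥ 0`: `|f v| ≤ ∑_{a'' ∈ Lg} om (τ a'') v - (w/2) (1 - Re Ψ)`.
(2) The right side is a nonnegative combination of real parts of characters: `om (τ a'') v = (q (τ a''))⁻¹ ∑_{δ ∈ Δ (τ a'')} Re ep(fE E μ_δ (κz δ) v)` (`om_re`, the hypothesis on `κz`; `μ_δ w = lam w * dord b δ w`; extended by `0` to `E'`: `sav_fE_sub`); `- w/2` makes the coefficient of `(a, δ)` equal to `(2 q_i)⁻¹ ≥ 0`;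
`(w/2) Re Ψ = Re ((w/2) Ψ) = (2 q_i)⁻¹ ∑_{δ ∈ Δ i} Re (ep(fE E μ_δ (κz δ) v) Ψ)` (`om_cx`), characters `(μ a - μ a' + μ_δ, κ a - κ a' + κz δ)`, not trivial by hypothesis. `hrc` (H77/AB/Hrc) with `E'`, `A₀ = #J + 1`, `t v = ‖f v‖ ≤ #J` (`om_le`), `ι = (J × (Fin m → ZMod p)) × Bool`.
The characters of `((a'', δ), false)`, `0 ≠ δ ∈ Δ (τ a'')`, are not trivial (`hκ2`, `Inb`, `E ⊆ E'`), so the sum of the coefficients of the trivial characters is at most `mwt q τ Lg - (q_i)⁻¹ / 2`.
-/

set_option autoImplicit false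

open scoped NumberField
open IsDedekindDomain
open scoped Classical

noncomputable section

namespace H77.GN

open H63.MA H38.BB H77.AB

private def gsA (q : ℕ) {p m : ℕ} (Δ : Submodule (ZMod p) (Fin m → ZMod p))
    (z : Fin m → ZMod p) : ℝ := if z ∈ Δ then ((q : ℝ))⁻¹ else 0

private def gsMu {K : Type} [Field K] [NumberField K] {p m : ℕ} {ζ : K} (D : RD K p ζ)
    (b : Fin m → Kˣ) (E : Finset (Pl K)) (z : Fin m → ZMod p) (w : Pl K) : ZMod p :=
  if w ∈ E then D.lam w * dord b z w else 0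

private theorem gs_exp {K : Type} [Field K] [NumberField K] {p : ℕ} {ζ : K} [NeZero p]
    (hp : p.Prime) (D : RD K p ζ) {m β : ℕ} (q : Fin β → ℕ)
    (Δ : Fin β → Submodule (ZMod p) (Fin m → ZMod p)) (b : Fin m → Kˣ)
    {E E' : Finset (Pl K)} (hE : E ⊆ E') (κz : (Fin m → ZMod p) → Fin D.r → ZMod p)
    (hκ : ∀ δ v, D.Gd v → dt δ (fun k => D.LL v (b k)) =
        fE D.toRD0 E (fun w => D.lam w * dord b δ w) (κz δ) v) (i : Fin β) (v : Pl K)
    (hv : D.Gd v) :
    ((om D.toRD0 q Δ b i v : ℝ) : ℂ) = ∑ z : Fin m → ZMod p, ((gsA (q i) (Δ i) z : ℝ) : ℂ) *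
      ep p (fE D.toRD0 E' (gsMu D b E z) (κz z) v) := by
  rw [om_cx hp D.toRD0 q Δ b i v, Finset.mul_sum, Finset.sum_filter]
  refine Finset.sum_congr rfl fun z _ => ?_
  have h2 : gsMu D b E z = fun w => if w ∈ E then D.lam w * dord b z w else 0 := rfl
  rw [h2, sav_fE_sub D.toRD0 hE, ← hκ z v hv, gsA]
  split_ifs
  · push_cast
    rfl
  · simp

private theorem gs_A0 (q : ℕ) {p m : ℕ} (Δ : Submodule (ZMod p) (Fin m → ZMod p))
    (z : Fin m → ZMod p) : 0 ≤ gsA q Δ z := by
  unfold gsA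
  split_ifs
  · positivity
  · exact le_rfl

private theorem gs_A1 (q : ℕ) (hq : 0 < q) {p m : ℕ}
    (Δ : Submodule (ZMod p) (Fin m → ZMod p)) (z : Fin m → ZMod p) : gsA q Δ z ≤ 1 := by
  unfold gsA
  split_ifs
  · exact inv_le_one_of_one_le₀ (by exact_mod_cast hq)
  · exact zero_le_one

/-- the trivial characters of one weight -/
private theorem gs_triv {K : Type} [Field K] [NumberField K] {p : ℕ} {ζ : K} [NeZero p]
    (D : RD K p ζ) {m : ℕ} (q : ℕ)
    (Δ : Submodule (ZMod p) (Fin m → ZMod p)) (b : Fin m → Kˣ)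
    {E E' : Finset (Pl K)} (hE : E ⊆ E') (κz : (Fin m → ZMod p) → Fin D.r → ZMod p)
    (hκ : ∀ z ∈ Δ, z ≠ 0 → (∃ w ∈ E, D.lam w * dord b z w ≠ 0) ∨ κz z ≠ 0) :
    ∑ z ∈ Finset.univ.filter (fun z : Fin m → ZMod p =>
      (∀ w ∈ E', gsMu D b E z w = 0) ∧ κz z = 0), gsA q Δ z ≤ ((q : ℝ))⁻¹ := by
  rw [Finset.sum_filter]
  have e3 : ∀ z : Fin m → ZMod p,
      (if (∀ w ∈ E', gsMu D b E z w = 0) ∧ κz z = 0 then gsA q Δ z else 0) ≤
        if z = 0 then ((q : ℝ))⁻¹ else 0 := by
    intro z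
    by_cases hz : z = 0
    · rw [if_pos hz]
      have e4 : gsA q Δ z ≤ ((q : ℝ))⁻¹ := by
        unfold gsA
        split_ifs
        · exact le_rfl
        · positivity
      split_ifs
      · exact e4
      · positivity
    · rw [if_neg hz]
      by_cases hzΔ : z ∈ Δ
      · rw [if_neg]
        rintro ⟨h1, h2⟩
        rcases hκ z hzΔ hz with ⟨w, hw, h3⟩ | h3
        · apply h3
          have h4 := h1 w (hE hw)
          rw [gsMu, if_pos hw] at h4
          exact h4
        · exact h3 h2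
      · have e4 : gsA q Δ z = 0 := by
          unfold gsA
          rw [if_neg hzΔ]
        rw [e4, ite_self]
  refine (Finset.sum_le_sum fun z _ => e3 z).trans (le_of_eq ?_)
  rw [Finset.sum_ite_eq' Finset.univ (0 : Fin m → ZMod p), if_pos (Finset.mem_univ _)]

theorem gsav {K : Type} [Field K] [NumberField K] {p : ℕ} {ζ : K} [NeZero p] (hp : p.Prime)
    (hζ : IsPrimitiveRoot ζ p) (D : RD K p ζ) {m β : ℕ} (J : Type) [Fintype J]
    (τ : J → Fin β) (q : Fin β → ℕ) (Δ : Fin β → Submodule (ZMod p) (Fin m → ZMod p))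
    (hq0 : ∀ i, 0 < q i) (hq : ∀ i, Nat.card (Δ i) ≤ q i) (η : ℝ) (hη : 0 < η) :
    ∃ C : ℝ, 0 < C ∧ ∀ (E E' : Finset (Pl K)) (b : Fin m → Kˣ), E ⊆ E' →
      (∀ w ∈ E', w ∉ D.S0) → Inb p Δ b →
      ∀ κz : (Fin m → ZMod p) → Fin D.r → ZMod p,
        (∀ δ v, D.Gd v → dt δ (fun k => D.LL v (b k)) =
          fE D.toRD0 E (fun w => D.lam w * dord b δ w) (κz δ) v) →
        (∀ δ, ¬ IsPow p (bp b δ) → (∃ w ∈ E, D.lam w * dord b δ w ≠ 0) ∨ κz δ ≠ 0) →
      ∀ (Lg : Finset J) (μ : J → Pl K → ZMod p) (κ : J → Fin D.r → ZMod p) (a a' : J),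
        a ∈ Lg → a' ∈ Lg → a ≠ a' → τ a = τ a' →
        (∀ δ ∈ Δ (τ a),
          (∃ w ∈ E', μ a w - μ a' w + (if w ∈ E then D.lam w * dord b δ w else 0) ≠ 0) ∨
            κ a - κ a' + κz δ ≠ 0) → ∀ Y : ℝ, 3 ≤ Y →
          ∑ n ∈ (GF D.toRD0 Y).filter (fun n => Disjoint n E'),
            ∏ v ∈ n, ‖∑ a'' ∈ Lg, ((om D.toRD0 q Δ b (τ a'') v : ℝ) : ℂ) *
              ep p (fE D.toRD0 E' (μ a'') (κ a'') v)‖ ≤
            C * nr E' ^ η * Y *
              Real.log Y ^ (mwt q τ Lg - ((q (τ a) : ℝ))⁻¹ / 2 - 1) := by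
  obtain ⟨C, hC, H⟩ := hrc hp hζ D (J × (Fin m → ZMod p) × Bool) (Fintype.card J + 1) η
    (by positivity) hη
  refine ⟨C, hC, ?_⟩
  intro E E' b hEE hE' hi κz hκ1 hκ2 Lg μ κ a r ha hr har hτ hnt Y hY
  let W : J → Pl K → ℝ := fun a' v => om D.toRD0 q Δ b (τ a') v
  let A : J → (Fin m → ZMod p) → ℝ := fun a' z => gsA (q (τ a')) (Δ (τ a')) z
  let μ₂ : J × (Fin m → ZMod p) × Bool → Pl K → ZMod p := fun j w =>
    gsMu D b E j.2.1 w + if j.2.2 then μ a w - μ r w else 0
  let κ₂ : J × (Fin m → ZMod p) × Bool → Fin D.r → ZMod p := fun j =>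
    κz j.2.1 + if j.2.2 then κ a - κ r else 0
  let cf : J × (Fin m → ZMod p) × Bool → ℝ := fun j =>
    if j.2.2 then (if j.1 = a then A j.1 j.2.1 / 2 else 0)
    else (if j.1 ∈ Lg then A j.1 j.2.1 * (if j.1 = a then 1 / 2 else 1) else 0)
  let t : Pl K → ℝ := fun v => ‖∑ a'' ∈ Lg, ((om D.toRD0 q Δ b (τ a'') v : ℝ) : ℂ) *
              ep p (fE D.toRD0 E' (μ a'') (κ a'') v)‖
  have hA0 : ∀ (a' : J) (z : Fin m → ZMod p), 0 ≤ A a' z := fun a' z => gs_A0 _ _ z
  have hA1 : ∀ (a' : J) (z : Fin m → ZMod p), A a' z ≤ 1 := fun a' z => gs_A1 _ (hq0 _) _ z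
  have hJ : (0 : ℝ) ≤ Fintype.card J := Nat.cast_nonneg _
  have hcf : ∀ j, 0 ≤ cf j ∧ cf j ≤ (Fintype.card J + 1 : ℝ) := by
    rintro ⟨a', z, bb⟩
    have h1 := hA0 a' z
    have h2 := hA1 a' z
    simp only [cf]
    split_ifs <;> constructor <;> linarith
  have hom := fun (a' : J) (v : Pl K) => om_le D.toRD0 q Δ b (τ a') (hq0 _) (hq _) v
  have ht : ∀ v, 0 ≤ t v ∧ t v ≤ (Fintype.card J + 1 : ℝ) := by
    intro v
    refine ⟨norm_nonneg _, ?_⟩
    have h1 : t v ≤ ∑ a' ∈ Lg, 1 := by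
      refine (norm_sum_le _ _).trans (Finset.sum_le_sum fun a' _ => ?_)
      have h2 := hom a' v
      rw [norm_mul, ep_norm, mul_one, Complex.norm_real, Real.norm_eq_abs, abs_of_nonneg h2.1]
      exact h2.2
    have h3 : ∑ a' ∈ Lg, (1 : ℝ) = Lg.card := by simp
    have h4 : (Lg.card : ℝ) ≤ Fintype.card J := by exact_mod_cast Finset.card_le_univ Lg
    linarith
  have hmain : ∀ v, D.Gd v → v ∉ E' →
      t v ≤ ∑ j, cf j * (ep p (fE D.toRD0 E' (μ₂ j) (κ₂ j) v)).re := by
    intro v hv _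
    have hww := fun a' : J => hom a' v
    set Ψ : J → ℂ := fun a' => ep p (fE D.toRD0 E' (μ a') (κ a') v) with hΨ
    set χ : ℂ := ep p (fE D.toRD0 E' (fun w => μ a w - μ r w) (κ a - κ r) v) with hχ
    have hexp := fun a' : J => gs_exp hp D q Δ b hEE κz hκ1 (τ a') v hv
    -- `Ψ a = Ψ r * χ`
    have hΨa : Ψ a = Ψ r * χ := by
      have h1 : fE D.toRD0 E' (μ a) (κ a) v = fE D.toRD0 E' (μ r) (κ r) v +
          fE D.toRD0 E' (fun w => μ a w - μ r w) (κ a - κ r) v := by
        rw [← sav_fE_add]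
        congr 1
        · funext w
          ring
        · abel
      simp only [hΨ, hχ]
      rw [h1, ep_add hp]
    have hWr : W r v = W a v := by
      simp only [W]
      rw [hτ]
    -- the norm
    have h2 : t v ≤ ∑ a' ∈ Lg, W a' v - W a v / 2 * (1 - χ.re) := by
      have hra : r ∈ Lg.erase a := Finset.mem_erase.2 ⟨har.symm, hr⟩
      have e1 : ∑ a' ∈ Lg, ((W a' v : ℝ) : ℂ) * Ψ a' = ((W a v : ℝ) : ℂ) * Ψ a +
          (((W r v : ℝ) : ℂ) * Ψ r + ∑ a' ∈ (Lg.erase a).erase r, ((W a' v : ℝ) : ℂ) * Ψ a') := by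
        rw [Finset.add_sum_erase _ (fun a' => ((W a' v : ℝ) : ℂ) * Ψ a') hra,
          Finset.add_sum_erase _ (fun a' => ((W a' v : ℝ) : ℂ) * Ψ a') ha]
      have e2 : ∑ a' ∈ Lg, W a' v = W a v + (W a v + ∑ a' ∈ (Lg.erase a).erase r, W a' v) := by
        have e20 := Finset.add_sum_erase _ (fun a' => W a' v) hra
        have e21 := Finset.add_sum_erase _ (fun a' => W a' v) ha
        linarith
      have e3 : ‖∑ a' ∈ (Lg.erase a).erase r, ((W a' v : ℝ) : ℂ) * Ψ a'‖ ≤
          ∑ a' ∈ (Lg.erase a).erase r, W a' v := by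
        refine (norm_sum_le _ _).trans (Finset.sum_le_sum fun a' _ => ?_)
        rw [norm_mul, hΨ, ep_norm, mul_one, Complex.norm_real, Real.norm_eq_abs,
          abs_of_nonneg (hww a').1]
      have e4 : ‖((W a v : ℝ) : ℂ) * Ψ a + ((W r v : ℝ) : ℂ) * Ψ r‖ ≤
          W a v + W a v - W a v / 2 * (1 - χ.re) := by
        have h3 : ((W a v : ℝ) : ℂ) * Ψ a + ((W r v : ℝ) : ℂ) * Ψ r =
            ((W a v : ℝ) : ℂ) * (Ψ r * (1 + ((1 : ℝ) : ℂ) * χ)) := by
          rw [hΨa, hWr]
          push_cast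
          ring
        rw [h3, norm_mul, norm_mul]
        have h4 : ‖Ψ r‖ = 1 := ep_norm p _
        rw [h4, one_mul, Complex.norm_real, Real.norm_eq_abs, abs_of_nonneg (hww a).1]
        have h5 := sav_one (w := 1) zero_le_one le_rfl (z := χ) (ep_norm p _)
        have h6 := mul_le_mul_of_nonneg_left h5 (hww a).1
        have h7 : W a v = om D.toRD0 q Δ b (τ a) v := rfl
        rw [← h7] at h6 ⊢
        linarith
      have e5 : t v = ‖∑ a' ∈ Lg, ((W a' v : ℝ) : ℂ) * Ψ a'‖ := rfl
      rw [e5, e1, ← add_assoc, e2]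
      refine (norm_add_le _ _).trans ?_
      linarith
    -- the expansion of the right hand side
    have h5 : ∀ a' : J, W a' v = ∑ z : Fin m → ZMod p, A a' z *
        (ep p (fE D.toRD0 E' (gsMu D b E z) (κz z) v)).re := by
      intro a'
      have h6 := congrArg Complex.re (hexp a')
      rw [Complex.ofReal_re, Complex.re_sum] at h6
      rw [show W a' v = om D.toRD0 q Δ b (τ a') v from rfl, h6]
      exact Finset.sum_congr rfl fun z _ => Complex.re_ofReal_mul _ _
    have h7 : W a v * χ.re = ∑ z : Fin m → ZMod p, A a z *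
        (ep p (fE D.toRD0 E' (fun w => gsMu D b E z w + (μ a w - μ r w))
          (κz z + (κ a - κ r)) v)).re := by
      have h8 : ((W a v : ℝ) : ℂ) * χ = ∑ z : Fin m → ZMod p, ((A a z : ℝ) : ℂ) *
          ep p (fE D.toRD0 E' (fun w => gsMu D b E z w + (μ a w - μ r w))
          (κz z + (κ a - κ r)) v) := by
        rw [show ((W a v : ℝ) : ℂ) = ((om D.toRD0 q Δ b (τ a) v : ℝ) : ℂ) from rfl, hexp a,
          Finset.sum_mul]
        refine Finset.sum_congr rfl fun z _ => ?_
        rw [sav_fE_add, ep_add hp, mul_assoc]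
      have h9 := congrArg Complex.re h8
      rw [Complex.re_ofReal_mul, Complex.re_sum] at h9
      rw [h9]
      exact Finset.sum_congr rfl fun z _ => Complex.re_ofReal_mul _ _
    have h10 : ∑ j, cf j * (ep p (fE D.toRD0 E' (μ₂ j) (κ₂ j) v)).re =
        ∑ a' ∈ Lg, W a' v - W a v / 2 * (1 - χ.re) := by
      have h11 : ∑ j, cf j * (ep p (fE D.toRD0 E' (μ₂ j) (κ₂ j) v)).re =
          ∑ a' : J, ∑ z : Fin m → ZMod p, ((if a' = a then A a' z / 2 *
            (ep p (fE D.toRD0 E' (fun w => gsMu D b E z w + (μ a w - μ r w))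
              (κz z + (κ a - κ r)) v)).re else 0) +
            (if a' ∈ Lg then A a' z * (if a' = a then 1 / 2 else 1) *
            (ep p (fE D.toRD0 E' (gsMu D b E z) (κz z) v)).re
              else 0)) := by
        rw [Fintype.sum_prod_type]
        refine Finset.sum_congr rfl fun a' _ => ?_
        rw [Fintype.sum_prod_type]
        refine Finset.sum_congr rfl fun z _ => ?_
        rw [Fintype.sum_bool]
        have m1 : μ₂ (a', z, true) = fun w => gsMu D b E z w + (μ a w - μ r w) := by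
          funext w
          simp [μ₂]
        have m2 : μ₂ (a', z, false) = gsMu D b E z := by
          funext w
          simp [μ₂]
        have k1 : κ₂ (a', z, true) = κz z + (κ a - κ r) := by simp [κ₂]
        have k2 : κ₂ (a', z, false) = κz z := by simp [κ₂]
        have c1 : cf (a', z, true) = if a' = a then A a' z / 2 else 0 := by
          simp [cf]
        have c2 : cf (a', z, false) = if a' ∈ Lg then A a' z *
            (if a' = a then 1 / 2 else 1) else 0 := by simp [cf]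
        rw [m1, m2, k1, k2, c1, c2, ite_mul, ite_mul, zero_mul, zero_mul]
      rw [h11]
      have h12 : ∀ a' : J, ∑ z : Fin m → ZMod p, ((if a' = a then A a' z / 2 *
            (ep p (fE D.toRD0 E' (fun w => gsMu D b E z w + (μ a w - μ r w))
              (κz z + (κ a - κ r)) v)).re else 0) +
            (if a' ∈ Lg then A a' z * (if a' = a then 1 / 2 else 1) *
            (ep p (fE D.toRD0 E' (gsMu D b E z) (κz z) v)).re
              else 0)) =
          (if a' = a then W a v * χ.re / 2 else 0) +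
            (if a' ∈ Lg then W a' v * (if a' = a then 1 / 2 else 1) else 0) := by
        intro a'
        rw [Finset.sum_add_distrib]
        congr 1
        · by_cases h13 : a' = a
          · subst h13
            simp only [if_true]
            rw [h7, Finset.sum_div]
            exact Finset.sum_congr rfl fun z _ => by ring
          · simp [h13]
        · by_cases h14 : a' ∈ Lg
          · simp only [if_pos h14]
            rw [h5 a', Finset.sum_mul]
            exact Finset.sum_congr rfl fun z _ => by ring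
          · simp [h14]
      rw [Finset.sum_congr rfl fun a' _ => h12 a', Finset.sum_add_distrib,
        Finset.sum_ite_eq' Finset.univ, if_pos (Finset.mem_univ a),
        ← Finset.sum_filter, Finset.filter_mem_eq_inter, Finset.univ_inter]
      have h15 : ∑ a' ∈ Lg, W a' v * (if a' = a then 1 / 2 else 1) =
          ∑ a' ∈ Lg, W a' v - W a v / 2 := by
        have h16 : ∀ a' ∈ Lg, W a' v * (if a' = a then 1 / 2 else 1) =
            W a' v - if a' = a then W a v / 2 else 0 := by
          intro a' _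
          by_cases h17 : a' = a
          · subst h17
            simp only [if_true]
            ring
          · simp [h17]
        rw [Finset.sum_congr rfl h16, Finset.sum_sub_distrib, Finset.sum_ite_eq' Lg, if_pos ha]
      rw [h15]
      ring
    rw [h10]
    exact h2
  have hγ : ∑ j ∈ Finset.univ.filter (fun j => (∀ w ∈ E', μ₂ j w = 0) ∧ κ₂ j = 0), cf j ≤
      mwt q τ Lg - ((q (τ a) : ℝ))⁻¹ / 2 := by
    have h1 : ∑ j ∈ Finset.univ.filter (fun j => (∀ w ∈ E', μ₂ j w = 0) ∧ κ₂ j = 0), cf j ≤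
        ∑ a' : J, (if a' ∈ Lg then ((q (τ a') : ℝ))⁻¹ * (if a' = a then 1 / 2 else 1)
          else 0) := by
      rw [Finset.sum_filter, Fintype.sum_prod_type]
      refine Finset.sum_le_sum fun a' _ => ?_
      rw [Fintype.sum_prod_type]
      have h2 : ∀ z : Fin m → ZMod p, ∑ bb : Bool,
          (if (∀ w ∈ E', μ₂ (a', z, bb) w = 0) ∧ κ₂ (a', z, bb) = 0 then cf (a', z, bb) else 0) =
          (if (∀ w ∈ E', gsMu D b E z w = 0) ∧ κz z = 0 then
            A a' z else 0) *
            (if a' ∈ Lg then (if a' = a then 1 / 2 else 1) else 0) := by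
        intro z
        rw [Fintype.sum_bool]
        have m2 : μ₂ (a', z, false) = gsMu D b E z := by
          funext w
          simp [μ₂]
        have k2 : κ₂ (a', z, false) = κz z := by simp [κ₂]
        have c2 : cf (a', z, false) = if a' ∈ Lg then A a' z *
            (if a' = a then 1 / 2 else 1) else 0 := by simp [cf]
        have t1 : (if (∀ w ∈ E', μ₂ (a', z, true) w = 0) ∧ κ₂ (a', z, true) = 0 then
            cf (a', z, true) else 0) = 0 := by
          by_cases h3 : a' = a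
          · subst h3
            by_cases hzΔ : z ∈ Δ (τ a')
            · rw [if_neg]
              rintro ⟨h4, h5⟩
              rcases hnt z hzΔ with ⟨w, hw, h6⟩ | h6
              · apply h6
                have h7 := h4 w hw
                have h8 : μ₂ (a', z, true) w = gsMu D b E z w + (μ a' w - μ r w) := by
                  simp [μ₂]
                rw [h8, add_comm] at h7
                exact h7
              · apply h6
                have h8 : κ₂ (a', z, true) = κz z + (κ a' - κ r) := by simp [κ₂]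
                rw [h8, add_comm] at h5
                exact h5
            · have c1 : cf (a', z, true) = 0 := by
                have c3 : A a' z = 0 := by
                  simp only [A, gsA]
                  rw [if_neg hzΔ]
                simp [cf, c3]
              rw [c1, ite_self]
          · have c1 : cf (a', z, true) = 0 := by simp [cf, h3]
            rw [c1, ite_self]
        rw [t1, zero_add, m2, k2, c2]
        split_ifs <;> ring
      rw [Finset.sum_congr rfl fun z _ => h2 z, ← Finset.sum_mul, ← Finset.sum_filter]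
      have h3 := gs_triv D (q (τ a')) (Δ (τ a')) b hEE κz
        (fun z hz hz0 => hκ2 z (hi (τ a') z hz hz0))
      by_cases h4 : a' ∈ Lg
      · rw [if_pos h4, if_pos h4]
        refine mul_le_mul_of_nonneg_right h3 ?_
        split_ifs <;> norm_num
      · rw [if_neg h4, if_neg h4, mul_zero]
    refine h1.trans (le_of_eq ?_)
    rw [← Finset.sum_filter, Finset.filter_mem_eq_inter, Finset.univ_inter]
    have h16 : ∀ a' ∈ Lg, ((q (τ a') : ℝ))⁻¹ * (if a' = a then 1 / 2 else 1) =
        ((q (τ a') : ℝ))⁻¹ - if a' = a then ((q (τ a) : ℝ))⁻¹ / 2 else 0 := by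
      intro a' _
      by_cases h17 : a' = a
      · subst h17
        simp only [if_true]
        ring
      · simp [h17]
    rw [Finset.sum_congr rfl h16, Finset.sum_sub_distrib, Finset.sum_ite_eq' Lg, if_pos ha, mwt]
  exact H E' hE' μ₂ κ₂ cf t _ hcf ht hmain hγ Y hY

end H77.GN
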