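import Pool.Agent.H77.GN.GCvl
import Pool.Agent.H77.GN.GSav
import Pool.Agent.H77.AB.Num

/-!
# [H77 GN GBLKX] the complete sum with weights and a ramified character, 150-220 lines

`Σ = ∑_{n ∈ GF Y, n ∩ E' = ∅} ∏_{v ∈ n} ∑_{a ∈ Lg} om (τ a) v * Ψ_a(v)`, `Ψ_a(v) = ep(fE E' (μ a) (κ a) v)`, all types of `Lg` in `S`, exactly `q i` indices of every type `i ∈ S` (so `mwt q τ Lg = #S`: `Finset.sum_fiberwise`), `nr E' ≤ (log Y)^A`, and `μ a w₀ ≠ 0` for some `a ∈ Lg`, `w₀ ∈ E' \ E`. Then `|Σ| ≤ C Y (log Y)^{#S - 1 - δ}`. (`#S ≥ 1` as `τ a ∈ S`.)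

Proof. Let `Q ≥ 1`, `Q ≥ q i` for all `i`, `κz` as in `om_ch`, `μ_δ w = if w ∈ E then lam w * dord b δ w else 0`.
Case (i): there are `a'' ≠ a' ∈ Lg` of the same type with the hypothesis of `gsav` (for all `δ ∈ Δ (τ a'')` the character `(μ a'' - μ a' + μ_δ, κ a'' - κ a' + κz δ)` is not trivial on `E'`). `gsav` with `η = 1/(4 Q (A + 1))`: `|Σ| ≤ C (nr E')^η Y (log Y)^{#S - 1/(2Q) - 1}` and `(nr E')^η ≤ (log Y)^{1/(4Q)}`; so the saving is `(log Y)^{-1/(4Q)}` (`1/(2 q_i) ≥ 1/(2Q)`, `log Y ≥ 1`).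
Case (ii): otherwise. Let `i₀ = τ a`, `a_{i₀} = a`, and choose `a_i ∈ Lg` of type `i` for the other `i ∈ S` (`q i ≥ 1`). For `a'' ∈ Lg` of type `i`: `om i v * Ψ_{a''}(v) = om i v * Ψ_{a_i}(v)` for good `v`: if `a'' ≠ a_i` there is `δ ∈ Δ i` with `μ a'' w - μ a_i w + μ_δ w = 0` on `E'` and `κ a'' - κ a_i + κz δ = 0`, so `Ψ_{a''}(v) * ep(dt δ (LL v b)) = Ψ_{a_i}(v)` (`sav_fE_add`, `sav_fE_sub` in H77/AB/Sav; `fE` depends only on the values of `μ` on `E'`), and `dt δ (LL v b) = 0` where `om i v ≠ 0` (`om_zero`).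
So for good `v`: `∑_{a'' ∈ Lg} om Ψ_{a''} = ∑_{i ∈ S} q_i om i v Ψ_{a_i}(v) = ∑_{i ∈ S} ∑_{δ ∈ Δ i} ep(fE E' (μ a_i + μ_δ) (κ a_i + κz δ) v)` (`om_cx`; the hypothesis on `κz`). The `n ∈ GF D Y` consist of good primes. Apply `gcvl` with `J = Fin β × (Fin m → ZMod p)`, `L = {(i, δ) : i ∈ S, δ ∈ Δ i}`, `E'`, `A`, `c₀ = #S - 1`: `|Σ| ≤ C Y (log Y)^{#S - 1 - 1/2}`.
The number of the trivial characters is at most `#S - 1`: for `i = i₀` none: `(μ a + μ_δ) w₀ = μ a w₀ ≠ 0` as `w₀ ∉ E`. For `i ≠ i₀` at most one `δ`: if `δ, δ' ∈ Δ i` both give the trivial character then `κz δ = κz δ'` and `μ_δ = μ_δ'` on `E`, so `bp b (δ - δ')` is a `p`-th power (`om_dif`), and `δ = δ'` by `Inb` (`δ - δ' ∈ Δ i`). (So the map `(i, δ) ↦ i` is injective from the set of trivial characters to `S \ {i₀}`.)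
`δ = 1/(4Q) ≤ 1/2`.
-/

set_option autoImplicit false

open scoped NumberField
open IsDedekindDomain
open scoped Classical

noncomputable section

namespace H77.GN

open H63.MA H38.BB H77.AB

private theorem gblkx_mwt {J : Type} {β : ℕ} (τ : J → Fin β) (q : Fin β → ℕ)
    (hq0 : ∀ i, 0 < q i) (S : Finset (Fin β)) (Lg : Finset J) (h1 : ∀ a ∈ Lg, τ a ∈ S)
    (h2 : ∀ i ∈ S, (Lg.filter fun a => τ a = i).card = q i) :
    mwt q τ Lg = S.card := by
  unfold mwt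
  rw [← Finset.sum_fiberwise_of_maps_to h1]
  have h3 : ∀ i ∈ S, ∑ a ∈ Lg.filter (fun a => τ a = i), ((q (τ a) : ℝ))⁻¹ = 1 := by
    intro i hi
    have h4 : ∑ a ∈ Lg.filter (fun a => τ a = i), ((q (τ a) : ℝ))⁻¹ =
        ∑ _a ∈ Lg.filter (fun a => τ a = i), ((q i : ℝ))⁻¹ := by
      refine Finset.sum_congr rfl fun a ha => ?_
      rw [(Finset.mem_filter.1 ha).2]
    rw [h4, Finset.sum_const, h2 i hi, nsmul_eq_mul]
    exact mul_inv_cancel₀ (by exact_mod_cast (hq0 i).ne')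
  rw [Finset.sum_congr rfl h3, Finset.sum_const, nsmul_eq_mul, mul_one]

private theorem gblkx_fE {K : Type} [Field K] [NumberField K] {p : ℕ} {ζ : K} (D : RD0 K p ζ)
    (E : Finset (Pl K)) (μ μ' : Pl K → ZMod p) (κ : Fin D.r → ZMod p) (v : Pl K)
    (h : ∀ w ∈ E, μ w = μ' w) : fE D E μ κ v = fE D E μ' κ v := by
  unfold fE
  congr 1
  exact Finset.sum_congr rfl fun w hw => by rw [h w hw]

theorem gblkx {K : Type} [Field K] [NumberField K] {p : ℕ} {ζ : K} [NeZero p] (hp : p.Prime)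
    (hζ : IsPrimitiveRoot ζ p) (D : RD K p ζ) {m β : ℕ} (J : Type) [Fintype J]
    (τ : J → Fin β) (q : Fin β → ℕ) (Δ : Fin β → Submodule (ZMod p) (Fin m → ZMod p))
    (hq0 : ∀ i, 0 < q i) (hq : ∀ i, Nat.card (Δ i) ≤ q i) (A : ℕ) :
    ∃ C δ Y₀ : ℝ, 0 < C ∧ 0 < δ ∧ δ ≤ 1 / 2 ∧ 9 ≤ Y₀ ∧ ∀ (E E' : Finset (Pl K))
      (b : Fin m → Kˣ), BS2 D.toRD0 b E → Inb p Δ b → E ⊆ E' → (∀ w ∈ E', w ∉ D.S0) →
      ∀ (S : Finset (Fin β)) (Lg : Finset J) (μ : J → Pl K → ZMod p)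
        (κ : J → Fin D.r → ZMod p) (Y : ℝ), Y₀ ≤ Y → nr E' ≤ Real.log Y ^ A →
        (∀ a ∈ Lg, τ a ∈ S) → (∀ i ∈ S, (Lg.filter fun a => τ a = i).card = q i) →
        (∃ a ∈ Lg, ∃ w ∈ E', w ∉ E ∧ μ a w ≠ 0) →
          ‖∑ n ∈ (GF D.toRD0 Y).filter (fun n => Disjoint n E'),
            ∏ v ∈ n, ∑ a ∈ Lg, ((om D.toRD0 q Δ b (τ a) v : ℝ) : ℂ) *
              ep p (fE D.toRD0 E' (μ a) (κ a) v)‖ ≤
            C * Y * Real.log Y ^ ((S.card : ℝ) - 1 - δ) := by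
  obtain ⟨Q, hQ⟩ : ∃ Q : ℝ, Q = ((∑ i, q i + 1 : ℕ) : ℝ) := ⟨_, rfl⟩
  have hQ1 : 1 ≤ Q := by
    rw [hQ]
    push_cast
    have : (0 : ℝ) ≤ ∑ i, (q i : ℝ) := Finset.sum_nonneg fun _ _ => Nat.cast_nonneg _
    linarith
  have hQ0 : 0 < Q := by linarith
  have hqQ : ∀ i, Q⁻¹ ≤ ((q i : ℝ))⁻¹ := by
    intro i
    have h1 : q i ≤ ∑ i, q i + 1 :=
      (Finset.single_le_sum (f := q) (fun _ _ => Nat.zero_le _) (Finset.mem_univ i)).trans
        (Nat.le_succ _)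
    rw [hQ]
    exact inv_anti₀ (by exact_mod_cast hq0 i) (by exact_mod_cast h1)
  obtain ⟨η, hη⟩ : ∃ η : ℝ, η = Q⁻¹ / 4 / ((A : ℝ) + 1) := ⟨_, rfl⟩
  have hA0 : (0 : ℝ) < (A : ℝ) + 1 := by positivity
  have hη0 : 0 < η := by rw [hη]; positivity
  have hAη : (A : ℝ) * η ≤ Q⁻¹ / 4 := by
    rw [hη, mul_div_assoc', div_le_iff₀ hA0]
    have : 0 < Q⁻¹ / 4 := by positivity
    nlinarith
  obtain ⟨C₁, hC₁, hsav⟩ := gsav hp hζ D J τ q Δ hq0 hq η hη0
  obtain ⟨C₂, Y₂, hC₂, hY₂, hcvl⟩ := gcvl hp hζ D (Fin β × (Fin m → ZMod p)) A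
  have hQi : Q⁻¹ ≤ 1 := inv_le_one_of_one_le₀ hQ1
  have hQi0 : 0 < Q⁻¹ := inv_pos.2 hQ0
  refine ⟨C₁ + C₂, Q⁻¹ / 4, Y₂, by positivity, by positivity, by linarith, hY₂, ?_⟩
  rintro E E' b hb hInb hEE hE' S Lg μ κ Y hY hnr hτ hcardS ⟨a, haL, w₀, hw₀, hw₀E, hμ⟩
  have hY9 : 9 ≤ Y := hY₂.trans hY
  have hY0 : 0 < Y := by linarith
  have hlog : 1 ≤ Real.log Y := by
    rw [Real.le_log_iff_exp_le hY0]
    linarith [Real.exp_one_lt_d9]
  have hlog0 : 0 < Real.log Y := by linarith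
  have hSpos : 1 ≤ S.card := Finset.card_pos.2 ⟨τ a, hτ a haL⟩
  have hmS : mwt q τ Lg = S.card := gblkx_mwt τ q hq0 S Lg hτ hcardS
  obtain ⟨κz, hκ1, hκ2⟩ := om_ch hp hζ D b E hb
  have hR : 0 < Real.log Y ^ ((S.card : ℝ) - 1 - Q⁻¹ / 4) := Real.rpow_pos_of_pos hlog0 _
  by_cases hc : ∃ a'' ∈ Lg, ∃ a' ∈ Lg, a'' ≠ a' ∧ τ a'' = τ a' ∧ ∀ δ ∈ Δ (τ a''),
      (∃ w ∈ E', μ a'' w - μ a' w + (if w ∈ E then D.lam w * dord b δ w else 0) ≠ 0) ∨
        κ a'' - κ a' + κz δ ≠ 0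
  · obtain ⟨a'', ha'', a', ha', hne, hττ, hδ⟩ := hc
    have h1 := hsav E E' b hEE hE' hInb κz hκ1 hκ2 Lg μ κ a'' a' ha'' ha' hne hττ hδ Y
      (by linarith)
    have h2 : ‖∑ n ∈ (GF D.toRD0 Y).filter (fun n => Disjoint n E'),
            ∏ v ∈ n, ∑ a ∈ Lg, ((om D.toRD0 q Δ b (τ a) v : ℝ) : ℂ) *
              ep p (fE D.toRD0 E' (μ a) (κ a) v)‖ ≤
        ∑ n ∈ (GF D.toRD0 Y).filter (fun n => Disjoint n E'),
            ∏ v ∈ n, ‖∑ a'' ∈ Lg, ((om D.toRD0 q Δ b (τ a'') v : ℝ) : ℂ) *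
              ep p (fE D.toRD0 E' (μ a'') (κ a'') v)‖ := by
      refine (norm_sum_le _ _).trans (le_of_eq ?_)
      exact Finset.sum_congr rfl fun n _ => norm_prod _ _
    refine h2.trans (h1.trans ?_)
    have h3 : nr E' ^ η ≤ Real.log Y ^ (Q⁻¹ / 4) := by
      calc nr E' ^ η ≤ (Real.log Y ^ A) ^ η :=
            Real.rpow_le_rpow (by linarith [one_le_nr E']) hnr hη0.le
        _ = Real.log Y ^ ((A : ℝ) * η) := by
            rw [← Real.rpow_natCast, ← Real.rpow_mul hlog0.le]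
        _ ≤ Real.log Y ^ (Q⁻¹ / 4) := Real.rpow_le_rpow_of_exponent_le hlog hAη
    have h4 : Real.log Y ^ (mwt q τ Lg - ((q (τ a'') : ℝ))⁻¹ / 2 - 1) ≤
        Real.log Y ^ ((S.card : ℝ) - 1 - Q⁻¹ / 2) := by
      apply Real.rpow_le_rpow_of_exponent_le hlog
      rw [hmS]
      linarith [hqQ (τ a'')]
    calc C₁ * nr E' ^ η * Y * Real.log Y ^ (mwt q τ Lg - ((q (τ a'') : ℝ))⁻¹ / 2 - 1)
        ≤ C₁ * Real.log Y ^ (Q⁻¹ / 4) * Y * Real.log Y ^ ((S.card : ℝ) - 1 - Q⁻¹ / 2) := by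
          apply mul_le_mul _ h4 (Real.rpow_nonneg hlog0.le _)
          · have := Real.rpow_nonneg hlog0.le (Q⁻¹ / 4)
            positivity
          · apply mul_le_mul_of_nonneg_right _ hY0.le
            exact mul_le_mul_of_nonneg_left h3 hC₁.le
      _ = C₁ * Y * (Real.log Y ^ (Q⁻¹ / 4) * Real.log Y ^ ((S.card : ℝ) - 1 - Q⁻¹ / 2)) := by
          ring
      _ = C₁ * Y * Real.log Y ^ ((S.card : ℝ) - 1 - Q⁻¹ / 4) := by
          rw [← Real.rpow_add hlog0]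
          congr 2
          ring
      _ ≤ (C₁ + C₂) * Y * Real.log Y ^ ((S.card : ℝ) - 1 - Q⁻¹ / 4) := by
          apply mul_le_mul_of_nonneg_right _ hR.le
          apply mul_le_mul_of_nonneg_right _ hY0.le
          linarith
  · push Not at hc
    obtain ⟨α, hα0, hα⟩ : ∃ α : Fin β → J, α (τ a) = a ∧ ∀ i ∈ S, α i ∈ Lg ∧ τ (α i) = i := by
      have h1 : ∀ i, ∃ x, (i = τ a → x = a) ∧ (i ∈ S → x ∈ Lg ∧ τ x = i) := by
        intro i
        by_cases h2 : i = τ a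
        · exact ⟨a, fun _ => rfl, fun _ => ⟨haL, h2.symm⟩⟩
        · by_cases h3 : i ∈ S
          · have h4 : 0 < (Lg.filter fun a => τ a = i).card := by
              rw [hcardS i h3]
              exact hq0 i
            obtain ⟨x, hx⟩ := Finset.card_pos.1 h4
            have h5 := Finset.mem_filter.1 hx
            exact ⟨x, fun h => absurd h h2, fun _ => h5⟩
          · exact ⟨a, fun _ => rfl, fun h => absurd h h3⟩
      choose α hα using h1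
      exact ⟨α, (hα (τ a)).1 rfl, fun i hi => (hα i).2 hi⟩
    obtain ⟨μδ, hμδ⟩ : ∃ μδ : (Fin m → ZMod p) → Pl K → ZMod p, ∀ δ w, μδ δ w =
        if w ∈ E then D.lam w * dord b δ w else 0 := ⟨_, fun _ _ => rfl⟩
    have hfδ : ∀ δ v, D.Gd v → fE D.toRD0 E' (μδ δ) (κz δ) v =
        dt δ (fun k => D.LL v (b k)) := by
      intro δ v hv
      rw [hκ1 δ v hv, ← sav_fE_sub D.toRD0 hEE]
      exact gblkx_fE D.toRD0 E' _ _ _ v fun w _ => hμδ δ w
    obtain ⟨μ', hμ'⟩ : ∃ μ' : Fin β × (Fin m → ZMod p) → Pl K → ZMod p, ∀ j w, μ' j w =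
        μ (α j.1) w + μδ j.2 w := ⟨_, fun _ _ => rfl⟩
    obtain ⟨κ', hκ'⟩ : ∃ κ' : Fin β × (Fin m → ZMod p) → Fin D.r → ZMod p, ∀ j, κ' j =
        κ (α j.1) + κz j.2 := ⟨_, fun _ => rfl⟩
    obtain ⟨L, hL⟩ : ∃ L : Finset (Fin β × (Fin m → ZMod p)), L =
        (S ×ˢ (Finset.univ : Finset (Fin m → ZMod p))).filter fun j => j.2 ∈ Δ j.1 := ⟨_, rfl⟩
    -- the weights with the characters
    have hw : ∀ v, D.Gd v → ∀ a'' ∈ Lg, ∀ i, τ a'' = i →
        ((om D.toRD0 q Δ b i v : ℝ) : ℂ) * ep p (fE D.toRD0 E' (μ a'') (κ a'') v) =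
        ((om D.toRD0 q Δ b i v : ℝ) : ℂ) * ep p (fE D.toRD0 E' (μ (α i)) (κ (α i)) v) := by
      intro v hv a'' ha'' i hi
      have hiS : i ∈ S := by rw [← hi]; exact hτ a'' ha''
      by_cases h1 : a'' = α i
      · rw [h1]
      · by_cases h2 : om D.toRD0 q Δ b i v = 0
        · rw [h2, Complex.ofReal_zero, zero_mul, zero_mul]
        · obtain ⟨δ, hδ, h3, h4⟩ := hc a'' ha'' (α i) (hα i hiS).1 h1
            (by rw [hi, (hα i hiS).2])
          rw [hi] at hδ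
          have h5 := om_zero D.toRD0 q Δ b i v h2 δ hδ
          have h6 : fE D.toRD0 E' (μ (α i)) (κ (α i)) v =
              fE D.toRD0 E' (μ a'') (κ a'') v + fE D.toRD0 E' (μδ δ) (κz δ) v := by
            rw [← sav_fE_add]
            have h7 : κ (α i) = κ a'' + κz δ := by
              have h8 : κ a'' + κz δ = κ a'' - κ (α i) + κz δ + κ (α i) := by abel
              rw [h8, h4, zero_add]
            rw [h7]
            apply gblkx_fE
            intro w hw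
            have h8 := h3 w hw
            rw [← hμδ] at h8
            have h9 : μ a'' w + μδ δ w = μ a'' w - μ (α i) w + μδ δ w + μ (α i) w := by ring
            rw [h9, h8, zero_add]
          rw [h6, hfδ δ v hv, h5, add_zero]
    have hsum : ∀ v, D.Gd v → ∑ a'' ∈ Lg, ((om D.toRD0 q Δ b (τ a'') v : ℝ) : ℂ) *
        ep p (fE D.toRD0 E' (μ a'') (κ a'') v) =
        ∑ j ∈ L, ep p (fE D.toRD0 E' (μ' j) (κ' j) v) := by
      intro v hv
      rw [← Finset.sum_fiberwise_of_maps_to hτ, hL, Finset.sum_filter, Finset.sum_product]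
      refine Finset.sum_congr rfl fun i hi => ?_
      have h1 : ∑ a'' ∈ Lg.filter (fun a'' => τ a'' = i),
          ((om D.toRD0 q Δ b (τ a'') v : ℝ) : ℂ) *
            ep p (fE D.toRD0 E' (μ a'') (κ a'') v) =
          ∑ _a'' ∈ Lg.filter (fun a'' => τ a'' = i),
            ((om D.toRD0 q Δ b i v : ℝ) : ℂ) *
              ep p (fE D.toRD0 E' (μ (α i)) (κ (α i)) v) := by
        refine Finset.sum_congr rfl fun a'' ha'' => ?_
        obtain ⟨h2, h3⟩ := Finset.mem_filter.1 ha''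
        rw [← hw v hv a'' h2 i h3, h3]
      rw [h1, Finset.sum_const, hcardS i hi, nsmul_eq_mul, om_cx hp]
      have hqi : (q i : ℂ) ≠ 0 := by exact_mod_cast (hq0 i).ne'
      rw [← mul_assoc, ← mul_assoc, mul_inv_cancel₀ hqi, one_mul, Finset.sum_mul,
        Finset.sum_filter]
      refine Finset.sum_congr rfl fun δ _ => ?_
      by_cases h2 : δ ∈ Δ i
      · rw [if_pos h2, if_pos h2, ← hfδ δ v hv, ← ep_add hp, add_comm, ← sav_fE_add, hκ']
        have h3 : (fun w => μ (α i) w + μδ δ w) = μ' (i, δ) := by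
          funext w
          rw [hμ']
        rw [h3]
      · rw [if_neg h2, if_neg h2]
    have hSig : ∑ n ∈ (GF D.toRD0 Y).filter (fun n => Disjoint n E'),
            ∏ v ∈ n, ∑ a ∈ Lg, ((om D.toRD0 q Δ b (τ a) v : ℝ) : ℂ) *
              ep p (fE D.toRD0 E' (μ a) (κ a) v) =
        ∑ n ∈ (GF D.toRD0 Y).filter (fun n => Disjoint n E'),
            ∏ v ∈ n, ∑ j ∈ L, ep p (fE D.toRD0 E' (μ' j) (κ' j) v) := by
      refine Finset.sum_congr rfl fun n hn => ?_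
      refine Finset.prod_congr rfl fun v hv => ?_
      have h1 := (Finset.mem_filter.1 hn).1
      rw [akb_mem_GF] at h1
      exact hsum v (h1.2 v hv)
    rw [hSig]
    have hcount : (L.filter fun j => (∀ w ∈ E', μ' j w = 0) ∧ κ' j = 0).card ≤ S.card - 1 := by
      have h1 : (S.erase (τ a)).card = S.card - 1 := Finset.card_erase_of_mem (hτ a haL)
      rw [← h1]
      refine Finset.card_le_card_of_injOn (fun j => j.1) ?_ ?_
      · intro j hj
        rw [Finset.mem_coe, Finset.mem_filter, hL, Finset.mem_filter, Finset.mem_product] at hj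
        obtain ⟨⟨⟨h2, -⟩, h3⟩, h4, h5⟩ := hj
        rw [Finset.mem_coe, Finset.mem_erase]
        refine ⟨fun h6 => ?_, h2⟩
        change j.1 = τ a at h6
        apply hμ
        have h7 := h4 w₀ hw₀
        rw [hμ', hμδ, if_neg hw₀E, add_zero, h6, hα0] at h7
        exact h7
      · rintro ⟨i, δ⟩ hj ⟨i', δ'⟩ hj' hii
        rw [Finset.mem_coe, Finset.mem_filter, hL, Finset.mem_filter, Finset.mem_product] at hj hj'
        obtain ⟨⟨⟨h2, -⟩, h3⟩, h4, h5⟩ := hj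
        obtain ⟨⟨⟨h2', -⟩, h3'⟩, h4', h5'⟩ := hj'
        simp only at hii h3 h3'
        subst hii
        by_cases hδδ : δ = δ'
        · rw [hδδ]
        · exfalso
          refine hInb i (δ - δ') ((Δ i).sub_mem h3 h3') (sub_ne_zero.2 hδδ) ?_
          refine om_dif hp hζ D b E κz hκ1 δ δ' ?_ ?_
          · intro w hw
            have e1 := h4 w (hEE hw)
            have e2 := h4' w (hEE hw)
            rw [hμ', hμδ, if_pos hw] at e1 e2
            exact add_left_cancel (e1.trans e2.symm)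
          · rw [hκ'] at h5 h5'
            exact add_left_cancel (h5.trans h5'.symm)
    have h1 := hcvl E' hE' μ' κ' L (S.card - 1) hcount Y hY hnr
    refine h1.trans ?_
    have h2 : Real.log Y ^ (((S.card - 1 : ℕ) : ℝ) - 1 / 2) ≤
        Real.log Y ^ ((S.card : ℝ) - 1 - Q⁻¹ / 4) := by
      apply Real.rpow_le_rpow_of_exponent_le hlog
      rw [Nat.cast_sub hSpos]
      push_cast
      linarith
    calc C₂ * Y * Real.log Y ^ (((S.card - 1 : ℕ) : ℝ) - 1 / 2)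
        ≤ C₂ * Y * Real.log Y ^ ((S.card : ℝ) - 1 - Q⁻¹ / 4) :=
          mul_le_mul_of_nonneg_left h2 (by positivity)
      _ ≤ _ := by
          apply mul_le_mul_of_nonneg_right _ hR.le
          apply mul_le_mul_of_nonneg_right _ hY0.le
          linarith

end H77.GN
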