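import Pool.Agent.H77.GN.GBlk0
import Pool.Agent.H77.AB.Exc
import Pool.Agent.H77.AB.Thr
import Pool.Agent.H77.AB.Num

/-!
# [H77 GN GBLKS] a block with a linked small variable, 120-180 lines (as BlkS in H77/AB)

As `gblk0`, with the size conditions `nr (g a) > T = (log Y)^B` for the large variables.

Proof (copy `blks` in H77/AB/BlkS.lean; `blks_sn`, `blks_sn_le` can be used). `exc` (H77/AB/Exc). Term `U = ∅`: only `t = ∅`, the family is `s`: `gblk0` with `η`: `≤ C₀ (nr E)^η (Y/sn) (log Y)^{#S - 1 - δ₀}`.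
Terms `U ≠ ∅`: for `t` with `t a ∈ GF T` (`a ∈ U`) the family `s' = (if a ∈ U then t a else s a)` has `sn (Lg \ U) s' = sn Lg s * ∏_{a ∈ U} nr (t a) ≤ T^{#J} ≤ Y^{1/8} ≤ Y^{1/2}` (`num`), and `gblka` gives `≤ C₁ (nr E)^η (Y / sn (Lg \ U) s') (log Y)^{mwt (Lg \ U) - 1}`;
`mwt q τ Lg = #S` (`Finset.sum_fiberwise`: `q i` indices with weight `1 / q i` for every `i ∈ S`), `mwt (Lg \ U) ≤ #S - 1/Q`, `Q ≥ q i` for all `i` (`U` contains an element of weight `≥ 1/Q`). The sum over `t` of `∏_{a ∈ U} (nr (t a))^{-1}` is at most `C₂ (1 + log T)^{#J}` (`thr_sum`) `≤ C₂ (log Y)^{1/(2Q)}` (`num` with `ε = 1/(2Q)`). There are at most `2^{#J}` sets `U`. `δ = min δ₀ (1/(2Q))`.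
-/

set_option autoImplicit false

open scoped NumberField
open IsDedekindDomain
open scoped Classical

noncomputable section

namespace H77.GN

open H63.MA H38.BB H77.AB

theorem gblks_mwt {J : Type} {β : ℕ} (τ : J → Fin β) (q : Fin β → ℕ) (hq0 : ∀ i, 0 < q i)
    (S : Finset (Fin β)) (Lg : Finset J) (h1 : ∀ a ∈ Lg, τ a ∈ S)
    (h2 : ∀ i ∈ S, (Lg.filter fun a => τ a = i).card = q i) :
    mwt q τ Lg = S.card := by
  unfold mwt
  rw [← Finset.sum_fiberwise_of_maps_to h1]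
  have h3 : ∀ i ∈ S, ∑ a ∈ Lg.filter (fun a => τ a = i), ((q (τ a) : ℝ))⁻¹ = 1 := by
    intro i hi
    have h4 : ∑ a ∈ Lg.filter (fun a => τ a = i), ((q (τ a) : ℝ))⁻¹ =
        ∑ _a ∈ Lg.filter (fun a => τ a = i), ((q i : ℝ))⁻¹ := by
      refine Finset.sum_congr rfl fun a ha => ?_
      rw [(Finset.mem_filter.1 ha).2]
    rw [h4, Finset.sum_const, h2 i hi, nsmul_eq_mul]
    exact mul_inv_cancel₀ (by exact_mod_cast (hq0 i).ne')
  rw [Finset.sum_congr rfl h3, Finset.sum_const, nsmul_eq_mul, mul_one]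

theorem gblks_Q {β : ℕ} (q : Fin β → ℕ) (hq0 : ∀ i, 0 < q i) (i : Fin β) :
    (((∑ i, q i + 1 : ℕ) : ℝ))⁻¹ ≤ ((q i : ℝ))⁻¹ := by
  have h1 : q i ≤ ∑ i, q i + 1 :=
    (Finset.single_le_sum (f := q) (fun _ _ => Nat.zero_le _) (Finset.mem_univ i)).trans
      (Nat.le_succ _)
  exact inv_anti₀ (by exact_mod_cast hq0 i) (by exact_mod_cast h1)

theorem gblks_sdiff {J : Type} {β : ℕ} (τ : J → Fin β) (q : Fin β → ℕ) (hq0 : ∀ i, 0 < q i)
    (Lg U : Finset J) (hU : U ⊆ Lg) (hne : U.Nonempty) :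
    mwt q τ (Lg \ U) ≤ mwt q τ Lg - (((∑ i, q i + 1 : ℕ) : ℝ))⁻¹ := by
  unfold mwt
  have h1 := Finset.sum_sdiff (f := fun a => ((q (τ a) : ℝ))⁻¹) hU
  obtain ⟨a, ha⟩ := hne
  have h2 : ((q (τ a) : ℝ))⁻¹ ≤ ∑ a ∈ U, ((q (τ a) : ℝ))⁻¹ :=
    Finset.single_le_sum (f := fun a => ((q (τ a) : ℝ))⁻¹) (fun _ _ => by positivity) ha
  have h3 := gblks_Q q hq0 (τ a)
  linarith

theorem gblks {K : Type} [Field K] [NumberField K] {p : ℕ} {ζ : K} [NeZero p] (hp : p.Prime)
    (hζ : IsPrimitiveRoot ζ p) (D : RD K p ζ) {m β : ℕ} {J : Type} [Fintype J] (P : PD p m J)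
    (τ : J → Fin β) (q : Fin β → ℕ) (Δ : Fin β → Submodule (ZMod p) (Fin m → ZMod p))
    (hq0 : ∀ i, 0 < q i) (hq : ∀ i, Nat.card (Δ i) ≤ q i) (B : ℕ) (η : ℝ) (hη : 0 < η) :
    ∃ C δ Y₀ : ℝ, 0 < C ∧ 0 < δ ∧ 9 ≤ Y₀ ∧ ∀ (b : Fin m → Kˣ) (E : Finset (Pl K)),
      BS2 D.toRD0 b E → Inb p Δ b →
      ∀ (S : Finset (Fin β)) (Lg : Finset J) (s : J → Finset (Pl K)) (Y : ℝ), Y₀ ≤ Y →
        (∀ l, l ∉ Lg → (∀ v ∈ s l, D.Gd v) ∧ nr (s l) ≤ Real.log Y ^ B) →
        (∀ a ∈ Lg, ∀ a' ∈ Lg, P.lk a a' = 0) → (∀ a ∈ Lg, τ a ∈ S) →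
        (∀ i ∈ S, (Lg.filter fun a => τ a = i).card = q i) →
        (∃ a ∈ Lg, ∃ l, l ∉ Lg ∧ s l ≠ ∅ ∧ P.lk a l ≠ 0) →
          ‖TW D.toRD0 P b E (WO D.toRD0 q Δ b τ) Y (Real.log Y ^ B) Lg s‖ ≤
            C * nr E ^ η * (Y / sn Lg s) * Real.log Y ^ ((S.card : ℝ) - 1 - δ) := by
  obtain ⟨C₀, δ₀, Yz, hC₀, hδ₀, hYz, h0⟩ := gblk0 hp hζ D P τ q Δ hq0 hq B η hη
  obtain ⟨C₁, hC₁, h1⟩ := gblka hp hζ D P τ q Δ hq0 hq η hη
  obtain ⟨C₂, hC₂, h2⟩ := thr_sum K J
  obtain ⟨κ, hκ⟩ : ∃ κ : ℝ, κ = (((∑ i, q i + 1 : ℕ) : ℝ))⁻¹ := ⟨_, rfl⟩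
  have hκ0 : 0 < κ := by rw [hκ]; positivity
  obtain ⟨Yn, hYn, hnum⟩ := num B (Fintype.card J) (κ / 2) (by positivity)
  refine ⟨2 ^ Fintype.card J * (C₀ + C₁ * C₂), min δ₀ (κ / 2), max Yz Yn, by positivity,
    lt_min hδ₀ (by positivity), hYz.trans (le_max_left _ _), ?_⟩
  intro b E hb hInb S Lg s Y hYY hs hlk hτ hcardS ha
  obtain ⟨hlog, hn1, hn2⟩ := hnum Y ((le_max_right _ _).trans hYY)
  have hYz' : Yz ≤ Y := (le_max_left _ _).trans hYY
  obtain ⟨T, hTd⟩ : ∃ T : ℝ, T = Real.log Y ^ B := ⟨_, rfl⟩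
  rw [← hTd] at hn1 hn2 hs ⊢
  obtain ⟨a, haL, l, hlL, hsl, hal⟩ := ha
  have hY : 9 ≤ Y := hYz.trans hYz'
  have hY0 : (0 : ℝ) < Y := by linarith
  have hY1 : (1 : ℝ) ≤ Y := by linarith
  have hT : 1 ≤ T := by rw [hTd]; exact one_le_pow₀ hlog
  have hT0 : (0 : ℝ) < T := by linarith
  have hcard : Fintype.card J ≠ 0 := by
    have : Nonempty J := ⟨a⟩
    exact Fintype.card_ne_zero
  have hTle : T ≤ Y := by
    calc T ≤ T ^ Fintype.card J := le_self_pow₀ hT hcard
      _ ≤ Y ^ (1 / 8 : ℝ) := hn2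
      _ ≤ Y ^ (1 : ℝ) := Real.rpow_le_rpow_of_exponent_le hY1 (by norm_num)
      _ = Y := Real.rpow_one Y
  have hY42 : Y ^ (1 / 8 : ℝ) ≤ Y ^ (1 / 2 : ℝ) :=
    Real.rpow_le_rpow_of_exponent_le hY1 (by norm_num)
  have hE0 : 0 < nr E := akb_nr_pos E
  have hsn0 : 0 < sn Lg s := aks_sn_pos Lg s
  have hmS : mwt q τ Lg = S.card := gblks_mwt τ q hq0 S Lg hτ hcardS
  obtain ⟨γ, hγ⟩ : ∃ γ : ℝ, γ = S.card := ⟨_, rfl⟩
  obtain ⟨δ, hδ⟩ : ∃ δ : ℝ, δ = min δ₀ (κ / 2) := ⟨_, rfl⟩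
  have hδ1 : δ ≤ δ₀ := by rw [hδ]; exact min_le_left _ _
  have hδ2 : δ ≤ κ / 2 := by rw [hδ]; exact min_le_right _ _
  obtain ⟨Q, hQ⟩ : ∃ Q, Q = Real.log Y ^ (γ - 1 - δ) := ⟨_, rfl⟩
  have hQ0 : 0 < Q := by
    rw [hQ]
    exact Real.rpow_pos_of_pos (by linarith) _
  obtain ⟨R, hR⟩ : ∃ R, R = nr E ^ η * (Y / sn Lg s) * Q := ⟨_, rfl⟩
  have hR0 : 0 ≤ R := by
    rw [hR]
    positivity
  have goal1 : ‖TW D.toRD0 P b E (WO D.toRD0 q Δ b τ) Y T Lg s‖ ≤
      2 ^ Fintype.card J * (C₀ + C₁ * C₂) * R := by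
    rw [exc D.toRD0 P b E (WO D.toRD0 q Δ b τ) Y T hTle Lg s]
    have key : ∀ U ∈ Lg.powerset, ‖(-1 : ℂ) ^ U.card *
        ∑ t ∈ Fintype.piFinset (fun a => if a ∈ U then GF D.toRD0 T else {∅}),
          TW D.toRD0 P b E (WO D.toRD0 q Δ b τ) Y 0 (Lg \ U)
            (fun a => if a ∈ U then t a else s a)‖ ≤ (C₀ + C₁ * C₂) * R := by
      intro U hU
      have hUL : U ⊆ Lg := Finset.mem_powerset.mp hU
      have hn : ‖(-1 : ℂ) ^ U.card‖ = 1 := by
        rw [norm_pow, norm_neg, norm_one, one_pow]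
      rw [norm_mul, hn, one_mul]
      by_cases hU0 : U = ∅
      · subst hU0
        have e1 : Fintype.piFinset (fun a : J => if a ∈ (∅ : Finset J) then GF D.toRD0 T
            else {∅}) = {fun _ => (∅ : Finset (Pl K))} := by
          ext t
          simp only [Fintype.mem_piFinset, Finset.notMem_empty, if_false,
            Finset.mem_singleton]
          constructor
          · intro h
            funext a
            exact h a
          · intro h a
            rw [h]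
        rw [e1, Finset.sum_singleton]
        have e2 : (fun a => if a ∈ (∅ : Finset J) then (∅ : Finset (Pl K)) else s a) = s := by
          funext a
          simp
        have e3 : Lg \ (∅ : Finset J) = Lg := Finset.sdiff_empty
        rw [e3, e2]
        have h3 := h0 b E hb hInb S Lg s Y hYz' (by rw [← hTd]; exact hs) hlk hτ hcardS
          ⟨a, haL, l, hlL, hsl, hal⟩
        refine h3.trans ?_
        have h5 : Real.log Y ^ ((S.card : ℝ) - 1 - δ₀) ≤ Q := by
          rw [hQ, hγ]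
          apply Real.rpow_le_rpow_of_exponent_le hlog
          linarith
        calc C₀ * nr E ^ η * (Y / sn Lg s) * Real.log Y ^ ((S.card : ℝ) - 1 - δ₀)
            ≤ C₀ * nr E ^ η * (Y / sn Lg s) * Q :=
              mul_le_mul_of_nonneg_left h5 (by positivity)
          _ = C₀ * R := by rw [hR]; ring
          _ ≤ _ := by
            apply mul_le_mul_of_nonneg_right _ hR0
            have : 0 ≤ C₁ * C₂ := by positivity
            linarith
      · have hne := Finset.nonempty_iff_ne_empty.mpr hU0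
        have hexp : mwt q τ (Lg \ U) ≤ γ - κ := by
          rw [hκ, hγ, ← hmS]
          exact gblks_sdiff τ q hq0 Lg U hUL hne
        have h5 : Real.log Y ^ (mwt q τ (Lg \ U) - 1) ≤ Real.log Y ^ (γ - κ - 1) := by
          apply Real.rpow_le_rpow_of_exponent_le hlog
          linarith
        have hset : Fintype.piFinset (fun a => if a ∈ U then GF D.toRD0 T else {∅}) =
            Fintype.piFinset (fun a => if a ∈ Finset.univ \ U then {∅} else GF D.toRD0 T) := by
          congr 1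
          funext a
          by_cases h : a ∈ U
          · rw [if_pos h, if_neg (by simp [h])]
          · rw [if_neg h, if_pos (by simp [h])]
        have hterm : ∀ t ∈ Fintype.piFinset (fun a => if a ∈ U then GF D.toRD0 T else {∅}),
            ‖TW D.toRD0 P b E (WO D.toRD0 q Δ b τ) Y 0 (Lg \ U)
              (fun a => if a ∈ U then t a else s a)‖ ≤
            C₁ * nr E ^ η * (Y / sn Lg s) * Real.log Y ^ (γ - κ - 1) *
              (sn (Finset.univ \ U) t)⁻¹ := by
          intro t ht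
          rw [Fintype.mem_piFinset] at ht
          have hsn' : ∀ a', a' ∉ Lg \ U → nr (if a' ∈ U then t a' else s a') ≤ T := by
            intro a' ha'
            by_cases h : a' ∈ U
            · rw [if_pos h]
              have := ht a'
              rw [if_pos h] at this
              exact (rx_mem_GF.mp this).1
            · rw [if_neg h]
              apply (hs a' _).2
              intro h'
              exact ha' (Finset.mem_sdiff.mpr ⟨h', h⟩)
          have h3 := h1 b E hb hInb (Lg \ U) (fun a => if a ∈ U then t a else s a) Y 0 hY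
            (((blks_sn_le (Lg \ U) _ T hT hsn').trans hn2).trans hY42)
          refine h3.trans ?_
          rw [blks_sn Lg U hUL s t]
          have hst : 0 < sn (Finset.univ \ U) t := aks_sn_pos _ _
          have e1 : C₁ * nr E ^ η * (Y / sn Lg s) * Real.log Y ^ (γ - κ - 1) *
              (sn (Finset.univ \ U) t)⁻¹ =
              C₁ * nr E ^ η * (Y / (sn Lg s * sn (Finset.univ \ U) t)) *
                Real.log Y ^ (γ - κ - 1) := by
            field_simp
          rw [e1]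
          exact mul_le_mul_of_nonneg_left h5 (by positivity)
        have hsum := h2 p ζ D.toRD0 T (Finset.univ \ U) hT
        have hlp : 0 < Real.log Y ^ (γ - κ - 1) := Real.rpow_pos_of_pos (by linarith) _
        calc ‖∑ t ∈ Fintype.piFinset (fun a => if a ∈ U then GF D.toRD0 T else {∅}),
              TW D.toRD0 P b E (WO D.toRD0 q Δ b τ) Y 0 (Lg \ U)
                (fun a => if a ∈ U then t a else s a)‖
            ≤ ∑ t ∈ Fintype.piFinset (fun a => if a ∈ U then GF D.toRD0 T else {∅}),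
              ‖TW D.toRD0 P b E (WO D.toRD0 q Δ b τ) Y 0 (Lg \ U)
                (fun a => if a ∈ U then t a else s a)‖ := norm_sum_le _ _
          _ ≤ ∑ t ∈ Fintype.piFinset (fun a => if a ∈ U then GF D.toRD0 T else {∅}),
              C₁ * nr E ^ η * (Y / sn Lg s) * Real.log Y ^ (γ - κ - 1) *
                (sn (Finset.univ \ U) t)⁻¹ :=
              Finset.sum_le_sum hterm
          _ = C₁ * nr E ^ η * (Y / sn Lg s) * Real.log Y ^ (γ - κ - 1) *
              ∑ t ∈ Fintype.piFinset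
                (fun a => if a ∈ Finset.univ \ U then {∅} else GF D.toRD0 T),
                (sn (Finset.univ \ U) t)⁻¹ := by
              rw [← Finset.mul_sum, hset]
          _ ≤ C₁ * nr E ^ η * (Y / sn Lg s) * Real.log Y ^ (γ - κ - 1) *
              (C₂ * Real.log Y ^ (κ / 2)) := by
              refine mul_le_mul_of_nonneg_left (hsum.trans ?_) (by positivity)
              exact mul_le_mul_of_nonneg_left hn1 (by linarith)
          _ = C₁ * C₂ * (nr E ^ η * (Y / sn Lg s) * Real.log Y ^ (γ - κ - 1 + κ / 2)) := by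
              rw [Real.rpow_add (by linarith : 0 < Real.log Y)]
              ring
          _ ≤ C₁ * C₂ * R := by
              apply mul_le_mul_of_nonneg_left _ (by positivity)
              rw [hR, hQ]
              apply mul_le_mul_of_nonneg_left _ (by positivity)
              apply Real.rpow_le_rpow_of_exponent_le hlog
              linarith
          _ ≤ (C₀ + C₁ * C₂) * R := by
              apply mul_le_mul_of_nonneg_right _ hR0
              linarith
    refine (norm_sum_le_of_le _ key).trans ?_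
    rw [Finset.sum_const, Finset.card_powerset, nsmul_eq_mul]
    have h9 : ((2 ^ Lg.card : ℕ) : ℝ) ≤ 2 ^ Fintype.card J := by
      push_cast
      exact pow_le_pow_right₀ (by norm_num) (Finset.card_le_univ _)
    calc ((2 ^ Lg.card : ℕ) : ℝ) * ((C₀ + C₁ * C₂) * R)
        ≤ 2 ^ Fintype.card J * ((C₀ + C₁ * C₂) * R) :=
          mul_le_mul_of_nonneg_right h9 (by positivity)
      _ = _ := by ring
  refine goal1.trans (le_of_eq ?_)
  rw [hR, hQ, hγ, hδ]
  ring

end H77.GN
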