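import Pool.Agent.H77.GN.GDef
import Pool.Agent.H77.AB.BlkA
import Pool.Agent.H77.AB.Sav
import Pool.Agent.H77.AB.Num
import Pool.Agent.H63.MB.BKB
import Pool.Agent.H63.MA.AThr

/-!
# [H77 GN GCVL] complete sums with an integral combination of characters (proved)

`∑_{n ∈ GF Y, n ∩ E = ∅} ∏_{v ∈ n} ∑_{j ∈ L} ep(fE E (μ j) (κ j) v)` has order at most `Y (log Y)^{c₀ - 1 + 1/2}` if at most `c₀` of the characters `j ∈ L` are trivial (`μ j = 0` on `E`, `κ j = 0`) and `nr E ≤ (log Y)^A`.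

Proof. (1) Expansion: `blka_part` (H77/AB/BlkA; complex version: `part` in H77/AB/Part with `κ = Unit`, or copy the proof of `blka_part`) for `ι = J`, `h j v = if j ∈ L then ep(fE E (μ j) (κ j) v) else 0`: the sum is `∑_{g : J → GF Y} [Dj g, all g j disjoint from E, ∏ nr ≤ Y] ∏_j ∏_{v ∈ g j} h j v`; only the `g` with `g j = ∅` for `j ∉ L` contribute, and then the term is `Ψ g = ep(∑_{j ∈ L} ∑_{v ∈ g j} fE E (μ j) (κ j) v)`.
(2) Thresholds: `athr` (H63/MA/AThr) with `X = Y`, `z 0 = (log Y)^A`, `z (j+1) = (z j)^{B₁}`, i.e. `z j = (log Y)^{A B₁^j}` (take `A ≥ 1`, `B₁ ≥ 2`; `z j ≤ Y` for `j ≤ #J + 1` if `Y` is large), `B₁` from `akb_num`. So the sum is `∑_{j ≤ #J} ∑_{Lg} ∑_{s ∈ SmF D z j Lg} ∑_{g} [T-conditions] Ψ g`, where `g l = s l` for `l ∉ Lg`, `nr (s l) ≤ z j`, `nr (g a) > z (j+1)` for `a ∈ Lg` (and `Lg ⊆ L`, `s l = ∅` for `l ∉ L`, otherwise the term is `0`: keep the indicator of `∀ j ∉ L, g j = ∅` and observe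 that it depends only on `(Lg, s)`).
(3) If some `a ∈ Lg` has a nontrivial character: `bkb_outer` (H63/MB/BKB) with `t = 1`, `blk = fun _ => 0`, `Y i = Y`, `X = Y`, `z₁ = z j` (`nr E ≤ z 0 ≤ z j`), `z₂ = z (j+1)`, `hlem` from `lemA` (H63/MA/ALem; `AkbLem` in H63/MA/AKB is its statement), `hks` from `ks` (H63/MA/AKSum, `t = 1`), `Ψ` as above. `BkbPhase`: for `g` and `n`: `Ψ (update g a n) = ep c * ep(∑_{v ∈ n} fE E (μ a) (κ a) v)`, `c = ∑_{l ∈ L, l ≠ a} ∑_{v ∈ g l} fE E (μ l) (κ l) v`, `H = 1`,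
and `fE E (μ a) (κ a) = fE (akbE E Lg s) μ' (κ a)` with `μ' w = if w ∈ E then μ a w else 0` (`sav_fE_sub` in H77/AB/Sav, `E ⊆ akbE E Lg s`); `μ' ≠ 0` at some `w ∈ E ⊆ akbE`, or `κ a ≠ 0` (with `H = 1`). The condition `Cond2 E blk Y Lg z₂ g` of `bkb_outer` is the conjunction of the conditions here (`one block: bn blk i g = ∏ nr`).
The result is `≤ (Y / sn Lg s) (log Y)^{-A''}` by `akb_num` (with `A'' = 1 + #J`, as in the proof of `kpb2`), and the sum over `s` of `1/sn` is `≤ C (1 + log z_j)^{#J}` (`smf_sum` in H63/MA/AThr, `af_inv K` in H63/MA/ADivJ; as in `thr_sum`, H77/AB/Thr).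
(4) If all characters of `a ∈ Lg` are trivial then `#Lg ≤ c₀`. If `Lg ≠ ∅`: the number of terms is `≤ C (Y / sn Lg s) (1 + log Y)^{#Lg - 1}` (`tn_le_one` in H63/MA/AKSum), sum over `s`: `≤ C' Y (1 + log Y)^{c₀ - 1} (1 + log z_j)^{#J}`, and `(1 + log z_j)^{#J} ≤ (log Y)^{1/4}` for large `Y` (`num` in H77/AB/Num). If `Lg = ∅`: one term for every `s`, and `1 ≤ z_j^{#J} / sn Lg s`, so the sum is at most `z_j^{#J} C (1 + log z_j)^{#J} ≤ Y^{1/8} (log Y) ≤ Y (log Y)^{-1}` for large `Y`. (`c₀` ranges over `0, …, #J`, so one constant `C` can be taken for all of them; if `c₀ > #J` use `#J`.)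
-/

set_option autoImplicit false

open scoped NumberField
open IsDedekindDomain
open scoped Classical

noncomputable section

namespace H77.GN

open H63.MA H38.BB H77.AB

/-- the product formula, complex version -/
private theorem gcvl_part {K : Type} [Field K] [NumberField K] {p : ℕ} {ζ : K} (D : RD0 K p ζ)
    {J : Type} [Fintype J] (E : Finset (Pl K)) (Y : ℝ) (h : J → Pl K → ℂ) :
    ∑ n ∈ (GF D Y).filter (fun n => Disjoint n E), ∏ v ∈ n, ∑ a, h a v =
    ∑ g ∈ Fintype.piFinset (fun _ : J => GF D Y),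
      (if Dj g ∧ (∀ a, Disjoint (g a) E) ∧ ∏ a, nr (g a) ≤ Y then
        ∏ a, ∏ v ∈ g a, h a v else 0) := by
  have h1 := part (ι := J) (κ := Unit) D (fun _ => ()) E Y (fun _ => 1)
    (fun _ a v => h a v)
  simp only [one_mul] at h1
  rw [← h1, Finset.sum_filter]
  have e0 : ∀ F : Unit → ℝ, ∏ i, F i = F () := fun F => by simp
  have e0' : ∀ F : Unit → ℂ, ∏ i, F i = F () := fun F => by simp
  symm
  refine Finset.sum_nbij' (fun f => f ()) (fun n _ => n) ?_ ?_ ?_ ?_ ?_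
  · intro f hf
    exact Fintype.mem_piFinset.1 hf ()
  · intro n hn
    exact Fintype.mem_piFinset.2 fun _ => hn
  · intro f _
    funext i
    rfl
  · intro n _
    rfl
  · intro f hf
    have e1 : (f ()) ∈ GF D Y := Fintype.mem_piFinset.1 hf ()
    have e2 : (Dj f ∧ (∀ i, Disjoint (f i) E) ∧ ∏ i, nr (f i) ≤ Y) ↔ Disjoint (f ()) E := by
      constructor
      · intro h
        exact h.2.1 ()
      · intro h
        refine ⟨fun a a' haa => absurd (Subsingleton.elim a a') haa, fun _ => h, ?_⟩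
        rw [e0]
        exact (rx_mem_GF.1 e1).1
    by_cases h : Disjoint (f ()) E
    · rw [if_pos (e2.2 h), if_pos h, e0']
      refine Finset.prod_congr rfl fun v _ => ?_
      refine Finset.sum_congr ?_ fun a _ => rfl
      ext a
      simp
    · rw [if_neg (fun h' => h (e2.1 h')), if_neg h]

/-- the factor -/
private def gcvlH {K : Type} [Field K] [NumberField K] {p : ℕ} {ζ : K} (D : RD0 K p ζ)
    {J : Type} (E : Finset (Pl K)) (μ : J → Pl K → ZMod p) (κ : J → Fin D.r → ZMod p)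
    (L : Finset J) (a : J) (v : Pl K) : ℂ :=
  if a ∈ L then ep p (fE D E (μ a) (κ a) v) else 0

private theorem gcvl_norm {K : Type} [Field K] [NumberField K] {p : ℕ} {ζ : K} (D : RD0 K p ζ)
    {J : Type} (E : Finset (Pl K)) (μ : J → Pl K → ZMod p) (κ : J → Fin D.r → ZMod p)
    (L : Finset J) (a : J) (v : Pl K) : ‖gcvlH D E μ κ L a v‖ ≤ 1 := by
  unfold gcvlH
  split_ifs
  · rw [ep_norm]
  · simp

private theorem gcvl_phase {K : Type} [Field K] [NumberField K] {p : ℕ} {ζ : K} (hp : p.Prime)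
    (D : RD0 K p ζ) {J : Type} [Fintype J] (E : Finset (Pl K)) (μ : J → Pl K → ZMod p)
    (κ : J → Fin D.r → ZMod p) (L : Finset J) (g : J → Finset (Pl K))
    (hg : ∀ l, l ∉ L → g l = ∅) :
    ∏ a, ∏ v ∈ g a, gcvlH D E μ κ L a v =
      ep p (∑ l ∈ L, ∑ v ∈ g l, fE D E (μ l) (κ l) v) := by
  rw [aexp_ep_sum hp, ← Finset.prod_subset (Finset.subset_univ L)]
  · refine Finset.prod_congr rfl fun a ha => ?_
    rw [aexp_ep_sum hp]
    refine Finset.prod_congr rfl fun v _ => ?_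
    unfold gcvlH
    rw [if_pos ha]
  · intro a _ ha
    rw [hg a ha, Finset.prod_empty]

/-- the inner sums -/
private theorem gcvl_T {K : Type} [Field K] [NumberField K] {p : ℕ} {ζ : K} [NeZero p]
    (hp : p.Prime) (hζ : IsPrimitiveRoot ζ p) (D : RD K p ζ) (J : Type) [Fintype J] :
    ∃ (C : ℝ) (B₁ : ℕ) (X₀ : ℝ), 1 ≤ C ∧ 3 ≤ X₀ ∧ ∀ Y z₁ z₂ : ℝ, X₀ ≤ Y → 1 ≤ z₁ →
      z₁ ^ B₁ ≤ z₂ → Real.log Y ^ B₁ ≤ z₂ → z₁ ^ Fintype.card J * Real.log Y ≤ Y →
      1 ≤ Real.log Y → ∀ (E : Finset (Pl K)), (∀ w ∈ E, w ∉ D.S0) → nr E ≤ z₁ →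
      ∀ (μ : J → Pl K → ZMod p) (κ : J → Fin D.r → ZMod p) (L : Finset J) (c₀ : ℕ),
        (L.filter fun j => (∀ w ∈ E, μ j w = 0) ∧ κ j = 0).card ≤ c₀ →
      ∀ (Lg : Finset J) (s : J → Finset (Pl K)),
        (∀ l, l ∉ Lg → (∀ v ∈ s l, D.Gd v) ∧ nr (s l) ≤ z₁) →
        ‖∑ g ∈ Fintype.piFinset (fun a => if a ∈ Lg then GF D.toRD0 Y else {s a}),
          if ∀ a ∈ Lg, z₂ < nr (g a) then
            (if Dj g ∧ (∀ a, Disjoint (g a) E) ∧ ∏ a, nr (g a) ≤ Y then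
              ∏ a, ∏ v ∈ g a, gcvlH D.toRD0 E μ κ L a v else 0) else 0‖ ≤
          C * (Y / sn Lg s) * Real.log Y ^ ((c₀ : ℝ) - 1) := by
  obtain ⟨C₁, A₁, δ, hC₁, hA₁, hδ, hδ1, hlem⟩ := lemA hp hζ D
  obtain ⟨C₂, A₂, hC₂, hA₂, hks⟩ := ks K (fun _ : J => (0 : Fin 1))
  obtain ⟨B₁, X₀, hX₀, hnum⟩ := akb_num (2 * C₁ * C₂) (((Fintype.card J : ℝ) + 1) * (A₁ + 1))
    A₂ δ 1 (by positivity) (by positivity) hA₂ hδ
  obtain ⟨C₃, hC₃, htn⟩ := tn_le_one K (J := J)
  refine ⟨C₃ * 2 ^ Fintype.card J + 1, B₁, X₀, by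
    have : 0 < C₃ * 2 ^ Fintype.card J := by positivity
    linarith, hX₀, ?_⟩
  intro Y z₁ z₂ hY hz₁ h1 h2 h3 hlog E hE hEz μ κ L c₀ hc₀ Lg s hs
  have hz₂ : 1 ≤ z₂ := (one_le_pow₀ hz₁).trans h1
  have hY0 : 0 < Y := by linarith
  have hsn : 0 < sn Lg s := aks_sn_pos Lg s
  have hYs : 0 < Y / sn Lg s := div_pos hY0 hsn
  have hC0 : 0 < C₃ * 2 ^ Fintype.card J := by positivity
  have hlc : 0 < Real.log Y ^ ((c₀ : ℝ) - 1) := Real.rpow_pos_of_pos (by linarith) _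
  have hR0 : 0 ≤ (C₃ * 2 ^ Fintype.card J + 1) * (Y / sn Lg s) * Real.log Y ^ ((c₀ : ℝ) - 1) := by
    positivity
  have hmemP : ∀ g ∈ Fintype.piFinset (fun a => if a ∈ Lg then GF D.toRD0 Y else {s a}),
      (∀ a, a ∉ Lg → g a = s a) ∧ ∀ a, a ∈ Lg → g a ∈ GF D.toRD0 Y := by
    intro g hg
    rw [Fintype.mem_piFinset] at hg
    refine ⟨fun a ha => ?_, fun a ha => ?_⟩
    · have := hg a
      rw [if_neg ha, Finset.mem_singleton] at this
      exact this
    · have := hg a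
      rwa [if_pos ha] at this
  have hzero : ∀ (g : J → Finset (Pl K)) (l : J), l ∉ L → g l ≠ ∅ →
      ∏ a, ∏ v ∈ g a, gcvlH D.toRD0 E μ κ L a v = 0 := by
    intro g l hl hgl
    obtain ⟨v, hv⟩ := Finset.nonempty_iff_ne_empty.2 hgl
    refine Finset.prod_eq_zero (Finset.mem_univ l) (Finset.prod_eq_zero hv ?_)
    unfold gcvlH
    rw [if_neg hl]
  -- a large variable outside `L`
  by_cases hLL : ∃ a ∈ Lg, a ∉ L
  · obtain ⟨a, ha, haL⟩ := hLL
    rw [Finset.sum_eq_zero, norm_zero]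
    · exact hR0
    · intro g _
      by_cases hc : ∀ a ∈ Lg, z₂ < nr (g a)
      · rw [if_pos hc, hzero g a haL, ite_self]
        intro h
        have h4 := hc a ha
        rw [h] at h4
        unfold nr at h4
        rw [Finset.prod_empty] at h4
        linarith
      · rw [if_neg hc]
  by_cases hsL : ∃ l, l ∉ Lg ∧ l ∉ L ∧ s l ≠ ∅
  · obtain ⟨l, hl, hlL, hsl⟩ := hsL
    rw [Finset.sum_eq_zero, norm_zero]
    · exact hR0
    · intro g hg
      rw [hzero g l hlL (by rw [(hmemP g hg).1 l hl]; exact hsl), ite_self, ite_self]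
  push Not at hLL hsL
  by_cases hnt : ∃ a ∈ Lg, ¬ ((∀ w ∈ E, μ a w = 0) ∧ κ a = 0)
  · -- a nontrivial character
    obtain ⟨a, ha, hna⟩ := hnt
    have hEE : E ⊆ akbE E Lg s := by
      unfold akbE
      exact Finset.subset_union_left
    have hΨ : ∀ g : J → Finset (Pl K), (∀ l, l ∉ Lg → g l = s l) →
        BkbPhase D E Lg s a (fun g => ∏ a, ∏ v ∈ g a, gcvlH D.toRD0 E μ κ L a v) g := by
      intro g hg _
      refine ⟨fun w => if w ∈ E then μ a w else 0, κ a, fun _ => 1,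
        ∑ l ∈ L.erase a, ∑ v ∈ g l, fE D.toRD0 E (μ l) (κ l) v, fun _ => by simp, ?_, ?_⟩
      · by_cases hw : ∀ w ∈ E, μ a w = 0
        · right
          refine ⟨fun _ => rfl, fun hk => hna ⟨hw, hk⟩⟩
        · left
          push Not at hw
          obtain ⟨w, hw1, hw2⟩ := hw
          exact ⟨w, hEE hw1, by
            show (if w ∈ E then μ a w else 0) ≠ 0
            rwa [if_pos hw1]⟩
      · intro n _
        have e1 : ∀ l, l ∉ L → (Function.update g a n) l = ∅ := by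
          intro l hl
          have hla : l ≠ a := by
            rintro rfl
            exact hl (hLL l ha)
          have hlLg : l ∉ Lg := fun h => hl (hLL l h)
          rw [Function.update_of_ne hla, hg l hlLg]
          exact hsL l hlLg hl
        show ∏ b, ∏ v ∈ (Function.update g a n) b, gcvlH D.toRD0 E μ κ L b v = _
        rw [gcvl_phase hp D.toRD0 E μ κ L _ e1, ← Finset.add_sum_erase L _ (hLL a ha),
          Function.update_self, one_mul, add_comm, ep_add hp]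
        congr 2
        · refine Finset.sum_congr rfl fun l hl => ?_
          rw [Function.update_of_ne (Finset.ne_of_mem_erase hl)]
        · refine Finset.sum_congr rfl fun v _ => ?_
          rw [sav_fE_sub D.toRD0 hEE]
    have hbo := bkb_outer D (fun _ : J => (0 : Fin 1)) C₁ A₁ δ hC₁ hA₁ hδ hδ1 hlem C₂ A₂ hks Y
      z₁ z₂ (by linarith) hz₁ hz₂ (fun _ => Y) (fun _ => ⟨hY0, le_rfl⟩) E hE hEz Lg s hs
      (fun g => ∏ a, ∏ v ∈ g a, gcvlH D.toRD0 E μ κ L a v) a ha hΨ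
    have hn := hnum Y z₁ z₂ hY hz₁ h1 h2
    have heq : ∑ g ∈ Fintype.piFinset (fun a => if a ∈ Lg then GF D.toRD0 Y else {s a}),
        (if ∀ a ∈ Lg, z₂ < nr (g a) then
            (if Dj g ∧ (∀ a, Disjoint (g a) E) ∧ ∏ a, nr (g a) ≤ Y then
              ∏ a, ∏ v ∈ g a, gcvlH D.toRD0 E μ κ L a v else 0) else 0) =
        ∑ g ∈ Fintype.piFinset (fun l => if l ∈ Lg then GF D.toRD0 Y else {s l}),
          if Cond2 E (fun _ : J => (0 : Fin 1)) (fun _ => Y) Lg z₂ g then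
            ∏ a, ∏ v ∈ g a, gcvlH D.toRD0 E μ κ L a v else 0 := by
      refine Finset.sum_congr rfl fun g _ => ?_
      rw [← ite_and]
      refine if_congr ?_ rfl rfl
      unfold Cond2 Cond Dj
      constructor
      · rintro ⟨h4, h5, h6, h7⟩
        refine ⟨⟨h5, h4, fun i => ?_⟩, h6⟩
        refine le_trans (le_of_eq ?_) h7
        refine Finset.prod_congr ?_ fun _ _ => rfl
        ext b
        simp [Subsingleton.elim i 0]
      · rintro ⟨⟨h5, h4, h7⟩, h6⟩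
        refine ⟨h4, h5, h6, ?_⟩
        refine le_trans (le_of_eq ?_) (h7 0)
        refine Finset.prod_congr ?_ fun _ _ => rfl
        ext b
        simp
    rw [heq]
    refine hbo.trans ?_
    rw [Fin.prod_univ_one]
    have e3 : Real.log Y ^ (-1 : ℝ) ≤ Real.log Y ^ ((c₀ : ℝ) - 1) :=
      Real.rpow_le_rpow_of_exponent_le hlog (by
        have : (0 : ℝ) ≤ c₀ := Nat.cast_nonneg _
        linarith)
    calc Y / sn Lg s * (2 * C₁ * C₂ * z₁ ^ (((Fintype.card J : ℝ) + 1) * (A₁ + 1)) *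
          z₂ ^ (-δ) * (1 + Real.log Y) ^ A₂) ≤ Y / sn Lg s * Real.log Y ^ ((c₀ : ℝ) - 1) :=
          mul_le_mul_of_nonneg_left (hn.trans e3) hYs.le
      _ ≤ _ := by
          have h5 : 0 < Y / sn Lg s * Real.log Y ^ ((c₀ : ℝ) - 1) := mul_pos hYs hlc
          nlinarith
  · -- all characters are trivial
    push Not at hnt
    have hcard : Lg.card ≤ c₀ := by
      refine le_trans (Finset.card_le_card ?_) hc₀
      intro a ha
      rw [Finset.mem_filter]
      exact ⟨hLL a ha, hnt a ha⟩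
    have hterm : ∀ g : J → Finset (Pl K), ‖(if ∀ a ∈ Lg, z₂ < nr (g a) then
            (if Dj g ∧ (∀ a, Disjoint (g a) E) ∧ ∏ a, nr (g a) ≤ Y then
              ∏ a, ∏ v ∈ g a, gcvlH D.toRD0 E μ κ L a v else 0) else 0 : ℂ)‖ ≤
        if ∏ a, nr (g a) ≤ Y then 1 else 0 := by
      intro g
      have hn1 : ‖∏ a, ∏ v ∈ g a, gcvlH D.toRD0 E μ κ L a v‖ ≤ 1 := by
        rw [norm_prod]
        refine Finset.prod_le_one (fun _ _ => norm_nonneg _) fun a _ => ?_
        rw [norm_prod]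
        exact Finset.prod_le_one (fun _ _ => norm_nonneg _) fun v _ => gcvl_norm _ _ _ _ _ _ _
      by_cases h4 : ∏ a, nr (g a) ≤ Y
      · rw [if_pos h4]
        split_ifs
        · exact hn1
        · simp
        · simp
      · rw [if_neg h4]
        by_cases h5 : ∀ a ∈ Lg, z₂ < nr (g a)
        · rw [if_pos h5, if_neg (fun h => h4 h.2.2), norm_zero]
        · rw [if_neg h5, norm_zero]
    have hsum : ‖∑ g ∈ Fintype.piFinset (fun a => if a ∈ Lg then GF D.toRD0 Y else {s a}),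
          if ∀ a ∈ Lg, z₂ < nr (g a) then
            (if Dj g ∧ (∀ a, Disjoint (g a) E) ∧ ∏ a, nr (g a) ≤ Y then
              ∏ a, ∏ v ∈ g a, gcvlH D.toRD0 E μ κ L a v else 0) else 0‖ ≤
        (((fam K Y Lg Lg s).filter fun g => ∏ a, nr (g a) ≤ Y).card : ℝ) := by
      refine (norm_sum_le _ _).trans ((Finset.sum_le_sum fun g _ => hterm g).trans ?_)
      rw [Finset.sum_ite, Finset.sum_const_zero, add_zero, Finset.sum_const, nsmul_eq_mul,
        mul_one]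
      refine Nat.cast_le.2 (Finset.card_le_card ?_)
      refine Finset.filter_subset_filter _ ?_
      refine Fintype.piFinset_subset _ _ fun a => ?_
      by_cases ha : a ∈ Lg
      · rw [if_pos ha, if_pos ha]
        exact Finset.filter_subset _ _
      · rw [if_neg ha, if_neg ha, if_neg ha]
    refine hsum.trans ?_
    rcases Finset.eq_empty_or_nonempty Lg with hemp | hne
    · -- no large variable
      have hf1 : (((fam K Y Lg Lg s).filter fun g => ∏ a, nr (g a) ≤ Y).card : ℝ) ≤ 1 := by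
        have h4 : ((fam K Y Lg Lg s).filter fun g => ∏ a, nr (g a) ≤ Y).card ≤ 1 := by
          refine (Finset.card_filter_le _ _).trans ?_
          unfold fam
          rw [Fintype.card_piFinset, hemp]
          simp
        exact_mod_cast h4
      refine hf1.trans ?_
      have hsnle : sn Lg s ≤ z₁ ^ Fintype.card J := by
        unfold sn
        calc ∏ a ∈ Finset.univ.filter (fun a => a ∉ Lg), nr (s a) ≤
            ∏ _a ∈ Finset.univ.filter (fun a => a ∉ Lg), z₁ := by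
              refine Finset.prod_le_prod (fun a _ => (aks_nr_pos _).le) fun a ha => ?_
              exact (hs a (Finset.mem_filter.1 ha).2).2
          _ = z₁ ^ (Finset.univ.filter (fun a => a ∉ Lg)).card := Finset.prod_const _
          _ ≤ z₁ ^ Fintype.card J := pow_le_pow_right₀ hz₁ (Finset.card_le_univ _)
      have h5 : 1 ≤ Y / sn Lg s * Real.log Y ^ (-1 : ℝ) := by
        rw [Real.rpow_neg_one, div_mul_eq_mul_div, le_div_iff₀ hsn, one_mul,
          ← div_eq_mul_inv, le_div_iff₀ (by linarith)]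
        refine le_trans ?_ h3
        exact mul_le_mul_of_nonneg_right hsnle (by linarith)
      have e3 : Real.log Y ^ (-1 : ℝ) ≤ Real.log Y ^ ((c₀ : ℝ) - 1) :=
        Real.rpow_le_rpow_of_exponent_le hlog (by
          have : (0 : ℝ) ≤ c₀ := Nat.cast_nonneg _
          linarith)
      have h6 : 1 ≤ Y / sn Lg s * Real.log Y ^ ((c₀ : ℝ) - 1) :=
        h5.trans (mul_le_mul_of_nonneg_left e3 hYs.le)
      nlinarith
    · have h4 := htn Lg s Y Y (by linarith) hY0 le_rfl hne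
      refine h4.trans ?_
      have hpos1 : 1 ≤ Lg.card := Finset.card_pos.2 hne
      have h5 : (1 + Real.log Y) ^ (Lg.card - 1) ≤
          2 ^ Fintype.card J * Real.log Y ^ ((c₀ : ℝ) - 1) := by
        calc (1 + Real.log Y) ^ (Lg.card - 1) ≤ (2 * Real.log Y) ^ (Lg.card - 1) :=
              pow_le_pow_left₀ (by linarith) (by linarith) _
          _ = 2 ^ (Lg.card - 1) * Real.log Y ^ (Lg.card - 1) := mul_pow _ _ _
          _ ≤ 2 ^ Fintype.card J * Real.log Y ^ ((c₀ : ℝ) - 1) := by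
              refine mul_le_mul ?_ ?_ (by positivity) (by positivity)
              · refine pow_le_pow_right₀ (by norm_num) ?_
                have := Finset.card_le_univ Lg
                omega
              · rw [← Real.rpow_natCast]
                refine Real.rpow_le_rpow_of_exponent_le hlog ?_
                rw [Nat.cast_sub hpos1, Nat.cast_one]
                have : (Lg.card : ℝ) ≤ c₀ := by exact_mod_cast hcard
                linarith
      have h6 : C₃ * Y / sn Lg s = C₃ * (Y / sn Lg s) := by ring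
      rw [h6]
      calc C₃ * (Y / sn Lg s) * (1 + Real.log Y) ^ (Lg.card - 1) ≤
          C₃ * (Y / sn Lg s) * (2 ^ Fintype.card J * Real.log Y ^ ((c₀ : ℝ) - 1)) :=
            mul_le_mul_of_nonneg_left h5 (by positivity)
        _ = C₃ * 2 ^ Fintype.card J * (Y / sn Lg s) * Real.log Y ^ ((c₀ : ℝ) - 1) := by ring
        _ ≤ _ := by
            have h7 : 0 < Y / sn Lg s * Real.log Y ^ ((c₀ : ℝ) - 1) := mul_pos hYs hlc
            nlinarith

theorem gcvl {K : Type} [Field K] [NumberField K] {p : ℕ} {ζ : K} [NeZero p] (hp : p.Prime)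
    (hζ : IsPrimitiveRoot ζ p) (D : RD K p ζ) (J : Type) [Fintype J] (A : ℕ) :
    ∃ C Y₀ : ℝ, 0 < C ∧ 9 ≤ Y₀ ∧ ∀ (E : Finset (Pl K)), (∀ w ∈ E, w ∉ D.S0) →
      ∀ (μ : J → Pl K → ZMod p) (κ : J → Fin D.r → ZMod p) (L : Finset J) (c₀ : ℕ),
        (L.filter fun j => (∀ w ∈ E, μ j w = 0) ∧ κ j = 0).card ≤ c₀ →
        ∀ Y : ℝ, Y₀ ≤ Y → nr E ≤ Real.log Y ^ A →
          ‖∑ n ∈ (GF D.toRD0 Y).filter (fun n => Disjoint n E),
            ∏ v ∈ n, ∑ j ∈ L, ep p (fE D.toRD0 E (μ j) (κ j) v)‖ ≤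
            C * Y * Real.log Y ^ ((c₀ : ℝ) - 1 / 2) := by
  obtain ⟨C₁, B₁, X₀, hC₁, hX₀, hT⟩ := gcvl_T hp hζ D J
  obtain ⟨C₂, hC₂, hsmf⟩ := smf_sum K (J := J) (af_inv K)
  obtain ⟨nJ, hnJ⟩ : ∃ nJ : ℕ, nJ = Fintype.card J := ⟨_, rfl⟩
  obtain ⟨Y₁, hY₁, hnum⟩ := num ((A + 1) * (B₁ + 1) ^ nJ) (nJ + 1) (1 / 2) (by norm_num)
  refine ⟨((nJ : ℝ) + 1) * 2 ^ nJ * (C₁ * C₂), max X₀ Y₁, by positivity,
    hY₁.trans (le_max_right _ _), ?_⟩
  intro E hE μ κ L c₀ hc₀ Y hY hEY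
  obtain ⟨hlog, hn1, hn2⟩ := hnum Y ((le_max_right _ _).trans hY)
  have hYX : X₀ ≤ Y := (le_max_left _ _).trans hY
  have hY0 : 0 < Y := by linarith
  have hY1 : 1 ≤ Y := by linarith
  set ℓ := Real.log Y with hℓ
  have hℓ0 : 0 < ℓ := by linarith
  set z : ℕ → ℝ := fun j => ℓ ^ ((A + 1) * (B₁ + 1) ^ j) with hz
  have hz1 : ∀ j, 1 ≤ z j := fun j => one_le_pow₀ hlog
  have hzm : Monotone z := by
    intro j k hjk
    refine pow_le_pow_right₀ hlog ?_
    exact Nat.mul_le_mul_left _ (Nat.pow_le_pow_right (by omega) hjk)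
  have hzJ : ∀ j, j ≤ nJ → z j ≤ ℓ ^ ((A + 1) * (B₁ + 1) ^ nJ) := fun j hj => hzm hj
  have hzs : ∀ j, z (j + 1) = z j ^ (B₁ + 1) := by
    intro j
    rw [hz]
    simp only
    rw [← pow_mul]
    congr 1
    ring
  have hY18 : Y ^ (1 / 8 : ℝ) ≤ Y := by
    calc Y ^ (1 / 8 : ℝ) ≤ Y ^ (1 : ℝ) := Real.rpow_le_rpow_of_exponent_le hY1 (by norm_num)
      _ = Y := Real.rpow_one Y
  have hBig1 : 1 ≤ ℓ ^ ((A + 1) * (B₁ + 1) ^ nJ) := one_le_pow₀ hlog
  have hBY : ℓ ^ ((A + 1) * (B₁ + 1) ^ nJ) ≤ Y ^ (1 / 8 : ℝ) := by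
    refine le_trans ?_ hn2
    exact le_self_pow₀ hBig1 (by omega)
  have hℓB : ℓ ≤ ℓ ^ ((A + 1) * (B₁ + 1) ^ nJ) := by
    refine le_self_pow₀ hlog ?_
    positivity
  have hBn : (ℓ ^ ((A + 1) * (B₁ + 1) ^ nJ)) ^ nJ ≤ Y ^ (1 / 8 : ℝ) := by
    refine le_trans ?_ hn2
    exact pow_le_pow_right₀ hBig1 (by omega)
  have hq : Y ^ (1 / 8 : ℝ) * Y ^ (1 / 8 : ℝ) ≤ Y := by
    rw [← Real.rpow_add hY0]
    calc Y ^ (1 / 8 + 1 / 8 : ℝ) ≤ Y ^ (1 : ℝ) :=
          Real.rpow_le_rpow_of_exponent_le hY1 (by norm_num)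
      _ = Y := Real.rpow_one Y
  -- the expansion
  have hexp : ∑ n ∈ (GF D.toRD0 Y).filter (fun n => Disjoint n E),
      ∏ v ∈ n, ∑ j ∈ L, ep p (fE D.toRD0 E (μ j) (κ j) v) =
      ∑ g ∈ Fintype.piFinset (fun _ : J => GF D.toRD0 Y),
      (if Dj g ∧ (∀ a, Disjoint (g a) E) ∧ ∏ a, nr (g a) ≤ Y then
        ∏ a, ∏ v ∈ g a, gcvlH D.toRD0 E μ κ L a v else 0) := by
    rw [← gcvl_part]
    refine Finset.sum_congr rfl fun n _ => Finset.prod_congr rfl fun v _ => ?_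
    unfold gcvlH
    rw [← Finset.sum_filter]
    refine Finset.sum_congr ?_ fun _ _ => rfl
    ext a
    simp
  rw [hexp, athr D.toRD0 z hzm Y (fun j hj => by
    rw [← hnJ] at hj
    exact (hzJ j hj).trans (hBY.trans hY18))]
  refine (norm_sum_le _ _).trans ?_
  have hbound : ∀ j ∈ Finset.range (Fintype.card J + 1), ∀ Lg : Finset J,
      ∑ s ∈ SmF D.toRD0 z j Lg,
        ‖∑ g ∈ Fintype.piFinset (fun a => if a ∈ Lg then GF D.toRD0 Y else {s a}),
          if ∀ a ∈ Lg, z (j + 1) < nr (g a) then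
            (if Dj g ∧ (∀ a, Disjoint (g a) E) ∧ ∏ a, nr (g a) ≤ Y then
              ∏ a, ∏ v ∈ g a, gcvlH D.toRD0 E μ κ L a v else 0) else 0‖ ≤
      C₁ * C₂ * (Y * ℓ ^ ((c₀ : ℝ) - 1 / 2)) := by
    intro j hj Lg
    rw [Finset.mem_range, ← hnJ] at hj
    have hjn : j ≤ nJ := by omega
    have hs1 : ∀ s ∈ SmF D.toRD0 z j Lg,
        ‖∑ g ∈ Fintype.piFinset (fun a => if a ∈ Lg then GF D.toRD0 Y else {s a}),
          if ∀ a ∈ Lg, z (j + 1) < nr (g a) then
            (if Dj g ∧ (∀ a, Disjoint (g a) E) ∧ ∏ a, nr (g a) ≤ Y then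
              ∏ a, ∏ v ∈ g a, gcvlH D.toRD0 E μ κ L a v else 0) else 0‖ ≤
        C₁ * (Y / sn Lg s) * ℓ ^ ((c₀ : ℝ) - 1) := by
      intro s hs
      refine hT Y (z j) (z (j + 1)) hYX (hz1 j) ?_ ?_ ?_ hlog E hE ?_ μ κ L c₀ hc₀ Lg s ?_
      · rw [hzs]
        exact pow_le_pow_right₀ (hz1 j) (by omega)
      · rw [hz]
        simp only
        refine pow_le_pow_right₀ hlog ?_
        have h5 : B₁ + 1 ≤ (B₁ + 1) ^ (j + 1) := le_self_pow₀ (by omega) (by omega)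
        nlinarith
      · rw [← hnJ]
        calc z j ^ nJ * ℓ ≤ Y ^ (1 / 8 : ℝ) * Y ^ (1 / 8 : ℝ) := by
              refine mul_le_mul ?_ (hℓB.trans hBY) hℓ0.le (Real.rpow_nonneg hY0.le _)
              exact (pow_le_pow_left₀ (by linarith [hz1 j]) (hzJ j hjn) _).trans hBn
          _ ≤ Y := hq
      · refine hEY.trans ?_
        rw [hz]
        simp only
        refine pow_le_pow_right₀ hlog ?_
        have h5 : 1 ≤ (B₁ + 1) ^ j := Nat.one_le_pow _ _ (by omega)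
        nlinarith
      · intro l hl
        unfold SmF at hs
        rw [Finset.mem_filter, Fintype.mem_piFinset] at hs
        have h5 := hs.1 l
        rw [if_neg hl, rx_mem_GF] at h5
        exact ⟨h5.2, h5.1⟩
    refine (Finset.sum_le_sum hs1).trans ?_
    have h6 : ∑ s ∈ SmF D.toRD0 z j Lg, C₁ * (Y / sn Lg s) * ℓ ^ ((c₀ : ℝ) - 1) =
        C₁ * Y * ℓ ^ ((c₀ : ℝ) - 1) * ∑ s ∈ SmF D.toRD0 z j Lg,
          (∏ a ∈ Finset.univ.filter (fun a => a ∉ Lg), nr (s a))⁻¹ := by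
      rw [Finset.mul_sum]
      refine Finset.sum_congr rfl fun s _ => ?_
      unfold sn
      rw [div_eq_mul_inv]
      ring
    rw [h6]
    have h7 := hsmf p ζ D.toRD0 z j Lg (hz1 j)
    rw [← hnJ] at h7
    have h8 : (1 + Real.log (z j)) ^ nJ ≤ ℓ ^ (1 / 2 : ℝ) := by
      refine le_trans ?_ hn1
      have h9 : 0 ≤ Real.log (z j) := Real.log_nonneg (hz1 j)
      have h10 : Real.log (z j) ≤ Real.log (ℓ ^ ((A + 1) * (B₁ + 1) ^ nJ)) :=
        Real.log_le_log (by linarith [hz1 j]) (hzJ j hjn)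
      calc (1 + Real.log (z j)) ^ nJ ≤ (1 + Real.log (z j)) ^ (nJ + 1) :=
            pow_le_pow_right₀ (by linarith) (by omega)
        _ ≤ _ := pow_le_pow_left₀ (by linarith) (by linarith) _
    have h11 : 0 ≤ C₁ * Y * ℓ ^ ((c₀ : ℝ) - 1) := by
      have := Real.rpow_nonneg hℓ0.le ((c₀ : ℝ) - 1)
      positivity
    calc C₁ * Y * ℓ ^ ((c₀ : ℝ) - 1) * ∑ s ∈ SmF D.toRD0 z j Lg,
          (∏ a ∈ Finset.univ.filter (fun a => a ∉ Lg), nr (s a))⁻¹ ≤
        C₁ * Y * ℓ ^ ((c₀ : ℝ) - 1) * (C₂ * ℓ ^ (1 / 2 : ℝ)) := by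
          refine mul_le_mul_of_nonneg_left (h7.trans ?_) h11
          exact mul_le_mul_of_nonneg_left h8 hC₂.le
      _ = C₁ * C₂ * (Y * (ℓ ^ ((c₀ : ℝ) - 1) * ℓ ^ (1 / 2 : ℝ))) := by ring
      _ = C₁ * C₂ * (Y * ℓ ^ ((c₀ : ℝ) - 1 / 2)) := by
          rw [← Real.rpow_add hℓ0]
          congr 3
          ring
  calc ∑ j ∈ Finset.range (Fintype.card J + 1),
        ‖∑ Lg : Finset J, ∑ s ∈ SmF D.toRD0 z j Lg,
          ∑ g ∈ Fintype.piFinset (fun a => if a ∈ Lg then GF D.toRD0 Y else {s a}),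
          if ∀ a ∈ Lg, z (j + 1) < nr (g a) then
            (if Dj g ∧ (∀ a, Disjoint (g a) E) ∧ ∏ a, nr (g a) ≤ Y then
              ∏ a, ∏ v ∈ g a, gcvlH D.toRD0 E μ κ L a v else 0) else 0‖ ≤
      ∑ j ∈ Finset.range (Fintype.card J + 1), ∑ _Lg : Finset J,
        C₁ * C₂ * (Y * ℓ ^ ((c₀ : ℝ) - 1 / 2)) := by
        refine Finset.sum_le_sum fun j hj => ?_
        refine (norm_sum_le _ _).trans (Finset.sum_le_sum fun Lg _ => ?_)
        exact (norm_sum_le _ _).trans (hbound j hj Lg)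
    _ = ((nJ : ℝ) + 1) * 2 ^ nJ * (C₁ * C₂) * Y * ℓ ^ ((c₀ : ℝ) - 1 / 2) := by
        rw [Finset.sum_const, Finset.sum_const, Finset.card_range, Finset.card_univ,
          Fintype.card_finset, ← hnJ, nsmul_eq_mul, nsmul_eq_mul]
        push_cast
        ring

end H77.GN
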