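import Pool.Agent.H77.AB.WDef

/-!
# H77-GN-GDEF: definitions for the analytic part of the general upper bound

Class data `c : CR p m N` (file H38/BB/CDef), a map `ty : Fin N → Fin β` (the type of a class), weights `1 / q i`.
* `om D q Δ b i v`: the weight of the type `i` at the prime `v`: `#Δ_i / q_i` if all symbols `δ · (LL v (b k))_k`, `δ ∈ Δ i`, vanish, `0` otherwise. Its mean is `1 / q_i`.
* `Inb p Δ b`: `bp b δ` is not a `p`-th power for `0 ≠ δ ∈ Δ i`.
* `WO D q Δ b τ a n`: the weight `∏_{v ∈ n} om (τ a) v` of a finite set `n` in the variable `a`.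
* `mwt q τ Lg = ∑_{a ∈ Lg} 1 / q (τ a)`: the mean weight of a set of indices.
* `tyI ty a`: the type of a refined index `a : c.J`. `tys`: the set of types of a set of refined indices.
* `MNS`: the main sum: the sum over the refined families `g` supported on the types in `S` such that the set of the types of the large variables (`T < nr (g a)`) satisfies `PP`.
* `TD c β`: type data: a subspace `Vs` such that `dt δ (x k)`, `δ ∈ Vs`, and `Θ k ⊓ Vs` depend only on the type of `k`, `#(Θ k ⊓ Vs) ≤ q`, and the combinatorial hypothesis `hH`.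
* `V0 t S`: the `δ ∈ Vs` orthogonal to all `x k` of a type in `S`. `SpV`: the spanning condition. `swS`, `SWS`: the weighted sum over the families supported on the types in `S`.
* `Rd c t S`: reduced data: complements `c'.Θ k` of `Δ (ty k) = Θ k ⊓ V0 t S` in `Θ k`.
* `OTS`: the sum over the refined families such that all variables of a type outside `R` are small.
-/

set_option autoImplicit false

open scoped NumberField
open IsDedekindDomain
open scoped Classical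

noncomputable section

namespace H77.GN

open H63.MA H38.BB H77.AB

variable {K : Type} [Field K] [NumberField K] {p : ℕ} {ζ : K} {m N β : ℕ}

/-- the weight of a type at a prime -/
def om (D : RD0 K p ζ) (q : Fin β → ℕ) (Δ : Fin β → Submodule (ZMod p) (Fin m → ZMod p))
    (b : Fin m → Kˣ) (i : Fin β) (v : Pl K) : ℝ :=
  if ∀ δ ∈ Δ i, dt δ (fun k => D.LL v (b k)) = 0 then (Nat.card (Δ i) : ℝ) / (q i : ℝ) else 0

/-- independence modulo `p`-th powers -/
def Inb (p : ℕ) (Δ : Fin β → Submodule (ZMod p) (Fin m → ZMod p)) (b : Fin m → Kˣ) : Prop :=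
  ∀ i, ∀ δ ∈ Δ i, δ ≠ 0 → ¬ IsPow p (bp b δ)

/-- the weight of a finite set in one variable -/
def WO (D : RD0 K p ζ) (q : Fin β → ℕ) (Δ : Fin β → Submodule (ZMod p) (Fin m → ZMod p))
    (b : Fin m → Kˣ) {J : Type} (τ : J → Fin β) (a : J) (n : Finset (Pl K)) : ℂ :=
  ((∏ v ∈ n, om D q Δ b (τ a) v : ℝ) : ℂ)

/-- the mean weight of a set of indices -/
def mwt (q : Fin β → ℕ) {J : Type} (τ : J → Fin β) (Lg : Finset J) : ℝ :=
  ∑ a ∈ Lg, ((q (τ a) : ℝ))⁻¹

/-- the type of a refined index -/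
def tyI {c : CR p m N} (ty : Fin N → Fin β) (a : c.J) : Fin β := ty a.1

/-- the types of a set of refined indices -/
def tys {c : CR p m N} (ty : Fin N → Fin β) (U : Finset c.J) : Finset (Fin β) :=
  U.image fun a => ty a.1

/-- the main sum -/
def MNS [NeZero p] (D : RD0 K p ζ) (c : CR p m N) (ty : Fin N → Fin β) (q : Fin β → ℕ)
    (Δ : Fin β → Submodule (ZMod p) (Fin m → ZMod p)) (S : Finset (Fin β))
    (PP : Finset (Fin β) → Prop) (b : Fin m → Kˣ) (E : Finset (Pl K)) (Y T : ℝ) : ℂ :=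
  ∑ g ∈ Fintype.piFinset (fun _ : c.J => GF D Y),
    if Dj g ∧ (∀ a, Disjoint (g a) E) ∧ ∏ a, nr (g a) ≤ Y then
      (if (∀ a : c.J, ty a.1 ∉ S → g a = ∅) ∧
          PP (tys ty (Finset.univ.filter fun a : c.J => T < nr (g a))) then 1 else 0) *
        ((∏ a, WO D q Δ b (tyI ty) a (g a)) * ep p (ph D c.pd b g)) else 0

/-- type data -/
structure TD (c : CR p m N) (β : ℕ) where
  Vs : Submodule (ZMod p) (Fin m → ZMod p)
  ty : Fin N → Fin β
  q : Fin β → ℕ
  q0 : ∀ i, 0 < q i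
  hx : ∀ k k', ty k = ty k' → ∀ δ ∈ Vs, dt δ (c.x k) = dt δ (c.x k')
  hd : ∀ k k', ty k = ty k' → c.Θ k ⊓ Vs = c.Θ k' ⊓ Vs
  hq : ∀ k, Nat.card ↥(c.Θ k ⊓ Vs) ≤ q (ty k)
  hH : ∀ U : Finset c.J, (∀ a ∈ U, ∀ a' ∈ U, c.pd.lk a a' = 0) →
    (∀ a ∈ U, ∀ a' ∈ U, a.1 = a'.1 → a.2.1 - a'.2.1 ∈ Vs →
      (∀ a'' ∈ U, dt (a.2.1 - a'.2.1) (c.x a''.1) = 0) → a = a') →
    ∀ i, (U.filter fun a => ty a.1 = i).card ≤ q i

/-- the elements of `Vs` orthogonal to all `x k` of a type in `S` -/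
def V0 {c : CR p m N} (t : TD c β) (S : Finset (Fin β)) :
    Submodule (ZMod p) (Fin m → ZMod p) where
  carrier := {δ | δ ∈ t.Vs ∧ ∀ k, t.ty k ∈ S → dt δ (c.x k) = 0}
  add_mem' := by
    intro a b ha hb
    refine ⟨t.Vs.add_mem ha.1 hb.1, fun k hk => ?_⟩
    have h : dt (a + b) (c.x k) = dt a (c.x k) + dt b (c.x k) := by
      simp only [dt, Pi.add_apply, add_mul, Finset.sum_add_distrib]
    rw [h, ha.2 k hk, hb.2 k hk, add_zero]
  zero_mem' := ⟨t.Vs.zero_mem, fun k _ => by simp [dt]⟩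
  smul_mem' := by
    intro r a ha
    refine ⟨t.Vs.smul_mem r ha.1, fun k hk => ?_⟩
    have h : dt (r • a) (c.x k) = r * dt a (c.x k) := by
      simp only [dt, Pi.smul_apply, smul_eq_mul, Finset.mul_sum, mul_assoc]
    rw [h, ha.2 k hk, mul_zero]

/-- the spanning condition -/
def SpV {c : CR p m N} (t : TD c β) (b : Fin m → Kˣ) (f : Fin N → Finset (Pl K)) : Prop :=
  ∀ θ ∈ t.Vs, θ ≠ 0 → (∃ k, f k ≠ ∅ ∧ dt θ (c.x k) ≠ 0) ∨ ¬ IsPow p (bp b θ)

/-- the term of a family -/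
def swS {c : CR p m N} (D : RD0 K p ζ) (t : TD c β) (S : Finset (Fin β)) (b : Fin m → Kˣ)
    (E : Finset (Pl K)) (Y : ℝ) (f : Fin N → Finset (Pl K)) : ℝ :=
  if Dj f ∧ (∀ k, Disjoint (f k) E) ∧ ∏ k, nr (f k) ≤ Y then
    (if (∀ k, t.ty k ∉ S → f k = ∅) ∧ SpV t b f then 1 else 0) *
      ∏ k, ∏ v ∈ f k,
        if ∀ θ ∈ c.Θ k, dt θ (fun j => D.LL v (akR D c b f j)) = 0 then
          (Nat.card (c.Θ k) : ℝ) / (t.q (t.ty k) : ℝ) else 0
  else 0

/-- the weighted sum over the families supported on the types in `S` -/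
def SWS {c : CR p m N} (D : RD0 K p ζ) (t : TD c β) (S : Finset (Fin β)) (b : Fin m → Kˣ)
    (E : Finset (Pl K)) (Y : ℝ) : ℝ :=
  ∑ f ∈ Fintype.piFinset (fun _ : Fin N => GF D Y), swS D t S b E Y f

/-- reduced data -/
structure Rd (c : CR p m N) (t : TD c β) (S : Finset (Fin β)) where
  c' : CR p m N
  Δ : Fin β → Submodule (ZMod p) (Fin m → ZMod p)
  hx : c'.x = c.x
  hΔ : ∀ k, Δ (t.ty k) = c.Θ k ⊓ V0 t S
  hle : ∀ i, Δ i ≤ V0 t S
  hcard : ∀ i, Nat.card (Δ i) ≤ t.q i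
  inf : ∀ k, c'.Θ k ⊓ Δ (t.ty k) = ⊥
  sup : ∀ k, c'.Θ k ⊔ Δ (t.ty k) = c.Θ k

/-- the factors of the refined expansion (weights and characters) -/
def hR {c : CR p m N} (D : RD0 K p ζ) (t : TD c β) {S : Finset (Fin β)} (R : Rd c t S)
    (b : Fin m → Kˣ) (f : Fin N → Finset (Pl K)) (a : R.c'.J) (v : Pl K) : ℂ :=
  ((om D t.q R.Δ b (t.ty a.1) v : ℝ) : ℂ) * ep p (dt a.2.1 (fun j => D.LL v (akR D c b f j)))

/-- the sum over the refined families satisfying `Q` -/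
def RFS [NeZero p] {c : CR p m N} (D : RD0 K p ζ) (t : TD c β) {S : Finset (Fin β)}
    (R : Rd c t S) (b : Fin m → Kˣ) (E : Finset (Pl K)) (Y : ℝ)
    (Q : (R.c'.J → Finset (Pl K)) → Prop) : ℂ :=
  ∑ g ∈ Fintype.piFinset (fun _ : R.c'.J => GF D Y),
    if Dj g ∧ (∀ a, Disjoint (g a) E) ∧ ∏ a, nr (g a) ≤ Y then
      (if Q g ∧ (∀ k, t.ty k ∉ S → unR R.c' g k = ∅) ∧ SpV t b (unR R.c' g) then 1 else 0) *
        ∏ a, ∏ v ∈ g a, hR D t R b (unR R.c' g) a v else 0

/-- all variables of a type outside `A` are small -/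
def SmQ {c : CR p m N} (ty : Fin N → Fin β) (A : Finset (Fin β)) (T : ℝ)
    (g : c.J → Finset (Pl K)) : Prop := ∀ a : c.J, ty a.1 ∉ A → nr (g a) ≤ T

end H77.GN
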