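import Pool.Agent.H77.GN.GDef
import Pool.Agent.H77.AB.Msk

/-!
# [H77 GN GOM] the weight of a type as a character sum, 60-100 lines (as Msk in H77/AB)

`om D q Δ b i v = #Δ_i / q_i` if `dt δ (LL v b) = 0` for all `δ ∈ Δ i`, `0` otherwise.
* `om_le`: `0 ≤ om ≤ 1` if `0 < q i` and `#Δ_i ≤ q i`.
* `om_re`: orthogonality for the subspace `Δ i`: `rx_char` in H38/BB/CExp gives `∑_{δ ∈ Δ} ep(δ · y) = #Δ` or `0`; take real parts; the sum over the subtype is the sum over the filter (`Finset.sum_subtype`).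
* `om_zero`: if `om ≠ 0` then `dt δ (LL v b) = 0` for `δ ∈ Δ i`.
* `om_ch`: `aph_rec2` (H63/MB/BPhA) for every `δ` gives `κ δ` (this is `msk_ch` in H77/AB/Msk with `c₂ = b`, but here the condition is only `bp b δ` not a `p`-th power): if all `lam w * dord b δ w`, `w ∈ E`, and `κ δ` were `0`, then `LL v (bp b δ) = dt δ (LL v b) = 0` for all good `v` (`aph_bp` in H63/MA/APh), contradiction to `D.non (bp b δ)` with `F = ∅`.
* `om_dif`: if `δ, δ'` have the same `κ` and the same coefficients on `E` then `bp b (δ - δ')` is a `p`-th power (`dt (δ - δ') = dt δ - dt δ'`, same argument).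
-/

set_option autoImplicit false

open scoped NumberField
open IsDedekindDomain
open scoped Classical

noncomputable section

namespace H77.GN

open H63.MA H38.BB H77.AB

variable {K : Type} [Field K] [NumberField K] {p : ℕ} {ζ : K} {m β : ℕ}

theorem om_le (D : RD0 K p ζ) (q : Fin β → ℕ) (Δ : Fin β → Submodule (ZMod p) (Fin m → ZMod p))
    (b : Fin m → Kˣ) (i : Fin β) (h0 : 0 < q i) (h1 : Nat.card (Δ i) ≤ q i) (v : Pl K) :
    0 ≤ om D q Δ b i v ∧ om D q Δ b i v ≤ 1 := by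
  have hq : (0 : ℝ) < q i := by exact_mod_cast h0
  unfold om
  split_ifs
  · refine ⟨by positivity, ?_⟩
    rw [div_le_one hq]
    exact_mod_cast h1
  · exact ⟨le_refl _, zero_le_one⟩

private theorem GOm_cx [NeZero p] (hp : p.Prime) (D : RD0 K p ζ) (q : Fin β → ℕ)
    (Δ : Fin β → Submodule (ZMod p) (Fin m → ZMod p)) (b : Fin m → Kˣ) (i : Fin β) (v : Pl K) :
    ((om D q Δ b i v : ℝ) : ℂ) = ((q i : ℂ))⁻¹ *
      ∑ δ ∈ Finset.univ.filter (fun δ : Fin m → ZMod p => δ ∈ Δ i),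
        ep p (dt δ (fun k => D.LL v (b k))) := by
  have h1 := rx_char hp (Δ i) (fun k => D.LL v (b k))
  have h2 : ∑ δ ∈ Finset.univ.filter (fun δ : Fin m → ZMod p => δ ∈ Δ i),
        ep p (dt δ (fun k => D.LL v (b k))) =
      ∑ δ : {δ : Fin m → ZMod p // δ ∈ Δ i}, ep p (dt δ.1 (fun k => D.LL v (b k))) :=
    Finset.sum_subtype _ (fun x => by simp) _
  rw [h2, ← h1]
  unfold om
  split_ifs
  · push_cast
    rw [div_eq_inv_mul]
  · simp

theorem om_re [NeZero p] (hp : p.Prime) (D : RD0 K p ζ) (q : Fin β → ℕ)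
    (Δ : Fin β → Submodule (ZMod p) (Fin m → ZMod p)) (b : Fin m → Kˣ) (i : Fin β) (v : Pl K) :
    om D q Δ b i v = ((q i : ℝ))⁻¹ *
      ∑ δ ∈ Finset.univ.filter (fun δ : Fin m → ZMod p => δ ∈ Δ i),
        (ep p (dt δ (fun k => D.LL v (b k)))).re := by
  have h := congrArg Complex.re (GOm_cx hp D q Δ b i v)
  rw [Complex.ofReal_re] at h
  rw [h]
  have h2 : ((q i : ℂ))⁻¹ = (((q i : ℝ))⁻¹ : ℝ) := by push_cast; rfl
  rw [h2, Complex.re_ofReal_mul, Complex.re_sum]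

/-- the complex form -/
theorem om_cx [NeZero p] (hp : p.Prime) (D : RD0 K p ζ) (q : Fin β → ℕ)
    (Δ : Fin β → Submodule (ZMod p) (Fin m → ZMod p)) (b : Fin m → Kˣ) (i : Fin β) (v : Pl K) :
    ((om D q Δ b i v : ℝ) : ℂ) = ((q i : ℂ))⁻¹ *
      ∑ δ ∈ Finset.univ.filter (fun δ : Fin m → ZMod p => δ ∈ Δ i),
        ep p (dt δ (fun k => D.LL v (b k))) := by
  exact GOm_cx hp D q Δ b i v

theorem om_zero (D : RD0 K p ζ) (q : Fin β → ℕ)
    (Δ : Fin β → Submodule (ZMod p) (Fin m → ZMod p)) (b : Fin m → Kˣ) (i : Fin β) (v : Pl K)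
    (h : om D q Δ b i v ≠ 0) (δ : Fin m → ZMod p) (hδ : δ ∈ Δ i) :
    dt δ (fun k => D.LL v (b k)) = 0 := by
  by_contra hcon
  apply h
  unfold om
  rw [if_neg]
  intro h1
  exact hcon (h1 δ hδ)

theorem om_ch (hp : p.Prime) (hζ : IsPrimitiveRoot ζ p) (D : RD K p ζ)
    (b : Fin m → Kˣ) (E : Finset (Pl K)) (hb : BS2 D.toRD0 b E) :
    ∃ κ : (Fin m → ZMod p) → Fin D.r → ZMod p,
      (∀ δ v, D.Gd v → dt δ (fun k => D.LL v (b k)) =
        fE D.toRD0 E (fun w => D.lam w * dord b δ w) (κ δ) v) ∧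
      ∀ δ, ¬ IsPow p (bp b δ) → (∃ w ∈ E, D.lam w * dord b δ w ≠ 0) ∨ κ δ ≠ 0 := by
  choose κ hκ using fun z => aph_rec2 D b E hb z
  refine ⟨κ, fun z v hv => hκ z v hv, fun z hz => ?_⟩
  by_contra hcon
  push Not at hcon
  obtain ⟨h1, h2⟩ := hcon
  obtain ⟨v, hv, _, _, hne⟩ := D.non (bp b z) hz ∅
  apply hne
  rw [aph_bp hp hζ D.toRD0 b z hv.1, hκ z v hv, h2]
  have h3 : dt (0 : Fin D.r → ZMod p) (D.q v) = 0 := by simp [dt]
  rw [h3, add_zero]
  exact Finset.sum_eq_zero fun w hw => by rw [h1 w hw, zero_mul]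

theorem om_dif (hp : p.Prime) (hζ : IsPrimitiveRoot ζ p) (D : RD K p ζ)
    (b : Fin m → Kˣ) (E : Finset (Pl K)) (κ : (Fin m → ZMod p) → Fin D.r → ZMod p)
    (hκ : ∀ δ v, D.Gd v → dt δ (fun k => D.LL v (b k)) =
        fE D.toRD0 E (fun w => D.lam w * dord b δ w) (κ δ) v)
    (δ δ' : Fin m → ZMod p) (h1 : ∀ w ∈ E, D.lam w * dord b δ w = D.lam w * dord b δ' w)
    (h2 : κ δ = κ δ') : IsPow p (bp b (δ - δ')) := by
  by_contra hn
  obtain ⟨v, hv, _, _, hne⟩ := D.non (bp b (δ - δ')) hn ∅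
  apply hne
  rw [aph_bp hp hζ D.toRD0 b (δ - δ') hv.1]
  have h3 : dt (δ - δ') (fun k => D.LL v (b k)) =
      dt δ (fun k => D.LL v (b k)) - dt δ' (fun k => D.LL v (b k)) := by
    simp only [dt, Pi.sub_apply, sub_mul, Finset.sum_sub_distrib]
  rw [h3, hκ δ v hv, hκ δ' v hv, h2]
  have h4 : fE D.toRD0 E (fun w => D.lam w * dord b δ w) (κ δ') v =
      fE D.toRD0 E (fun w => D.lam w * dord b δ' w) (κ δ') v := by
    unfold fE
    congr 1
    refine Finset.sum_congr rfl fun w hw => ?_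
    show D.lam w * dord b δ w * D.LL w (D.pi v) = D.lam w * dord b δ' w * D.LL w (D.pi v)
    rw [h1 w hw]
  rw [h4, sub_self]

end H77.GN
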