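import Pool.Agent.H77.GN.GRd
import Pool.Agent.H77.GN.GOm
import Pool.Agent.H77.AB.Part
import Pool.Agent.H77.AB.MxB

/-!
# [H77 GN GEXA] the refined expansion, 150-220 lines

* `gexa_ak`: for `δ ∈ V0 t S`, `f` supported on the types in `S`, `v ∉ S0`: `dt δ (LL v (akR D c b f)) = dt δ (LL v b)`: by `rx_ak` (H38/BB/CExp) `LL v (akR k) = LL v (b k) + ∑_j ∑_{w ∈ f j} x j k * LL v (pi w)`, and `∑_k δ k x j k = 0` for all `j` with `f j ≠ ∅` (`ty j ∈ S`).
* `gexa_term`: for `f` supported on the types in `S` and good `v ∈ f k` (`k` of a type in `S`), `F = LL v (akR D c b f)`: `∑_{a : c'.J, a.1 = k} hR … a v = om (ty k) v * ∑_{θ ∈ c'.Θ k} ep(dt θ F) = (#Δ / q) [Δ ⊥ LL v b] #(c'.Θ k) [c'.Θ k ⊥ F] = (#(c.Θ k) / q) [c.Θ k ⊥ F]` (`rx_char` in H38/BB/CExp; `grd_card`, `grd_perp`, `gexa_ak`).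
* `gexa`: `SWS = RFS (fun _ => True)`: `part` (H77/AB/Part) with `κ = Fin N`, `ι = R.c'.J`, `cl a = a.1`, `F f = if (∀ k, ty k ∉ S → f k = ∅) ∧ SpV t b f then 1 else 0`, `h f a v = hR D t R b f a v`; `unC (fun a => a.1) g = unR R.c' g` (both are the union of the `g a` with `a.1 = k`; `rx_mem` in H38/BB/CExp). The left side of `part` is `SWS` (as a complex number) by `gexa_term` for the `f` with `F f ≠ 0` (for `k` with `ty k ∉ S` the product over `f k = ∅` is `1`); the `v ∈ f k` are good (`f k ∈ GF D Y`), so outside `S0`.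
* `gexa_zero`: if some `0 ≠ δ ∈ V0 t S` has `bp b δ` a `p`-th power then `SWS = 0`: `SpV` fails for all `f` supported on the types in `S` (`θ = δ`: `dt δ (x k) = 0` for `ty k ∈ S`, `f k = ∅` otherwise).
-/

set_option autoImplicit false

open scoped NumberField
open IsDedekindDomain
open scoped Classical

noncomputable section

namespace H77.GN

open H63.MA H38.BB H77.AB

variable {K : Type} [Field K] [NumberField K] {p : ℕ} {ζ : K} {m N β : ℕ}

theorem gexa_ak [NeZero p] (hp : p.Prime) (hζ : IsPrimitiveRoot ζ p) (D : RD0 K p ζ)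
    {c : CR p m N} (t : TD c β) (S : Finset (Fin β)) (b : Fin m → Kˣ)
    (f : Fin N → Finset (Pl K)) (hf : ∀ k, t.ty k ∉ S → f k = ∅) (δ : Fin m → ZMod p)
    (hδ : δ ∈ V0 t S) (v : Pl K) (hv : v ∉ D.S0) :
    dt δ (fun j => D.LL v (akR D c b f j)) = dt δ (fun j => D.LL v (b j)) := by
  have h1 : ∀ k, D.LL v (akR D c b f k) =
      D.LL v (b k) + ∑ j, ∑ w ∈ f j, c.x j k * D.LL v (D.pi w) := fun k =>
    rx_ak hp hζ D c b f hv k
  unfold dt
  simp only [h1, mul_add, Finset.sum_add_distrib]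
  have h2 : ∑ k, δ k * ∑ j, ∑ w ∈ f j, c.x j k * D.LL v (D.pi w) = 0 := by
    simp only [Finset.mul_sum]
    rw [Finset.sum_comm]
    refine Finset.sum_eq_zero fun j _ => ?_
    rw [Finset.sum_comm]
    refine Finset.sum_eq_zero fun w hw => ?_
    have hj : t.ty j ∈ S := by
      by_contra h
      rw [hf j h] at hw
      exact absurd hw (Finset.notMem_empty w)
    have h3 : dt δ (c.x j) = 0 := hδ.2 j hj
    unfold dt at h3
    calc ∑ k, δ k * (c.x j k * D.LL v (D.pi w))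
        = (∑ k, δ k * c.x j k) * D.LL v (D.pi w) := by
          rw [Finset.sum_mul]
          exact Finset.sum_congr rfl fun k _ => by ring
      _ = 0 := by rw [h3, zero_mul]
  rw [h2, add_zero]

theorem gexa_term [NeZero p] (hp : p.Prime) (hζ : IsPrimitiveRoot ζ p) (D : RD0 K p ζ)
    {c : CR p m N} (t : TD c β) {S : Finset (Fin β)} (R : Rd c t S) (b : Fin m → Kˣ)
    (f : Fin N → Finset (Pl K)) (hf : ∀ k, t.ty k ∉ S → f k = ∅) (k : Fin N)
    (v : Pl K) (hv : v ∉ D.S0) :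
    ∑ a ∈ Finset.univ.filter (fun a : R.c'.J => a.1 = k), hR D t R b f a v =
      (((if ∀ θ ∈ c.Θ k, dt θ (fun j => D.LL v (akR D c b f j)) = 0 then
          (Nat.card (c.Θ k) : ℝ) / (t.q (t.ty k) : ℝ) else 0) : ℝ) : ℂ) := by
  obtain ⟨F, hF⟩ : ∃ F : Fin m → ZMod p, F = fun j => D.LL v (akR D c b f j) := ⟨_, rfl⟩
  have h1 : ∑ a ∈ Finset.univ.filter (fun a : R.c'.J => a.1 = k), hR D t R b f a v =
      ∑ θ : {θ : Fin m → ZMod p // θ ∈ R.c'.Θ k},
        ((om D t.q R.Δ b (t.ty k) v : ℝ) : ℂ) * ep p (dt θ.1 F) := by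
    refine (rx_sum_filter R.c' Finset.univ k (fun a => hR D t R b f a v)).trans ?_
    refine Finset.sum_congr rfl fun θ _ => ?_
    refine (if_pos (Finset.mem_univ _)).trans ?_
    rw [hF]
    rfl
  rw [h1, ← Finset.mul_sum, ← rx_char hp, ← Complex.ofReal_mul, ← hF]
  congr 1
  have h2 : ∀ δ ∈ R.Δ (t.ty k), dt δ F = dt δ (fun j => D.LL v (b j)) := by
    intro δ hδ
    rw [hF]
    exact gexa_ak hp hζ D t S b f hf δ (R.hle _ hδ) v hv
  have h3 := grd_perp R k F
  have h4 := grd_card hp R k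
  have hq : (0 : ℝ) < t.q (t.ty k) := by exact_mod_cast t.q0 (t.ty k)
  by_cases hc : ∀ θ ∈ c.Θ k, dt θ F = 0
  · rw [if_pos hc]
    obtain ⟨h5, h6⟩ := h3.1 hc
    have h7 : ∀ δ ∈ R.Δ (t.ty k), dt δ (fun j => D.LL v (b j)) = 0 := fun δ hδ => by
      rw [← h2 δ hδ]
      exact h6 δ hδ
    unfold om
    rw [if_pos h5, if_pos h7, h4]
    push_cast
    field_simp
  · rw [if_neg hc]
    by_cases h5 : ∀ θ ∈ R.c'.Θ k, dt θ F = 0
    · have h7 : ¬ ∀ δ ∈ R.Δ (t.ty k), dt δ (fun j => D.LL v (b j)) = 0 := by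
        intro h8
        apply hc
        refine h3.2 ⟨h5, fun δ hδ => ?_⟩
        rw [h2 δ hδ]
        exact h8 δ hδ
      unfold om
      rw [if_neg h7, zero_mul]
    · rw [if_neg h5, mul_zero]

theorem gexa_un [NeZero p] {c : CR p m N} (g : c.J → Finset (Pl K)) :
    unC (fun a : c.J => a.1) g = unR c g := by
  funext i
  ext v
  rw [mxb_mem, rx_mem]

theorem gexa [NeZero p] (hp : p.Prime) (hζ : IsPrimitiveRoot ζ p) (D : RD0 K p ζ)
    {c : CR p m N} (t : TD c β) {S : Finset (Fin β)} (R : Rd c t S) (b : Fin m → Kˣ)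
    (E : Finset (Pl K)) (Y : ℝ) :
    ((SWS D t S b E Y : ℝ) : ℂ) = RFS D t R b E Y (fun _ => True) := by
  have hpart := part (ι := R.c'.J) (κ := Fin N) D (fun a => a.1) E Y
    (fun f => if (∀ k, t.ty k ∉ S → f k = ∅) ∧ SpV t b f then 1 else 0)
    (fun f a v => hR D t R b f a v)
  have hL : ((SWS D t S b E Y : ℝ) : ℂ) = ∑ f ∈ Fintype.piFinset (fun _ : Fin N => GF D Y),
      (if Dj f ∧ (∀ i, Disjoint (f i) E) ∧ ∏ i, nr (f i) ≤ Y then
        (if (∀ k, t.ty k ∉ S → f k = ∅) ∧ SpV t b f then 1 else 0) *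
          ∏ i, ∏ v ∈ f i, ∑ a ∈ Finset.univ.filter (fun a : R.c'.J => a.1 = i),
            hR D t R b f a v else 0) := by
    unfold SWS
    rw [Complex.ofReal_sum]
    refine Finset.sum_congr rfl fun f hf => ?_
    rw [Fintype.mem_piFinset] at hf
    unfold swS
    by_cases hC : Dj f ∧ (∀ k, Disjoint (f k) E) ∧ ∏ k, nr (f k) ≤ Y
    · rw [if_pos hC, if_pos hC]
      by_cases hF : (∀ k, t.ty k ∉ S → f k = ∅) ∧ SpV t b f
      · rw [if_pos hF, if_pos hF, one_mul, one_mul, Complex.ofReal_prod]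
        refine Finset.prod_congr rfl fun k _ => ?_
        rw [Complex.ofReal_prod]
        refine Finset.prod_congr rfl fun v hv => ?_
        convert (gexa_term hp hζ D t R b f hF.1 k v ((rx_mem_GF.1 (hf k)).2 v hv).1).symm
      · rw [if_neg hF, if_neg hF, zero_mul, zero_mul, Complex.ofReal_zero]
    · rw [if_neg hC, if_neg hC, Complex.ofReal_zero]
  have hpart' : ∑ f ∈ Fintype.piFinset (fun _ : Fin N => GF D Y),
      (if Dj f ∧ (∀ i, Disjoint (f i) E) ∧ ∏ i, nr (f i) ≤ Y then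
        (if (∀ k, t.ty k ∉ S → f k = ∅) ∧ SpV t b f then 1 else 0) *
          ∏ i, ∏ v ∈ f i, ∑ a ∈ Finset.univ.filter (fun a : R.c'.J => a.1 = i),
            hR D t R b f a v else 0) = RFS D t R b E Y (fun _ => True) := by
    refine Eq.trans ?_ (hpart.trans ?_)
    · refine Finset.sum_congr rfl fun f _ => ?_
      congr!
    · unfold RFS
      refine Finset.sum_congr rfl fun g _ => ?_
      rw [gexa_un]
      simp only [true_and]
  rw [hL, hpart']

theorem gexa_zero (D : RD0 K p ζ) {c : CR p m N} (t : TD c β) (S : Finset (Fin β))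
    (b : Fin m → Kˣ) (E : Finset (Pl K)) (Y : ℝ) (δ : Fin m → ZMod p) (hδ : δ ∈ V0 t S)
    (h0 : δ ≠ 0) (h1 : IsPow p (bp b δ)) : SWS D t S b E Y = 0 := by
  unfold SWS
  refine Finset.sum_eq_zero fun f _ => ?_
  unfold swS
  split_ifs with h2 h3
  · exfalso
    rcases h3.2 δ hδ.1 h0 with ⟨k, hk, hk2⟩ | h4
    · apply hk2
      have hkS : t.ty k ∈ S := by
        by_contra h
        exact hk (h3.1 k h)
      exact hδ.2 k hkS
    · exact h4 h1
  · rw [zero_mul]
  · rfl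

end H77.GN
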