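import Pool.Agent.H77.GN.GExA

/-!
# [H77 GN GEXB] the main part is the main sum, 110-160 lines

If `bp b δ` is not a `p`-th power for `0 ≠ δ ∈ V0 t S` and `1 ≤ T`: the part of the refined sum with `V0 t (types of the large variables) ≤ V0 t S` is `MNS` with `PP A = (V0 t A ≤ V0 t S)`.

Proof. Term by term. Let `g` be pairwise disjoint, disjoint from `E`, in `GF Y`. (1) `(∀ k, ty k ∉ S → unR c' g k = ∅)` iff `(∀ a, ty a.1 ∉ S → g a = ∅)` (`rx_mem`). (2) `∏_a ∏_{v ∈ g a} hR = (∏_a WO … a (g a)) * ep(∑_a ∑_{v ∈ g a} dt θ_a (LL v (akR (unR g))))` and the exponent is `ph D c'.pd b g` by `rx_phase` (H38/BB/CExp; `akR D c = akR D c'` because `c'.x = c.x`: `R.hx`; as in `mxb_prod` in H77/AB/MxB).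
(3) `SpV t b (unR c' g)` holds if `g` is supported on the types in `S` and `V0 t (types of the large variables) ≤ V0 t S`: let `0 ≠ θ ∈ Vs`. If `θ ∈ V0 t S`: `bp b θ` is not a `p`-th power. Otherwise `θ ∉ V0 t (types of large variables)`: there are `k'` and a large variable `a` (`T < nr (g a)`) with `ty k' = ty a.1` and `dt θ (x k') ≠ 0`, so `dt θ (x a.1) ≠ 0` (`t.hx`), and `unR g a.1 ⊇ g a ≠ ∅` (`nr (g a) > 1`).
-/

set_option autoImplicit false

open scoped NumberField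
open IsDedekindDomain
open scoped Classical

noncomputable section

namespace H77.GN

open H63.MA H38.BB H77.AB

variable {K : Type} [Field K] [NumberField K] {p : ℕ} {ζ : K} {m N β : ℕ}

theorem gexb_akR (D : RD0 K p ζ) {c c' : CR p m N} (h : c'.x = c.x) (b : Fin m → Kˣ)
    (f : Fin N → Finset (Pl K)) : akR D c' b f = akR D c b f := by
  unfold akR
  rw [h]

theorem gexb_prod [NeZero p] (hp : p.Prime) (hζ : IsPrimitiveRoot ζ p) (D : RD K p ζ)
    {c : CR p m N} (t : TD c β) {S : Finset (Fin β)} (R : Rd c t S) (b : Fin m → Kˣ)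
    (g : R.c'.J → Finset (Pl K)) (hg : Dj g) (hg0 : ∀ a, ∀ v ∈ g a, v ∉ D.S0) :
    ∏ a, ∏ v ∈ g a, hR D.toRD0 t R b (unR R.c' g) a v =
      (∏ a, WO D.toRD0 t.q R.Δ b (tyI t.ty) a (g a)) * ep p (ph D.toRD0 R.c'.pd b g) := by
  rw [← rx_phase hp hζ D R.c' b g hg hg0, aexp_ep_sum hp, ← Finset.prod_mul_distrib]
  refine Finset.prod_congr rfl fun a _ => ?_
  rw [aexp_ep_sum hp]
  unfold hR WO
  rw [Finset.prod_mul_distrib, Complex.ofReal_prod, gexb_akR D.toRD0 R.hx]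
  rfl

theorem gexb [NeZero p] (hp : p.Prime) (hζ : IsPrimitiveRoot ζ p) (D : RD K p ζ)
    {c : CR p m N} (t : TD c β) {S : Finset (Fin β)} (R : Rd c t S) (b : Fin m → Kˣ)
    (E : Finset (Pl K)) (Y T : ℝ) (hT : 1 ≤ T)
    (hb : ∀ δ ∈ V0 t S, δ ≠ 0 → ¬ IsPow p (bp b δ)) :
    RFS D.toRD0 t R b E Y (fun g =>
      V0 t (tys t.ty (Finset.univ.filter fun a : R.c'.J => T < nr (g a))) ≤ V0 t S) =
    MNS D.toRD0 R.c' t.ty t.q R.Δ S (fun A => V0 t A ≤ V0 t S) b E Y T := by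
  unfold RFS MNS
  refine Finset.sum_congr rfl fun g hg => ?_
  by_cases hC : Dj g ∧ (∀ a, Disjoint (g a) E) ∧ ∏ a, nr (g a) ≤ Y
  swap
  · rw [if_neg hC, if_neg hC]
  rw [if_pos hC, if_pos hC]
  obtain ⟨hD, hE, -⟩ := hC
  have hg0 : ∀ a, ∀ v ∈ g a, v ∉ D.S0 := fun a v hv =>
    ((rx_mem_GF.1 (Fintype.mem_piFinset.1 hg a)).2 v hv).1
  rw [gexb_prod hp hζ D t R b g hD hg0]
  have e1 : (∀ k, t.ty k ∉ S → unR R.c' g k = ∅) ↔ ∀ a : R.c'.J, t.ty a.1 ∉ S → g a = ∅ := by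
    constructor
    · intro h a ha
      rw [← Finset.not_nonempty_iff_eq_empty]
      rintro ⟨v, hv⟩
      have h1 : v ∈ unR R.c' g a.1 := rx_mem.2 ⟨a, rfl, hv⟩
      rw [h a.1 ha] at h1
      exact absurd h1 (Finset.notMem_empty v)
    · intro h k hk
      rw [← Finset.not_nonempty_iff_eq_empty]
      rintro ⟨v, hv⟩
      obtain ⟨a, rfl, hv'⟩ := rx_mem.1 hv
      rw [h a hk] at hv'
      exact absurd hv' (Finset.notMem_empty v)
  have e2 : V0 t (tys t.ty (Finset.univ.filter fun a : R.c'.J => T < nr (g a))) ≤ V0 t S →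
      SpV t b (unR R.c' g) := by
    intro hle θ hθ hθ0
    by_cases h1 : θ ∈ V0 t S
    · exact Or.inr (hb θ h1 hθ0)
    · left
      have h2 : θ ∉ V0 t (tys t.ty (Finset.univ.filter fun a : R.c'.J => T < nr (g a))) :=
        fun h => h1 (hle h)
      have h3 : ∃ k', t.ty k' ∈ tys t.ty (Finset.univ.filter fun a : R.c'.J => T < nr (g a)) ∧
          dt θ (c.x k') ≠ 0 := by
        by_contra hcon
        push Not at hcon
        exact h2 ⟨hθ, hcon⟩
      obtain ⟨k', hk', hk2⟩ := h3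
      obtain ⟨a, ha, hak⟩ := Finset.mem_image.1 hk'
      have ha2 := (Finset.mem_filter.1 ha).2
      refine ⟨a.1, ?_, ?_⟩
      · have hne : (g a).Nonempty := by
          rw [Finset.nonempty_iff_ne_empty]
          intro h0
          rw [h0, nr, Finset.prod_empty] at ha2
          linarith
        obtain ⟨v, hv⟩ := hne
        exact Finset.nonempty_iff_ne_empty.1 ⟨v, rx_mem.2 ⟨a, rfl, hv⟩⟩
      · rw [t.hx a.1 k' hak θ hθ]
        exact hk2
  congr 1
  by_cases hA : (∀ a : R.c'.J, t.ty a.1 ∉ S → g a = ∅) ∧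
      V0 t (tys t.ty (Finset.univ.filter fun a : R.c'.J => T < nr (g a))) ≤ V0 t S
  · rw [if_pos hA, if_pos ⟨hA.2, e1.2 hA.1, e2 hA.2⟩]
  · rw [if_neg hA, if_neg (fun h => hA ⟨e1.1 h.2.1, h.1⟩)]

end H77.GN
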