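import Pool.Agent.H77.GN.GBlkS
import Pool.Agent.H77.AB.KpaW

/-!
# [H77 GN GMN] the main sum, 200-280 lines (as P2 in H77/AB)

`|MNS| ≤ C (nr E)^η Y (log Y)^{#S - 1}` with `T = (log Y)^B`, if `PP` is monotone and every pairwise unlinked set `U` of refined indices with `PP (tys ty U)` has at most `q i` elements of every type `i`.

Proof (copy `p2` in H77/AB/P2.lean). `J = c.J`, `P = c.pd`, `τ = tyI ty`. `B` = the `B₁` of `kpaW` (H77/AB/KpaW) for the exponent `2`; constants from `kpaW`, `gblka`, `gblks` (with `η`), `thr_sum`; `Q ≥ q i` for all `i`; `Y₀` large (`num` with `n = #J`, `ε = min (1/Q) δ` …, `1/2`).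
`dec1` (H77/AB/Thr) with `T = (log Y)^B ≤ Y`. For `g` in the inner sum (`g a = s a` with `nr ≤ T` for `a ∉ Lg`, `T < nr (g a)` for `a ∈ Lg`) the set of the large variables is `Lg`, and `(∀ a, ty a.1 ∉ S → g a = ∅)` holds iff all `a ∈ Lg` have `ty a.1 ∈ S` (`g a ≠ ∅` as `nr (g a) > T ≥ 1`) and `s a = ∅` for all `a` with `ty a.1 ∉ S`. So the inner sum is `0` or `TW D c.pd b E (WO …) Y T Lg s` (`PP (tys ty Lg)`, `Lg` of types in `S`, `s` supported on the types in `S`).
`sn Lg s ≤ T^{#J} ≤ Y^{1/8}`.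
(a) `Lg` has a linked pair: `kpaW` (`|WO| ≤ 1` by `om_le`): `≤ (Y/sn) (log Y)^{-2}`; the sum over `s` is `≤ C (1 + log T)^{#J} Y (log Y)^{-2} ≤ C Y (log Y)^{-1} ≤ C Y (log Y)^{#S - 1}`.
(b) `Lg` pairwise unlinked. By `hU` there are at most `q i` elements of type `i` in `Lg`, and all types are in `S`, so `mwt q τ Lg = ∑_{i ∈ S} #(Lg of type i) / q i ≤ #S`.
(b1) some `i ∈ S` has less than `q i` elements: `mwt ≤ #S - 1/Q`. `gblka` and the sum over `s`: `≤ C (nr E)^η Y (log Y)^{#S - 1/Q - 1} (1 + log T)^{#J} ≤ C (nr E)^η Y (log Y)^{#S - 1}`.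
(b2) all `i ∈ S` have exactly `q i` elements (`mwt = #S`). `s` identically `∅`: one term, `gblka` (`sn = 1`): `≤ C (nr E)^η Y (log Y)^{#S - 1}`. Otherwise there is `l ∉ Lg` with `s l ≠ ∅` (so `ty l.1 ∈ S`); some `a ∈ Lg` has `lk a l ≠ 0`, since otherwise `insert l Lg` is pairwise unlinked (`lk l l = 2 θ_l · x_l = 0`, `lk` is symmetric), `PP (tys ty (insert l Lg))` by monotonicity, and it has `q i + 1` elements of type `i = ty l.1`, contradiction to `hU`.
`gblks`: `≤ C (nr E)^η (Y/sn) (log Y)^{#S - 1 - δ}`, and the sum over `s` gives another factor `C (1 + log T)^{#J} ≤ C (log Y)^δ`. There are `2^{#J}` sets `Lg`.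
-/

set_option autoImplicit false

open scoped NumberField
open IsDedekindDomain
open scoped Classical

noncomputable section

namespace H77.GN

open H63.MA H38.BB H77.AB

private theorem gmn_mem_GF {K : Type} [Field K] [NumberField K] {p : ℕ} {ζ : K} (D : RD0 K p ζ)
    {y : ℝ} {n : Finset (Pl K)} : n ∈ GF D y ↔ nr n ≤ y ∧ ∀ v ∈ n, D.Gd v := by
  unfold GF
  rw [Finset.mem_filter, mem_AF]

private theorem gmn_nr_empty {K : Type} [Field K] [NumberField K] :
    nr (∅ : Finset (Pl K)) = 1 := by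
  unfold nr
  rw [Finset.prod_empty]

private theorem gmn_wo_le {K : Type} [Field K] [NumberField K] {p : ℕ} {ζ : K} (D : RD0 K p ζ)
    {m β : ℕ} {J : Type} (τ : J → Fin β) (q : Fin β → ℕ)
    (Δ : Fin β → Submodule (ZMod p) (Fin m → ZMod p)) (hq0 : ∀ i, 0 < q i)
    (hq : ∀ i, Nat.card (Δ i) ≤ q i) (b : Fin m → Kˣ) (a : J) (n : Finset (Pl K)) :
    ‖WO D q Δ b τ a n‖ ≤ 1 := by
  have hom : ∀ v : Pl K, 0 ≤ om D q Δ b (τ a) v ∧ om D q Δ b (τ a) v ≤ 1 := fun v =>
    om_le D q Δ b (τ a) (hq0 _) (hq _) v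
  unfold WO
  rw [Complex.norm_real, Real.norm_eq_abs, abs_of_nonneg
    (Finset.prod_nonneg fun v _ => (hom v).1)]
  exact Finset.prod_le_one (fun v _ => (hom v).1) fun v _ => (hom v).2

/-- the sum `MNS` through the sums `TW` -/
private theorem gmn_dec {K : Type} [Field K] [NumberField K] {p : ℕ} {ζ : K} {m N β : ℕ} [NeZero p]
    (D : RD0 K p ζ) (c : CR p m N) (ty : Fin N → Fin β) (q : Fin β → ℕ)
    (Δ : Fin β → Submodule (ZMod p) (Fin m → ZMod p)) (S : Finset (Fin β))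
    (PP : Finset (Fin β) → Prop) (b : Fin m → Kˣ) (E : Finset (Pl K)) {Y T : ℝ} (hT1 : 1 ≤ T)
    (hTY : T ≤ Y) :
    MNS D c ty q Δ S PP b E Y T = ∑ Lg : Finset c.J,
      ∑ s ∈ Fintype.piFinset (fun a => if a ∈ Lg then {∅} else GF D T),
        (if ((∀ a ∈ Lg, ty a.1 ∈ S) ∧ PP (tys ty Lg)) ∧ (∀ a : c.J, ty a.1 ∉ S → s a = ∅)
          then 1 else 0) *
          TW D c.pd b E (WO D q Δ b (tyI ty)) Y T Lg s := by
  unfold MNS
  rw [dec1 D T Y hTY]
  refine Finset.sum_congr rfl fun Lg _ => Finset.sum_congr rfl fun s hs => ?_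
  unfold TW
  rw [Finset.mul_sum]
  refine Finset.sum_congr rfl fun g hg => ?_
  rw [Fintype.mem_piFinset] at hs hg
  have hsm : ∀ a, a ∉ Lg → g a = s a ∧ nr (g a) ≤ T := by
    intro a ha
    have h1 := hg a
    have h2 := hs a
    rw [if_neg ha, Finset.mem_singleton] at h1
    rw [if_neg ha, gmn_mem_GF] at h2
    refine ⟨h1, ?_⟩
    rw [h1]
    exact h2.1
  by_cases hA : ∀ a ∈ Lg, T < nr (g a)
  · have hLg : Finset.univ.filter (fun a : c.J => T < nr (g a)) = Lg := by
      ext a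
      rw [Finset.mem_filter]
      constructor
      · rintro ⟨-, h2⟩
        by_contra ha
        exact absurd h2 (not_lt.2 (hsm a ha).2)
      · intro h
        exact ⟨Finset.mem_univ _, hA a h⟩
    have he : ((∀ a : c.J, ty a.1 ∉ S → g a = ∅) ∧
          PP (tys ty (Finset.univ.filter fun a : c.J => T < nr (g a)))) ↔
        (((∀ a ∈ Lg, ty a.1 ∈ S) ∧ PP (tys ty Lg)) ∧ ∀ a : c.J, ty a.1 ∉ S → s a = ∅) := by
      rw [hLg]
      constructor
      · rintro ⟨h1, h2⟩
        refine ⟨⟨fun a ha => ?_, h2⟩, fun a ha => ?_⟩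
        · by_contra h3
          have h4 := hA a ha
          rw [h1 a h3, gmn_nr_empty] at h4
          linarith
        · by_cases haL : a ∈ Lg
          · have h3 := hs a
            rwa [if_pos haL, Finset.mem_singleton] at h3
          · rw [← (hsm a haL).1]
            exact h1 a ha
      · rintro ⟨⟨h1, h2⟩, h3⟩
        refine ⟨fun a ha => ?_, h2⟩
        have haL : a ∉ Lg := fun h => ha (h1 a h)
        rw [(hsm a haL).1]
        exact h3 a ha
    rw [if_pos hA]
    by_cases hB : Dj g ∧ (∀ a, Disjoint (g a) E) ∧ ∏ a, nr (g a) ≤ Y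
    · have hB' : Dj g ∧ (∀ a, Disjoint (g a) E) ∧ (∀ a ∈ Lg, T < nr (g a)) ∧
          ∏ a, nr (g a) ≤ Y := ⟨hB.1, hB.2.1, hA, hB.2.2⟩
      rw [if_pos hB, if_pos hB']
      by_cases hC : ((∀ a ∈ Lg, ty a.1 ∈ S) ∧ PP (tys ty Lg)) ∧
          ∀ a : c.J, ty a.1 ∉ S → s a = ∅
      · rw [if_pos hC, if_pos (he.2 hC)]
      · rw [if_neg hC, if_neg (fun h => hC (he.1 h))]
    · have hB' : ¬ (Dj g ∧ (∀ a, Disjoint (g a) E) ∧ (∀ a ∈ Lg, T < nr (g a)) ∧
          ∏ a, nr (g a) ≤ Y) := fun h => hB ⟨h.1, h.2.1, h.2.2.2⟩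
      rw [if_neg hB, if_neg hB', mul_zero]
  · have hB' : ¬ (Dj g ∧ (∀ a, Disjoint (g a) E) ∧ (∀ a ∈ Lg, T < nr (g a)) ∧
        ∏ a, nr (g a) ≤ Y) := fun h => hA h.2.2.1
    rw [if_neg hA, if_neg hB', mul_zero]

private theorem gmn_mwt {J : Type} {β : ℕ} (τ : J → Fin β) (q : Fin β → ℕ) (hq0 : ∀ i, 0 < q i)
    (S : Finset (Fin β)) (Lg : Finset J) (h1 : ∀ a ∈ Lg, τ a ∈ S)
    (h2 : ∀ i, (Lg.filter fun a => τ a = i).card ≤ q i) :
    mwt q τ Lg ≤ S.card ∧ ((∃ i ∈ S, (Lg.filter fun a => τ a = i).card < q i) →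
      mwt q τ Lg ≤ S.card - (((∑ i, q i + 1 : ℕ) : ℝ))⁻¹) := by
  have e1 : mwt q τ Lg = ∑ i ∈ S, ((Lg.filter fun a => τ a = i).card : ℝ) * ((q i : ℝ))⁻¹ := by
    unfold mwt
    rw [← Finset.sum_fiberwise_of_maps_to h1]
    refine Finset.sum_congr rfl fun i hi => ?_
    have h4 : ∑ a ∈ Lg.filter (fun a => τ a = i), ((q (τ a) : ℝ))⁻¹ =
        ∑ _a ∈ Lg.filter (fun a => τ a = i), ((q i : ℝ))⁻¹ := by
      refine Finset.sum_congr rfl fun a ha => ?_
      rw [(Finset.mem_filter.1 ha).2]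
    rw [h4, Finset.sum_const, nsmul_eq_mul]
  have e2 : ∀ i, ((Lg.filter fun a => τ a = i).card : ℝ) * ((q i : ℝ))⁻¹ ≤ 1 := by
    intro i
    have h3 : (0 : ℝ) < q i := by exact_mod_cast hq0 i
    rw [← div_eq_mul_inv, div_le_one h3]
    exact_mod_cast h2 i
  have e3 : (S.card : ℝ) = ∑ _i ∈ S, (1 : ℝ) := by
    rw [Finset.sum_const, nsmul_eq_mul, mul_one]
  constructor
  · rw [e1, e3]
    exact Finset.sum_le_sum fun i _ => e2 i
  · rintro ⟨i, hi, hlt⟩
    have h3 : (0 : ℝ) < q i := by exact_mod_cast hq0 i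
    have h4 : ((Lg.filter fun a => τ a = i).card : ℝ) * ((q i : ℝ))⁻¹ ≤ 1 - ((q i : ℝ))⁻¹ := by
      have h5 : ((Lg.filter fun a => τ a = i).card : ℝ) + 1 ≤ q i := by exact_mod_cast hlt
      have h6 := mul_le_mul_of_nonneg_right h5 (inv_nonneg.2 h3.le)
      rw [mul_inv_cancel₀ h3.ne', add_mul, one_mul] at h6
      linarith
    have h5 := gblks_Q q hq0 i
    rw [e1, e3, ← Finset.add_sum_erase S _ hi, ← Finset.add_sum_erase S (fun _ => (1 : ℝ)) hi]
    have h6 : ∑ j ∈ S.erase i, ((Lg.filter fun a => τ a = j).card : ℝ) * ((q j : ℝ))⁻¹ ≤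
        ∑ _j ∈ S.erase i, (1 : ℝ) := Finset.sum_le_sum fun i _ => e2 i
    linarith

private theorem gmn_final {A Y L e f q : ℝ} (hA : 0 ≤ A) (hY : 0 ≤ Y) (hL : 1 ≤ L) (hq : 1 ≤ q)
    (hef : e ≤ f) : A * Y * L ^ e ≤ A * q * Y * L ^ f := by
  have h1 : L ^ e ≤ L ^ f := Real.rpow_le_rpow_of_exponent_le hL hef
  have h2 : 0 ≤ L ^ f := Real.rpow_nonneg (by linarith) _
  calc A * Y * L ^ e ≤ A * Y * L ^ f := mul_le_mul_of_nonneg_left h1 (by positivity)
    _ ≤ (A * Y * L ^ f) * q := le_mul_of_one_le_right (by positivity) hq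
    _ = _ := by ring

theorem gmn {K : Type} [Field K] [NumberField K] {p : ℕ} {ζ : K} {m N β : ℕ} [NeZero p]
    (hp : p.Prime) (hζ : IsPrimitiveRoot ζ p) (D : RD K p ζ) (c : CR p m N)
    (ty : Fin N → Fin β) (q : Fin β → ℕ) (Δ : Fin β → Submodule (ZMod p) (Fin m → ZMod p))
    (hq0 : ∀ i, 0 < q i) (hq : ∀ i, Nat.card (Δ i) ≤ q i) (S : Finset (Fin β))
    (PP : Finset (Fin β) → Prop) (hmon : ∀ A A', A ⊆ A' → PP A → PP A')
    (hU : ∀ U : Finset c.J, (∀ a ∈ U, ∀ a' ∈ U, c.pd.lk a a' = 0) → PP (tys ty U) →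
      ∀ i, (U.filter fun a => ty a.1 = i).card ≤ q i) (η : ℝ) (hη : 0 < η) :
    ∃ (B : ℕ) (C Y₀ : ℝ), 0 < C ∧ 9 ≤ Y₀ ∧ ∀ (b : Fin m → Kˣ) (E : Finset (Pl K)),
      BS2 D.toRD0 b E → Inb p Δ b → ∀ Y : ℝ, Y₀ ≤ Y →
        ‖MNS D.toRD0 c ty q Δ S PP b E Y (Real.log Y ^ B)‖ ≤
          C * nr E ^ η * Y * Real.log Y ^ ((S.card : ℝ) - 1) := by
  set n : ℕ := Fintype.card c.J with hn
  obtain ⟨κ, hκ⟩ : ∃ κ : ℝ, κ = (((∑ i, q i + 1 : ℕ) : ℝ))⁻¹ := ⟨_, rfl⟩
  have hκ0 : 0 < κ := by rw [hκ]; positivity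
  have hsym : ∀ a a' : c.J, c.pd.lk a a' = c.pd.lk a' a := fun a a' => add_comm _ _
  have hself : ∀ a : c.J, c.pd.lk a a = 0 := by
    intro a
    unfold PD.lk
    rw [c.pd.self a, add_zero]
  -- constants
  obtain ⟨B, X₀, hX₀, hkp⟩ := kpaW hp hζ D c.pd 2
  obtain ⟨CA, hCA, hblka⟩ := gblka hp hζ D c.pd (tyI ty) q Δ hq0 hq η hη
  obtain ⟨CS, δ, Ys, hCS, hδ0, hYs, hblks⟩ := gblks hp hζ D c.pd (tyI ty) q Δ hq0 hq B η hη
  obtain ⟨CT, hCT, hthr⟩ := thr_sum K c.J
  set ε : ℝ := min δ (min (1 / 2) κ) with hε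
  have hε0 : 0 < ε := lt_min hδ0 (lt_min (by norm_num) hκ0)
  have hε1 : ε ≤ δ := min_le_left _ _
  have hε2 : ε ≤ 1 / 2 := (min_le_right _ _).trans (min_le_left _ _)
  have hε3 : ε ≤ κ := (min_le_right _ _).trans (min_le_right _ _)
  obtain ⟨Y₁, hY₁, hnum⟩ := num B (n + 1) ε hε0
  set CC : ℝ := CT + CA * CT + (CA + CS * CT) with hCC
  have hCT0 : 0 < CT := by linarith
  have hCC0 : 0 < CC := by positivity
  refine ⟨B, (Fintype.card (Finset c.J) : ℝ) * CC, max (max Y₁ X₀) Ys, ?_,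
    le_max_of_le_left (le_max_of_le_left hY₁), ?_⟩
  · have : 0 < (Fintype.card (Finset c.J) : ℝ) := by
      exact_mod_cast Fintype.card_pos
    positivity
  intro b E hb hInb Y hY
  have hYY₁ : Y₁ ≤ Y := (le_max_left _ _).trans ((le_max_left _ _).trans hY)
  have hYX₀ : X₀ ≤ Y := (le_max_right _ _).trans ((le_max_left _ _).trans hY)
  have hYYs : Ys ≤ Y := (le_max_right _ _).trans hY
  have hY9 : 9 ≤ Y := hY₁.trans hYY₁
  have hY1 : 1 ≤ Y := by linarith
  have hY0 : 0 < Y := by linarith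
  obtain ⟨hL1, hLTn', hTn'⟩ := hnum Y hYY₁
  set L : ℝ := Real.log Y with hL
  have hL0 : 0 < L := by linarith
  set T : ℝ := L ^ B with hT
  have hT1 : 1 ≤ T := one_le_pow₀ hL1
  set LT : ℝ := 1 + Real.log T with hLT
  have hLT1 : 1 ≤ LT := by
    have := Real.log_nonneg hT1
    linarith
  have hLTn : LT ^ n ≤ L ^ ε := (pow_le_pow_right₀ hLT1 (by omega)).trans hLTn'
  have hTn : T ^ n ≤ Y ^ (1 / 8 : ℝ) := (pow_le_pow_right₀ hT1 (by omega)).trans hTn'
  have hTn2 : T ^ n ≤ Y ^ (1 / 2 : ℝ) :=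
    hTn.trans (Real.rpow_le_rpow_of_exponent_le hY1 (by norm_num))
  have hE1 : 1 ≤ nr E := one_le_nr E
  have hEη : 1 ≤ nr E ^ η := Real.one_le_rpow hE1 hη.le
  have hTY : T ≤ Y := by
    calc T ≤ T ^ (n + 1) := le_self_pow₀ hT1 (by omega)
      _ ≤ Y ^ (1 / 8 : ℝ) := hTn'
      _ ≤ Y ^ (1 : ℝ) := Real.rpow_le_rpow_of_exponent_le hY1 (by norm_num)
      _ = Y := Real.rpow_one Y
  rw [gmn_dec D.toRD0 c ty q Δ S PP b E hT1 hTY]
  -- one set of large variables
  have hone : ∀ Lg : Finset c.J,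
      ‖∑ s ∈ Fintype.piFinset (fun a => if a ∈ Lg then {∅} else GF D.toRD0 T),
        (if ((∀ a ∈ Lg, ty a.1 ∈ S) ∧ PP (tys ty Lg)) ∧ (∀ a : c.J, ty a.1 ∉ S → s a = ∅)
          then 1 else 0) *
          TW D.toRD0 c.pd b E (WO D.toRD0 q Δ b (tyI ty)) Y T Lg s‖ ≤
        CC * nr E ^ η * Y * L ^ ((S.card : ℝ) - 1) := by
    intro Lg
    have hLf0 : 0 ≤ L ^ ((S.card : ℝ) - 1) := Real.rpow_nonneg hL0.le _
    have hEη0 : 0 ≤ nr E ^ η := by linarith
    by_cases hx : (∀ a ∈ Lg, ty a.1 ∈ S) ∧ PP (tys ty Lg)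
    swap
    · have h0 : ∀ s ∈ Fintype.piFinset (fun a => if a ∈ Lg then {∅} else GF D.toRD0 T),
          (if ((∀ a ∈ Lg, ty a.1 ∈ S) ∧ PP (tys ty Lg)) ∧
            (∀ a : c.J, ty a.1 ∉ S → s a = ∅) then (1 : ℂ) else 0) *
            TW D.toRD0 c.pd b E (WO D.toRD0 q Δ b (tyI ty)) Y T Lg s = 0 := by
        intro s _
        rw [if_neg (fun h => hx h.1), zero_mul]
      rw [Finset.sum_eq_zero h0, norm_zero]
      positivity
    set SS := Fintype.piFinset (fun a => if a ∈ Lg then {∅} else GF D.toRD0 T) with hSS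
    have hSm : ∀ s ∈ SS, (∀ l ∈ Lg, s l = ∅) ∧
        ∀ l, l ∉ Lg → (∀ v ∈ s l, D.toRD0.Gd v) ∧ nr (s l) ≤ T := by
      intro s hs
      rw [hSS, Fintype.mem_piFinset] at hs
      refine ⟨fun l hl => ?_, fun l hl => ?_⟩
      · have := hs l
        rwa [if_pos hl, Finset.mem_singleton] at this
      · have := hs l
        rw [if_neg hl, gmn_mem_GF] at this
        exact ⟨this.2, this.1⟩
    have hsn : ∀ s ∈ SS, sn Lg s ≤ T ^ n := fun s hs =>
      blks_sn_le Lg s T hT1 fun l hl => ((hSm s hs).2 l hl).2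
    have hsum : ∑ s ∈ SS, (sn Lg s)⁻¹ ≤ CT * LT ^ n := hthr p ζ D.toRD0 T Lg hT1
    obtain ⟨tw, htw⟩ : ∃ tw : (c.J → Finset (Pl K)) → ℂ, tw = fun s =>
      (if ((∀ a ∈ Lg, ty a.1 ∈ S) ∧ PP (tys ty Lg)) ∧ (∀ a : c.J, ty a.1 ∉ S → s a = ∅)
          then (1 : ℂ) else 0) *
          TW D.toRD0 c.pd b E (WO D.toRD0 q Δ b (tyI ty)) Y T Lg s := ⟨_, rfl⟩
    have htw1 : ∀ s, ‖tw s‖ ≤ ‖TW D.toRD0 c.pd b E (WO D.toRD0 q Δ b (tyI ty)) Y T Lg s‖ := by
      intro s
      rw [htw]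
      simp only
      split_ifs
      · rw [one_mul]
      · rw [zero_mul, norm_zero]
        exact norm_nonneg _
    change ‖∑ s ∈ SS, (if ((∀ a ∈ Lg, ty a.1 ∈ S) ∧ PP (tys ty Lg)) ∧
      (∀ a : c.J, ty a.1 ∉ S → s a = ∅) then (1 : ℂ) else 0) *
          TW D.toRD0 c.pd b E (WO D.toRD0 q Δ b (tyI ty)) Y T Lg s‖ ≤ _
    have hsumtw : ∑ s ∈ SS, (if ((∀ a ∈ Lg, ty a.1 ∈ S) ∧ PP (tys ty Lg)) ∧
      (∀ a : c.J, ty a.1 ∉ S → s a = ∅) then (1 : ℂ) else 0) *
          TW D.toRD0 c.pd b E (WO D.toRD0 q Δ b (tyI ty)) Y T Lg s = ∑ s ∈ SS, tw s := by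
      rw [htw]
    rw [hsumtw]
    refine (norm_sum_le _ _).trans ?_
    by_cases hlk : ∃ a ∈ Lg, ∃ a' ∈ Lg, c.pd.lk a a' ≠ 0
    · -- (a)
      have h1 : ∀ s ∈ SS, ‖tw s‖ ≤ (Y * L ^ (-2 : ℝ)) * (sn Lg s)⁻¹ := by
        intro s hs
        have h2 := hkp Y T hYX₀ le_rfl b E Lg s (fun l hl => ((hSm s hs).2 l hl).1)
          (WO D.toRD0 q Δ b (tyI ty)) (fun a n => gmn_wo_le D.toRD0 (tyI ty) q Δ hq0 hq b a n) hlk
        refine (htw1 s).trans (h2.trans (le_of_eq ?_))
        rw [div_eq_mul_inv]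
        ring
      refine (Finset.sum_le_sum h1).trans ?_
      rw [← Finset.mul_sum]
      have h3 : 0 ≤ L ^ (-2 : ℝ) := Real.rpow_nonneg hL0.le _
      calc Y * L ^ (-2 : ℝ) * ∑ s ∈ SS, (sn Lg s)⁻¹
          ≤ Y * L ^ (-2 : ℝ) * (CT * L ^ ε) := by
            refine mul_le_mul_of_nonneg_left (hsum.trans ?_) (by positivity)
            exact mul_le_mul_of_nonneg_left hLTn hCT0.le
        _ = CT * Y * L ^ (-2 + ε) := by
            rw [Real.rpow_add hL0]
            ring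
        _ ≤ CT * nr E ^ η * Y * L ^ ((S.card : ℝ) - 1) := by
            refine gmn_final hCT0.le hY0.le hL1 hEη ?_
            have : (0 : ℝ) ≤ S.card := Nat.cast_nonneg _
            linarith
        _ ≤ CC * nr E ^ η * Y * L ^ ((S.card : ℝ) - 1) := by
            have : CT ≤ CC := by
              rw [hCC]
              have h5 : 0 ≤ CA * CT := by positivity
              have h6 : 0 ≤ CA + CS * CT := by positivity
              linarith
            gcongr
    · -- (b)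
      have hun : ∀ a ∈ Lg, ∀ a' ∈ Lg, c.pd.lk a a' = 0 := by
        intro a ha a' ha'
        by_contra h
        exact hlk ⟨a, ha, a', ha', h⟩
      obtain ⟨hγβ, hγlt⟩ := gmn_mwt (tyI ty) q hq0 S Lg hx.1 (hU Lg hun hx.2)
      obtain ⟨γ, hγ⟩ : ∃ γ : ℝ, γ = mwt q (tyI ty) Lg := ⟨_, rfl⟩
      rw [← hγ] at hγβ hγlt
      have hA : ∀ s ∈ SS, ‖tw s‖ ≤ (CA * nr E ^ η * Y * L ^ (γ - 1)) * (sn Lg s)⁻¹ := by
        intro s hs
        have h2 := hblka b E hb hInb Lg s Y T hY9 ((hsn s hs).trans hTn2)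
        rw [← hγ] at h2
        refine (htw1 s).trans (h2.trans (le_of_eq ?_))
        rw [div_eq_mul_inv]
        ring
      by_cases hlt : ∃ i ∈ S, (Lg.filter fun a => tyI ty a = i).card < q i
      · -- (b1)
        refine (Finset.sum_le_sum hA).trans ?_
        rw [← Finset.mul_sum]
        have h3 : 0 ≤ L ^ (γ - 1) := Real.rpow_nonneg hL0.le _
        have h4 := hγlt hlt
        rw [← hκ] at h4
        calc CA * nr E ^ η * Y * L ^ (γ - 1) * ∑ s ∈ SS, (sn Lg s)⁻¹
            ≤ CA * nr E ^ η * Y * L ^ (γ - 1) * (CT * L ^ ε) := by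
              refine mul_le_mul_of_nonneg_left (hsum.trans ?_) (by positivity)
              exact mul_le_mul_of_nonneg_left hLTn hCT0.le
          _ = (CA * CT) * nr E ^ η * Y * L ^ (γ - 1 + ε) := by
              rw [Real.rpow_add hL0]
              ring
          _ ≤ (CA * CT) * nr E ^ η * Y * L ^ ((S.card : ℝ) - 1) := by
              have h5 : L ^ (γ - 1 + ε) ≤ L ^ ((S.card : ℝ) - 1) :=
                Real.rpow_le_rpow_of_exponent_le hL1 (by linarith)
              gcongr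
          _ ≤ CC * nr E ^ η * Y * L ^ ((S.card : ℝ) - 1) := by
              have : CA * CT ≤ CC := by
                rw [hCC]
                have h6 : 0 ≤ CA + CS * CT := by positivity
                linarith
              gcongr
      · -- (b2)
        have hcardS : ∀ i ∈ S, (Lg.filter fun a => tyI ty a = i).card = q i := by
          intro i hi
          by_contra h
          exact hlt ⟨i, hi, lt_of_le_of_ne (hU Lg hun hx.2 i) h⟩
        have hins : ∀ l : c.J, l ∉ Lg → ty l.1 ∈ S → (∀ a ∈ Lg, c.pd.lk a l = 0) → False := by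
          intro l hl hlS h
          have h2 := hU (insert l Lg) (by
            intro a ha a' ha'
            rw [Finset.mem_insert] at ha ha'
            rcases ha with rfl | ha
            · rcases ha' with rfl | ha'
              · exact hself _
              · rw [hsym]
                exact h a' ha'
            · rcases ha' with rfl | ha'
              · exact h a ha
              · exact hun a ha a' ha')
            (hmon _ _ (Finset.image_subset_image (Finset.subset_insert _ _)) hx.2) (ty l.1)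
          rw [Finset.filter_insert, if_pos rfl, Finset.card_insert_of_notMem (by
            rw [Finset.mem_filter]
            exact fun h => hl h.1)] at h2
          have h3 := hcardS (ty l.1) hlS
          have h4 : (Lg.filter fun a => tyI ty a = ty l.1) = Lg.filter fun a => ty a.1 = ty l.1 :=
            rfl
          rw [h4] at h3
          omega
        set K2 : ℝ := CS * nr E ^ η * Y * L ^ ((S.card : ℝ) - 1 - δ) with hK2
        have hK20 : 0 ≤ K2 := by
          have e3 : 0 ≤ L ^ ((S.card : ℝ) - 1 - δ) := Real.rpow_nonneg hL0.le _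
          positivity
        have hB : ∀ s ∈ SS, ‖tw s‖ ≤
            (if s = fun _ => ∅ then CA * nr E ^ η * Y * L ^ (γ - 1) else 0) +
              K2 * (sn Lg s)⁻¹ := by
          intro s hs
          have hsp := aks_sn_pos Lg s
          by_cases h0 : s = fun _ => ∅
          · rw [if_pos h0]
            refine (hA s hs).trans ?_
            have h5 : sn Lg s = 1 := by
              rw [h0]
              unfold sn nr
              simp
            rw [h5, inv_one, mul_one, mul_one]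
            linarith
          · rw [if_neg h0, zero_add]
            by_cases hsS : ∀ a : c.J, ty a.1 ∉ S → s a = ∅
            swap
            · rw [htw]
              simp only
              rw [if_neg (fun h => hsS h.2), zero_mul, norm_zero]
              positivity
            obtain ⟨l, hl⟩ : ∃ l, s l ≠ ∅ := by
              by_contra hne
              apply h0
              funext l
              by_contra h
              exact hne ⟨l, h⟩
            have hlL : l ∉ Lg := fun h => hl ((hSm s hs).1 l h)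
            have hlS : ty l.1 ∈ S := by
              by_contra h
              exact hl (hsS l h)
            have h6 := hblks b E hb hInb S Lg s Y hYYs (hSm s hs).2 hun hx.1 hcardS (by
                by_contra hne
                apply hins l hlL hlS
                intro a ha
                by_contra h
                exact hne ⟨a, ha, l, hlL, hl, h⟩)
            refine (htw1 s).trans (h6.trans (le_of_eq ?_))
            rw [hK2, div_eq_mul_inv]
            ring
        refine (Finset.sum_le_sum hB).trans ?_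
        rw [Finset.sum_add_distrib, ← Finset.mul_sum]
        have h7 : ∑ s ∈ SS, (if s = fun _ => ∅ then CA * nr E ^ η * Y * L ^ (γ - 1) else 0) ≤
            CA * nr E ^ η * Y * L ^ ((S.card : ℝ) - 1) := by
          have h3 : 0 ≤ L ^ (γ - 1) := Real.rpow_nonneg hL0.le _
          have h5 : L ^ (γ - 1) ≤ L ^ ((S.card : ℝ) - 1) :=
            Real.rpow_le_rpow_of_exponent_le hL1 (by linarith)
          rw [Finset.sum_ite_eq']
          split_ifs
          · gcongr
          · positivity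
        have h8 : K2 * ∑ s ∈ SS, (sn Lg s)⁻¹ ≤
            CS * CT * nr E ^ η * Y * L ^ ((S.card : ℝ) - 1) := by
          have e3 : 0 ≤ L ^ ((S.card : ℝ) - 1 - δ) := Real.rpow_nonneg hL0.le _
          calc K2 * ∑ s ∈ SS, (sn Lg s)⁻¹ ≤ K2 * (CT * L ^ ε) := by
                refine mul_le_mul_of_nonneg_left (hsum.trans ?_) hK20
                exact mul_le_mul_of_nonneg_left hLTn hCT0.le
            _ = CS * CT * nr E ^ η * Y * L ^ ((S.card : ℝ) - 1 - δ + ε) := by
                rw [hK2, Real.rpow_add hL0]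
                ring
            _ ≤ _ := by
                have h5 : L ^ ((S.card : ℝ) - 1 - δ + ε) ≤ L ^ ((S.card : ℝ) - 1) :=
                  Real.rpow_le_rpow_of_exponent_le hL1 (by linarith)
                gcongr
        calc _ ≤ CA * nr E ^ η * Y * L ^ ((S.card : ℝ) - 1) +
              CS * CT * nr E ^ η * Y * L ^ ((S.card : ℝ) - 1) := add_le_add h7 h8
          _ = (CA + CS * CT) * (nr E ^ η * Y * L ^ ((S.card : ℝ) - 1)) := by ring
          _ ≤ CC * (nr E ^ η * Y * L ^ ((S.card : ℝ) - 1)) := by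
              refine mul_le_mul_of_nonneg_right ?_ (by positivity)
              rw [hCC]
              have h5 : 0 ≤ CA * CT := by positivity
              linarith
          _ = _ := by ring
  refine (norm_sum_le_of_le _ fun Lg _ => hone Lg).trans ?_
  rw [Finset.sum_const, Finset.card_univ, nsmul_eq_mul]
  refine le_of_eq ?_
  ring

end H77.GN
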