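import Pool.Agent.H77.GN.GDef

/-!
# [H77 GN GMOB] inclusion-exclusion over the types of the large variables, 80-130 lines

For a predicate `PP` on sets of types: the part of `RFS` with `¬ PP (types of the large variables)` is `∑_{A ⊆ S, ¬ PP A} ∑_{R' ⊆ A} (-1)^{#R'} RFS (all variables of a type outside A \ R' are small)`.

Proof. Let `g` be in the sum, supported on the types in `S`, `1 ≤ T`, `L = tys ty {a : T < nr (g a)}`; `L ⊆ S` (a large variable is not empty: if `ty a.1 ∉ S` then `g a = ∅`, because `unR c' g a.1 = ∅`, `rx_mem` in H38/BB/CExp; `nr ∅ = 1 ≤ T`). `SmQ ty A T g` iff `L ⊆ A`. So `[¬ PP L] = ∑_{A ⊆ S, ¬ PP A} [L = A]` and `[L = A] = ∑_{R' ⊆ A} (-1)^{#R'} [L ⊆ A \ R']` (`gmob_aux`: if `L ⊄ A` both sides are `0`; if `L ⊆ A` then `L ⊆ A \ R'` iff `R' ⊆ A \ L`, and `∑_{R' ⊆ A \ L} (-1)^{#R'} = [A \ L = ∅]`: `Finset.sum_powerset_neg_one_pow_card`).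
-/

set_option autoImplicit false

open scoped NumberField
open IsDedekindDomain
open scoped Classical

noncomputable section

namespace H77.GN

open H63.MA H38.BB H77.AB

theorem gmob_aux {ι : Type} [DecidableEq ι] (L A : Finset ι) :
    (if L = A then (1 : ℂ) else 0) =
      ∑ R' ∈ A.powerset, (-1) ^ R'.card * (if L ⊆ A \ R' then (1 : ℂ) else 0) := by
  by_cases hL : L ⊆ A
  · have h1 : ∀ R' ∈ A.powerset, (-1 : ℂ) ^ R'.card * (if L ⊆ A \ R' then (1 : ℂ) else 0) =
        if R' ⊆ A \ L then (-1 : ℂ) ^ R'.card else 0 := by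
      intro R' hR'
      rw [Finset.mem_powerset] at hR'
      have hiff : L ⊆ A \ R' ↔ R' ⊆ A \ L := by
        constructor
        · intro h x hx
          rw [Finset.mem_sdiff]
          exact ⟨hR' hx, fun hxL => (Finset.mem_sdiff.1 (h hxL)).2 hx⟩
        · intro h x hx
          rw [Finset.mem_sdiff]
          exact ⟨hL hx, fun hxR => (Finset.mem_sdiff.1 (h hxR)).2 hx⟩
      by_cases h : L ⊆ A \ R'
      · rw [if_pos h, if_pos (hiff.1 h), mul_one]
      · rw [if_neg h, if_neg fun h' => h (hiff.2 h'), mul_zero]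
    rw [Finset.sum_congr rfl h1, ← Finset.sum_filter]
    have h2 : A.powerset.filter (fun R' => R' ⊆ A \ L) = (A \ L).powerset := by
      ext x
      rw [Finset.mem_filter, Finset.mem_powerset, Finset.mem_powerset]
      exact ⟨fun h => h.2, fun h => ⟨h.trans Finset.sdiff_subset, h⟩⟩
    rw [h2]
    have h3 := congrArg (Int.cast : ℤ → ℂ) (Finset.sum_powerset_neg_one_pow_card (x := A \ L))
    push_cast at h3
    rw [h3]
    by_cases h : L = A
    · rw [if_pos h, if_pos]
      rw [h, Finset.sdiff_self]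
    · rw [if_neg h, if_neg]
      intro h'
      exact h (Finset.Subset.antisymm hL (Finset.sdiff_eq_empty_iff_subset.1 h'))
  · rw [if_neg fun h => hL (by rw [h])]
    symm
    refine Finset.sum_eq_zero fun R' _ => ?_
    rw [if_neg fun h => hL (h.trans Finset.sdiff_subset), mul_zero]

theorem gmob {K : Type} [Field K] [NumberField K] {p : ℕ} {ζ : K} {m N β : ℕ} [NeZero p]
    (D : RD0 K p ζ) {c : CR p m N} (t : TD c β) {S : Finset (Fin β)} (R : Rd c t S)
    (b : Fin m → Kˣ) (E : Finset (Pl K)) (Y T : ℝ) (hT : 1 ≤ T)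
    (PP : Finset (Fin β) → Prop) :
    RFS D t R b E Y (fun g =>
      ¬ PP (tys t.ty (Finset.univ.filter fun a : R.c'.J => T < nr (g a)))) =
    ∑ A ∈ S.powerset.filter (fun A => ¬ PP A), ∑ R' ∈ A.powerset, (-1) ^ R'.card *
      RFS D t R b E Y (SmQ t.ty (A \ R') T) := by
  have hmove : ∀ (F : Finset (Fin β) → Finset (Fin β) → (R.c'.J → Finset (Pl K)) → ℂ),
      ∑ A ∈ S.powerset.filter (fun A => ¬ PP A), ∑ R' ∈ A.powerset, (-1) ^ R'.card *
        ∑ g ∈ Fintype.piFinset (fun _ : R.c'.J => GF D Y), F A R' g =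
      ∑ g ∈ Fintype.piFinset (fun _ : R.c'.J => GF D Y),
        ∑ A ∈ S.powerset.filter (fun A => ¬ PP A), ∑ R' ∈ A.powerset, (-1) ^ R'.card *
          F A R' g := by
    intro F
    rw [Finset.sum_comm]
    refine Finset.sum_congr rfl fun A _ => ?_
    rw [Finset.sum_comm]
    refine Finset.sum_congr rfl fun R' _ => ?_
    rw [Finset.mul_sum]
  unfold RFS
  rw [hmove]
  refine Finset.sum_congr rfl fun g _ => ?_
  by_cases hC : Dj g ∧ (∀ a, Disjoint (g a) E) ∧ ∏ a, nr (g a) ≤ Y
  · simp only [if_pos hC]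
    by_cases h2 : (∀ k, t.ty k ∉ S → unR R.c' g k = ∅) ∧ SpV t b (unR R.c' g)
    · set L := tys t.ty (Finset.univ.filter fun a : R.c'.J => T < nr (g a)) with hL
      have hiff : ∀ B : Finset (Fin β), SmQ t.ty B T g ↔ L ⊆ B := by
        intro B
        constructor
        · intro h x hx
          rw [hL, tys, Finset.mem_image] at hx
          obtain ⟨a, ha, rfl⟩ := hx
          by_contra hcon
          have h3 := h a hcon
          have h4 := (Finset.mem_filter.1 ha).2
          linarith
        · intro h a ha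
          by_contra hcon
          push Not at hcon
          apply ha
          apply h
          rw [hL, tys, Finset.mem_image]
          exact ⟨a, Finset.mem_filter.2 ⟨Finset.mem_univ _, hcon⟩, rfl⟩
      have hLS : L ⊆ S := by
        rw [← hiff]
        intro a ha
        have h3 := h2.1 a.1 ha
        have h4 : g a ⊆ unR R.c' g a.1 :=
          Finset.subset_biUnion_of_mem
            (fun θ : {θ : Fin m → ZMod p // θ ∈ R.c'.Θ a.1} => g ⟨a.1, θ⟩) (Finset.mem_univ a.2)
        rw [h3, Finset.subset_empty] at h4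
        rw [h4]
        unfold nr
        simpa using hT
      have e1 : ∀ A ∈ S.powerset.filter (fun A => ¬ PP A), ∑ R' ∈ A.powerset,
          (-1 : ℂ) ^ R'.card * ((if SmQ t.ty (A \ R') T g ∧
            (∀ k, t.ty k ∉ S → unR R.c' g k = ∅) ∧ SpV t b (unR R.c' g) then 1 else 0) *
            ∏ a, ∏ v ∈ g a, hR D t R b (unR R.c' g) a v) =
          (if L = A then (1 : ℂ) else 0) * ∏ a, ∏ v ∈ g a, hR D t R b (unR R.c' g) a v := by
        intro A _
        rw [gmob_aux, Finset.sum_mul]
        refine Finset.sum_congr rfl fun R' _ => ?_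
        rw [mul_assoc]
        congr 2
        by_cases h : L ⊆ A \ R'
        · rw [if_pos h, if_pos ⟨(hiff _).2 h, h2⟩]
        · rw [if_neg h, if_neg fun h' => h ((hiff _).1 h'.1)]
      rw [Finset.sum_congr rfl e1, ← Finset.sum_mul, Finset.sum_ite_eq]
      congr 1
      by_cases h : PP L
      · rw [if_neg fun h' => h'.1 h, if_neg]
        intro h'
        exact (Finset.mem_filter.1 h').2 h
      · rw [if_pos ⟨h, h2⟩, if_pos]
        rw [Finset.mem_filter, Finset.mem_powerset]
        exact ⟨hLS, h⟩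
    · rw [if_neg fun h' => h2 h'.2, zero_mul]
      symm
      refine Finset.sum_eq_zero fun A _ => Finset.sum_eq_zero fun R' _ => ?_
      rw [if_neg fun h' => h2 h'.2, zero_mul, mul_zero]
  · simp only [if_neg hC, mul_zero, Finset.sum_const_zero]

end H77.GN
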