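import Pool.Agent.H77.GN.GDef

/-!
# [H77 GN GTRV] small `Y`, 40-80 lines (as Trv in H77/AB)

For `Y ≤ Y₀`: `SWS ≤ C`, `C` independent of `b`, `E`, `Y`. The families `f` have `f k ∈ GF D Y ⊆ AF K Y₀` (`mem_AF`, a finite set independent of `b, E`), so there are at most `(#AF K Y₀)^N`; the factors are in `[0, #Θ_k]` (`t.q0`: `q ≥ 1`), `#(f k) ≤ Q`, `Q = ⌈Y₀⌉` (`2^{#n} ≤ nr n ≤ Y₀`: `two_pow_le_nr` in H63/MA/AFin). `sws_nonneg`: all terms are `≥ 0`. `sws_empty`: for `S = ∅` only `f = ∅` contributes: `SWS ≤ 1`.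
-/

set_option autoImplicit false

open scoped NumberField
open IsDedekindDomain
open scoped Classical

noncomputable section

namespace H77.GN

open H63.MA H38.BB H77.AB

variable {K : Type} [Field K] [NumberField K] {p : ℕ} {ζ : K} {m N β : ℕ}

private theorem GTrv_nonneg (D : RD0 K p ζ) {c : CR p m N} (t : TD c β) (S : Finset (Fin β))
    (b : Fin m → Kˣ) (E : Finset (Pl K)) (Y : ℝ) (f : Fin N → Finset (Pl K)) :
    0 ≤ swS D t S b E Y f := by
  unfold swS
  split_ifs
  · rw [one_mul]
    refine Finset.prod_nonneg fun k _ => Finset.prod_nonneg fun v _ => ?_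
    split_ifs
    · positivity
    · exact le_refl 0
  · rw [zero_mul]
  · exact le_refl 0

theorem sws_nonneg (D : RD0 K p ζ) {c : CR p m N} (t : TD c β) (S : Finset (Fin β))
    (b : Fin m → Kˣ) (E : Finset (Pl K)) (Y : ℝ) : 0 ≤ SWS D t S b E Y := by
  unfold SWS
  refine Finset.sum_nonneg fun f _ => ?_
  exact GTrv_nonneg D t S b E Y f

theorem sws_empty (D : RD0 K p ζ) {c : CR p m N} (t : TD c β)
    (b : Fin m → Kˣ) (E : Finset (Pl K)) (Y : ℝ) : SWS D t ∅ b E Y ≤ 1 := by
  unfold SWS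
  have key : ∀ f ∈ Fintype.piFinset (fun _ : Fin N => GF D Y), swS D t ∅ b E Y f ≤
      if f = (fun _ => ∅) then 1 else 0 := by
    intro f _
    by_cases hf : f = fun _ => ∅
    · rw [if_pos hf, hf]
      unfold swS
      split_ifs <;> simp
    · rw [if_neg hf]
      unfold swS
      split_ifs with h1 h2
      · exfalso
        apply hf
        funext k
        exact h2.1 k (Finset.notMem_empty _)
      · rw [zero_mul]
      · exact le_refl 0
  refine (Finset.sum_le_sum key).trans ?_
  rw [Finset.sum_ite_eq']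
  split_ifs
  · exact le_refl 1
  · exact zero_le_one

theorem gtrv [NeZero p] (D : RD0 K p ζ) {c : CR p m N} (t : TD c β) (S : Finset (Fin β))
    (Y₀ : ℝ) : ∃ C : ℝ, 0 < C ∧ ∀ (b : Fin m → Kˣ) (E : Finset (Pl K)) (Y : ℝ),
      Y ≤ Y₀ → SWS D t S b E Y ≤ C := by
  set B : Fin N → ℝ := fun i => (Nat.card (c.Θ i) : ℝ) with hB
  have hB1 : ∀ i, 1 ≤ B i := by
    intro i
    have : 0 < Nat.card (c.Θ i) := Nat.card_pos
    change (1 : ℝ) ≤ (Nat.card (c.Θ i) : ℝ)
    exact_mod_cast this
  set P : ℝ := ∏ i, B i ^ ⌈Y₀⌉₊ with hP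
  have hP1 : 1 ≤ P := by
    rw [hP, ← Finset.prod_const_one (s := (Finset.univ : Finset (Fin N)))]
    exact Finset.prod_le_prod (fun _ _ => zero_le_one) fun i _ => one_le_pow₀ (hB1 i)
  refine ⟨((AF K Y₀).card : ℝ) ^ N * P + 1, by positivity, ?_⟩
  intro b E Y hY
  unfold SWS
  have hsub : GF D Y ⊆ AF K Y₀ := by
    intro n hn
    rw [GF, Finset.mem_filter, mem_AF] at hn
    exact mem_AF.2 (hn.1.trans hY)
  have hterm : ∀ f ∈ Fintype.piFinset (fun _ : Fin N => GF D Y), swS D t S b E Y f ≤ P := by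
    intro f hf
    rw [Fintype.mem_piFinset] at hf
    unfold swS
    split_ifs with h1 h2
    · rw [one_mul, hP]
      refine Finset.prod_le_prod (fun i _ => Finset.prod_nonneg fun v _ => ?_) fun i _ => ?_
      · split_ifs
        · positivity
        · exact le_refl 0
      · have hq : (1 : ℝ) ≤ (t.q (t.ty i) : ℝ) := by exact_mod_cast t.q0 (t.ty i)
        refine (Finset.prod_le_prod (g := fun _ => B i) (fun v _ => ?_) fun v _ => ?_).trans ?_
        · split_ifs
          · positivity
          · exact le_refl 0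
        · split_ifs
          · exact div_le_self (Nat.cast_nonneg _) hq
          · exact zero_le_one.trans (hB1 i)
        · rw [Finset.prod_const]
          refine pow_le_pow_right₀ (hB1 i) ?_
          have h1 : nr (f i) ≤ Y₀ := mem_AF.1 (hsub (hf i))
          have h2 : ((f i).card : ℝ) ≤ (2 : ℝ) ^ (f i).card := by
            exact_mod_cast (Nat.lt_two_pow_self (n := (f i).card)).le
          have h3 : ((f i).card : ℝ) ≤ (⌈Y₀⌉₊ : ℝ) :=
            (h2.trans ((two_pow_le_nr (f i)).trans h1)).trans (Nat.le_ceil Y₀)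
          exact_mod_cast h3
    · rw [zero_mul]
      exact zero_le_one.trans hP1
    · exact zero_le_one.trans hP1
  have h1 := Finset.sum_le_sum hterm
  rw [Finset.sum_const, nsmul_eq_mul, Fintype.card_piFinset, Finset.prod_const,
    Finset.card_univ, Fintype.card_fin] at h1
  have h2 : (((GF D Y).card ^ N : ℕ) : ℝ) ≤ ((AF K Y₀).card : ℝ) ^ N := by
    exact_mod_cast Nat.pow_le_pow_left (Finset.card_le_card hsub) N
  have h3 := mul_le_mul_of_nonneg_right h2 (zero_le_one.trans hP1)
  refine h1.trans (h3.trans ?_)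
  linarith

end H77.GN
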