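import Pool.Agent.H77.GN.GOtT
import Pool.Agent.H77.GN.GExA
import Pool.Agent.H77.GN.GTrv
import Pool.Agent.H77.AB.P1

/-!
# [H77 GN GOTA] the part where all variables of a type outside `A` are small: partial resummation, 220-320 lines (compare MxA, MxB, P1 in H77/AB)

`A ⊆ S`, `1 ≤ T ≤ Y`. `|RFS (SmQ ty A T)| ≤ ∑_x SWS(A) (akR b (unR x)) (E ∪ ⋃ x) (Y / ∏ nr (x a))`, the sum over the families `x : c'.J → GF T` with `x a = ∅` for `ty a.1 ∈ A`.

Proof. (1) Mixed expansion: let `Xs = {k : ty k ∉ A}` and use `Mx R.c' Xs`, `toMx`, `Mx.cl` (WDef in H77/AB) and the lemmas `mxb_un`, `mxb_toMx_inl`, `mxb_toMx_inr`, `mxb_inl` of H77/AB/MxB. `part` (H77/AB/Part) with `κ = Mx R.c' Xs`, `ι = R.c'.J`, `cl = toMx R.c' Xs`, `F g' = [SmQ' g'] [unC Mx.cl g' k = ∅ for ty k ∉ S] [SpV t b (unC Mx.cl g')]` (`SmQ' g'`: `nr (g' (inl a)) ≤ T` for all `a`),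
`h g' a v = hR D t R b (unC Mx.cl g') a v`: `RFS` is the sum over the `g' : Mx → GF Y` of `F g' * ∏_{a'} ∏_{v ∈ g' a'} ∑_{a, toMx a = a'} h g' a v` (`unC (toMx) g (inl a) = g a`, `unC Mx.cl (unC toMx g) = unR c' g`). For `a' = inl a` the inner sum is `hR … a v`, of absolute value `≤ 1` (`om_le` with `t.q0`, `R.hcard`); for `a' = inr k` (`ty k ∈ A`) and `F g' ≠ 0` it is by `gexa_term` the real number `w_k(v) = (#Θ_k / q) [Θ_k ⊥ LL v (akR b f)] ≥ 0`, `f = unC Mx.cl g'`.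
(2) Absolute values: `|RFS| ≤ ∑_{g'} [conditions] ∏_{k, ty k ∈ A} ∏_{v ∈ g' (inr k)} w_k(v)`. (3) `g'` is a pair `(x, r)`, `x a = g' (inl a)`, extended by `∅` to all of `c'.J`, `x a ∈ GF T`; `r k = g' (inr k)` (compare `p1_split` in H77/AB/P1, private: copy). `f = unC Mx.cl g'` has `fou ty A f = unR c' x`, `fin ty A f k = r k` (`ty k ∈ A`), `∅` otherwise. With `b' = akR D c b (unR c' x)`, `E' = E ∪ ⋃ x`, `Y' = Y / ∏ nr (x a)`: `f` pairwise disjoint etc. implies that `fin ty A f` is a pairwise disjoint family in `GF Y'`, disjoint from `E'`, with product of norms `≤ Y'`, supported on the types in `A`,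
`SpV t b' (fin ty A f)` (`gott_sp`; the primes of `f` are good, so outside `S0`) and `akR D c b f = akR D c b' (fin ty A f)` (`gott_ak`). So for fixed `x` the sum over `r` is at most `SWS D t A b' E' Y'` (all its terms are `≥ 0`; `r ↦ fin ty A f` is injective).
-/

set_option autoImplicit false

open scoped NumberField
open IsDedekindDomain
open scoped Classical

noncomputable section

namespace H77.GN

open H63.MA H38.BB H77.AB

variable {K : Type} [Field K] [NumberField K] {p : ℕ} {ζ : K} {m N β : ℕ}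

/-- the classes of a type outside `A` -/
def gotaX (ty : Fin N → Fin β) (A : Finset (Fin β)) : Finset (Fin N) :=
  Finset.univ.filter fun k => ty k ∉ A

theorem gota_X {ty : Fin N → Fin β} {A : Finset (Fin β)} {k : Fin N} :
    k ∈ gotaX ty A ↔ ty k ∉ A := by
  unfold gotaX
  rw [Finset.mem_filter]
  exact ⟨fun h => h.2, fun h => ⟨Finset.mem_univ _, h⟩⟩

/-- the small variables of a mixed family -/
def gotax {c : CR p m N} {Xs : Finset (Fin N)} (g : Mx c Xs → Finset (Pl K)) (a : c.J) :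
    Finset (Pl K) := if h : a.1 ∈ Xs then g (Sum.inl ⟨a, h⟩) else ∅

theorem gota_x_pos {c : CR p m N} {Xs : Finset (Fin N)} (g : Mx c Xs → Finset (Pl K)) (a : c.J)
    (h : a.1 ∈ Xs) : gotax g a = g (Sum.inl ⟨a, h⟩) := dif_pos h

theorem gota_x_neg {c : CR p m N} {Xs : Finset (Fin N)} (g : Mx c Xs → Finset (Pl K)) (a : c.J)
    (h : a.1 ∉ Xs) : gotax g a = ∅ := dif_neg h

theorem gota_un [NeZero p] {c : CR p m N} {ty : Fin N → Fin β} {A : Finset (Fin β)}
    (g : Mx c (gotaX ty A) → Finset (Pl K)) :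
    unR c (gotax g) = fou ty A (unC Mx.cl g) := by
  funext k
  ext v
  rw [rx_mem]
  unfold fou
  constructor
  · rintro ⟨a, ha, hv⟩
    by_cases h : a.1 ∈ gotaX ty A
    · rw [gota_x_pos g a h] at hv
      have h1 : ty k ∉ A := by
        rw [← ha]
        exact gota_X.1 h
      rw [if_neg h1]
      exact mxb_mem.2 ⟨Sum.inl ⟨a, h⟩, ha, hv⟩
    · rw [gota_x_neg g a h] at hv
      exact absurd hv (Finset.notMem_empty v)
  · intro hv
    by_cases h1 : ty k ∈ A
    · rw [if_pos h1] at hv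
      exact absurd hv (Finset.notMem_empty v)
    · rw [if_neg h1] at hv
      obtain ⟨a, ha, hv⟩ := mxb_mem.1 hv
      rcases a with a | i
      · refine ⟨a.1, ha, ?_⟩
        rw [gota_x_pos g a.1 a.2]
        exact hv
      · exfalso
        have h2 : i.1 = k := ha
        apply i.2
        rw [h2]
        exact gota_X.2 h1

theorem gota_fin [NeZero p] {c : CR p m N} {ty : Fin N → Fin β} {A : Finset (Fin β)}
    (g : Mx c (gotaX ty A) → Finset (Pl K)) (k : {k : Fin N // k ∉ gotaX ty A}) :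
    fin ty A (unC Mx.cl g) k.1 = g (Sum.inr k) := by
  have h1 : ty k.1 ∈ A := by
    by_contra h
    exact k.2 (gota_X.2 h)
  unfold fin
  rw [if_pos h1]
  ext v
  constructor
  · intro hv
    obtain ⟨a, ha, hv⟩ := mxb_mem.1 hv
    rcases a with a | i
    · exfalso
      have h2 : a.1.1 = k.1 := ha
      apply k.2
      rw [← h2]
      exact a.2
    · have h2 : i = k := Subtype.ext ha
      rw [← h2]
      exact hv
  · intro hv
    exact mxb_mem.2 ⟨Sum.inr k, rfl, hv⟩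

/-- the weight of a class at a prime -/
def gotaw (D : RD0 K p ζ) {c : CR p m N} (t : TD c β) (F : Fin m → Kˣ) (k : Fin N) (v : Pl K) :
    ℝ :=
  if ∀ θ ∈ c.Θ k, dt θ (fun j => D.LL v (F j)) = 0 then
    (Nat.card (c.Θ k) : ℝ) / (t.q (t.ty k) : ℝ) else 0

theorem gota_w0 (D : RD0 K p ζ) {c : CR p m N} (t : TD c β) (F : Fin m → Kˣ) (k : Fin N)
    (v : Pl K) : 0 ≤ gotaw D t F k v := by
  unfold gotaw
  split_ifs
  · positivity
  · exact le_refl 0

/-- the norm of the factor of a mixed index -/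
theorem gota_norm [NeZero p] (hp : p.Prime) (hζ : IsPrimitiveRoot ζ p) (D : RD0 K p ζ)
    {c : CR p m N} (t : TD c β) {S : Finset (Fin β)} (R : Rd c t S) (A : Finset (Fin β))
    (b : Fin m → Kˣ) (E : Finset (Pl K)) (Y : ℝ)
    (g : Mx R.c' (gotaX t.ty A) → Finset (Pl K)) (hg : ∀ a, g a ∈ GF D Y)
    (hf : ∀ k, t.ty k ∉ S → unC Mx.cl g k = ∅) :
    ‖∏ i, ∏ v ∈ g i, ∑ a ∈ Finset.univ.filter (fun a => toMx R.c' (gotaX t.ty A) a = i),
        hR D t R b (unC Mx.cl g) a v‖ ≤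
      ∏ k : {k : Fin N // k ∉ gotaX t.ty A}, ∏ v ∈ g (Sum.inr k),
        gotaw D t (akR D c b (unC Mx.cl g)) k.1 v := by
  have h1 : ‖∏ i, ∏ v ∈ g i, ∑ a ∈ Finset.univ.filter
        (fun a => toMx R.c' (gotaX t.ty A) a = i), hR D t R b (unC Mx.cl g) a v‖ =
      (∏ i : {a : R.c'.J // a.1 ∈ gotaX t.ty A}, ∏ v ∈ g (Sum.inl i),
        ‖∑ a ∈ Finset.univ.filter (fun a => toMx R.c' (gotaX t.ty A) a = Sum.inl i),
          hR D t R b (unC Mx.cl g) a v‖) *
      ∏ k : {k : Fin N // k ∉ gotaX t.ty A}, ∏ v ∈ g (Sum.inr k),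
        ‖∑ a ∈ Finset.univ.filter (fun a => toMx R.c' (gotaX t.ty A) a = Sum.inr k),
          hR D t R b (unC Mx.cl g) a v‖ := by
    rw [norm_prod]
    simp only [norm_prod]
    exact Fintype.prod_sum_type _
  rw [h1]
  have h2 : ∀ (k : {k : Fin N // k ∉ gotaX t.ty A}), ∀ v ∈ g (Sum.inr k),
      ‖∑ a ∈ Finset.univ.filter (fun a => toMx R.c' (gotaX t.ty A) a = Sum.inr k),
          hR D t R b (unC Mx.cl g) a v‖ = gotaw D t (akR D c b (unC Mx.cl g)) k.1 v := by
    intro k v hv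
    have h3 : (Finset.univ.filter fun a : R.c'.J => toMx R.c' (gotaX t.ty A) a = Sum.inr k) =
        Finset.univ.filter fun a : R.c'.J => a.1 = k.1 := by
      ext a
      rw [Finset.mem_filter, Finset.mem_filter, mxb_toMx_inr]
    have h4 : ∑ a ∈ Finset.univ.filter (fun a => toMx R.c' (gotaX t.ty A) a = Sum.inr k),
          hR D t R b (unC Mx.cl g) a v = ((gotaw D t (akR D c b (unC Mx.cl g)) k.1 v : ℝ) : ℂ) := by
      rw [h3]
      refine (gexa_term hp hζ D t R b (unC Mx.cl g) hf k.1 v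
        ((rx_mem_GF.1 (hg _)).2 v hv).1).trans ?_
      refine congrArg (fun z : ℝ => (z : ℂ)) ?_
      unfold gotaw
      by_cases hh : ∀ θ ∈ c.Θ k.1, dt θ (fun j => D.LL v (akR D c b (unC Mx.cl g) j)) = 0
      · rw [if_pos hh, if_pos hh]
      · rw [if_neg hh, if_neg hh]
    rw [h4, Complex.norm_real, Real.norm_eq_abs, abs_of_nonneg (gota_w0 D t _ _ _)]
  have h5 : ∀ (i : {a : R.c'.J // a.1 ∈ gotaX t.ty A}) (v : Pl K),
      ‖∑ a ∈ Finset.univ.filter (fun a => toMx R.c' (gotaX t.ty A) a = Sum.inl i),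
          hR D t R b (unC Mx.cl g) a v‖ ≤ 1 := by
    intro i v
    have h3 : (Finset.univ.filter fun a : R.c'.J => toMx R.c' (gotaX t.ty A) a = Sum.inl i) =
        {i.1} := by
      ext a
      rw [Finset.mem_filter, mxb_toMx_inl, Finset.mem_singleton]
      simp
    rw [h3, Finset.sum_singleton]
    unfold hR
    have h4 := om_le D t.q R.Δ b (t.ty i.1.1) (t.q0 _) (R.hcard _) v
    rw [norm_mul, ep_norm, mul_one, Complex.norm_real, Real.norm_eq_abs, abs_of_nonneg h4.1]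
    exact h4.2
  have h6 : (∏ k : {k : Fin N // k ∉ gotaX t.ty A}, ∏ v ∈ g (Sum.inr k),
        ‖∑ a ∈ Finset.univ.filter (fun a => toMx R.c' (gotaX t.ty A) a = Sum.inr k),
          hR D t R b (unC Mx.cl g) a v‖) =
      ∏ k : {k : Fin N // k ∉ gotaX t.ty A}, ∏ v ∈ g (Sum.inr k),
        gotaw D t (akR D c b (unC Mx.cl g)) k.1 v :=
    Finset.prod_congr rfl fun k _ => Finset.prod_congr rfl fun v hv => h2 k v hv
  rw [h6]
  refine mul_le_of_le_one_left ?_ ?_
  · exact Finset.prod_nonneg fun i _ => Finset.prod_nonneg fun v _ => gota_w0 D t _ _ v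
  · exact Finset.prod_le_one (fun a _ => Finset.prod_nonneg fun v _ => norm_nonneg _)
      fun a _ => Finset.prod_le_one (fun v _ => norm_nonneg _) fun v _ => h5 a v

/-- the terms of `SWS` are nonnegative -/
theorem gota_sw0 (D : RD0 K p ζ) {c : CR p m N} (t : TD c β) (S : Finset (Fin β))
    (b : Fin m → Kˣ) (E : Finset (Pl K)) (Y : ℝ) (f : Fin N → Finset (Pl K)) :
    0 ≤ swS D t S b E Y f := by
  unfold swS
  split_ifs
  · rw [one_mul]
    refine Finset.prod_nonneg fun k _ => Finset.prod_nonneg fun v _ => ?_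
    split_ifs
    · positivity
    · exact le_refl 0
  · rw [zero_mul]
  · exact le_refl 0

/-- the good mixed families -/
def gotaC [NeZero p] (D : RD0 K p ζ) {c : CR p m N} (t : TD c β) {S : Finset (Fin β)}
    (R : Rd c t S)
    (A : Finset (Fin β)) (b : Fin m → Kˣ) (E : Finset (Pl K)) (Y T : ℝ)
    (g : Mx R.c' (gotaX t.ty A) → Finset (Pl K)) : Prop :=
  (Dj g ∧ (∀ a, Disjoint (g a) E) ∧ ∏ a, nr (g a) ≤ Y) ∧
    (∀ a : {a : R.c'.J // a.1 ∈ gotaX t.ty A}, nr (g (Sum.inl a)) ≤ T) ∧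
    (∀ k, t.ty k ∉ S → unC Mx.cl g k = ∅) ∧ SpV t b (unC Mx.cl g)

theorem gota_xdj [NeZero p] {c : CR p m N} {Xs : Finset (Fin N)}
    (g : Mx c Xs → Finset (Pl K)) (hg : Dj g) : Dj (gotax g) := by
  intro a a' hne
  by_cases h : a.1 ∈ Xs
  · by_cases h' : a'.1 ∈ Xs
    · rw [gota_x_pos g a h, gota_x_pos g a' h']
      refine hg _ _ fun he => hne ?_
      exact congrArg Subtype.val (Sum.inl.inj he)
    · rw [gota_x_neg g a' h']
      exact Finset.disjoint_empty_right _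
  · rw [gota_x_neg g a h]
    exact Finset.disjoint_empty_left _

theorem gota_nr [NeZero p] {c : CR p m N} {ty : Fin N → Fin β} {A : Finset (Fin β)}
    (g : Mx c (gotaX ty A) → Finset (Pl K)) (hg : Dj g) :
    ∏ a, nr (g a) = (∏ a, nr (gotax g a)) * ∏ k, nr (fin ty A (unC Mx.cl g) k) := by
  rw [← part_nr Mx.cl g hg, ← rx_nr c (gotax g) (gota_xdj g hg), gota_un g,
    ← Finset.prod_mul_distrib]
  refine Finset.prod_congr rfl fun k _ => ?_
  have h0 : nr (∅ : Finset (Pl K)) = 1 := Finset.prod_empty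
  unfold fou fin
  by_cases h : ty k ∈ A
  · rw [if_pos h, if_pos h, h0, one_mul]
  · rw [if_neg h, if_neg h, h0, mul_one]

theorem gota_one_le {ι : Type} [Fintype ι] (f : ι → Finset (Pl K)) : 1 ≤ ∏ i, nr (f i) := by
  calc (1 : ℝ) = ∏ _i : ι, (1 : ℝ) := by rw [Finset.prod_const_one]
    _ ≤ _ := Finset.prod_le_prod (fun _ _ => zero_le_one) fun i _ => one_le_nr (f i)

theorem gota_single {ι : Type} [Fintype ι] (f : ι → Finset (Pl K)) (i : ι) :
    nr (f i) ≤ ∏ j, nr (f j) := by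
  rw [← Finset.mul_prod_erase Finset.univ (fun j => nr (f j)) (Finset.mem_univ i)]
  refine le_mul_of_one_le_right (akb_nr_pos _).le ?_
  calc (1 : ℝ) = ∏ _j ∈ Finset.univ.erase i, (1 : ℝ) := by rw [Finset.prod_const_one]
    _ ≤ _ := Finset.prod_le_prod (fun _ _ => zero_le_one) fun j _ => one_le_nr (f j)

/-- the value of the term of a good mixed family -/
theorem gota_val [NeZero p] (D : RD0 K p ζ) {c : CR p m N} (t : TD c β) {S : Finset (Fin β)}
    (R : Rd c t S) (A : Finset (Fin β)) (b : Fin m → Kˣ) (E : Finset (Pl K)) (hb : BS2 D b E)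
    (Y T : ℝ) (g : Mx R.c' (gotaX t.ty A) → Finset (Pl K)) (hg : ∀ a, g a ∈ GF D Y)
    (hC : gotaC D t R A b E Y T g) :
    (∏ k : {k : Fin N // k ∉ gotaX t.ty A}, ∏ v ∈ g (Sum.inr k),
        gotaw D t (akR D c b (unC Mx.cl g)) k.1 v) =
      swS D t A (akR D c b (unR R.c' (gotax g))) (E ∪ Finset.univ.biUnion (gotax g))
        (Y / ∏ a, nr (gotax g a)) (fin t.ty A (unC Mx.cl g)) := by
  obtain ⟨⟨hdj, hE, hY⟩, -, -, hsp⟩ := hC
  set f : Fin N → Finset (Pl K) := unC Mx.cl g with hf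
  have hdf : Dj f := part_dj hdj
  have hfE : ∀ k, Disjoint (f k) E := (part_disj Mx.cl g E).2 hE
  have hf0 : ∀ k, ∀ v ∈ f k, v ∉ D.S0 := by
    intro k v hv
    obtain ⟨a, -, hv⟩ := mxb_mem.1 hv
    exact ((rx_mem_GF.1 (hg a)).2 v hv).1
  have hsub : ∀ k, fin t.ty A f k ⊆ f k := by
    intro k
    unfold fin
    by_cases h : t.ty k ∈ A
    · rw [if_pos h]
    · rw [if_neg h]
      exact Finset.empty_subset _
  have hxp : 0 < ∏ a, nr (gotax g a) := Finset.prod_pos fun a _ => akb_nr_pos _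
  have c1 : Dj (fin t.ty A f) := fun i j hij => (hdf i j hij).mono (hsub i) (hsub j)
  have c2 : ∀ k, Disjoint (fin t.ty A f k) (E ∪ Finset.univ.biUnion (gotax g)) := by
    intro k
    rw [Finset.disjoint_union_right]
    refine ⟨(hfE k).mono_left (hsub k), ?_⟩
    by_cases h : t.ty k ∈ A
    · have h1 : k ∉ gotaX t.ty A := fun h2 => gota_X.1 h2 h
      have h2 := gota_fin g ⟨k, h1⟩
      rw [hf]
      have h3 : fin t.ty A (unC Mx.cl g) k = g (Sum.inr ⟨k, h1⟩) := h2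
      rw [h3, Finset.disjoint_biUnion_right]
      intro a _
      by_cases h4 : a.1 ∈ gotaX t.ty A
      · rw [gota_x_pos g a h4]
        exact hdj _ _ (by simp)
      · rw [gota_x_neg g a h4]
        exact Finset.disjoint_empty_right _
    · unfold fin
      rw [if_neg h]
      exact Finset.disjoint_empty_left _
  have c3 : ∏ k, nr (fin t.ty A f k) ≤ Y / ∏ a, nr (gotax g a) := by
    rw [le_div_iff₀ hxp, mul_comm, ← gota_nr g hdj]
    exact hY
  have c4 : ∀ k, t.ty k ∉ A → fin t.ty A f k = ∅ := by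
    intro k hk
    unfold fin
    rw [if_neg hk]
  have c5 : SpV t (akR D c b (unR R.c' (gotax g))) (fin t.ty A f) := by
    rw [gota_un g]
    exact gott_sp D t A b E hb f hdf hf0 hfE hsp
  have c6 : akR D c b f =
      akR D c (akR D c b (unR R.c' (gotax g))) (fin t.ty A f) := by
    funext j
    rw [gota_un g]
    exact gott_ak D c t.ty A b f j
  unfold swS
  rw [if_pos ⟨c1, c2, c3⟩, if_pos ⟨c4, c5⟩, one_mul, ← c6]
  have h1 : ∀ k : {k : Fin N // k ∉ gotaX t.ty A},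
      ∏ v ∈ g (Sum.inr k), gotaw D t (akR D c b f) k.1 v =
      (fun k : Fin N => ∏ v ∈ fin t.ty A f k, gotaw D t (akR D c b f) k v) k.1 := by
    intro k
    show _ = ∏ v ∈ fin t.ty A f k.1, gotaw D t (akR D c b f) k.1 v
    rw [hf, gota_fin g k]
  rw [Finset.prod_congr rfl fun k _ => h1 k]
  rw [← Finset.prod_subtype (Finset.univ.filter fun k => k ∉ gotaX t.ty A) (by simp)
    (fun k : Fin N => ∏ v ∈ fin t.ty A f k, gotaw D t (akR D c b f) k v)]
  refine Finset.prod_subset (Finset.subset_univ _) fun k _ hk => ?_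
  have h2 : k ∈ gotaX t.ty A := by
    by_contra h
    exact hk (Finset.mem_filter.2 ⟨Finset.mem_univ _, h⟩)
  rw [c4 k (gota_X.1 h2), Finset.prod_empty]

/-- the mixed expansion -/
theorem gota_exp [NeZero p] (D : RD0 K p ζ)
    {c : CR p m N} (t : TD c β) {S : Finset (Fin β)} (R : Rd c t S) (A : Finset (Fin β))
    (b : Fin m → Kˣ) (E : Finset (Pl K)) (Y T : ℝ) :
    RFS D t R b E Y (SmQ t.ty A T) =
      ∑ g ∈ Fintype.piFinset (fun _ : Mx R.c' (gotaX t.ty A) => GF D Y),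
        if gotaC D t R A b E Y T g then
          ∏ i, ∏ v ∈ g i, ∑ a ∈ Finset.univ.filter
            (fun a => toMx R.c' (gotaX t.ty A) a = i), hR D t R b (unC Mx.cl g) a v else 0 := by
  have hpart := part (ι := R.c'.J) (κ := Mx R.c' (gotaX t.ty A)) D (toMx R.c' (gotaX t.ty A)) E Y
    (fun g => if (∀ a : {a : R.c'.J // a.1 ∈ gotaX t.ty A}, nr (g (Sum.inl a)) ≤ T) ∧
      (∀ k, t.ty k ∉ S → unC Mx.cl g k = ∅) ∧ SpV t b (unC Mx.cl g) then 1 else 0)
    (fun g a v => hR D t R b (unC Mx.cl g) a v)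
  have h1 : RFS D t R b E Y (SmQ t.ty A T) = ∑ g ∈ Fintype.piFinset (fun _ : R.c'.J => GF D Y),
      if Dj g ∧ (∀ a, Disjoint (g a) E) ∧ ∏ a, nr (g a) ≤ Y then
        (fun g : Mx R.c' (gotaX t.ty A) → Finset (Pl K) =>
          if (∀ a : {a : R.c'.J // a.1 ∈ gotaX t.ty A}, nr (g (Sum.inl a)) ≤ T) ∧
          (∀ k, t.ty k ∉ S → unC Mx.cl g k = ∅) ∧ SpV t b (unC Mx.cl g) then (1 : ℂ) else 0)
          (unC (toMx R.c' (gotaX t.ty A)) g) *
          ∏ a, ∏ v ∈ g a, (fun (g : Mx R.c' (gotaX t.ty A) → Finset (Pl K)) a v =>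
            hR D t R b (unC Mx.cl g) a v) (unC (toMx R.c' (gotaX t.ty A)) g) a v else 0 := by
    unfold RFS
    refine Finset.sum_congr rfl fun g _ => ?_
    have h2 : SmQ t.ty A T g ↔ ∀ a : {a : R.c'.J // a.1 ∈ gotaX t.ty A},
        nr (unC (toMx R.c' (gotaX t.ty A)) g (Sum.inl a)) ≤ T := by
      unfold SmQ
      constructor
      · intro h a
        rw [mxb_inl]
        exact h a.1 (gota_X.1 a.2)
      · intro h a ha
        have := h ⟨a, gota_X.2 ha⟩
        rw [mxb_inl] at this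
        exact this
    simp only [mxb_un]
    by_cases hc : Dj g ∧ (∀ a, Disjoint (g a) E) ∧ ∏ a, nr (g a) ≤ Y
    · rw [if_pos hc, if_pos hc]
      congr 1
      exact if_congr (and_congr_left' h2) rfl rfl
    · rw [if_neg hc, if_neg hc]
  rw [h1, ← hpart]
  refine Finset.sum_congr rfl fun g _ => ?_
  unfold gotaC
  by_cases h2 : Dj g ∧ (∀ a, Disjoint (g a) E) ∧ ∏ a, nr (g a) ≤ Y
  · rw [if_pos h2]
    by_cases h3 : (∀ a : {a : R.c'.J // a.1 ∈ gotaX t.ty A}, nr (g (Sum.inl a)) ≤ T) ∧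
      (∀ k, t.ty k ∉ S → unC Mx.cl g k = ∅) ∧ SpV t b (unC Mx.cl g)
    · rw [if_pos h3, if_pos ⟨h2, h3⟩, one_mul]
    · rw [if_neg h3, if_neg (fun h => h3 h.2), zero_mul]
  · rw [if_neg h2, if_neg (fun h => h2 h.1)]

theorem gota [NeZero p] (hp : p.Prime) (hζ : IsPrimitiveRoot ζ p) (D : RD K p ζ)
    {c : CR p m N} (t : TD c β) {S : Finset (Fin β)} (R : Rd c t S) (A : Finset (Fin β))
    (hA : A ⊆ S) (b : Fin m → Kˣ) (E : Finset (Pl K)) (hb : BS2 D.toRD0 b E) (Y T : ℝ)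
    (hT : 1 ≤ T) (hTY : T ≤ Y) :
    ‖RFS D.toRD0 t R b E Y (SmQ t.ty A T)‖ ≤
      ∑ x ∈ Fintype.piFinset (fun a : R.c'.J => if t.ty a.1 ∈ A then {∅} else GF D.toRD0 T),
        SWS D.toRD0 t A (akR D.toRD0 c b (unR R.c' x)) (E ∪ Finset.univ.biUnion x)
          (Y / ∏ a, nr (x a)) := by
  rw [gota_exp D.toRD0 t R A b E Y T]
  refine (norm_sum_le _ _).trans ?_
  have h1 : ∑ g ∈ Fintype.piFinset (fun _ : Mx R.c' (gotaX t.ty A) => GF D.toRD0 Y),
      ‖if gotaC D.toRD0 t R A b E Y T g then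
          ∏ i, ∏ v ∈ g i, ∑ a ∈ Finset.univ.filter
            (fun a => toMx R.c' (gotaX t.ty A) a = i),
              hR D.toRD0 t R b (unC Mx.cl g) a v else 0‖ ≤
      ∑ g ∈ (Fintype.piFinset (fun _ : Mx R.c' (gotaX t.ty A) => GF D.toRD0 Y)).filter
        (fun g => gotaC D.toRD0 t R A b E Y T g),
        swS D.toRD0 t A (akR D.toRD0 c b (unR R.c' (gotax g)))
          (E ∪ Finset.univ.biUnion (gotax g))
          (Y / ∏ a, nr (gotax g a)) (fin t.ty A (unC Mx.cl g)) := by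
    rw [Finset.sum_filter]
    refine Finset.sum_le_sum fun g hg => ?_
    rw [Fintype.mem_piFinset] at hg
    by_cases hC : gotaC D.toRD0 t R A b E Y T g
    · rw [if_pos hC, if_pos hC, ← gota_val D.toRD0 t R A b E hb Y T g hg hC]
      exact gota_norm hp hζ D.toRD0 t R A b E Y g hg hC.2.2.1
    · rw [if_neg hC, if_neg hC, norm_zero]
  refine h1.trans ?_
  set G := (Fintype.piFinset (fun _ : Mx R.c' (gotaX t.ty A) => GF D.toRD0 Y)).filter
        (fun g => gotaC D.toRD0 t R A b E Y T g) with hG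
  set P := Fintype.piFinset (fun a : R.c'.J => if t.ty a.1 ∈ A then {∅} else GF D.toRD0 T)
    with hP
  set Q : (R.c'.J → Finset (Pl K)) → Finset (Fin N → Finset (Pl K)) := fun x =>
    Fintype.piFinset (fun _ : Fin N => GF D.toRD0 (Y / ∏ a, nr (x a))) with hQ
  have h2 : ∑ x ∈ P, SWS D.toRD0 t A (akR D.toRD0 c b (unR R.c' x))
      (E ∪ Finset.univ.biUnion x) (Y / ∏ a, nr (x a)) =
      ∑ z ∈ P.sigma Q, swS D.toRD0 t A (akR D.toRD0 c b (unR R.c' z.1))
        (E ∪ Finset.univ.biUnion z.1) (Y / ∏ a, nr (z.1 a)) z.2 := by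
    rw [Finset.sum_sigma]
    rfl
  rw [h2]
  set φ : (Mx R.c' (gotaX t.ty A) → Finset (Pl K)) →
      (Σ _ : R.c'.J → Finset (Pl K), Fin N → Finset (Pl K)) := fun g =>
    ⟨gotax g, fin t.ty A (unC Mx.cl g)⟩ with hφ
  have hinj : Set.InjOn φ (G : Set (Mx R.c' (gotaX t.ty A) → Finset (Pl K))) := by
    intro g _ g' _ he
    rw [hφ] at he
    simp only [Sigma.mk.injEq, heq_eq_eq] at he
    obtain ⟨e1, e2⟩ := he
    funext a
    rcases a with a | k
    · have := congrFun e1 a.1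
      rw [gota_x_pos g a.1 a.2, gota_x_pos g' a.1 a.2] at this
      exact this
    · have := congrFun e2 k.1
      rw [gota_fin g k, gota_fin g' k] at this
      exact this
  have h3 : ∑ g ∈ G, swS D.toRD0 t A (akR D.toRD0 c b (unR R.c' (gotax g)))
          (E ∪ Finset.univ.biUnion (gotax g))
          (Y / ∏ a, nr (gotax g a)) (fin t.ty A (unC Mx.cl g)) =
      ∑ z ∈ G.image φ, swS D.toRD0 t A (akR D.toRD0 c b (unR R.c' z.1))
        (E ∪ Finset.univ.biUnion z.1) (Y / ∏ a, nr (z.1 a)) z.2 := by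
    rw [Finset.sum_image hinj]
  rw [h3]
  refine Finset.sum_le_sum_of_subset_of_nonneg ?_ fun z _ _ => gota_sw0 _ t _ _ _ _ _
  intro z hz
  obtain ⟨g, hg, rfl⟩ := Finset.mem_image.1 hz
  rw [hG, Finset.mem_filter, Fintype.mem_piFinset] at hg
  obtain ⟨hg, ⟨hdj, hE, hY⟩, hT', -, -⟩ := hg
  have hxp : 0 < ∏ a, nr (gotax g a) := Finset.prod_pos fun a _ => akb_nr_pos _
  rw [Finset.mem_sigma]
  constructor
  · show gotax g ∈ P
    rw [hP, Fintype.mem_piFinset]
    intro a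
    by_cases h : t.ty a.1 ∈ A
    · rw [if_pos h, Finset.mem_singleton]
      exact gota_x_neg g a fun h' => gota_X.1 h' h
    · rw [if_neg h, gota_x_pos g a (gota_X.2 h), rx_mem_GF]
      exact ⟨hT' _, (rx_mem_GF.1 (hg _)).2⟩
  · show fin t.ty A (unC Mx.cl g) ∈ Q (gotax g)
    rw [hQ]
    show fin t.ty A (unC Mx.cl g) ∈
      Fintype.piFinset (fun _ : Fin N => GF D.toRD0 (Y / ∏ a, nr (gotax g a)))
    rw [Fintype.mem_piFinset]
    intro k
    rw [rx_mem_GF]
    constructor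
    · refine (gota_single (fin t.ty A (unC Mx.cl g)) k).trans ?_
      rw [le_div_iff₀ hxp, mul_comm, ← gota_nr g hdj]
      exact hY
    · intro v hv
      unfold fin at hv
      by_cases h : t.ty k ∈ A
      · rw [if_pos h] at hv
        obtain ⟨a, -, hv⟩ := mxb_mem.1 hv
        exact (rx_mem_GF.1 (hg a)).2 v hv
      · rw [if_neg h] at hv
        exact absurd hv (Finset.notMem_empty v)

end H77.GN
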