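import Pool.Agent.H77.GN.GOtA
import Pool.Agent.H77.AB.Thr
import Pool.Agent.H77.AB.Num

/-!
# [H77 GN GOTB] the part where all variables of a type outside `A` are small: the bound, 100-160 lines

`|RFS (SmQ ty A T)| ≤ C (nr E)^η Y (log Y)^{#A - 1/2}`, `T = (log Y)^B`, if `SWS(A) ≤ C (nr E)^η' Y (1 + log Y)^{#A - 1}` for all `η' > 0`.

Proof. `gota` (`T ≤ Y` for large `Y`, `num` in H77/AB/Num). For `x` in the sum: `∏ nr (x a) ≤ T^{#J} ≤ Y^{1/8}` (`num`), `Y' = Y / ∏ nr (x a) ≥ Y^{1/2} ≥ 1`, `E' = E ∪ ⋃ x`, `nr E' ≤ nr E * T^{#J}` (`akb_nr_union`, `akb_nr_biUnion` in H63/MA/AKB). The hypothesis `BS2 D b' E'` for `b' = akR D c b (unR c' x)`: `gott_bs` for `f = unR c' x` (`⋃ unR x = ⋃ x`: `rx_mem`; the primes are good, so outside `S0`). The induction hypothesis with `η' = min η (1 / (4 B #J + 4))`: `≤ C₁ (nr E')^{η'} Y' (1 + log Y')^{#A - 1}`.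
`(1 + log Y')^{#A - 1} ≤ 2^{#A} (log Y)^{#A - 1}`: if `#A ≥ 1` from `1 + log Y' ≤ 2 log Y`; if `#A = 0` from `1 + log Y' ≥ (1/2) log Y`. `(nr E')^{η'} ≤ (nr E)^η (log Y)^{1/4}` (`T^{#J} = (log Y)^{B #J}`). The sum over `x` of `(∏ nr (x a))^{-1}` is at most `C₂ (1 + log T)^{#J}` (`thr_sum` in H77/AB/Thr with `Lg = {a : ty a.1 ∈ A}`, `sn Lg x = ∏_a nr (x a)` because `nr ∅ = 1`) `≤ C₂ (log Y)^{1/4}` (`num` with `ε = 1/4`). Total exponent `#A - 1 + 1/4 + 1/4`.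
-/

set_option autoImplicit false

open scoped NumberField
open IsDedekindDomain
open scoped Classical

noncomputable section

namespace H77.GN

open H63.MA H38.BB H77.AB

variable {K : Type} [Field K] [NumberField K] {p : ℕ} {ζ : K} {m N β : ℕ}

private theorem gotb_log {l l' : ℝ} (hl : 1 ≤ l) (h1 : l / 2 ≤ l') (h2 : l' ≤ l) (n : ℕ) :
    (1 + l') ^ ((n : ℝ) - 1) ≤ 2 ^ (n + 1) * l ^ ((n : ℝ) - 1) := by
  have hl0 : 0 < l := by linarith
  rcases Nat.eq_zero_or_pos n with h | h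
  · rw [h, Nat.cast_zero, zero_sub, Real.rpow_neg_one, Real.rpow_neg_one, zero_add, pow_one,
      ← div_eq_mul_inv, inv_eq_one_div, div_le_div_iff₀ (by linarith) hl0]
    linarith
  · have h3 : (1 : ℝ) ≤ n := by exact_mod_cast h
    have h4 : (1 + l') ^ ((n : ℝ) - 1) ≤ (2 * l) ^ ((n : ℝ) - 1) :=
      Real.rpow_le_rpow (by linarith) (by linarith) (by linarith)
    rw [Real.mul_rpow (by norm_num) hl0.le] at h4
    have h5 : (2 : ℝ) ^ ((n : ℝ) - 1) ≤ 2 ^ (n + 1) := by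
      rw [← Real.rpow_natCast]
      apply Real.rpow_le_rpow_of_exponent_le (by norm_num)
      push_cast
      linarith
    exact h4.trans (mul_le_mul_of_nonneg_right h5 (Real.rpow_nonneg hl0.le _))

private theorem gotb_biUnion [NeZero p] {c' : CR p m N} (x : c'.J → Finset (Pl K)) :
    Finset.univ.biUnion (unR c' x) = Finset.univ.biUnion x := by
  ext v
  rw [Finset.mem_biUnion, Finset.mem_biUnion]
  constructor
  · rintro ⟨i, -, hi⟩
    obtain ⟨a, -, ha⟩ := rx_mem.1 hi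
    exact ⟨a, Finset.mem_univ a, ha⟩
  · rintro ⟨a, -, ha⟩
    exact ⟨a.1, Finset.mem_univ _, rx_mem.2 ⟨a, rfl, ha⟩⟩

theorem gotb [NeZero p] (hp : p.Prime) (hζ : IsPrimitiveRoot ζ p) (D : RD K p ζ)
    {c : CR p m N} (t : TD c β) {S : Finset (Fin β)} (R : Rd c t S) (A : Finset (Fin β))
    (hA : A ⊆ S) (B : ℕ) (η : ℝ) (hη : 0 < η)
    (hI : ∀ η' : ℝ, 0 < η' → ∃ C : ℝ, 0 < C ∧ ∀ (b : Fin m → Kˣ) (E : Finset (Pl K)),
      BS2 D.toRD0 b E → ∀ Y : ℝ, 1 ≤ Y →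
        SWS D.toRD0 t A b E Y ≤ C * nr E ^ η' * Y * (1 + Real.log Y) ^ ((A.card : ℝ) - 1)) :
    ∃ C Y₀ : ℝ, 0 < C ∧ 9 ≤ Y₀ ∧ ∀ (b : Fin m → Kˣ) (E : Finset (Pl K)),
      BS2 D.toRD0 b E → ∀ Y : ℝ, Y₀ ≤ Y →
        ‖RFS D.toRD0 t R b E Y (SmQ t.ty A (Real.log Y ^ B))‖ ≤
          C * nr E ^ η * Y * Real.log Y ^ ((A.card : ℝ) - 1 / 2) := by
  obtain ⟨n, hn⟩ : ∃ n : ℕ, n = Fintype.card R.c'.J := ⟨_, rfl⟩
  obtain ⟨η', hη'⟩ : ∃ η' : ℝ, η' = min η (1 / (4 * (((B * (n + 1) : ℕ) : ℝ) + 1))) := ⟨_, rfl⟩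
  have hη'0 : 0 < η' := by
    rw [hη']
    exact lt_min hη (by positivity)
  have hη'1 : η' ≤ η := by rw [hη']; exact min_le_left _ _
  have hη'2 : ((B * (n + 1) : ℕ) : ℝ) * η' ≤ 1 / 4 := by
    have h1 : η' ≤ 1 / (4 * (((B * (n + 1) : ℕ) : ℝ) + 1)) := by rw [hη']; exact min_le_right _ _
    have h2 : (0 : ℝ) ≤ ((B * (n + 1) : ℕ) : ℝ) := Nat.cast_nonneg _
    rw [le_div_iff₀ (by positivity)] at h1
    nlinarith
  obtain ⟨C₁, hC₁, hI'⟩ := hI η' hη'0
  obtain ⟨C₂, hC₂, hthr⟩ := thr_sum K R.c'.J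
  obtain ⟨Y₀, hY₀, hnum⟩ := num B (n + 1) (1 / 4) (by norm_num)
  have hC₂0 : 0 < C₂ := by linarith
  refine ⟨C₁ * 2 ^ (A.card + 1) * C₂, Y₀, by positivity, hY₀, ?_⟩
  intro b E hb Y hY
  obtain ⟨hlog1, hlogT, hTpow⟩ := hnum Y hY
  have hY9 : 9 ≤ Y := hY₀.trans hY
  have hY0 : 0 < Y := by linarith
  have hl0 : 0 < Real.log Y := by linarith
  obtain ⟨T, hT⟩ : ∃ T : ℝ, T = Real.log Y ^ B := ⟨_, rfl⟩
  rw [← hT] at hlogT hTpow ⊢
  have hT1 : 1 ≤ T := by rw [hT]; exact one_le_pow₀ hlog1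
  have hY8 : Y ^ (1 / 8 : ℝ) ≤ Y ^ (1 / 2 : ℝ) :=
    Real.rpow_le_rpow_of_exponent_le (by linarith) (by norm_num)
  have hTY : T ≤ Y := by
    calc T ≤ T ^ (n + 1) := le_self_pow₀ hT1 (by omega)
      _ ≤ Y ^ (1 / 8 : ℝ) := hTpow
      _ ≤ Y ^ (1 : ℝ) := Real.rpow_le_rpow_of_exponent_le (by linarith) (by norm_num)
      _ = Y := Real.rpow_one Y
  have hE0 : 0 < nr E := akb_nr_pos E
  have hE1 : 1 ≤ nr E := one_le_nr E
  refine (gota hp hζ D t R A hA b E hb Y T hT1 hTY).trans ?_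
  obtain ⟨Lg, hLg⟩ : ∃ Lg : Finset R.c'.J, Lg = Finset.univ.filter (fun a => t.ty a.1 ∈ A) :=
    ⟨_, rfl⟩
  have hmem : ∀ a : R.c'.J, a ∈ Lg ↔ t.ty a.1 ∈ A := by
    intro a
    rw [hLg, Finset.mem_filter]
    exact ⟨fun h => h.2, fun h => ⟨Finset.mem_univ _, h⟩⟩
  have hset : Fintype.piFinset (fun a : R.c'.J => if t.ty a.1 ∈ A then {∅} else GF D.toRD0 T) =
      Fintype.piFinset (fun a : R.c'.J => if a ∈ Lg then {∅} else GF D.toRD0 T) := by
    congr 1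
    funext a
    by_cases h : a ∈ Lg
    · rw [if_pos h, if_pos ((hmem a).1 h)]
    · rw [if_neg h, if_neg (fun h' => h ((hmem a).2 h'))]
  rw [hset]
  have hemp : nr (∅ : Finset (Pl K)) = 1 := by
    unfold nr
    rw [Finset.prod_empty]
  have hR : ∀ e : ℝ, 0 ≤ Real.log Y ^ e := fun e => Real.rpow_nonneg hl0.le e
  have hterm : ∀ x ∈ Fintype.piFinset (fun a : R.c'.J => if a ∈ Lg then {∅} else GF D.toRD0 T),
      SWS D.toRD0 t A (akR D.toRD0 c b (unR R.c' x)) (E ∪ Finset.univ.biUnion x)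
          (Y / ∏ a, nr (x a)) ≤
        (C₁ * 2 ^ (A.card + 1) * nr E ^ η * Y * (Real.log Y ^ (1 / 4 : ℝ) *
          Real.log Y ^ ((A.card : ℝ) - 1))) * (sn Lg x)⁻¹ := by
    intro x hx
    rw [Fintype.mem_piFinset] at hx
    have hx1 : ∀ a, nr (x a) ≤ T := by
      intro a
      have h := hx a
      by_cases ha : a ∈ Lg
      · rw [if_pos ha, Finset.mem_singleton] at h
        rw [h, hemp]
        exact hT1
      · rw [if_neg ha, akb_mem_GF] at h
        exact h.1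
    have hx2 : ∀ a, ∀ v ∈ x a, D.Gd v := by
      intro a v hv
      have h := hx a
      by_cases ha : a ∈ Lg
      · rw [if_pos ha, Finset.mem_singleton] at h
        rw [h] at hv
        exact absurd hv (Finset.notMem_empty v)
      · rw [if_neg ha, akb_mem_GF] at h
        exact h.2 v hv
    have hPsn : ∏ a, nr (x a) = sn Lg x := by
      unfold sn
      rw [← Finset.prod_filter_mul_prod_filter_not Finset.univ (fun a => a ∈ Lg)]
      have e1 : ∏ a ∈ Finset.univ.filter (fun a => a ∈ Lg), nr (x a) = 1 := by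
        apply Finset.prod_eq_one
        intro a ha
        have h := hx a
        rw [if_pos (Finset.mem_filter.1 ha).2, Finset.mem_singleton] at h
        rw [h, hemp]
      rw [e1, one_mul]
    have hP1 : 1 ≤ ∏ a, nr (x a) := by
      calc (1 : ℝ) = ∏ _a : R.c'.J, (1 : ℝ) := by rw [Finset.prod_const_one]
        _ ≤ _ := Finset.prod_le_prod (fun _ _ => zero_le_one) fun a _ => one_le_nr _
    have hP2 : ∏ a, nr (x a) ≤ T ^ (n + 1) := by
      calc ∏ a, nr (x a) ≤ ∏ _a : R.c'.J, T :=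
            Finset.prod_le_prod (fun a _ => (akb_nr_pos _).le) fun a _ => hx1 a
        _ = T ^ n := by rw [Finset.prod_const, Finset.card_univ, hn]
        _ ≤ T ^ (n + 1) := pow_le_pow_right₀ hT1 (Nat.le_succ n)
    obtain ⟨P, hP⟩ : ∃ P : ℝ, P = ∏ a, nr (x a) := ⟨_, rfl⟩
    rw [← hP] at hP1 hP2 hPsn ⊢
    have hP0 : 0 < P := by linarith
    have hP8 : P ≤ Y ^ (1 / 2 : ℝ) := (hP2.trans hTpow).trans hY8
    have hYY : Y ^ (1 / 2 : ℝ) * Y ^ (1 / 2 : ℝ) = Y := by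
      rw [← Real.rpow_add hY0]
      norm_num
    have hYh0 : 0 < Y ^ (1 / 2 : ℝ) := Real.rpow_pos_of_pos hY0 _
    have hY'h : Y ^ (1 / 2 : ℝ) ≤ Y / P := by
      rw [le_div_iff₀ hP0]
      calc Y ^ (1 / 2 : ℝ) * P ≤ Y ^ (1 / 2 : ℝ) * Y ^ (1 / 2 : ℝ) :=
            mul_le_mul_of_nonneg_left hP8 hYh0.le
        _ = Y := hYY
    have hY'1 : 1 ≤ Y / P := by
      refine le_trans ?_ hY'h
      exact Real.one_le_rpow (by linarith) (by norm_num)
    have hlog' : Real.log Y / 2 ≤ Real.log (Y / P) := by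
      have h1 := Real.log_le_log hYh0 hY'h
      rw [Real.log_rpow hY0] at h1
      linarith
    have hlog'' : Real.log (Y / P) ≤ Real.log Y := by
      apply Real.log_le_log (by positivity)
      rw [div_le_iff₀ hP0]
      nlinarith
    have hbs : BS2 D.toRD0 (akR D.toRD0 c b (unR R.c' x)) (E ∪ Finset.univ.biUnion x) := by
      rw [← gotb_biUnion x]
      refine gott_bs D.toRD0 c b E hb (unR R.c' x) fun k v hv => ?_
      obtain ⟨a, -, ha⟩ := rx_mem.1 hv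
      exact (hx2 a v ha).1
    have h1 := hI' _ _ hbs (Y / P) hY'1
    refine h1.trans ?_
    have hE'1 : nr (E ∪ Finset.univ.biUnion x) ≤ nr E * T ^ (n + 1) := by
      refine (akb_nr_union _ _).trans ?_
      apply mul_le_mul_of_nonneg_left _ hE0.le
      refine (akb_nr_biUnion _ x T hT1 (fun l _ => hx1 l)).trans ?_
      rw [Finset.card_univ, ← hn]
      exact pow_le_pow_right₀ hT1 (Nat.le_succ n)
    have hE'2 : nr (E ∪ Finset.univ.biUnion x) ^ η' ≤ nr E ^ η * Real.log Y ^ (1 / 4 : ℝ) := by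
      calc nr (E ∪ Finset.univ.biUnion x) ^ η' ≤ (nr E * T ^ (n + 1)) ^ η' :=
            Real.rpow_le_rpow (akb_nr_pos _).le hE'1 hη'0.le
        _ = nr E ^ η' * (T ^ (n + 1)) ^ η' := Real.mul_rpow hE0.le (by positivity)
        _ ≤ nr E ^ η * Real.log Y ^ (1 / 4 : ℝ) := by
            apply mul_le_mul
            · exact Real.rpow_le_rpow_of_exponent_le hE1 hη'1
            · rw [hT, ← pow_mul, ← Real.rpow_natCast, ← Real.rpow_mul hl0.le]
              exact Real.rpow_le_rpow_of_exponent_le hlog1 hη'2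
            · exact Real.rpow_nonneg (by positivity) _
            · exact Real.rpow_nonneg hE0.le _
    have hlg := gotb_log hlog1 hlog' hlog'' A.card
    have hpos1 : 0 ≤ (1 + Real.log (Y / P)) ^ ((A.card : ℝ) - 1) :=
      Real.rpow_nonneg (by linarith) _
    have hEη : 0 ≤ nr E ^ η := Real.rpow_nonneg hE0.le _
    calc C₁ * nr (E ∪ Finset.univ.biUnion x) ^ η' * (Y / P) *
          (1 + Real.log (Y / P)) ^ ((A.card : ℝ) - 1)
        = (C₁ * (Y / P)) * (nr (E ∪ Finset.univ.biUnion x) ^ η' *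
            (1 + Real.log (Y / P)) ^ ((A.card : ℝ) - 1)) := by ring
      _ ≤ (C₁ * (Y / P)) * ((nr E ^ η * Real.log Y ^ (1 / 4 : ℝ)) *
            (2 ^ (A.card + 1) * Real.log Y ^ ((A.card : ℝ) - 1))) := by
          apply mul_le_mul_of_nonneg_left _ (by positivity)
          exact mul_le_mul hE'2 hlg hpos1 (mul_nonneg hEη (hR _))
      _ = _ := by
          rw [← hPsn]
          ring
  refine (Finset.sum_le_sum hterm).trans ?_
  rw [← Finset.mul_sum]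
  have hthr' := hthr p ζ D.toRD0 T Lg hT1
  have hlT0 : 0 ≤ Real.log T := Real.log_nonneg hT1
  have hsum : ∑ x ∈ Fintype.piFinset (fun a : R.c'.J => if a ∈ Lg then {∅} else GF D.toRD0 T),
      (sn Lg x)⁻¹ ≤ C₂ * Real.log Y ^ (1 / 4 : ℝ) := by
    refine hthr'.trans ?_
    apply mul_le_mul_of_nonneg_left _ hC₂0.le
    refine le_trans ?_ hlogT
    rw [← hn]
    exact pow_le_pow_right₀ (by linarith) (Nat.le_succ n)
  have hfac : 0 ≤ C₁ * 2 ^ (A.card + 1) * nr E ^ η * Y * (Real.log Y ^ (1 / 4 : ℝ) *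
          Real.log Y ^ ((A.card : ℝ) - 1)) := by
    have := hR (1 / 4)
    have := hR ((A.card : ℝ) - 1)
    have := Real.rpow_nonneg hE0.le η
    positivity
  refine (mul_le_mul_of_nonneg_left hsum hfac).trans (le_of_eq ?_)
  have hexp : Real.log Y ^ ((A.card : ℝ) - 1 / 2) =
      Real.log Y ^ (1 / 4 : ℝ) * Real.log Y ^ ((A.card : ℝ) - 1) * Real.log Y ^ (1 / 4 : ℝ) := by
    rw [← Real.rpow_add hl0, ← Real.rpow_add hl0]
    congr 1
    ring
  rw [hexp]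
  ring

end H77.GN
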