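import Pool.Agent.H77.GN.GDef
import Pool.Agent.H63.MB.BEx
import Pool.Agent.H38.BB.CExp

/-!
# [H77 GN GOTT] moving a part of a family into the Kummer parameters, 100-150 lines

`f : Fin N → Finset (Pl K)`, `fin A f` the part of the types in `A`, `fou A f` the other part.
* `gott_ak`: `akR D c b f = akR D c (akR D c b (fou A f)) (fin A f)`: `akR k = b k * ∏_i ∏_{w ∈ f i} pi w ^ (x i k).val`; for every `i` one of the two parts is `∅` and the other is `f i`.
* `gott_bs`: `BS2 D (akR D c b f) (E ∪ ⋃ f)`: `ord v (pi w) = 0` for `v ≠ w` outside `S0` (`D.pi_ne`), `ord v (b k) = 0` outside `S0 ∪ E`.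
* `gott_ord`: for pairwise disjoint `f` of primes outside `S0` and `E`, `v ∈ f i`: `(ord v (bp (akR D c b f) θ) : ZMod p) = dt θ (c.x i)`: `bp a θ = ∏_k a k ^ (θ k).val`, `ord v (akR k) = (x i k).val` (only `w = v` contributes: compare `mxb_pow` in H77/AB/MxB, `bex_ord_prod` in H63/MB/BEx).
* `gott_pow`: if `dt θ (c.x i) = 0` for all `i` with `f i ≠ ∅` then `bp (akR D c b f) θ` is a `p`-th power iff `bp b θ` is: `bp (akR b f) θ = bp b θ * ∏_i ∏_{w ∈ f i} pi w ^ (∑_k (x i k).val (θ k).val)` and the exponents are divisible by `p` (`∑_k (x i k).val (θ k).val` is `dt θ (x i)` in `ZMod p`: `ZMod.natCast_self_eq_zero`, `ZMod.natCast_eq_zero_iff`).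
* `gott_sp`: `SpV t b f → SpV t (akR D c b (fou A f)) (fin A f)`. Let `0 ≠ θ ∈ Vs`. If `dt θ (x i) ≠ 0` for some `i` with `f i ≠ ∅`: for `ty i ∈ A`, `fin A f i = f i ≠ ∅`; for `ty i ∉ A` take `v ∈ f i = fou A f i`: by `gott_ord` the order of `bp (akR b (fou A f)) θ` at `v` is not divisible by `p`, so it is not a `p`-th power. Otherwise `bp b θ` is not a `p`-th power and `gott_pow` for `fou A f`.
-/

set_option autoImplicit false

open scoped NumberField
open IsDedekindDomain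
open scoped Classical

noncomputable section

namespace H77.GN

open H63.MA H38.BB H77.AB

variable {K : Type} [Field K] [NumberField K] {p : ℕ} {ζ : K} {m N β : ℕ}

/-- the part of the types in `A` -/
def fin (ty : Fin N → Fin β) (A : Finset (Fin β)) (f : Fin N → Finset (Pl K)) (k : Fin N) :
    Finset (Pl K) := if ty k ∈ A then f k else ∅

/-- the part of the other types -/
def fou (ty : Fin N → Fin β) (A : Finset (Fin β)) (f : Fin N → Finset (Pl K)) (k : Fin N) :
    Finset (Pl K) := if ty k ∈ A then ∅ else f k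

theorem gott_bp [NeZero p] (D : RD0 K p ζ) (c : CR p m N) (b : Fin m → Kˣ)
    (g : Fin N → Finset (Pl K)) (θ : Fin m → ZMod p) :
    bp (akR D c b g) θ = bp b θ *
      ∏ i, ∏ w ∈ g i, D.pi w ^ (∑ k, (c.x i k).val * (θ k).val) := by
  unfold bp akR
  simp_rw [mul_pow]
  rw [Finset.prod_mul_distrib]
  congr 1
  simp_rw [← Finset.prod_pow, ← pow_mul]
  rw [Finset.prod_comm]
  refine Finset.prod_congr rfl fun i _ => ?_
  rw [Finset.prod_comm]
  refine Finset.prod_congr rfl fun w _ => ?_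
  rw [Finset.prod_pow_eq_pow_sum]

theorem gott_ak (D : RD0 K p ζ) (c : CR p m N) (ty : Fin N → Fin β) (A : Finset (Fin β))
    (b : Fin m → Kˣ) (f : Fin N → Finset (Pl K)) (j : Fin m) :
    akR D c b f j = akR D c (akR D c b (fou ty A f)) (fin ty A f) j := by
  unfold akR
  rw [mul_assoc, ← Finset.prod_mul_distrib]
  congr 1
  refine Finset.prod_congr rfl fun i _ => ?_
  unfold fin fou
  by_cases h : ty i ∈ A
  · rw [if_pos h, if_pos h, Finset.prod_empty, one_mul]
  · rw [if_neg h, if_neg h, Finset.prod_empty, mul_one]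

theorem gott_bs [NeZero p] (D : RD0 K p ζ) (c : CR p m N) (b : Fin m → Kˣ)
    (E : Finset (Pl K)) (hb : BS2 D b E) (f : Fin N → Finset (Pl K))
    (hf : ∀ k, ∀ v ∈ f k, v ∉ D.S0) :
    BS2 D (akR D c b f) (E ∪ Finset.univ.biUnion f) := by
  constructor
  · intro v hv
    rcases Finset.mem_union.1 hv with h | h
    · exact hb.1 v h
    · obtain ⟨i, -, hi⟩ := Finset.mem_biUnion.1 h
      exact hf i v hi
  · intro k v hv hvE
    have h1 : v ∉ E := fun h => hvE (Finset.mem_union_left _ h)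
    have h2 : ∀ i, v ∉ f i := fun i h =>
      hvE (Finset.mem_union_right _ (Finset.mem_biUnion.2 ⟨i, Finset.mem_univ i, h⟩))
    unfold akR
    rw [ord_mul, hb.2 k v hv h1, ord_prod, zero_add]
    refine Finset.sum_eq_zero fun i _ => ?_
    rw [ord_prod]
    refine Finset.sum_eq_zero fun w hw => ?_
    rw [ord_pow, D.pi_ne w v (hf i w hw) hv ?_, mul_zero]
    rintro rfl
    exact h2 i hw

theorem gott_ord [NeZero p] (D : RD0 K p ζ) (c : CR p m N) (b : Fin m → Kˣ)
    (E : Finset (Pl K)) (hb : BS2 D b E) (f : Fin N → Finset (Pl K)) (hdj : Dj f)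
    (hf : ∀ k, ∀ v ∈ f k, v ∉ D.S0) (hE : ∀ k, Disjoint (f k) E) (i : Fin N) (v : Pl K)
    (hv : v ∈ f i) (θ : Fin m → ZMod p) :
    ((ord v (bp (akR D c b f) θ) : ℤ) : ZMod p) = dt θ (c.x i) := by
  have h1 : ord v (bp (akR D c b f) θ) = ((∑ k, (c.x i k).val * (θ k).val : ℕ) : ℤ) := by
    rw [gott_bp, ord_mul, bex_ord_bp v b θ (fun k => hb.2 k v (hf i v hv)
      (Finset.disjoint_left.1 (hE i) hv)), zero_add,
      bex_ord_prod D f hdj hf (fun i => ∑ k, (c.x i k).val * (θ k).val) i v hv]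
  rw [h1]
  push_cast
  simp only [ZMod.natCast_zmod_val]
  exact Finset.sum_congr rfl fun k _ => mul_comm _ _

theorem gott_pow [NeZero p] (D : RD0 K p ζ) (c : CR p m N) (b : Fin m → Kˣ)
    (f : Fin N → Finset (Pl K)) (θ : Fin m → ZMod p)
    (h : ∀ i, f i ≠ ∅ → dt θ (c.x i) = 0) :
    IsPow p (bp (akR D c b f) θ) ↔ IsPow p (bp b θ) := by
  rw [gott_bp]
  set P : Kˣ := ∏ i, ∏ w ∈ f i, D.pi w ^ (∑ k, (c.x i k).val * (θ k).val) with hP
  have hy : ∃ y : Kˣ, y ^ p = P := by
    refine ⟨∏ i, ∏ w ∈ f i, D.pi w ^ ((∑ k, (c.x i k).val * (θ k).val) / p), ?_⟩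
    rw [hP, ← Finset.prod_pow]
    refine Finset.prod_congr rfl fun i _ => ?_
    rw [← Finset.prod_pow]
    refine Finset.prod_congr rfl fun w hw => ?_
    have h3 := h i (Finset.ne_empty_of_mem hw)
    rw [← pow_mul, Nat.div_mul_cancel ((bex_dvd (c.x i) θ).2 h3)]
  obtain ⟨y, hy⟩ := hy
  rw [← hy]
  constructor
  · rintro ⟨z, hz⟩
    refine ⟨z * y⁻¹, ?_⟩
    rw [mul_pow, hz, inv_pow, mul_assoc, mul_inv_cancel, mul_one]
  · rintro ⟨z, hz⟩
    exact ⟨z * y, by rw [mul_pow, hz]⟩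

theorem gott_sp [NeZero p] (D : RD0 K p ζ) {c : CR p m N} (t : TD c β)
    (A : Finset (Fin β)) (b : Fin m → Kˣ) (E : Finset (Pl K)) (hb : BS2 D b E)
    (f : Fin N → Finset (Pl K)) (hdj : Dj f) (hf : ∀ k, ∀ v ∈ f k, v ∉ D.S0)
    (hE : ∀ k, Disjoint (f k) E) (h : SpV t b f) :
    SpV t (akR D c b (fou t.ty A f)) (fin t.ty A f) := by
  have hsub : ∀ k, fou t.ty A f k ⊆ f k := by
    intro k
    unfold fou
    by_cases hk : t.ty k ∈ A
    · rw [if_pos hk]
      exact Finset.empty_subset _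
    · rw [if_neg hk]
  have hdj' : Dj (fou t.ty A f) := fun i j hij => (hdj i j hij).mono (hsub i) (hsub j)
  intro θ hθ hθ0
  by_cases h1 : ∃ i, f i ≠ ∅ ∧ dt θ (c.x i) ≠ 0
  · obtain ⟨i, hi, hd⟩ := h1
    by_cases hA : t.ty i ∈ A
    · left
      refine ⟨i, ?_, hd⟩
      unfold fin
      rw [if_pos hA]
      exact hi
    · right
      obtain ⟨v, hv⟩ := Finset.nonempty_iff_ne_empty.2 hi
      have hv' : v ∈ fou t.ty A f i := by
        unfold fou
        rw [if_neg hA]
        exact hv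
      rintro ⟨y, hy⟩
      apply hd
      have h2 := gott_ord D c b E hb (fou t.ty A f) hdj' (fun k v hv => hf k v (hsub k hv))
        (fun k => (hE k).mono_left (hsub k)) i v hv' θ
      rw [← h2, ← hy, ord_pow]
      push_cast
      rw [ZMod.natCast_self, zero_mul]
  · right
    have h' : ∀ i, f i ≠ ∅ → dt θ (c.x i) = 0 := by
      intro i hi
      by_contra hd
      exact h1 ⟨i, hi, hd⟩
    rw [gott_pow D c b (fou t.ty A f) θ fun i hi => h' i fun h0 =>
      hi (Finset.subset_empty.1 (h0 ▸ hsub i))]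
    exact (h θ hθ hθ0).resolve_left h1

end H77.GN
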