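import Pool.Agent.H77.GN.GDef

/-!
# [H77 GN GRD] reduced data exist, 120-180 lines (linear algebra)

* `grd`: `Δ i = c.Θ k ⊓ V0 t S` for any `k` of type `i` (independent of `k`: `V0 t S ≤ Vs`, so `Θ k ⊓ V0 = (Θ k ⊓ Vs) ⊓ V0` and `t.hd`), `⊥` if there is no such `k`. `c'.x = c.x`, `c'.Θ k` = a complement of `Δ (ty k)` in `c.Θ k`: a complement `C` in the whole space (`Submodule.exists_isCompl`) gives `c.Θ k ⊓ C` (`Θ ⊓ C ⊓ Δ ≤ C ⊓ Δ = ⊥`, and `Δ ⊔ (C ⊓ Θ) = (Δ ⊔ C) ⊓ Θ = Θ` by modularity, `sup_inf_assoc_of_le`/`inf_sup_assoc_of_le`). `c'.self` from `c.self` since `c'.Θ k ≤ c.Θ k`.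
  `hcard`: `Δ i ≤ Θ k ⊓ Vs`, `Nat.card` is monotone (`Nat.card_mono`/`Nat.card_le_card_of_injective` for submodules of a finite space), `t.hq`; for `⊥`: `Nat.card = 1 ≤ q i` (`t.q0`).
* `grd_card`: `#(c.Θ k) = #(c'.Θ k) * #(Δ (ty k))` (every element of `c.Θ k` is uniquely a sum: `Submodule.mem_sup`, `inf = ⊥`; bijection `c'.Θ k × Δ ≃ c.Θ k`).
* `grd_perp`: `y` is orthogonal to `c.Θ k` iff it is orthogonal to `c'.Θ k` and to `Δ (ty k)`.
* `grd_hH`: `U ⊆ c'.J` pairwise unlinked with `V0 t (tys t.ty U) ≤ V0 t S` has at most `q i` elements of type `i`. Let `ι : c'.J → c.J`, `⟨k, θ⟩ ↦ ⟨k, θ⟩` (`c'.Θ k ≤ c.Θ k`), injective, it preserves `lk` (`c'.x = c.x`), the class and `θ`. Apply `t.hH` to `U.image ι`: let `a, a' ∈ U` with `a.1 = a'.1 = k` and `δ = θ_a - θ_{a'} ∈ Vs` orthogonal to all `x_{a''}`, `a'' ∈ U`. Then `δ ∈ V0 t (tys t.ty U)`: for `k'` with `t.ty k' ∈ tys U` there is `a'' ∈ U` with the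 same type, `dt δ (x k') = dt δ (x a''.1) = 0` (`t.hx`).
  So `δ ∈ V0 t S`, `δ ∈ c'.Θ k ≤ c.Θ k`, hence `δ ∈ Δ (ty k)` (`hΔ`), so `δ ∈ c'.Θ k ⊓ Δ (ty k) = ⊥` and `a = a'` (`Sigma.ext`, `Subtype.ext`). The filter of `U.image ι` by the type `i` is the image of the filter of `U`.
* `v0_mono`: `A ⊆ A' → V0 t A' ≤ V0 t A`.
-/

set_option autoImplicit false

open scoped NumberField
open IsDedekindDomain
open scoped Classical

noncomputable section

namespace H77.GN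

open H63.MA H38.BB H77.AB

variable {p m N β : ℕ}

theorem v0_mono {c : CR p m N} (t : TD c β) {A A' : Finset (Fin β)} (h : A ⊆ A') :
    V0 t A' ≤ V0 t A := by
  intro δ hδ
  exact ⟨hδ.1, fun k hk => hδ.2 k (h hk)⟩

theorem grd [NeZero p] (hp : p.Prime) (c : CR p m N) (t : TD c β) (S : Finset (Fin β)) :
    Nonempty (Rd c t S) := by
  have : Fact p.Prime := ⟨hp⟩
  have hV : V0 t S ≤ t.Vs := fun δ h => h.1
  obtain ⟨Δ, hΔ0⟩ : ∃ Δ : Fin β → Submodule (ZMod p) (Fin m → ZMod p), ∀ i, Δ i =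
      if h : ∃ k, t.ty k = i then c.Θ h.choose ⊓ V0 t S else ⊥ := ⟨_, fun i => rfl⟩
  have hΔ : ∀ k, Δ (t.ty k) = c.Θ k ⊓ V0 t S := by
    intro k
    have h : ∃ k', t.ty k' = t.ty k := ⟨k, rfl⟩
    rw [hΔ0, dif_pos h]
    have h1 := t.hd h.choose k h.choose_spec
    calc c.Θ h.choose ⊓ V0 t S = (c.Θ h.choose ⊓ t.Vs) ⊓ V0 t S := by
          rw [inf_assoc, inf_eq_right.2 hV]
      _ = (c.Θ k ⊓ t.Vs) ⊓ V0 t S := by rw [h1]
      _ = c.Θ k ⊓ V0 t S := by rw [inf_assoc, inf_eq_right.2 hV]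
  have hC : ∀ k, ∃ C : Submodule (ZMod p) (Fin m → ZMod p), IsCompl (Δ (t.ty k)) C :=
    fun k => Submodule.exists_isCompl _
  choose C hC using hC
  refine ⟨{ c' := { x := c.x, Θ := fun k => c.Θ k ⊓ C k, self := fun k θ h => c.self k θ h.1 },
            Δ := Δ, hx := rfl, hΔ := hΔ, hle := ?_, hcard := ?_, inf := ?_, sup := ?_ }⟩
  · intro i
    rw [hΔ0]
    split_ifs
    · exact inf_le_right
    · exact bot_le
  · intro i
    rw [hΔ0]
    split_ifs with h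
    · have h1 : Nat.card ↥(c.Θ h.choose ⊓ V0 t S) ≤ Nat.card ↥(c.Θ h.choose ⊓ t.Vs) :=
        Nat.card_mono (Set.toFinite _) (inf_le_inf_left _ hV)
      have h2 := t.hq h.choose
      rw [h.choose_spec] at h2
      exact h1.trans h2
    · have h1 : Nat.card ↥(⊥ : Submodule (ZMod p) (Fin m → ZMod p)) = 1 := by
        simp
      rw [h1]
      exact t.q0 i
  · intro k
    rw [eq_bot_iff]
    calc c.Θ k ⊓ C k ⊓ Δ (t.ty k) ≤ Δ (t.ty k) ⊓ C k := by
          rw [inf_comm (Δ (t.ty k))]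
          exact inf_le_inf_right _ inf_le_right
      _ = ⊥ := (hC k).inf_eq_bot
  · intro k
    have h1 : Δ (t.ty k) ≤ c.Θ k := by rw [hΔ k]; exact inf_le_left
    change c.Θ k ⊓ C k ⊔ Δ (t.ty k) = c.Θ k
    rw [inf_sup_assoc_of_le _ h1, sup_comm, (hC k).sup_eq_top, inf_top_eq]

theorem grd_card [NeZero p] (hp : p.Prime) {c : CR p m N} {t : TD c β} {S : Finset (Fin β)}
    (R : Rd c t S) (k : Fin N) :
    Nat.card (c.Θ k) = Nat.card (R.c'.Θ k) * Nat.card (R.Δ (t.ty k)) := by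
  have : Fact p.Prime := ⟨hp⟩
  have h1 := Submodule.finrank_sup_add_finrank_inf_eq (R.c'.Θ k) (R.Δ (t.ty k))
  rw [R.sup k, R.inf k, finrank_bot, add_zero] at h1
  rw [Module.natCard_eq_pow_finrank (K := ZMod p) (V := c.Θ k),
    Module.natCard_eq_pow_finrank (K := ZMod p) (V := R.c'.Θ k),
    Module.natCard_eq_pow_finrank (K := ZMod p) (V := R.Δ (t.ty k)), ← pow_add, h1]

theorem grd_perp {c : CR p m N} {t : TD c β} {S : Finset (Fin β)} (R : Rd c t S) (k : Fin N)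
    (y : Fin m → ZMod p) : (∀ θ ∈ c.Θ k, dt θ y = 0) ↔
      (∀ θ ∈ R.c'.Θ k, dt θ y = 0) ∧ ∀ δ ∈ R.Δ (t.ty k), dt δ y = 0 := by
  constructor
  · intro h
    refine ⟨fun θ hθ => h θ ?_, fun δ hδ => h δ ?_⟩
    · rw [← R.sup k]
      exact Submodule.mem_sup_left hθ
    · rw [← R.sup k]
      exact Submodule.mem_sup_right hδ
  · rintro ⟨h1, h2⟩ θ hθ
    rw [← R.sup k] at hθ
    obtain ⟨a, ha, d, hd, rfl⟩ := Submodule.mem_sup.1 hθ
    have h : dt (a + d) y = dt a y + dt d y := by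
      simp only [dt, Pi.add_apply, add_mul, Finset.sum_add_distrib]
    rw [h, h1 a ha, h2 d hd, add_zero]

theorem grd_hH [NeZero p] (hp : p.Prime) {c : CR p m N} {t : TD c β} {S : Finset (Fin β)}
    (R : Rd c t S) (U : Finset R.c'.J) (h1 : ∀ a ∈ U, ∀ a' ∈ U, R.c'.pd.lk a a' = 0)
    (h2 : V0 t (tys t.ty U) ≤ V0 t S) (i : Fin β) :
    (U.filter fun a => t.ty a.1 = i).card ≤ t.q i := by
  have hle : ∀ k, R.c'.Θ k ≤ c.Θ k := by
    intro k
    rw [← R.sup k]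
    exact le_sup_left
  obtain ⟨ι, hι⟩ : ∃ ι : R.c'.J → c.J, ∀ a, ι a = ⟨a.1, ⟨a.2.1, hle a.1 a.2.2⟩⟩ :=
    ⟨_, fun a => rfl⟩
  have hι1 : ∀ a, (ι a).1 = a.1 := fun a => by rw [hι]
  have hι2 : ∀ a, (ι a).2.1 = a.2.1 := fun a => by rw [hι]
  have hinj : Function.Injective ι := by
    rintro ⟨k, θ, hθ⟩ ⟨k', θ', hθ'⟩ h
    have e1 := congrArg Sigma.fst h
    rw [hι1, hι1] at e1
    change k = k' at e1
    subst e1
    have e2 : (ι ⟨k, θ, hθ⟩).2.1 = (ι ⟨k, θ', hθ'⟩).2.1 := by rw [h]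
    rw [hι2, hι2] at e2
    change θ = θ' at e2
    subst e2
    rfl
  have hlk : ∀ a a', c.pd.lk (ι a) (ι a') = R.c'.pd.lk a a' := by
    intro a a'
    have hx := R.hx
    unfold PD.lk CR.pd
    simp only [hx, hι1, hι2]
  have hU := t.hH (U.image ι) ?_ ?_ i
  · have e : (U.image ι).filter (fun a => t.ty a.1 = i) =
        (U.filter fun a => t.ty a.1 = i).image ι := by
      rw [Finset.filter_image]
      congr 1
      apply Finset.filter_congr
      intro a _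
      rw [hι1]
    rw [e, Finset.card_image_of_injective _ hinj] at hU
    exact hU
  · intro a ha a' ha'
    obtain ⟨u, hu, rfl⟩ := Finset.mem_image.1 ha
    obtain ⟨u', hu', rfl⟩ := Finset.mem_image.1 ha'
    rw [hlk]
    exact h1 u hu u' hu'
  · intro a ha a' ha' hk hV hx
    obtain ⟨u, hu, rfl⟩ := Finset.mem_image.1 ha
    obtain ⟨u', hu', rfl⟩ := Finset.mem_image.1 ha'
    congr 1
    obtain ⟨k, θ, hθ⟩ := u
    obtain ⟨k', θ', hθ'⟩ := u'
    rw [hι1, hι1] at hk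
    change k = k' at hk
    subst hk
    rw [hι2, hι2] at hV hx
    change θ - θ' ∈ t.Vs at hV
    change ∀ a'' ∈ U.image ι, dt (θ - θ') (c.x a''.1) = 0 at hx
    have h3 : θ - θ' ∈ V0 t (tys t.ty U) := by
      refine ⟨hV, fun k' hk' => ?_⟩
      unfold tys at hk'
      obtain ⟨a'', ha'', he⟩ := Finset.mem_image.1 hk'
      rw [← t.hx a''.1 k' he _ hV]
      have := hx (ι a'') (Finset.mem_image_of_mem _ ha'')
      rw [hι1] at this
      exact this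
    have h4 : θ - θ' ∈ R.c'.Θ k := (R.c'.Θ k).sub_mem hθ hθ'
    have h5 : θ - θ' ∈ R.Δ (t.ty k) := by
      rw [R.hΔ k]
      exact ⟨hle k h4, h2 h3⟩
    have h6 : θ - θ' ∈ (⊥ : Submodule (ZMod p) (Fin m → ZMod p)) := by
      rw [← R.inf k]
      exact ⟨h4, h5⟩
    have h7 : θ = θ' := sub_eq_zero.1 ((Submodule.mem_bot _).1 h6)
    subst h7
    rfl

end H77.GN
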