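import Pool.Agent.H77.GN.GMn
import Pool.Agent.H77.GN.GExB
import Pool.Agent.H77.GN.GMob
import Pool.Agent.H77.GN.GOtB

/-!
# [H77 GN GUB] the analytic upper bound, 120-180 lines

`SWS(S) ≤ C (nr E)^η Y (1 + log Y)^{#S - 1}` for `Y ≥ 1`. Induction on `#S` (strong; all `η` at once).

Proof. `grd` gives `R : Rd c t S`. `gmn` for `R.c'`, `t.ty`, `t.q`, `R.Δ`, `PP A = (V0 t A ≤ V0 t S)` (`v0_mono`; `grd_hH`) gives `B`, `C₁`, `Y₁`. For `A ⊆ S` with `¬ PP A` and `R' ⊆ A`: `A \ R' ⊆ S`, `A \ R' ≠ S` (otherwise `A = S` and `PP S` holds), so `#(A \ R') < #S` and the induction hypothesis applies to `A \ R'`: `gotb` gives constants (choose them for all `A'` with `#A' < #S`, take the maximum over the finitely many sets).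
Let `Y ≥ Y₀` = the maximum of the thresholds. If some `0 ≠ δ ∈ V0 t S` has `bp b δ` a `p`-th power: `SWS = 0` (`gexa_zero`). Otherwise `SWS = RFS (True)` (`gexa`) `= RFS (PP (large types)) + RFS (¬ PP (large types))` (split of the indicator, `T = (log Y)^B ≥ 1`), the first is `MNS` (`gexb`; `Inb p R.Δ b` by `R.hle`), the second is `∑_A ∑_{R'} ± RFS (SmQ (A \ R'))` (`gmob`).
So `SWS ≤ C₁ (nr E)^η Y (log Y)^{#S - 1} + 4^β C₂ (nr E)^η Y (log Y)^{#S - 1 - 1/2}` (`SWS` is real: `‖(x : ℂ)‖ = |x|`, `Complex.norm_real`), and `log Y ≤ 1 + log Y`, `log Y ≥ 1`; if `#S = 0` the exponent is `-1`: `(log Y)^{-1} ≤ 2 (1 + log Y)^{-1}`. (For `S = ∅` one can use `sws_empty` and `1 + log Y ≤ Y` instead.)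
For `1 ≤ Y ≤ Y₀`: `gtrv`, `nr E ≥ 1`, `Y ≥ 1`, `(1 + log Y)^{#S - 1} ≥ (1 + log Y₀)^{-1}`.
* `gubf`: for `S = univ`, `β ≥ 1` with the natural exponent `β - 1`.
-/

set_option autoImplicit false

open scoped NumberField
open IsDedekindDomain
open scoped Classical

noncomputable section

namespace H77.GN

open H63.MA H38.BB H77.AB

variable {K : Type} [Field K] [NumberField K] {p : ℕ} {ζ : K} {m N β : ℕ}

private theorem gub_split [NeZero p] {c : CR p m N} (D : RD0 K p ζ) (t : TD c β) {S : Finset (Fin β)}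
    (R : Rd c t S) (b : Fin m → Kˣ) (E : Finset (Pl K)) (Y : ℝ)
    (Q : (R.c'.J → Finset (Pl K)) → Prop) :
    RFS D t R b E Y (fun _ => True) = RFS D t R b E Y Q + RFS D t R b E Y (fun g => ¬ Q g) := by
  unfold RFS
  rw [← Finset.sum_add_distrib]
  refine Finset.sum_congr rfl fun g _ => ?_
  by_cases h1 : Dj g ∧ (∀ a, Disjoint (g a) E) ∧ ∏ a, nr (g a) ≤ Y
  · rw [if_pos h1, if_pos h1, if_pos h1, ← add_mul]
    congr 1
    by_cases h2 : Q g
    · by_cases h3 : (∀ k, t.ty k ∉ S → unR R.c' g k = ∅) ∧ SpV t b (unR R.c' g)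
      · rw [if_pos ⟨trivial, h3⟩, if_pos ⟨h2, h3⟩, if_neg (fun h => h.1 h2), add_zero]
      · rw [if_neg (fun h => h3 h.2), if_neg (fun h => h3 h.2), if_neg (fun h => h3 h.2), add_zero]
    · by_cases h3 : (∀ k, t.ty k ∉ S → unR R.c' g k = ∅) ∧ SpV t b (unR R.c' g)
      · rw [if_pos ⟨trivial, h3⟩, if_neg (fun h => h2 h.1), if_pos ⟨h2, h3⟩, zero_add]
      · rw [if_neg (fun h => h3 h.2), if_neg (fun h => h3 h.2), if_neg (fun h => h3 h.2), add_zero]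
  · rw [if_neg h1, if_neg h1, if_neg h1, add_zero]

private theorem gub_num {l : ℝ} (hl : 1 ≤ l) (n : ℕ) :
    l ^ ((n : ℝ) - 1) ≤ 2 * (1 + l) ^ ((n : ℝ) - 1) := by
  rcases Nat.eq_zero_or_pos n with h | h
  · rw [h, Nat.cast_zero, zero_sub, Real.rpow_neg_one, Real.rpow_neg_one, ← div_eq_mul_inv,
      inv_eq_one_div, div_le_div_iff₀ (by linarith) (by linarith)]
    linarith
  · have h1 : (1 : ℝ) ≤ n := by exact_mod_cast h
    have h2 : l ^ ((n : ℝ) - 1) ≤ (1 + l) ^ ((n : ℝ) - 1) :=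
      Real.rpow_le_rpow (by linarith) (by linarith) (by linarith)
    have h3 : 0 ≤ (1 + l) ^ ((n : ℝ) - 1) := Real.rpow_nonneg (by linarith) _
    linarith

private theorem gub_num2 {l l₀ : ℝ} (hl : 0 ≤ l) (hl0 : l ≤ l₀) (n : ℕ) :
    1 ≤ (1 + l₀) * (1 + l) ^ ((n : ℝ) - 1) := by
  rcases Nat.eq_zero_or_pos n with h | h
  · rw [h, Nat.cast_zero, zero_sub, Real.rpow_neg_one, ← div_eq_mul_inv,
      le_div_iff₀ (by linarith)]
    linarith
  · have h1 : (1 : ℝ) ≤ n := by exact_mod_cast h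
    have h2 : 1 ≤ (1 + l) ^ ((n : ℝ) - 1) := Real.one_le_rpow (by linarith) (by linarith)
    nlinarith

theorem gub [NeZero p] (hp : p.Prime) (hζ : IsPrimitiveRoot ζ p) (D : RD K p ζ)
    {c : CR p m N} (t : TD c β) (S : Finset (Fin β)) (η : ℝ) (hη : 0 < η) :
    ∃ C : ℝ, 0 < C ∧ ∀ (b : Fin m → Kˣ) (E : Finset (Pl K)), BS2 D.toRD0 b E →
      ∀ Y : ℝ, 1 ≤ Y →
        SWS D.toRD0 t S b E Y ≤ C * nr E ^ η * Y * (1 + Real.log Y) ^ ((S.card : ℝ) - 1) := by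
  induction S using Finset.strongInduction generalizing η with
  | H S ih =>
  obtain ⟨R⟩ := grd hp c t S
  obtain ⟨B, C₁, Y₁, hC₁, hY₁, hmn⟩ := gmn hp hζ D R.c' t.ty t.q R.Δ t.q0 R.hcard S
    (fun A => V0 t A ≤ V0 t S) (fun A A' h h' => (v0_mono t h).trans h')
    (fun U h1 h2 i => grd_hH hp R U h1 h2 i) η hη
  have hex : ∀ A : Finset (Fin β), ∃ C Y₀ : ℝ, 0 < C ∧ 9 ≤ Y₀ ∧ (A ⊂ S →
      ∀ (b : Fin m → Kˣ) (E : Finset (Pl K)), BS2 D.toRD0 b E → ∀ Y : ℝ, Y₀ ≤ Y →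
        ‖RFS D.toRD0 t R b E Y (SmQ t.ty A (Real.log Y ^ B))‖ ≤
          C * nr E ^ η * Y * Real.log Y ^ ((A.card : ℝ) - 1 / 2)) := by
    intro A
    by_cases hA : A ⊂ S
    · obtain ⟨C, Y₀, h1, h2, h3⟩ := gotb hp hζ D t R A hA.1 B η hη
        (fun η' hη' => ih A hA η' hη')
      exact ⟨C, Y₀, h1, h2, fun _ => h3⟩
    · exact ⟨1, 9, one_pos, le_rfl, fun h => absurd h hA⟩
  choose Cf Yf hCf hYf hf using hex
  obtain ⟨C₂, hC₂⟩ : ∃ C₂ : ℝ, C₂ = ∑ A ∈ S.powerset, Cf A := ⟨_, rfl⟩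
  obtain ⟨Y₂, hY₂⟩ : ∃ Y₂ : ℝ, Y₂ = ∑ A ∈ S.powerset, Yf A := ⟨_, rfl⟩
  have hC₂0 : 0 ≤ C₂ := by
    rw [hC₂]
    exact Finset.sum_nonneg fun A _ => (hCf A).le
  have hY₂0 : 0 ≤ Y₂ := by
    rw [hY₂]
    exact Finset.sum_nonneg fun A _ => le_trans (by norm_num) (hYf A)
  have hCle : ∀ A ⊆ S, Cf A ≤ C₂ := by
    intro A hA
    rw [hC₂]
    exact Finset.single_le_sum (fun A _ => (hCf A).le) (Finset.mem_powerset.2 hA)
  have hYle : ∀ A ⊆ S, Yf A ≤ Y₂ := by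
    intro A hA
    rw [hY₂]
    exact Finset.single_le_sum (fun A _ => le_trans (by norm_num) (hYf A))
      (Finset.mem_powerset.2 hA)
  obtain ⟨C₃, hC₃, htrv⟩ := gtrv D.toRD0 t S (Y₁ + Y₂)
  obtain ⟨M, hM⟩ : ∃ M : ℝ, M = ∑ A ∈ S.powerset, ∑ _R' ∈ A.powerset, (1 : ℝ) := ⟨_, rfl⟩
  have hM0 : 0 ≤ M := by
    rw [hM]
    exact Finset.sum_nonneg fun A _ => Finset.sum_nonneg fun _ _ => zero_le_one
  have hl₀ : 0 ≤ Real.log (Y₁ + Y₂) := Real.log_nonneg (by linarith)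
  refine ⟨2 * (C₁ + M * C₂) + C₃ * (1 + Real.log (Y₁ + Y₂)), by positivity, ?_⟩
  intro b E hb Y hY
  have hE1 : 1 ≤ nr E := one_le_nr E
  have hEη : 1 ≤ nr E ^ η := Real.one_le_rpow hE1 hη.le
  have hlY : 0 ≤ Real.log Y := Real.log_nonneg hY
  have hP0 : 0 ≤ (1 + Real.log Y) ^ ((S.card : ℝ) - 1) := Real.rpow_nonneg (by linarith) _
  have hQ0 : 0 ≤ nr E ^ η * Y * (1 + Real.log Y) ^ ((S.card : ℝ) - 1) :=
    mul_nonneg (mul_nonneg (by linarith) (by linarith)) hP0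
  have hfin1 : 0 ≤ C₃ * (1 + Real.log (Y₁ + Y₂)) := by positivity
  have hfin2 : 0 ≤ 2 * (C₁ + M * C₂) := by positivity
  rcases le_or_gt (Y₁ + Y₂) Y with hbig | hsmall
  swap
  · have h1 := htrv b E Y hsmall.le
    have h2 : 1 ≤ (1 + Real.log (Y₁ + Y₂)) * (1 + Real.log Y) ^ ((S.card : ℝ) - 1) :=
      gub_num2 hlY (Real.log_le_log (by linarith) hsmall.le) S.card
    have h3 : 1 ≤ nr E ^ η * Y := by nlinarith
    have h4 : 1 ≤ (nr E ^ η * Y) *
        ((1 + Real.log (Y₁ + Y₂)) * (1 + Real.log Y) ^ ((S.card : ℝ) - 1)) := by nlinarith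
    calc SWS D.toRD0 t S b E Y ≤ C₃ := h1
      _ ≤ C₃ * ((nr E ^ η * Y) *
        ((1 + Real.log (Y₁ + Y₂)) * (1 + Real.log Y) ^ ((S.card : ℝ) - 1))) :=
          le_mul_of_one_le_right hC₃.le h4
      _ = (C₃ * (1 + Real.log (Y₁ + Y₂))) *
          (nr E ^ η * Y * (1 + Real.log Y) ^ ((S.card : ℝ) - 1)) := by ring
      _ ≤ (2 * (C₁ + M * C₂) + C₃ * (1 + Real.log (Y₁ + Y₂))) *
          (nr E ^ η * Y * (1 + Real.log Y) ^ ((S.card : ℝ) - 1)) := by
          apply mul_le_mul_of_nonneg_right _ hQ0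
          linarith
      _ = _ := by ring
  by_cases hb0 : ∃ δ ∈ V0 t S, δ ≠ 0 ∧ IsPow p (bp b δ)
  · obtain ⟨δ, hδ, h0, h1⟩ := hb0
    rw [gexa_zero D.toRD0 t S b E Y δ hδ h0 h1]
    have : 0 ≤ (2 * (C₁ + M * C₂) + C₃ * (1 + Real.log (Y₁ + Y₂))) *
          (nr E ^ η * Y * (1 + Real.log Y) ^ ((S.card : ℝ) - 1)) :=
      mul_nonneg (by linarith) hQ0
    calc (0 : ℝ) ≤ _ := this
      _ = _ := by ring
  have hb1 : ∀ δ ∈ V0 t S, δ ≠ 0 → ¬ IsPow p (bp b δ) := fun δ hδ h0 h1 =>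
    hb0 ⟨δ, hδ, h0, h1⟩
  have hInb : Inb p R.Δ b := fun i δ hδ h0 h1 => hb0 ⟨δ, R.hle i hδ, h0, h1⟩
  have hY1 : Y₁ ≤ Y := by linarith
  have hY9 : 9 ≤ Y := hY₁.trans hY1
  have hlog1 : 1 ≤ Real.log Y := by
    rw [Real.le_log_iff_exp_le (by linarith)]
    linarith [Real.exp_one_lt_d9]
  have hT : 1 ≤ Real.log Y ^ B := one_le_pow₀ hlog1
  have hL0 : ∀ e : ℝ, 0 ≤ Real.log Y ^ e := fun e => Real.rpow_nonneg hlY e
  have hmain := hmn b E hb hInb Y hY1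
  have hoth : ‖RFS D.toRD0 t R b E Y (fun g =>
      ¬ (V0 t (tys t.ty (Finset.univ.filter fun a : R.c'.J => Real.log Y ^ B < nr (g a))) ≤
        V0 t S))‖ ≤ M * C₂ * (nr E ^ η * Y * Real.log Y ^ ((S.card : ℝ) - 1)) := by
    rw [gmob D.toRD0 t R b E Y (Real.log Y ^ B) hT (fun A => V0 t A ≤ V0 t S)]
    have hX0 : 0 ≤ C₂ * (nr E ^ η * Y * Real.log Y ^ ((S.card : ℝ) - 1)) :=
      mul_nonneg hC₂0 (mul_nonneg (mul_nonneg (by linarith) (by linarith)) (hL0 _))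
    calc ‖∑ A ∈ S.powerset.filter (fun A => ¬ (V0 t A ≤ V0 t S)), ∑ R' ∈ A.powerset,
          (-1) ^ R'.card * RFS D.toRD0 t R b E Y (SmQ t.ty (A \ R') (Real.log Y ^ B))‖
        ≤ ∑ A ∈ S.powerset.filter (fun A => ¬ (V0 t A ≤ V0 t S)), ∑ R' ∈ A.powerset,
            C₂ * (nr E ^ η * Y * Real.log Y ^ ((S.card : ℝ) - 1)) := by
          refine norm_sum_le_of_le _ fun A hA => ?_
          refine norm_sum_le_of_le _ fun R' hR' => ?_
          obtain ⟨hA1, hA2⟩ := Finset.mem_filter.1 hA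
          have hAS := Finset.mem_powerset.1 hA1
          have hsub : A \ R' ⊂ S := by
            refine ⟨Finset.sdiff_subset.trans hAS, fun h => hA2 ?_⟩
            have h1 : A = S := Finset.Subset.antisymm hAS (h.trans Finset.sdiff_subset)
            rw [h1]
          have h1 : ‖(-1 : ℂ) ^ R'.card‖ = 1 := by
            rw [norm_pow, norm_neg, norm_one, one_pow]
          rw [norm_mul, h1, one_mul]
          have h2 := hf (A \ R') hsub b E hb Y (by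
            have := hYle (A \ R') hsub.1
            linarith)
          refine h2.trans ?_
          have h3 : (((A \ R').card : ℕ) : ℝ) + 1 ≤ (S.card : ℝ) := by
            exact_mod_cast Finset.card_lt_card hsub
          have h4 : Real.log Y ^ (((A \ R').card : ℝ) - 1 / 2) ≤
              Real.log Y ^ ((S.card : ℝ) - 1) :=
            Real.rpow_le_rpow_of_exponent_le hlog1 (by linarith)
          have h5 : 0 ≤ nr E ^ η * Y := mul_nonneg (by linarith) (by linarith)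
          calc Cf (A \ R') * nr E ^ η * Y * Real.log Y ^ (((A \ R').card : ℝ) - 1 / 2)
              = Cf (A \ R') * ((nr E ^ η * Y) *
                  Real.log Y ^ (((A \ R').card : ℝ) - 1 / 2)) := by ring
            _ ≤ C₂ * ((nr E ^ η * Y) * Real.log Y ^ ((S.card : ℝ) - 1)) :=
                mul_le_mul (hCle _ hsub.1) (mul_le_mul_of_nonneg_left h4 h5)
                  (mul_nonneg h5 (hL0 _)) hC₂0
      _ ≤ ∑ A ∈ S.powerset, ∑ R' ∈ A.powerset,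
            C₂ * (nr E ^ η * Y * Real.log Y ^ ((S.card : ℝ) - 1)) := by
          refine Finset.sum_le_sum_of_subset_of_nonneg (Finset.filter_subset _ _) ?_
          intro A _ _
          exact Finset.sum_nonneg (fun (_ : Finset (Fin β)) _ => hX0)
      _ = M * C₂ * (nr E ^ η * Y * Real.log Y ^ ((S.card : ℝ) - 1)) := by
          have e1 : M * C₂ * (nr E ^ η * Y * Real.log Y ^ ((S.card : ℝ) - 1)) =
              M * (C₂ * (nr E ^ η * Y * Real.log Y ^ ((S.card : ℝ) - 1))) := by ring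
          rw [e1, hM, Finset.sum_mul]
          apply Finset.sum_congr rfl
          intro A _
          rw [Finset.sum_mul]
          apply Finset.sum_congr rfl
          intro _ _
          rw [one_mul]
  have hdec : ((SWS D.toRD0 t S b E Y : ℝ) : ℂ) =
      MNS D.toRD0 R.c' t.ty t.q R.Δ S (fun A => V0 t A ≤ V0 t S) b E Y (Real.log Y ^ B) +
      RFS D.toRD0 t R b E Y (fun g =>
        ¬ (V0 t (tys t.ty (Finset.univ.filter fun a : R.c'.J => Real.log Y ^ B < nr (g a))) ≤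
          V0 t S)) := by
    rw [gexa hp hζ D.toRD0 t R b E Y, ← gexb hp hζ D t R b E Y (Real.log Y ^ B) hT hb1]
    exact gub_split D.toRD0 t R b E Y _
  have htot : SWS D.toRD0 t S b E Y ≤
      (C₁ + M * C₂) * (nr E ^ η * Y * Real.log Y ^ ((S.card : ℝ) - 1)) := by
    calc SWS D.toRD0 t S b E Y ≤ ‖((SWS D.toRD0 t S b E Y : ℝ) : ℂ)‖ := by
          rw [Complex.norm_real]
          exact le_abs_self _
      _ ≤ C₁ * nr E ^ η * Y * Real.log Y ^ ((S.card : ℝ) - 1) +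
          M * C₂ * (nr E ^ η * Y * Real.log Y ^ ((S.card : ℝ) - 1)) := by
          rw [hdec]
          exact (norm_add_le _ _).trans (add_le_add hmain hoth)
      _ = _ := by ring
  have h5 : 0 ≤ nr E ^ η * Y := mul_nonneg (by linarith) (by linarith)
  calc SWS D.toRD0 t S b E Y
      ≤ (C₁ + M * C₂) * (nr E ^ η * Y * Real.log Y ^ ((S.card : ℝ) - 1)) := htot
    _ ≤ (C₁ + M * C₂) * (nr E ^ η * Y * (2 * (1 + Real.log Y) ^ ((S.card : ℝ) - 1))) := by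
        apply mul_le_mul_of_nonneg_left _ (by positivity)
        exact mul_le_mul_of_nonneg_left (gub_num hlog1 S.card) h5
    _ = (2 * (C₁ + M * C₂)) * (nr E ^ η * Y * (1 + Real.log Y) ^ ((S.card : ℝ) - 1)) := by ring
    _ ≤ (2 * (C₁ + M * C₂) + C₃ * (1 + Real.log (Y₁ + Y₂))) *
          (nr E ^ η * Y * (1 + Real.log Y) ^ ((S.card : ℝ) - 1)) := by
        apply mul_le_mul_of_nonneg_right _ hQ0
        linarith
    _ = _ := by ring

theorem gubf [NeZero p] (hp : p.Prime) (hζ : IsPrimitiveRoot ζ p) (D : RD K p ζ)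
    {c : CR p m N} (t : TD c β) (hβ : 1 ≤ β) (η : ℝ) (hη : 0 < η) :
    ∃ C : ℝ, 0 < C ∧ ∀ (b : Fin m → Kˣ) (E : Finset (Pl K)), BS2 D.toRD0 b E →
      ∀ Y : ℝ, 1 ≤ Y →
        SWS D.toRD0 t Finset.univ b E Y ≤ C * nr E ^ η * Y * (1 + Real.log Y) ^ (β - 1) := by
  obtain ⟨C, hC, h⟩ := gub hp hζ D t Finset.univ η hη
  refine ⟨C, hC, fun b E hb Y hY => ?_⟩
  have h1 := h b E hb Y hY
  rw [Finset.card_univ, Fintype.card_fin] at h1
  have h2 : ((β : ℝ) - 1) = ((β - 1 : ℕ) : ℝ) := by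
    rw [Nat.cast_sub hβ, Nat.cast_one]
  rw [h2, Real.rpow_natCast] at h1
  exact h1

end H77.GN
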