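import Pool.Agent.H77.GN.NDef
import Pool.Agent.H77.AB.Tss

/-!
# [H77 GN NCRA] the subspaces of the refined classes, 110-160 lines (linear algebra over F_p)

`ThN nd i η = {(γ - lB η μ, rB i μ) : γ ∈ ann (C i), μ ∈ Wc i}`; `rB nd i` is injective on `Wc nd i` (`rB μ = 0` iff `μ ∈ kerR`: `rB_dt`, and `dt (rB μ) y = 0` for all `y` iff `rB μ = 0` (unit vectors); `kerR ⊓ Wc = ⊥`: `wc_compl`, `IsCompl.disjoint`).
* `ncr_inj`: `μ, μ' ∈ Wc nd i`, `rB nd i μ = rB nd i μ'` implies `μ = μ'`.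
* `ncr_card`: `#(ThN nd i η) = qN nd i = #ann (C i) * #Wc i`: the map `(γ, μ) ↦ (γ - lB η μ, rB i μ)` is a bijection from `ann (C i) × Wc i`.
* `ncr_vs`: `θ ∈ ThN nd i η ⊓ VsN` iff `θ = (γ, 0)` with `γ ∈ ann (C i)` (`rB i μ = 0`, `μ ∈ Wc` gives `μ = 0`, `lB η 0 = 0`).
* `ncr_hd`: so `ThN nd i η ⊓ VsN` does not depend on `η`. `ncr_hq`: `#(ThN nd i η ⊓ VsN) ≤ qN nd i` (it is contained in `ThN`, `ncr_card`).
* `ncr_loc`: if `v ∈ C i` and `B (t i) y = B v η` then all `θ ∈ ThN nd i η` are orthogonal to `(v, y)`: `dt γ v - dt μ (B v η) + dt μ (B (t i) y) = 0` (`ndef_app`, `lB_dt`, `rB_dt`).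
* `ncr_ann`: `#ann(C) * #C = p^m` (dimension of the annihilator; `Subspace.finrank_add_finrank_dualAnnihilator_eq` with the identification of the dual of `F_p^m` with `F_p^m` by `dt`, or directly by induction; `tss_card` in H77/AB/Tss: `#V = p^finrank`).
-/

set_option autoImplicit false

open scoped NumberField
open IsDedekindDomain
open scoped Classical

noncomputable section

namespace H77.GN

open H63.MA H38.BB H77.AB

variable {p m l N₀ : ℕ}

private theorem NCrA_append_inj {m l : ℕ} {γ γ' : Fin m → ZMod p} {ρ ρ' : Fin l → ZMod p}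
    (h : (Fin.append γ ρ : Fin (m + l) → ZMod p) = Fin.append γ' ρ') : γ = γ' ∧ ρ = ρ' := by
  constructor
  · funext k
    have := congrFun h (Fin.castAdd l k)
    rwa [Fin.append_left, Fin.append_left] at this
  · funext k
    have := congrFun h (Fin.natAdd m k)
    rwa [Fin.append_right, Fin.append_right] at this

private theorem NCrA_rB0 (nd : ND p m l N₀) (i : Fin N₀) (μ : Fin l → ZMod p)
    (h : rB nd i μ = 0) : μ ∈ kerR nd i := by
  intro y
  rw [← rB_dt, h, adat_dt_zero]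

private theorem NCrA_rBsub (nd : ND p m l N₀) (i : Fin N₀) (μ μ' : Fin l → ZMod p) :
    rB nd i (μ - μ') = rB nd i μ - rB nd i μ' := by
  funext k
  unfold rB
  simp only [dt, Pi.sub_apply, sub_mul, Finset.sum_sub_distrib]

private theorem NCrA_lB0 (nd : ND p m l N₀) (η : Fin l → ZMod p) : lB nd η 0 = 0 := by
  funext k
  exact adat_dt_zero _

private theorem NCrA_rB00 (nd : ND p m l N₀) (i : Fin N₀) : rB nd i 0 = 0 := by
  funext k
  exact adat_dt_zero _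

theorem ncr_inj [Fact p.Prime] (nd : ND p m l N₀) (i : Fin N₀) (μ μ' : Fin l → ZMod p)
    (h : μ ∈ Wc nd i) (h' : μ' ∈ Wc nd i) (he : rB nd i μ = rB nd i μ') : μ = μ' := by
  have h1 : μ - μ' ∈ kerR nd i := by
    apply NCrA_rB0
    rw [NCrA_rBsub, he, sub_self]
  have h2 : μ - μ' ∈ Wc nd i := Submodule.sub_mem _ h h'
  have h3 : μ - μ' ∈ kerR nd i ⊓ Wc nd i := ⟨h1, h2⟩
  rw [(wc_compl nd i).inf_eq_bot, Submodule.mem_bot] at h3
  exact sub_eq_zero.1 h3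

theorem ncr_card [Fact p.Prime] (nd : ND p m l N₀) (i : Fin N₀) (η : Fin l → ZMod p) :
    Nat.card ↥(ThN nd i η) = qN nd i := by
  unfold qN
  rw [← Nat.card_prod]
  symm
  refine Nat.card_congr (Equiv.ofBijective
    (fun x : ↥(ann (nd.C i)) × ↥(Wc nd i) =>
      (⟨Fin.append (x.1.1 - lB nd η x.2.1) (rB nd i x.2.1), x.1.1, x.1.2, x.2.1, x.2.2, rfl⟩ :
        ↥(ThN nd i η))) ⟨?_, ?_⟩)
  · rintro ⟨⟨γ, hγ⟩, ⟨μ, hμ⟩⟩ ⟨⟨γ', hγ'⟩, ⟨μ', hμ'⟩⟩ h
    have h1 := congrArg Subtype.val h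
    change (Fin.append (γ - lB nd η μ) (rB nd i μ) : Fin (m + l) → ZMod p) =
      Fin.append (γ' - lB nd η μ') (rB nd i μ') at h1
    obtain ⟨h2, h3⟩ := NCrA_append_inj h1
    have h4 : μ = μ' := ncr_inj nd i μ μ' hμ hμ' h3
    subst h4
    have h5 : γ = γ' := sub_left_injective h2
    subst h5
    rfl
  · rintro ⟨θ, γ, hγ, μ, hμ, rfl⟩
    exact ⟨(⟨γ, hγ⟩, ⟨μ, hμ⟩), rfl⟩

theorem ncr_vs [Fact p.Prime] (nd : ND p m l N₀) (i : Fin N₀) (η : Fin l → ZMod p)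
    (θ : Fin (m + l) → ZMod p) : θ ∈ ThN nd i η ⊓ VsN p m l ↔
      ∃ γ ∈ ann (nd.C i), θ = Fin.append γ (0 : Fin l → ZMod p) := by
  constructor
  · rintro ⟨⟨γ, hγ, μ, hμ, rfl⟩, h2⟩
    have h3 : rB nd i μ = 0 := by
      funext k
      have := h2 k
      rwa [Fin.append_right] at this
    have h4 : μ = 0 := by
      apply ncr_inj nd i μ 0 hμ (Submodule.zero_mem _)
      rw [h3, NCrA_rB00]
    subst h4
    refine ⟨γ, hγ, ?_⟩
    rw [NCrA_lB0, sub_zero, NCrA_rB00]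
  · rintro ⟨γ, hγ, rfl⟩
    refine ⟨⟨γ, hγ, 0, Submodule.zero_mem _, ?_⟩, fun k => ?_⟩
    · rw [NCrA_lB0, sub_zero, NCrA_rB00]
    · rw [Fin.append_right]
      rfl

theorem ncr_hd [Fact p.Prime] (nd : ND p m l N₀) (i : Fin N₀) (η η' : Fin l → ZMod p) :
    ThN nd i η ⊓ VsN p m l = ThN nd i η' ⊓ VsN p m l := by
  ext θ
  rw [ncr_vs, ncr_vs]

theorem ncr_hq [Fact p.Prime] (nd : ND p m l N₀) (i : Fin N₀) (η : Fin l → ZMod p) :
    Nat.card ↥(ThN nd i η ⊓ VsN p m l) ≤ qN nd i := by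
  rw [← ncr_card nd i η]
  exact Nat.card_mono (Set.toFinite _) inf_le_left

theorem ncr_q0 [Fact p.Prime] (nd : ND p m l N₀) (i : Fin N₀) : 0 < qN nd i := by
  unfold qN
  exact Nat.mul_pos Nat.card_pos Nat.card_pos

theorem ncr_loc [Fact p.Prime] (nd : ND p m l N₀) (i : Fin N₀) (η y : Fin l → ZMod p)
    (v : Fin m → ZMod p) (hv : v ∈ nd.C i) (h : nd.B (nd.t i) y = nd.B v η)
    (θ : Fin (m + l) → ZMod p) (hθ : θ ∈ ThN nd i η) : dt θ (Fin.append v y) = 0 := by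
  obtain ⟨γ, hγ, μ, hμ, rfl⟩ := hθ
  rw [ndef_app, rB_dt]
  have h1 : dt (γ - lB nd η μ) v = dt γ v - dt (lB nd η μ) v := by
    simp only [dt, Pi.sub_apply, sub_mul, Finset.sum_sub_distrib]
  rw [h1, hγ v hv, lB_dt, h]
  ring

theorem ncr_ann (hp : p.Prime) (C : Submodule (ZMod p) (Fin m → ZMod p)) :
    Nat.card ↥(ann C) * Nat.card ↥C = p ^ m := by
  have : Fact p.Prime := ⟨hp⟩
  have e : ↥(ann C) ≃ ↥(Submodule.dualAnnihilator C) := by
    refine Equiv.ofBijective (fun θ => ⟨dotProductEquiv (ZMod p) (Fin m) θ.1, ?_⟩) ⟨?_, ?_⟩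
    · rw [Submodule.mem_dualAnnihilator]
      intro w hw
      rw [dotProductEquiv_apply_apply]
      exact θ.2 w hw
    · intro θ θ' h
      have h1 := congrArg Subtype.val h
      exact Subtype.ext ((dotProductEquiv (ZMod p) (Fin m)).injective h1)
    · rintro ⟨φ, hφ⟩
      obtain ⟨θ, rfl⟩ := (dotProductEquiv (ZMod p) (Fin m)).surjective φ
      refine ⟨⟨θ, fun b hb => ?_⟩, rfl⟩
      have h1 := (Submodule.mem_dualAnnihilator _).1 hφ b hb
      rwa [dotProductEquiv_apply_apply] at h1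
  have hf := Subspace.finrank_add_finrank_dualAnnihilator_eq C
  have : Finite (Module.Dual (ZMod p) (Fin m → ZMod p)) :=
    Finite.of_equiv _ (dotProductEquiv (ZMod p) (Fin m)).toEquiv
  rw [Nat.card_congr e, tss_card hp, tss_card hp, ← pow_add, add_comm, hf,
    Module.finrank_fin_fun]

end H77.GN
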