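import Pool.Agent.H77.GN.NCrA
import Pool.Agent.H77.AB.Tss

/-!
# [H77 GN NCRB] the combinatorial inequality, 110-160 lines (linear algebra over F_p)

`U` a pairwise unlinked set of refined indices `a = (k, θ)` of `cN nd` such that two elements with the same class whose difference of `θ` is in `VsN` and orthogonal to all `x_{a''}`, `a'' ∈ U`, are equal. Then `U` has at most `qN nd i` elements of type `i`.

Proof. Let `U_i` be the set of the `a ∈ U` of type `i`, `η_a = etN nd a.1 ∈ Dd i`, `θ_a = (γ_a - lB η_a μ_a, rB i μ_a)` with `γ_a ∈ ann (C i)`, `μ_a ∈ Wc i` (choose). `x_a = (t i, η_a)`. For `a, a' ∈ U_i`: `θ_a · x_{a'} = γ_a · t i - μ_a · B (t i) η_a + μ_a · B (t i) η_{a'} = ρ_a · (η_{a'} - η_a)`, `ρ_a = rB nd i μ_a` (`ndef_app`, `lB_dt`, `rB_dt`, `tC`), so `0 = lk a a' = - dt (ρ_a - ρ_{a'}) (η_a - η_{a'})`.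
The map `a ↦ (η_a, μ_a) ∈ Dd i × Wc i` is injective on `U_i`: if `η_a = η_{a'}` then `a.1 = a'.1` (`eN nd` is a bijection, `IN` elements with the same `i` and the same `η` are equal); if also `μ_a = μ_{a'}` then `θ_a - θ_{a'} = (γ_a - γ_{a'}, 0) ∈ VsN`, and for `a'' ∈ U`: `(θ_a - θ_{a'}) · x_{a''} = lk a a'' - lk a' a'' = 0` because `x_a = x_{a'}`. So `a = a'` by hypothesis.
`tss` (H77/AB/Tss) for `V = ↥(Dd i)`, `W = ↥(Wc i)`, the bilinear form `(η, μ) ↦ dt (rB i μ) η = dt μ (B (t i) η)` and the image `S` of `U_i`: the hypothesis is `dt (rB (μ_a - μ_{a'})) (η_a - η_{a'}) = 0`. So `#U_i ≤ #Wc * #(left kernel)`, and the left kernel is `{η ∈ Dd i : dt μ (B (t i) η) = 0 for all μ ∈ Wc}`; for such `η`, `dt μ (B (t i) η) = 0` also for `μ ∈ kerR`, so for all `μ` (`kerR ⊔ Wc = ⊤`), hence `B (t i) η = 0`: the left kernel has at most `#(Dd i ⊓ ker B (t i))` elements.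
`#(Dd i ⊓ ker) #C ≤ p^m = #ann(C) #C` (`nd.ineq`, `ncr_ann`), so `#U_i ≤ #Wc * #ann (C i) = qN nd i`.
-/

set_option autoImplicit false

open scoped NumberField
open IsDedekindDomain
open scoped Classical

noncomputable section

namespace H77.GN

open H63.MA H38.BB H77.AB

variable {p m l N₀ : ℕ}

private theorem NCrB_sub {n : ℕ} (θ θ' x : Fin n → ZMod p) :
    dt (θ - θ') x = dt θ x - dt θ' x := by
  simp only [dt, Pi.sub_apply, sub_mul, Finset.sum_sub_distrib]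

private theorem NCrB_ev (nd : ND p m l N₀) (i : Fin N₀) (γ : Fin m → ZMod p)
    (μ η η' : Fin l → ZMod p) (hγ : γ ∈ ann (nd.C i)) :
    dt (Fin.append (γ - lB nd η μ) (rB nd i μ)) (Fin.append (nd.t i) η') =
      dt μ (nd.B (nd.t i) η') - dt μ (nd.B (nd.t i) η) := by
  rw [ndef_app, rB_dt, NCrB_sub, hγ _ (nd.tC i), lB_dt]
  ring

/-- the bilinear form -/
private def NCrB_B [Fact p.Prime] (nd : ND p m l N₀) (i : Fin N₀) :
    ↥(nd.Dd i) →ₗ[ZMod p] ↥(Wc nd i) →ₗ[ZMod p] ZMod p :=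
  LinearMap.mk₂ (ZMod p) (fun η μ => dt μ.1 (nd.B (nd.t i) η.1))
    (fun η η' μ => by
      rw [Submodule.coe_add, map_add, ndef_dt_add'])
    (fun r η μ => by
      rw [Submodule.coe_smul, map_smul, ndef_dt_smul', smul_eq_mul])
    (fun η μ μ' => by
      rw [Submodule.coe_add, adat_dt_add])
    (fun r η μ => by
      rw [Submodule.coe_smul, adat_dt_smul, smul_eq_mul])

private theorem NCrB_ker [Fact p.Prime] (nd : ND p m l N₀) (i : Fin N₀) :
    Nat.card ↥(LinearMap.ker (NCrB_B nd i)) ≤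
      Nat.card ↥(nd.Dd i ⊓ LinearMap.ker (nd.B (nd.t i))) := by
  refine Nat.card_le_card_of_injective
    (fun η : ↥(LinearMap.ker (NCrB_B nd i)) =>
      (⟨η.1.1, η.1.2, ?_⟩ : ↥(nd.Dd i ⊓ LinearMap.ker (nd.B (nd.t i))))) ?_
  · have h1 : ∀ μ ∈ Wc nd i, dt μ (nd.B (nd.t i) η.1.1) = 0 := by
      intro μ hμ
      have h2 : NCrB_B nd i η.1 = 0 := η.2
      have h3 := congrArg (fun g => g ⟨μ, hμ⟩) h2
      exact h3
    have h2 : ∀ μ, dt μ (nd.B (nd.t i) η.1.1) = 0 := by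
      intro μ
      have h3 : μ ∈ kerR nd i ⊔ Wc nd i := by
        rw [(wc_compl nd i).sup_eq_top]
        exact Submodule.mem_top
      obtain ⟨a, ha, b, hb, rfl⟩ := Submodule.mem_sup.1 h3
      rw [adat_dt_add, ha, h1 b hb, add_zero]
    rw [SetLike.mem_coe, LinearMap.mem_ker]
    funext k
    have h3 := h2 (Pi.single k 1)
    unfold dt at h3
    rw [Finset.sum_eq_single k] at h3
    · simpa using h3
    · intro j _ hj
      rw [Pi.single_eq_of_ne hj, zero_mul]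
    · intro h
      exact absurd (Finset.mem_univ k) h
  · intro η η' h
    have h1 := congrArg Subtype.val h
    exact Subtype.ext (Subtype.ext h1)

theorem ncr_hH [NeZero p] [Fact p.Prime] (nd : ND p m l N₀) (U : Finset (cN nd).J)
    (h1 : ∀ a ∈ U, ∀ a' ∈ U, (cN nd).pd.lk a a' = 0)
    (h2 : ∀ a ∈ U, ∀ a' ∈ U, a.1 = a'.1 → a.2.1 - a'.2.1 ∈ VsN p m l →
      (∀ a'' ∈ U, dt (a.2.1 - a'.2.1) ((cN nd).x a''.1) = 0) → a = a') (i : Fin N₀) :
    (U.filter fun a => tyN nd a.1 = i).card ≤ qN nd i := by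
  have hp : p.Prime := Fact.out
  have hθ : ∀ a : (cN nd).J, ∃ γ, ∃ μ, γ ∈ ann (nd.C (tyN nd a.1)) ∧
      μ ∈ Wc nd (tyN nd a.1) ∧
      a.2.1 = Fin.append (γ - lB nd (etN nd a.1) μ) (rB nd (tyN nd a.1) μ) := by
    intro a
    obtain ⟨γ, hγ, μ, hμ, h⟩ := a.2.2
    exact ⟨γ, μ, hγ, hμ, h⟩
  choose γ μ hγ hμ he using hθ
  have hη : ∀ a : (cN nd).J, etN nd a.1 ∈ nd.Dd (tyN nd a.1) := fun a => (eN nd a.1).2.2
  have hx : ∀ a : (cN nd).J, (cN nd).x a.1 =
      Fin.append (nd.t (tyN nd a.1)) (etN nd a.1) := fun a => rfl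
  have hlk : ∀ a ∈ U, ∀ a' ∈ U, tyN nd a.1 = i → tyN nd a'.1 = i →
      dt (μ a - μ a') (nd.B (nd.t i) (etN nd a.1 - etN nd a'.1)) = 0 := by
    intro a ha a' ha' hi hi'
    have h3 : dt a.2.1 ((cN nd).x a'.1) + dt a'.2.1 ((cN nd).x a.1) = 0 := h1 a ha a' ha'
    have g1 := hγ a
    have g2 := hγ a'
    rw [he a, he a', hx, hx] at h3
    rw [hi] at h3 g1
    rw [hi'] at h3 g2
    rw [NCrB_ev nd i _ _ _ _ g1, NCrB_ev nd i _ _ _ _ g2] at h3
    rw [NCrB_sub, map_sub, sub_eq_add_neg (nd.B (nd.t i) (etN nd a.1)), ndef_dt_add',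
      ndef_dt_add', ← neg_one_smul (ZMod p) (nd.B (nd.t i) (etN nd a'.1)), ndef_dt_smul',
      ndef_dt_smul']
    linear_combination -h3
  set Ui := U.filter fun a => tyN nd a.1 = i with hUi
  have hm : ∀ a ∈ Ui, a ∈ U ∧ tyN nd a.1 = i := fun a ha => Finset.mem_filter.1 ha
  let f : {a // a ∈ Ui} → ↥(nd.Dd i) × ↥(Wc nd i) := fun a =>
    (⟨etN nd a.1.1, (hm a.1 a.2).2 ▸ hη a.1⟩, ⟨μ a.1, (hm a.1 a.2).2 ▸ hμ a.1⟩)
  have hf : Function.Injective f := by
    rintro ⟨a, ha⟩ ⟨a', ha'⟩ h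
    have e1 : etN nd a.1 = etN nd a'.1 := congrArg (fun z => z.1.1) h
    have e2 : μ a = μ a' := congrArg (fun z => z.2.1) h
    obtain ⟨ha1, ha2⟩ := hm a ha
    obtain ⟨ha1', ha2'⟩ := hm a' ha'
    have e3 : a.1 = a'.1 := by
      apply (eN nd).injective
      have t1 : (eN nd a.1).1 = (eN nd a'.1).1 := by
        change tyN nd a.1 = tyN nd a'.1
        rw [ha2, ha2']
      have t2 : (eN nd a.1).2.1 = (eN nd a'.1).2.1 := e1
      generalize eN nd a.1 = A at t1 t2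
      generalize eN nd a'.1 = A' at t1 t2
      obtain ⟨j, η, hη⟩ := A
      obtain ⟨j', η', hη'⟩ := A'
      dsimp at t1 t2
      subst t1
      subst t2
      rfl
    have e4 : a.2.1 - a'.2.1 = Fin.append (γ a - γ a') (0 : Fin l → ZMod p) := by
      rw [he a, he a', ← e1, ← e2, ha2, ha2']
      funext k
      refine Fin.addCases (fun k => ?_) (fun k => ?_) k
      · rw [Pi.sub_apply, Fin.append_left, Fin.append_left, Fin.append_left]
        simp only [Pi.sub_apply]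
        ring
      · rw [Pi.sub_apply, Fin.append_right, Fin.append_right, Fin.append_right, sub_self]
        rfl
    apply Subtype.ext
    refine h2 a ha1 a' ha1' e3 ?_ ?_
    · rw [e4]
      intro k
      rw [Fin.append_right]
      rfl
    · intro a'' ha''
      rw [NCrB_sub]
      have l1 : dt a.2.1 ((cN nd).x a''.1) + dt a''.2.1 ((cN nd).x a.1) = 0 := h1 a ha1 a'' ha''
      have l2 : dt a'.2.1 ((cN nd).x a''.1) + dt a''.2.1 ((cN nd).x a'.1) = 0 :=
        h1 a' ha1' a'' ha''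
      have l3 : (cN nd).x a.1 = (cN nd).x a'.1 := congrArg (cN nd).x e3
      rw [l3] at l1
      linear_combination l1 - l2
  have hS := tss hp (NCrB_B nd i) (Finset.univ.image f) (by
    intro u hu v hv
    obtain ⟨⟨a, ha⟩, -, rfl⟩ := Finset.mem_image.1 hu
    obtain ⟨⟨a', ha'⟩, -, rfl⟩ := Finset.mem_image.1 hv
    exact hlk a (hm a ha).1 a' (hm a' ha').1 (hm a ha).2 (hm a' ha').2)
  rw [Finset.card_image_of_injective _ hf, Finset.card_univ, Fintype.card_coe] at hS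
  refine hS.trans ?_
  unfold qN
  rw [mul_comm]
  refine Nat.mul_le_mul_right _ ?_
  refine (NCrB_ker nd i).trans ?_
  have c1 := nd.ineq i
  rw [← ncr_ann hp (nd.C i)] at c1
  exact Nat.le_of_mul_le_mul_right c1 Nat.card_pos

end H77.GN
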