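import Pool.Agent.H77.GN.GDef
import Pool.Agent.H77.AB.ADat

/-!
# H77-GN-NDEF: numerical data of the general upper bound

* `ND p m l N₀`: numerical data: for the class `i ∈ Fin N₀` the vector `t i ∈ F_p^m` (image of `g i`), the subspace `C i` (image of the centraliser), the subspace `Dd i ⊆ F_p^l`, a bilinear map `B : F_p^m × F_p^l → F_p^l`, and the inequality `#(Dd i ∩ ker B (t i)) #(C i) ≤ p^m`.
* `rB nd i μ = μ ∘ B (t i)`, `lB nd η μ = μ ∘ B(·, η)` (functionals are identified with vectors by `dt`). `kerR nd i`: the `μ` with `rB nd i μ = 0`; `Wc nd i`: a complement of it.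
* `apv x y = Fin.append x y`.
* `IN nd`: the refined classes `(i, η)`, `η ∈ Dd i`; `NN` their number, `eN` an enumeration; `xN (i, η) = (t i, η)`; `ThN i η = {(γ - lB η μ, rB i μ) : γ ∈ ann (C i), μ ∈ Wc i}`; `cN nd` the class data; `VsN` the functionals supported on the first `m` coordinates; `qN nd i = #ann (C i) * #Wc i`.
-/

set_option autoImplicit false

open scoped NumberField
open IsDedekindDomain
open scoped Classical

noncomputable section

namespace H77.GN

open H63.MA H38.BB H77.AB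

/-- numerical data -/
structure ND (p m l N₀ : ℕ) where
  t : Fin N₀ → Fin m → ZMod p
  C : Fin N₀ → Submodule (ZMod p) (Fin m → ZMod p)
  Dd : Fin N₀ → Submodule (ZMod p) (Fin l → ZMod p)
  B : (Fin m → ZMod p) →ₗ[ZMod p] (Fin l → ZMod p) →ₗ[ZMod p] (Fin l → ZMod p)
  tC : ∀ i, t i ∈ C i
  ineq : ∀ i, Nat.card ↥(Dd i ⊓ LinearMap.ker (B (t i))) * Nat.card ↥(C i) ≤ p ^ m

variable {p m l N₀ : ℕ}

theorem ndef_dt_smul' {n : ℕ} (r : ZMod p) (θ x : Fin n → ZMod p) :
    dt θ (r • x) = r * dt θ x := by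
  simp only [dt, Pi.smul_apply, smul_eq_mul, Finset.mul_sum]
  exact Finset.sum_congr rfl fun k _ => by ring

theorem ndef_dt_add' {n : ℕ} (θ x y : Fin n → ZMod p) : dt θ (x + y) = dt θ x + dt θ y := by
  simp only [dt, Pi.add_apply, mul_add, Finset.sum_add_distrib]

/-- `dt μ` as a linear map -/
def dtL {n : ℕ} (μ : Fin n → ZMod p) : (Fin n → ZMod p) →ₗ[ZMod p] ZMod p where
  toFun x := dt μ x
  map_add' x y := ndef_dt_add' μ x y
  map_smul' r x := ndef_dt_smul' r μ x

/-- a linear functional is given by its values on the unit vectors -/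
theorem ndef_unit {n : ℕ} (f : (Fin n → ZMod p) →ₗ[ZMod p] ZMod p) (x : Fin n → ZMod p) :
    dt (fun k => f (Pi.single k 1)) x = f x := by
  have h : x = ∑ k, x k • (Pi.single k (1 : ZMod p) : Fin n → ZMod p) := by
    funext j
    rw [Finset.sum_apply, Finset.sum_eq_single j]
    · simp
    · intro k _ hk
      simp [Pi.single_apply, hk.symm]
    · intro h
      exact absurd (Finset.mem_univ j) h
  conv_rhs => rw [h, map_sum]
  unfold dt
  refine Finset.sum_congr rfl fun k _ => ?_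
  rw [map_smul, smul_eq_mul, mul_comm]

/-- `μ ∘ B (t i)` -/
def rB (nd : ND p m l N₀) (i : Fin N₀) (μ : Fin l → ZMod p) : Fin l → ZMod p :=
  fun k => dt μ (nd.B (nd.t i) (Pi.single k 1))

/-- `μ ∘ B (·, η)` -/
def lB (nd : ND p m l N₀) (η : Fin l → ZMod p) (μ : Fin l → ZMod p) : Fin m → ZMod p :=
  fun k => dt μ (nd.B (Pi.single k 1) η)

theorem rB_dt (nd : ND p m l N₀) (i : Fin N₀) (μ y : Fin l → ZMod p) :
    dt (rB nd i μ) y = dt μ (nd.B (nd.t i) y) :=
  ndef_unit ((dtL μ).comp (nd.B (nd.t i))) y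

theorem lB_dt (nd : ND p m l N₀) (η μ : Fin l → ZMod p) (v : Fin m → ZMod p) :
    dt (lB nd η μ) v = dt μ (nd.B v η) :=
  ndef_unit ((dtL μ).comp (nd.B.flip η)) v

/-- the `μ` with `rB nd i μ = 0` -/
def kerR (nd : ND p m l N₀) (i : Fin N₀) : Submodule (ZMod p) (Fin l → ZMod p) where
  carrier := {μ | ∀ y, dt μ (nd.B (nd.t i) y) = 0}
  add_mem' := by
    intro a b ha hb y
    rw [adat_dt_add, ha y, hb y, add_zero]
  zero_mem' := fun y => adat_dt_zero _
  smul_mem' := by
    intro r a ha y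
    rw [adat_dt_smul, ha y, mul_zero]

/-- a complement of `kerR` -/
def Wc [Fact p.Prime] (nd : ND p m l N₀) (i : Fin N₀) :
    Submodule (ZMod p) (Fin l → ZMod p) :=
  Classical.choose (Submodule.exists_isCompl (kerR nd i))

theorem wc_compl [Fact p.Prime] (nd : ND p m l N₀) (i : Fin N₀) :
    IsCompl (kerR nd i) (Wc nd i) :=
  Classical.choose_spec (Submodule.exists_isCompl (kerR nd i))

theorem ndef_app {m l : ℕ} (γ v : Fin m → ZMod p) (ρ y : Fin l → ZMod p) :
    dt (Fin.append γ ρ) (Fin.append v y) = dt γ v + dt ρ y := by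
  unfold dt
  rw [Fin.sum_univ_add]
  congr 1
  · exact Finset.sum_congr rfl fun k _ => by rw [Fin.append_left, Fin.append_left]
  · exact Finset.sum_congr rfl fun k _ => by rw [Fin.append_right, Fin.append_right]

theorem ndef_app_add {m l : ℕ} (γ v : Fin m → ZMod p) (ρ y : Fin l → ZMod p) :
    (Fin.append γ ρ + Fin.append v y : Fin (m + l) → ZMod p) =
      Fin.append (γ + v) (ρ + y) := by
  funext k
  refine Fin.addCases (fun k => ?_) (fun k => ?_) k
  · simp only [Pi.add_apply, Fin.append_left]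
  · simp only [Pi.add_apply, Fin.append_right]

theorem ndef_app_smul {m l : ℕ} (r : ZMod p) (γ : Fin m → ZMod p) (ρ : Fin l → ZMod p) :
    (r • Fin.append γ ρ : Fin (m + l) → ZMod p) = Fin.append (r • γ) (r • ρ) := by
  funext k
  refine Fin.addCases (fun k => ?_) (fun k => ?_) k
  · simp only [Pi.smul_apply, Fin.append_left]
  · simp only [Pi.smul_apply, Fin.append_right]

theorem ndef_ann_dt (nd : ND p m l N₀) (i : Fin N₀) (η : Fin l → ZMod p) (r : ZMod p)
    (μ μ' : Fin l → ZMod p) :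
    lB nd η (μ + μ') = lB nd η μ + lB nd η μ' ∧ rB nd i (μ + μ') = rB nd i μ + rB nd i μ' ∧
      lB nd η (r • μ) = r • lB nd η μ ∧ rB nd i (r • μ) = r • rB nd i μ := by
  refine ⟨?_, ?_, ?_, ?_⟩
  · funext k
    exact adat_dt_add _ _ _
  · funext k
    exact adat_dt_add _ _ _
  · funext k
    exact adat_dt_smul _ _ _
  · funext k
    exact adat_dt_smul _ _ _

/-- the subspaces of the refined classes -/
def ThN [Fact p.Prime] (nd : ND p m l N₀) (i : Fin N₀) (η : Fin l → ZMod p) :
    Submodule (ZMod p) (Fin (m + l) → ZMod p) where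
  carrier := {θ | ∃ γ ∈ ann (nd.C i), ∃ μ ∈ Wc nd i,
    θ = Fin.append (γ - lB nd η μ) (rB nd i μ)}
  add_mem' := by
    rintro _ _ ⟨γ, hγ, μ, hμ, rfl⟩ ⟨γ', hγ', μ', hμ', rfl⟩
    refine ⟨γ + γ', Submodule.add_mem _ hγ hγ', μ + μ', Submodule.add_mem _ hμ hμ', ?_⟩
    obtain ⟨h1, h2, -, -⟩ := ndef_ann_dt nd i η 0 μ μ'
    rw [ndef_app_add, h1, h2]
    congr 1
    abel
  zero_mem' := by
    refine ⟨0, Submodule.zero_mem _, 0, Submodule.zero_mem _, ?_⟩
    have h1 : lB nd η 0 = 0 := by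
      funext k
      exact adat_dt_zero _
    have h2 : rB nd i 0 = 0 := by
      funext k
      exact adat_dt_zero _
    rw [h1, h2, sub_zero]
    funext k
    refine Fin.addCases (fun k => ?_) (fun k => ?_) k
    · rw [Fin.append_left]
      rfl
    · rw [Fin.append_right]
      rfl
  smul_mem' := by
    rintro r _ ⟨γ, hγ, μ, hμ, rfl⟩
    refine ⟨r • γ, Submodule.smul_mem _ _ hγ, r • μ, Submodule.smul_mem _ _ hμ, ?_⟩
    obtain ⟨-, -, h3, h4⟩ := ndef_ann_dt nd i η r μ μ
    rw [ndef_app_smul, h3, h4, smul_sub]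

/-- the refined classes -/
def IN (nd : ND p m l N₀) : Type := Σ i : Fin N₀, {η : Fin l → ZMod p // η ∈ nd.Dd i}

instance [NeZero p] (nd : ND p m l N₀) : Fintype (IN nd) :=
  inferInstanceAs (Fintype (Σ i : Fin N₀, {η : Fin l → ZMod p // η ∈ nd.Dd i}))

/-- their number -/
def NN [NeZero p] (nd : ND p m l N₀) : ℕ := Fintype.card (IN nd)

/-- an enumeration -/
def eN [NeZero p] (nd : ND p m l N₀) : Fin (NN nd) ≃ IN nd := (Fintype.equivFin (IN nd)).symm

/-- the class of a refined class -/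
def tyN [NeZero p] (nd : ND p m l N₀) (k : Fin (NN nd)) : Fin N₀ := (eN nd k).1

/-- the label of a refined class -/
def etN [NeZero p] (nd : ND p m l N₀) (k : Fin (NN nd)) : Fin l → ZMod p := (eN nd k).2.1

/-- the class data -/
def cN [NeZero p] [Fact p.Prime] (nd : ND p m l N₀) : CR p (m + l) (NN nd) where
  x k := Fin.append (nd.t (tyN nd k)) (etN nd k)
  Θ k := ThN nd (tyN nd k) (etN nd k)
  self k θ hθ := by
    obtain ⟨γ, hγ, μ, hμ, rfl⟩ := hθ
    rw [ndef_app, rB_dt]
    have h1 : dt (γ - lB nd (etN nd k) μ) (nd.t (tyN nd k)) =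
        dt γ (nd.t (tyN nd k)) - dt (lB nd (etN nd k) μ) (nd.t (tyN nd k)) := by
      simp only [dt, Pi.sub_apply, sub_mul, Finset.sum_sub_distrib]
    rw [h1, hγ _ (nd.tC _), lB_dt]
    ring

/-- the functionals supported on the first `m` coordinates -/
def VsN (p m l : ℕ) : Submodule (ZMod p) (Fin (m + l) → ZMod p) where
  carrier := {θ | ∀ k : Fin l, θ (Fin.natAdd m k) = 0}
  add_mem' := by
    intro a b ha hb k
    rw [Pi.add_apply, ha k, hb k, add_zero]
  zero_mem' := fun k => rfl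
  smul_mem' := by
    intro r a ha k
    rw [Pi.smul_apply, ha k, smul_zero]

/-- the cardinality of the subspaces -/
def qN [Fact p.Prime] (nd : ND p m l N₀) (i : Fin N₀) : ℕ :=
  Nat.card ↥(ann (nd.C i)) * Nat.card ↥(Wc nd i)

end H77.GN
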