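import Pool.Agent.H77.GN.NTd
import Pool.Agent.H77.AB.LExA

/-!
# [H77 GN NEX] the labels and the refined families, 180-260 lines (compare LExA, LExB, LExP in H77/AB)

`f : Fin N₀ → Finset (Pl K)` pairwise disjoint, disjoint from `E`, good, `∏ nr (f i) ≤ Y`, with `SpG Dg b f` and `LocG D Dg b f`. Claim: `#(YS D Dg U b f) ≤ ∑_{ε ∈ U^l} ∑_{F over f} swS (F)`, where `F` runs through the families in `GF D Y` with `unC (tyN nd) F = f`, and the term `swS` is for the type data `tdN nd`, `S = univ` and the Kummer elements `apk b ε = (b, ε)`.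

Proof. Map `(ε, η) ∈ YS` to `(ε, F)`, `F = rfN nd f η'`, `η' v = η v` for `v ∈ x = ⋃ f i` (`0` outside): `F k = {v ∈ f i : η v = e}` for `k = (i, e)` (`tyN nd k = i`, `etN nd k = e`). For `v ∈ f i` we have `η v ∈ Dd i`, so there is exactly one `k` over `i` with `etN nd k = η v` (`eN nd` is a bijection onto `IN nd`): `F` is a partition of `f`: `unC (tyN nd) F = f`, `Dj F`, `F k ⊆ f (tyN nd k)`, `∏_k nr (F k) = ∏_i nr (f i)`, `F k ∈ GF D Y` (`rx_mem_GF`, `nr_mono`).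
The map is injective: `F` determines `η v` for `v ∈ x`. The term of the image is `1`: the conditions hold (`Dj F`, disjoint from `E`, norms, `tyN k ∈ univ`). `SpV (tdN nd) (apk b ε) F`: for `0 ≠ θ ∈ VsN` let `θ' k = θ (castAdd l k)`; `θ' ≠ 0`; by `SpG` either some `f i ≠ ∅` with `dt θ' (t i) ≠ 0`: then some `F k ≠ ∅` over `i` and `dt θ ((cN nd).x k) = dt θ' (t i)` (`ndef_app` with `θ = Fin.append θ' 0`); or `bp b θ'` is not a `p`-th power, and `bp (apk b ε) θ = bp b θ'` (`Fin.prod_univ_add`, exponents `0` on the second part).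
The factors: let `v ∈ F k`, `k = (i, e)`, `e = η v`. `akR D (cN nd) (apk b ε) F` at the coordinate `castAdd l n` is `akR D Dg.c0 b f n` (`∏_k ∏_{w ∈ F k} pi w ^ (t (ty k) n).val = ∏_i ∏_{w ∈ f i} pi w ^ (t i n).val`; `lexa_prod` in H77/AB/LExA is the analogous statement), and at `natAdd m n` it is `ε n * ∏_{w ∈ x} pi w ^ (η w n).val` (`(cN nd).x k (natAdd m n) = etN nd k n = η w n` for `w ∈ F k`). So `(LL v (akR ..)) = Fin.append (LL v (akR D Dg.c0 b f ·)) (LL v (z ·))` with `z n = ε n ∏ pi^η`,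
the first part is in `C i` (`LocG`) and `B (t i) (LL v (z ·)) = B (LL v (akR b f)) (η v)` (`YS`), so all `θ ∈ Θ k = ThN nd i e` are orthogonal to it (`ncr_loc`), and the factor is `#Θ_k / q = 1` (`ncr_card`: `#(ThN nd i e) = qN nd i`, `ncr_q0`).
All terms `swS ≥ 0`, so the double sum is at least the number of the elements of the image (`Finset.card_le_card_of_injOn`/`Finset.sum_le_sum_of_subset_of_nonneg`; write the double sum as a sum over a product or sigma set, as in `lexp` in H77/AB/LExP).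
-/

set_option autoImplicit false

open scoped NumberField
open IsDedekindDomain
open scoped Classical

noncomputable section

namespace H77.GN

open H63.MA H38.BB H38.BG H63.BU H77.AB

theorem nex_nonneg {K : Type} [Field K] [NumberField K] {p : ℕ} {ζ : K} {m N β : ℕ}
    {c : CR p m N} (D : RD0 K p ζ) (t : TD c β) (S : Finset (Fin β)) (b : Fin m → Kˣ)
    (E : Finset (Pl K)) (Y : ℝ) (f : Fin N → Finset (Pl K)) : 0 ≤ swS D t S b E Y f := by
  unfold swS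
  split_ifs
  · rw [one_mul]
    refine Finset.prod_nonneg fun i _ => Finset.prod_nonneg fun v _ => ?_
    split_ifs
    · positivity
    · exact le_rfl
  · rw [zero_mul]
  · exact le_rfl

section aux

variable {K : Type} [Field K] [NumberField K] {p : ℕ} [NeZero p] {m l N₀ : ℕ}

theorem nex_mem (nd : ND p m l N₀) (f : Fin N₀ → Finset (Pl K)) (η : Pl K → Fin l → ZMod p)
    (k : Fin (NN nd)) (v : Pl K) :
    v ∈ rfN nd f η k ↔ v ∈ f (tyN nd k) ∧ η v = etN nd k := by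
  unfold rfN
  rw [Finset.mem_filter]

/-- the refined index of a labelled prime -/
def nexKey (nd : ND p m l N₀) (η : Pl K → Fin l → ZMod p) (i : Fin N₀) (v : Pl K) :
    Fin (NN nd) :=
  if h : η v ∈ nd.Dd i then (eN nd).symm ⟨i, ⟨η v, h⟩⟩ else
    (eN nd).symm ⟨i, ⟨0, Submodule.zero_mem _⟩⟩

theorem nex_key_ty (nd : ND p m l N₀) (η : Pl K → Fin l → ZMod p) (i : Fin N₀) (v : Pl K)
    (h : η v ∈ nd.Dd i) : tyN nd (nexKey nd η i v) = i ∧ etN nd (nexKey nd η i v) = η v := by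
  unfold nexKey tyN etN
  rw [dif_pos h, Equiv.apply_symm_apply]
  exact ⟨rfl, rfl⟩

theorem nex_ext (nd : ND p m l N₀) (k k' : Fin (NN nd)) (h1 : tyN nd k = tyN nd k')
    (h2 : etN nd k = etN nd k') : k = k' := by
  apply (eN nd).injective
  unfold tyN at h1
  unfold etN at h2
  generalize eN nd k = a at h1 h2
  generalize eN nd k' = b at h1 h2
  rcases a with ⟨i, η, hη⟩
  rcases b with ⟨j, η', hη'⟩
  change i = j at h1
  change η = η' at h2
  subst h1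
  subst h2
  rfl

theorem nex_key_mem (nd : ND p m l N₀) (f : Fin N₀ → Finset (Pl K))
    (η : Pl K → Fin l → ZMod p) (i : Fin N₀) (v : Pl K) (hv : v ∈ f i) (h : η v ∈ nd.Dd i) :
    v ∈ rfN nd f η (nexKey nd η i v) := by
  rw [nex_mem]
  obtain ⟨h1, h2⟩ := nex_key_ty nd η i v h
  rw [h1, h2]
  exact ⟨hv, rfl⟩

theorem nex_un (nd : ND p m l N₀) (f : Fin N₀ → Finset (Pl K)) (η : Pl K → Fin l → ZMod p)
    (hη : ∀ i, ∀ v ∈ f i, η v ∈ nd.Dd i) : unC (tyN nd) (rfN nd f η) = f := by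
  funext i
  ext v
  rw [lexa_unmem]
  constructor
  · rintro ⟨k, hk, hv⟩
    have h1 := ((nex_mem nd f η k v).1 hv).1
    rwa [hk] at h1
  · intro hv
    exact ⟨nexKey nd η i v, (nex_key_ty nd η i v (hη i v hv)).1,
      nex_key_mem nd f η i v hv (hη i v hv)⟩

theorem nex_sub (nd : ND p m l N₀) (f : Fin N₀ → Finset (Pl K)) (η : Pl K → Fin l → ZMod p)
    (k : Fin (NN nd)) : rfN nd f η k ⊆ f (tyN nd k) := fun v hv =>
  ((nex_mem nd f η k v).1 hv).1

theorem nex_dj (nd : ND p m l N₀) (f : Fin N₀ → Finset (Pl K)) (hf : Dj f)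
    (η : Pl K → Fin l → ZMod p) : Dj (rfN nd f η) := by
  intro k k' hkk
  rw [Finset.disjoint_left]
  intro v hv hv'
  obtain ⟨h1, h2⟩ := (nex_mem nd f η k v).1 hv
  obtain ⟨h3, h4⟩ := (nex_mem nd f η k' v).1 hv'
  by_cases hb : tyN nd k = tyN nd k'
  · exact hkk (nex_ext nd k k' hb (h2.symm.trans h4))
  · exact Finset.disjoint_left.1 (hf _ _ hb) h1 h3

theorem nex_prod {R : Type} [CommMonoid R] (nd : ND p m l N₀)
    (f : Fin N₀ → Finset (Pl K)) (η : Pl K → Fin l → ZMod p)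
    (hη : ∀ i, ∀ v ∈ f i, η v ∈ nd.Dd i)
    (h : Fin (NN nd) → Pl K → R) (h' : Fin N₀ → Pl K → R)
    (hh : ∀ k, ∀ v ∈ rfN nd f η k, h k v = h' (tyN nd k) v) :
    ∏ k, ∏ v ∈ rfN nd f η k, h k v = ∏ i, ∏ v ∈ f i, h' i v := by
  rw [Finset.prod_sigma', Finset.prod_sigma']
  refine Finset.prod_nbij'
    (fun x : (_ : Fin (NN nd)) × Pl K => (⟨tyN nd x.1, x.2⟩ : (_ : Fin N₀) × Pl K))
    (fun y : (_ : Fin N₀) × Pl K => (⟨nexKey nd η y.1 y.2, y.2⟩ :
      (_ : Fin (NN nd)) × Pl K)) ?_ ?_ ?_ ?_ ?_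
  · rintro ⟨k, v⟩ hx
    rw [Finset.mem_sigma] at hx ⊢
    exact ⟨Finset.mem_univ _, nex_sub nd f η k hx.2⟩
  · rintro ⟨i, v⟩ hx
    rw [Finset.mem_sigma] at hx ⊢
    exact ⟨Finset.mem_univ _, nex_key_mem nd f η i v hx.2 (hη i v hx.2)⟩
  · rintro ⟨k, v⟩ hx
    rw [Finset.mem_sigma] at hx
    obtain ⟨h1, h2⟩ := (nex_mem nd f η k v).1 hx.2
    obtain ⟨h3, h4⟩ := nex_key_ty nd η (tyN nd k) v (hη _ v h1)
    change (⟨nexKey nd η (tyN nd k) v, v⟩ : (_ : Fin (NN nd)) × Pl K) = ⟨k, v⟩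
    rw [nex_ext nd (nexKey nd η (tyN nd k) v) k h3 (h4.trans h2)]
  · rintro ⟨i, v⟩ hx
    rw [Finset.mem_sigma] at hx
    change (⟨tyN nd (nexKey nd η i v), v⟩ : (_ : Fin N₀) × Pl K) = ⟨i, v⟩
    rw [(nex_key_ty nd η i v (hη i v hx.2)).1]
  · rintro ⟨k, v⟩ hx
    rw [Finset.mem_sigma] at hx
    exact hh k v hx.2

theorem nex_nr (nd : ND p m l N₀) (f : Fin N₀ → Finset (Pl K)) (η : Pl K → Fin l → ZMod p)
    (hη : ∀ i, ∀ v ∈ f i, η v ∈ nd.Dd i) : ∏ k, nr (rfN nd f η k) = ∏ i, nr (f i) := by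
  unfold nr
  exact nex_prod nd f η hη (fun _ v => (nm v : ℝ)) (fun _ v => (nm v : ℝ)) fun _ _ _ => rfl

theorem nex_inj (nd : ND p m l N₀) (f : Fin N₀ → Finset (Pl K))
    (η η' : Pl K → Fin l → ZMod p) (hη : ∀ i, ∀ v ∈ f i, η v ∈ nd.Dd i)
    (h : rfN nd f η = rfN nd f η') : ∀ i, ∀ v ∈ f i, η v = η' v := by
  intro i v hv
  have h1 := nex_key_mem nd f η i v hv (hη i v hv)
  rw [h, nex_mem, (nex_key_ty nd η i v (hη i v hv)).2] at h1
  exact h1.2.symm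

end aux

section ak

variable {K : Type} [Field K] [NumberField K] {p : ℕ} [NeZero p] [Fact p.Prime] {ζ : K}
  {m l N₀ : ℕ} {G : Type} [Group G]

theorem nex_ak0 (D : RD0 K p ζ) (Dg : GDa p m l N₀ G) (b : Fin m → Kˣ) (ε : Fin l → Kˣ)
    (f : Fin N₀ → Finset (Pl K)) (η : Pl K → Fin l → ZMod p)
    (hη : ∀ i, ∀ v ∈ f i, η v ∈ Dg.nd.Dd i) (n : Fin m) :
    akR D (cN Dg.nd) (apk b ε) (rfN Dg.nd f η) (Fin.castAdd l n) = akR D Dg.c0 b f n := by
  unfold akR apk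
  rw [Fin.append_left]
  refine congrArg (b n * ·) ?_
  refine nex_prod Dg.nd f η hη
    (fun k w => D.pi w ^ ((cN Dg.nd).x k (Fin.castAdd l n)).val)
    (fun i w => D.pi w ^ (Dg.c0.x i n).val) fun k v _ => ?_
  change D.pi v ^ ((Fin.append (Dg.nd.t (tyN Dg.nd k)) (etN Dg.nd k) : Fin (m + l) → ZMod p)
    (Fin.castAdd l n)).val = _
  rw [Fin.append_left]
  rfl

theorem nex_ak1 (D : RD0 K p ζ) (Dg : GDa p m l N₀ G) (b : Fin m → Kˣ) (ε : Fin l → Kˣ)
    (f : Fin N₀ → Finset (Pl K)) (hdj : Dj f) (η : Pl K → Fin l → ZMod p)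
    (hη : ∀ i, ∀ v ∈ f i, η v ∈ Dg.nd.Dd i) (n : Fin l) :
    akR D (cN Dg.nd) (apk b ε) (rfN Dg.nd f η) (Fin.natAdd m n) =
      ε n * ∏ w : ↥(Finset.univ.biUnion f), D.pi w.1 ^ (η w.1 n).val := by
  unfold akR apk
  rw [Fin.append_right]
  refine congrArg (ε n * ·) ?_
  rw [nex_prod Dg.nd f η hη
    (fun k w => D.pi w ^ ((cN Dg.nd).x k (Fin.natAdd m n)).val)
    (fun _ w => D.pi w ^ (η w n).val) fun k v hv => ?_]
  · rw [Finset.prod_coe_sort (Finset.univ.biUnion f) (fun w => D.pi w ^ (η w n).val),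
      Finset.prod_biUnion fun a _ b _ hab => hdj a b hab]
  · change D.pi v ^ ((Fin.append (Dg.nd.t (tyN Dg.nd k)) (etN Dg.nd k) : Fin (m + l) → ZMod p)
      (Fin.natAdd m n)).val = _
    rw [Fin.append_right, ((nex_mem Dg.nd f η k v).1 hv).2]

theorem nex_sp (Dg : GDa p m l N₀ G) (b : Fin m → Kˣ) (ε : Fin l → Kˣ)
    (f : Fin N₀ → Finset (Pl K)) (η : Pl K → Fin l → ZMod p)
    (hη : ∀ i, ∀ v ∈ f i, η v ∈ Dg.nd.Dd i) (hsp : SpG Dg b f) :
    SpV (tdN Dg.nd) (apk b ε) (rfN Dg.nd f η) := by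
  intro θ hθ hθ0
  have hV : ∀ k : Fin l, θ (Fin.natAdd m k) = 0 := hθ
  set θ' : Fin m → ZMod p := fun k => θ (Fin.castAdd l k) with hθ'
  have h0 : θ' ≠ 0 := by
    intro h
    apply hθ0
    funext k
    refine Fin.addCases (fun k => ?_) (fun k => ?_) k
    · exact congrFun h k
    · exact hV k
  rcases hsp θ' h0 with ⟨i, hi, hd⟩ | hnp
  · left
    obtain ⟨v, hv⟩ := Finset.nonempty_iff_ne_empty.2 hi
    refine ⟨nexKey Dg.nd η i v, ?_, ?_⟩
    · intro h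
      have h1 := nex_key_mem Dg.nd f η i v hv (hη i v hv)
      rw [h] at h1
      exact absurd h1 (Finset.notMem_empty v)
    · have h2 : dt θ ((cN Dg.nd).x (nexKey Dg.nd η i v)) = dt θ' (Dg.nd.t i) := by
        change dt θ (Fin.append (Dg.nd.t (tyN Dg.nd (nexKey Dg.nd η i v)))
          (etN Dg.nd (nexKey Dg.nd η i v)) : Fin (m + l) → ZMod p) = _
        rw [(nex_key_ty Dg.nd η i v (hη i v hv)).1]
        unfold dt
        rw [Fin.sum_univ_add]
        have h3 : ∑ j : Fin l, θ (Fin.natAdd m j) *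
            (Fin.append (Dg.nd.t i) (etN Dg.nd (nexKey Dg.nd η i v)) : Fin (m + l) → ZMod p)
              (Fin.natAdd m j) = 0 :=
          Finset.sum_eq_zero fun j _ => by rw [hV j, zero_mul]
        rw [h3, add_zero]
        exact Finset.sum_congr rfl fun j _ => by rw [Fin.append_left]
      rw [h2]
      exact hd
  · right
    have h3 : bp (apk b ε) θ = bp b θ' := by
      unfold bp apk
      rw [Fin.prod_univ_add]
      have h4 : ∏ j : Fin l, (Fin.append b ε : Fin (m + l) → Kˣ) (Fin.natAdd m j) ^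
          (θ (Fin.natAdd m j)).val = 1 :=
        Finset.prod_eq_one fun j _ => by rw [hV j, ZMod.val_zero, pow_zero]
      rw [h4, mul_one]
      exact Finset.prod_congr rfl fun j _ => by rw [Fin.append_left]
    rw [h3]
    exact hnp

theorem nex_fac (D : RD0 K p ζ) (Dg : GDa p m l N₀ G) (b : Fin m → Kˣ) (ε : Fin l → Kˣ)
    (f : Fin N₀ → Finset (Pl K)) (hdj : Dj f) (η : Pl K → Fin l → ZMod p)
    (hη : ∀ i, ∀ v ∈ f i, η v ∈ Dg.nd.Dd i) (hlc : LocG D Dg b f)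
    (hY : ∀ i, ∀ v ∈ f i, Dg.nd.B (Dg.nd.t i) (fun k => D.LL v (ε k *
          ∏ w : ↥(Finset.univ.biUnion f), D.pi w.1 ^ (η w.1 k).val)) =
        Dg.nd.B (fun k => D.LL v (akR D Dg.c0 b f k)) (η v))
    (k : Fin (NN Dg.nd)) (v : Pl K) (hv : v ∈ rfN Dg.nd f η k) :
    (∀ θ ∈ (cN Dg.nd).Θ k, dt θ (fun j => D.LL v
        (akR D (cN Dg.nd) (apk b ε) (rfN Dg.nd f η) j)) = 0) ∧
      (Nat.card ((cN Dg.nd).Θ k) : ℝ) / ((tdN Dg.nd).q ((tdN Dg.nd).ty k) : ℝ) = 1 := by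
  obtain ⟨h1, h2⟩ := (nex_mem Dg.nd f η k v).1 hv
  have hL : (fun j => D.LL v (akR D (cN Dg.nd) (apk b ε) (rfN Dg.nd f η) j)) =
      Fin.append (fun j => D.LL v (akR D Dg.c0 b f j))
        (fun j => D.LL v (ε j *
          ∏ w : ↥(Finset.univ.biUnion f), D.pi w.1 ^ (η w.1 j).val)) := by
    funext j
    refine Fin.addCases (fun j => ?_) (fun j => ?_) j
    · rw [Fin.append_left, nex_ak0 D Dg b ε f η hη]
    · rw [Fin.append_right, nex_ak1 D Dg b ε f hdj η hη]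
  refine ⟨?_, ?_⟩
  swap
  · change (Nat.card ↥(ThN Dg.nd (tyN Dg.nd k) (etN Dg.nd k)) : ℝ) /
      (qN Dg.nd (tyN Dg.nd k) : ℝ) = 1
    rw [ncr_card]
    exact div_self (Nat.cast_ne_zero.2 (ncr_q0 Dg.nd _).ne')
  · intro θ hθ
    rw [hL]
    have h3 := hY (tyN Dg.nd k) v h1
    rw [h2] at h3
    exact ncr_loc Dg.nd (tyN Dg.nd k) (etN Dg.nd k) _ _ (hlc _ v h1) h3 θ hθ

end ak

/-- extension of the labels by zero -/
def nexExt {K : Type} [Field K] [NumberField K] {p l : ℕ} (x : Finset (Pl K))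
    (η : ↥x → Fin l → ZMod p) : Pl K → Fin l → ZMod p := fun v =>
  if h : v ∈ x then η ⟨v, h⟩ else 0

theorem nex_ext_eq {K : Type} [Field K] [NumberField K] {p l : ℕ} (x : Finset (Pl K))
    (η : ↥x → Fin l → ZMod p) (v : ↥x) : nexExt x η v.1 = η v := by
  unfold nexExt
  rw [dif_pos v.2]

theorem nex {K : Type} [Field K] [NumberField K] {p : ℕ} [NeZero p] [Fact p.Prime] {ζ : K}
    {m l N₀ : ℕ} {G : Type} [Group G] [Finite G] (hζ : IsPrimitiveRoot ζ p) (D : RD0 K p ζ)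
    (Dg : GDa p m l N₀ G) (U : Finset Kˣ) (b : Fin m → Kˣ) (f : Fin N₀ → Finset (Pl K))
    (E : Finset (Pl K)) (Y : ℝ) (hdj : Dj f) (hE : ∀ i, Disjoint (f i) E)
    (hY : ∏ i, nr (f i) ≤ Y) (hGF : ∀ i, f i ∈ GF D Y) (hsp : SpG Dg b f)
    (hlc : LocG D Dg b f) :
    ((YS D Dg U b f).card : ℝ) ≤
    ∑ ε ∈ Fintype.piFinset (fun _ : Fin l => U),
      ∑ F ∈ (Fintype.piFinset fun _ : Fin (NN Dg.nd) => GF D Y).filter
        (fun F => unC (tyN Dg.nd) F = f),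
        swS D (tdN Dg.nd) Finset.univ (apk b ε) E Y F := by
  set x := (Finset.univ : Finset (Fin N₀)).biUnion f with hx
  have hxi : ∀ i, ∀ v ∈ f i, v ∈ x := by
    intro i v hv
    rw [hx]
    exact Finset.mem_biUnion.2 ⟨i, Finset.mem_univ _, hv⟩
  set A := YS D Dg U b f with hA
  set Φ : ((Fin l → Kˣ) × (↥x → Fin l → ZMod p)) →
      (Fin l → Kˣ) × (Fin (NN Dg.nd) → Finset (Pl K)) := fun q =>
    (q.1, rfN Dg.nd f (nexExt x q.2)) with hΦ
  set T : Finset ((Fin l → Kˣ) × (Fin (NN Dg.nd) → Finset (Pl K))) :=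
    (Fintype.piFinset fun _ : Fin l => U) ×ˢ
      (Fintype.piFinset fun _ : Fin (NN Dg.nd) => GF D Y).filter
        (fun F => unC (tyN Dg.nd) F = f) with hT
  set S : (Fin l → Kˣ) × (Fin (NN Dg.nd) → Finset (Pl K)) → ℝ := fun t =>
    swS D (tdN Dg.nd) Finset.univ (apk b t.1) E Y t.2 with hSdef
  have hAm : ∀ q ∈ A, (∀ j, q.1 j ∈ U) ∧ ∀ (i : Fin N₀) (v : Pl K), v ∈ f i →
      nexExt x q.2 v ∈ Dg.nd.Dd i ∧
        Dg.nd.B (Dg.nd.t i) (fun k => D.LL v (q.1 k *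
          ∏ w : ↥(Finset.univ.biUnion f), D.pi w.1 ^ (nexExt x q.2 w.1 k).val)) =
        Dg.nd.B (fun k => D.LL v (akR D Dg.c0 b f k)) (nexExt x q.2 v) := by
    intro q hq
    rw [hA] at hq
    unfold YS at hq
    rw [Finset.mem_filter, Finset.mem_product] at hq
    refine ⟨fun j => Fintype.mem_piFinset.1 hq.1.1 j, fun i v hv => ?_⟩
    have h1 := hq.2 i ⟨v, hxi i v hv⟩ hv
    have h2 : nexExt x q.2 v = q.2 ⟨v, hxi i v hv⟩ := nex_ext_eq x q.2 ⟨v, hxi i v hv⟩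
    have h3 : ∀ k, ∏ w : ↥(Finset.univ.biUnion f), D.pi w.1 ^ (nexExt x q.2 w.1 k).val =
        ∏ w : ↥(Finset.univ.biUnion f), D.pi w.1 ^ (q.2 w k).val := fun k =>
      Finset.prod_congr rfl fun w _ => by rw [nex_ext_eq x q.2 w]
    rw [h2]
    refine ⟨h1.1, ?_⟩
    simp only [h3]
    exact h1.2
  have hmem : ∀ q ∈ A, Φ q ∈ T := by
    intro q hq
    obtain ⟨h1, h2⟩ := hAm q hq
    rw [hT, hΦ, Finset.mem_product, Finset.mem_filter]
    refine ⟨Fintype.mem_piFinset.2 h1, Fintype.mem_piFinset.2 fun k => ?_, ?_⟩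
    · have h3 := nex_sub Dg.nd f (nexExt x q.2) k
      have h4 := atupa_mem_GF.1 (hGF (tyN Dg.nd k))
      exact atupa_mem_GF.2 ⟨le_trans (nr_mono h3) h4.1, fun v hv => h4.2 v (h3 hv)⟩
    · exact nex_un Dg.nd f _ fun i v hv => (h2 i v hv).1
  have hval : ∀ q ∈ A, (1 : ℝ) ≤ S (Φ q) := by
    intro q hq
    obtain ⟨h1, h2⟩ := hAm q hq
    have hη : ∀ i, ∀ v ∈ f i, nexExt x q.2 v ∈ Dg.nd.Dd i := fun i v hv => (h2 i v hv).1
    rw [hSdef, hΦ]
    change (1 : ℝ) ≤ swS D (tdN Dg.nd) Finset.univ (apk b q.1) E Y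
      (rfN Dg.nd f (nexExt x q.2))
    unfold swS
    rw [if_pos, if_pos, one_mul, Finset.prod_eq_one]
    · intro k _
      refine Finset.prod_eq_one fun v hv => ?_
      obtain ⟨h5, h6⟩ :=
        nex_fac D Dg b q.1 f hdj _ hη hlc (fun i v hv => (h2 i v hv).2) k v hv
      rw [if_pos h5]
      exact h6
    · exact ⟨fun k hk => absurd (Finset.mem_univ _) hk, nex_sp Dg b q.1 f _ hη hsp⟩
    · refine ⟨nex_dj Dg.nd f hdj _, fun k => ?_, ?_⟩
      · exact Disjoint.mono_left (nex_sub Dg.nd f _ k) (hE _)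
      · rw [nex_nr Dg.nd f _ hη]
        exact hY
  have hinj : Set.InjOn Φ (A : Set _) := by
    intro q hq q' _ h
    have h1 : q.1 = q'.1 := (congrArg Prod.fst h : (Φ q).1 = (Φ q').1)
    have h2 : rfN Dg.nd f (nexExt x q.2) = rfN Dg.nd f (nexExt x q'.2) :=
      (congrArg Prod.snd h : (Φ q).2 = (Φ q').2)
    have h3 := nex_inj Dg.nd f _ _ (fun i v hv => ((hAm q hq).2 i v hv).1) h2
    apply Prod.ext h1
    funext v
    obtain ⟨i, -, hi⟩ := Finset.mem_biUnion.1 v.2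
    have h4 := h3 i v.1 hi
    rwa [nex_ext_eq, nex_ext_eq] at h4
  have hS0 : ∀ t, 0 ≤ S t := fun t => nex_nonneg D _ _ _ E Y _
  calc (A.card : ℝ) = ∑ _q ∈ A, (1 : ℝ) := by rw [Finset.sum_const, nsmul_eq_mul, mul_one]
    _ ≤ ∑ q ∈ A, S (Φ q) := Finset.sum_le_sum hval
    _ = ∑ t ∈ A.image Φ, S t := by rw [Finset.sum_image hinj]
    _ ≤ ∑ t ∈ T, S t := by
        apply Finset.sum_le_sum_of_subset_of_nonneg
        · intro t ht
          obtain ⟨q, hq, rfl⟩ := Finset.mem_image.1 ht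
          exact hmem q hq
        · intro t _ _
          exact hS0 t
    _ = _ := by rw [hT, Finset.sum_product]

end H77.GN
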