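import Pool.Agent.H77.GN.QMxB

/-!
# [H77 GN QMX] groups with a subgroup of index p centralising M cap T satisfy the hypothesis, 60-110 lines

`SgH p G Λ` with `N j = cs (closure Λ) j` (QMxA), `c` from `qmxa_cs`, `pw` from `qmxa_pw`. The inequality for `g ∈ Λ`, `g ∉ M`: `qmxb`. For `g ∈ M`: `g ∈ M ∩ T`, so `M ≤ C(g)` and `Fr p G ≤ M` (`qmxa_normal`), so `{x : ∃ y, y g = g y, y⁻¹ x ∈ Fr} = C(g) = {x : x g = g x}`, which is `H_c = {x : [x, g] ∈ N c = ⊥}`. `K_j ⊆ H_j` and `H_0 = G` (`[x, g] ∈ cs T 0`), so `∏_{j<c} #K_j ≤ ∏_{j<c} #H_j`, and `∏_{j<c} #H_j * #H_c = ∏_{j<c} #H_{j+1} * #H_0` (`Finset.prod_range_succ`, `Finset.prod_range_succ'`).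
-/

set_option autoImplicit false

open scoped Classical

noncomputable section

namespace H77.GN

open H77.AB

private theorem qmx_in {p : ℕ} {G : Type} [Group G] [Finite G] (Λ : Set G) (M : Subgroup G)
    (hFr : Fr p G ≤ M)
    (hM : ∀ m ∈ M, ∀ a ∈ M, a ∈ Subgroup.closure Λ → m * a = a * m) (N : ℕ → Subgroup G)
    (c : ℕ) (nc : N c = ⊥) (n0 : ∀ x, ∀ g ∈ Subgroup.closure Λ, x * g * x⁻¹ * g⁻¹ ∈ N 0)
    (g : G) (hg : g ∈ Λ) (hgM : g ∈ M) :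
    (∏ j ∈ Finset.range c, Nat.card {x : G // x * g * x⁻¹ * g⁻¹ ∈ N j ∧
        (x * g * x⁻¹ * g⁻¹) * g * (x * g * x⁻¹ * g⁻¹)⁻¹ * g⁻¹ ∈ N (j + 2)}) *
        Nat.card {x : G // ∃ y : G, y * g = g * y ∧ y⁻¹ * x ∈ Fr p G} ≤
      (∏ j ∈ Finset.range c, Nat.card {x : G // x * g * x⁻¹ * g⁻¹ ∈ N (j + 1)}) *
        Nat.card G := by
  have hgT : g ∈ Subgroup.closure Λ := Subgroup.subset_closure hg
  obtain ⟨H, hH⟩ : ∃ H : ℕ → ℕ, H = fun j => Nat.card {x : G // x * g * x⁻¹ * g⁻¹ ∈ N j} :=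
    ⟨_, rfl⟩
  have h0 : H 0 = Nat.card G := by
    rw [hH]
    exact Nat.card_congr (Equiv.subtypeUnivEquiv fun x => n0 x g hgT)
  have hc : Nat.card {x : G // ∃ y : G, y * g = g * y ∧ y⁻¹ * x ∈ Fr p G} ≤ H c := by
    rw [hH]
    refine Nat.card_le_card_of_injective
      (fun x => (⟨x.1, ?_⟩ : {x : G // x * g * x⁻¹ * g⁻¹ ∈ N c})) ?_
    · obtain ⟨x, y, h1, h2⟩ := x
      have h3 : (y⁻¹ * x) * g = g * (y⁻¹ * x) := hM _ (hFr h2) g hgM hgT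
      have h4 : x * g = g * x := by
        calc x * g = y * ((y⁻¹ * x) * g) := by group
          _ = y * (g * (y⁻¹ * x)) := by rw [h3]
          _ = (y * g) * (y⁻¹ * x) := by group
          _ = g * y * (y⁻¹ * x) := by rw [h1]
          _ = g * x := by group
      rw [nc, Subgroup.mem_bot]
      change x * g * x⁻¹ * g⁻¹ = 1
      rw [h4]
      group
    · intro a b hab
      exact Subtype.ext (congrArg (fun t => t.1) hab)
  have hK : ∀ j, Nat.card {x : G // x * g * x⁻¹ * g⁻¹ ∈ N j ∧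
        (x * g * x⁻¹ * g⁻¹) * g * (x * g * x⁻¹ * g⁻¹)⁻¹ * g⁻¹ ∈ N (j + 2)} ≤ H j := by
    intro j
    rw [hH]
    refine Nat.card_le_card_of_injective
      (fun x => (⟨x.1, x.2.1⟩ : {x : G // x * g * x⁻¹ * g⁻¹ ∈ N j})) ?_
    intro a b hab
    exact Subtype.ext (congrArg (fun t => t.1) hab)
  calc _ ≤ (∏ j ∈ Finset.range c, H j) * H c :=
        Nat.mul_le_mul (Finset.prod_le_prod' fun j _ => hK j) hc
    _ = (∏ j ∈ Finset.range c, H (j + 1)) * H 0 := by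
        rw [← Finset.prod_range_succ, Finset.prod_range_succ']
    _ = _ := by rw [h0, hH]

theorem qmx {p : ℕ} (hp : p.Prime) {G : Type} [Group G] [Finite G]
    (hnil : Group.IsNilpotent G) (Λ : Set G) (hΛ : ∀ g ∈ Λ, g ^ p = 1)
    (hcj : ∀ g ∈ Λ, ∀ h, h * g * h⁻¹ ∈ Λ) (M : Subgroup G) (hi : M.index = p)
    (hM : ∀ m ∈ M, ∀ a ∈ M, a ∈ Subgroup.closure Λ → m * a = a * m) :
    Nonempty (SgH p G Λ) := by
  obtain ⟨_, hFr⟩ := qmxa_normal hp hnil M hi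
  obtain ⟨_, hn, hanti, _, hfr, ⟨c, hc⟩, hcom, h0⟩ := qmxa_cs (p := p) hnil Λ hcj
  exact ⟨{
    c := c
    N := cs (Subgroup.closure Λ)
    nn := hn
    nc := hc
    anti := hanti
    n0 := fun g hg h => h0 h g (Subgroup.subset_closure hg)
    com := hcom
    pw := fun j u hu => qmxa_pw hp hnil Λ hΛ hcj M hi hM j u hu
    n0le := hfr 0
    ineq := fun g hg => by
      by_cases hgM : g ∈ M
      · exact qmx_in Λ M hFr hM _ c hc h0 g hg hgM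
      · exact qmxb hp hnil Λ hΛ hcj M hi hM c hc g hg hgM }⟩

end H77.GN
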