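import Pool.Agent.H77.GN.NFin
import Pool.Agent.H77.GN.QMx

/-!
# H77-GN-NFINM: the upper bound for groups with a subgroup of index `p` centralising `M ∩ T`, all transitive representations

`gmain_mx`: `G ≤ S_n` transitive and nilpotent, `p` a prime, all elements of least index satisfy `g ^ p = 1`, `M ≤ G` of index `p` centralises `M ∩ T`, `T` the subgroup generated by the elements of least index. Then for all number fields `K ≥ K₀` the number of extensions with `G` is at most `C B^{1/ind} (log B)^{β - 1}`.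
-/

set_option autoImplicit false

open scoped NumberField
open IsDedekindDomain H38.ML

noncomputable section

namespace H77.GN

open H63.MA H38.BB H38.BG H77.AB

theorem gmain_mx {n : ℕ} (hn : 2 ≤ n) (G : Subgroup (Equiv.Perm (Fin n)))
    (hG : MulAction.IsPretransitive G (Fin n)) (hnil : Group.IsNilpotent G) {p : ℕ}
    (hp : p.Prime)
    (hI : ∀ h : G, h ≠ 1 → ind (h : Equiv.Perm (Fin n)) = indG G → h ^ p = 1)
    (M : Subgroup G) (hi : M.index = p)
    (hM : ∀ m ∈ M, ∀ a ∈ M, a ∈ Subgroup.closure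
      {h : G | h ≠ 1 ∧ ind (h : Equiv.Perm (Fin n)) = indG G} → m * a = a * m) :
    ∃ K₀ : IntermediateField ℚ QBar, NumberField K₀ ∧
      ∀ K : IntermediateField ℚ QBar, K₀ ≤ K → ∀ _ : NumberField K,
        ∃ C B₀ : ℝ, 0 < C ∧ ∀ B : ℝ, B₀ ≤ B → ∃ k : ℕ,
          Spec.nK K QBar G B = (k : ℕ∞) ∧
          (k : ℝ) ≤ C * B ^ (1 / (indG G : ℝ)) *
            Real.log B ^ (Spec.betaAll K QBar G - 1) := by
  obtain ⟨-, -, -, hcj, -⟩ := pidx_pos hn G hG
  obtain ⟨S⟩ := qmx hp hnil {h : G | h ≠ 1 ∧ ind (h : Equiv.Perm (Fin n)) = indG G}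
    (fun g hg => hI g hg.1 hg.2) (by
      rintro g ⟨h1, h2⟩ h
      refine ⟨?_, hcj g h h1 h2⟩
      intro h3
      apply h1
      have h4 : g = h⁻¹ * (h * g * h⁻¹) * h := by group
      rw [h4, h3, mul_one, inv_mul_cancel]) M hi hM
  exact gmain hn G hG hnil hp hI S

end H77.GN
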