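import Pool.Agent.H77.GN.NLd
import Pool.Agent.H77.AB.LKum

/-!
# [H77 GN NKUM] the Kummer data of a surjective homomorphism, 150-220 lines (adaptation of LKum in H77/AB)

`φ : Γ → G` surjective of finite type, `f i` the primes of type `i` (`TyN`), `E` the other ramified primes outside `S0`. There is `b ∈ Bb D U E m` with `BS2 D b E`, `kk (akR D Dg.c0 b f k) σ = π (φ σ) k`, the spanning condition `SpG` and the local condition `LocG`.

Proof. `nkum_aux` is `lkum_aux` in H77/AB/LKum with `GDa`, `TyN` in place of `GX`, `TyX` (copy the proof; only `Dg.uni` and `Dg.g` are used). `nkum`: apply it to `θ = π`: `b k * ∏ … = akR D Dg.c0 b f k` (`Dg.c0.x i = t i = π (g i)`: `Dg.tg`).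
`SpG`: let `θ ≠ 0` and `dt θ (t i) = 0` for all `i` with `f i ≠ ∅`, and suppose that `bp b θ` is a `p`-th power. Then `bp (akR D Dg.c0 b f) θ = bp b θ * ∏_i ∏_{w ∈ f i} pi w ^ (∑_k (t i k).val (θ k).val)` is a `p`-th power (the exponents are divisible by `p` for `f i ≠ ∅`; this is `gott_pow` in H77/GN/GOtT, prove it directly here if that file is not ready), so `∑_k θ k π (φ σ) k = kk (bp (akR ..) θ) σ = 0` for all `σ` (`kk_prod_arg`, `kk_zpow_arg`, `kk_eq_zero_iff`, as in `lkum`), but `π ∘ φ` is surjective (`Dg.πs`): `θ = 0`.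
`LocG`: `v ∈ f i`. `tfrob_z` (exponent `p` from `TyN`) for the family `akR D Dg.c0 b f` gives `F` with `φ F`, `t = φ (L.t v)` commuting, `kk (akR k) F = LL v (akR k)`; `IsConj t (g i)`; so `π (φ F) ∈ C i` by `Dg.hC`, and `π (φ F) k = kk (akR k) F = LL v (akR k)`.
-/

set_option autoImplicit false

open scoped NumberField
open IsDedekindDomain
open scoped Classical

noncomputable section

namespace H77.GN

open H63.MA H38.BB H38.BG H63.BU H77.AB

theorem nkum_aux {K : Type} [Field K] [NumberField K] {Ω : Type} [Field Ω] [Algebra K Ω]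
    [IsAlgClosure K Ω] {p : ℕ} [NeZero p] {ζ : K} {m l N₀ : ℕ} {G : Type} [Group G] [Finite G]
    (hp : p.Prime) (hζ : IsPrimitiveRoot ζ p) (D : RD0 K p ζ) (L : LDs D Ω)
    (Dg : GDa p m l N₀ G) (U : Finset Kˣ) (hU : UR D U) (φ : Gal(Ω/K) →* G)
    (hφ : H38.ML.FT φ) (f : Fin N₀ → Finset (Pl K)) (E : Finset (Pl K))
    (hf : ∀ i v, v ∈ f i ↔ TyN Dg L φ i v)
    (hE : ∀ v, v ∈ E ↔ Rm L φ v ∧ ∀ i, ¬ TyN Dg L φ i v) {n : ℕ}
    (θ : G →* Multiplicative (Fin n → ZMod p)) :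
    ∃ b ∈ Bb D U E n, BS2 D b E ∧ ∀ (σ : Gal(Ω/K)) (k : Fin n),
      kk p ζ (b k * ∏ i, ∏ w ∈ f i, D.pi w ^ (Multiplicative.toAdd (θ (Dg.g i)) k).val) σ =
        Multiplicative.toAdd (θ (φ σ)) k := by
  have hpz : (((p : ℕ) : ℤ) : ZMod p) = 0 := by
    rw [Int.cast_natCast, ZMod.natCast_self]
  have hab : ∀ v, v ∉ D.S0 → ¬ Above p v := fun v hv h => hv (D.above v h)
  -- the characters
  have hch : ∀ k : Fin n, ∃ a' : Kˣ, ∀ σ : Gal(Ω/K),
      kk p ζ a' σ = Multiplicative.toAdd (θ (φ σ)) k := by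
    intro k
    let ev : Multiplicative (Fin n → ZMod p) →* Multiplicative (ZMod p) :=
      AddMonoidHom.toMultiplicative (Pi.evalAddMonoidHom (fun _ : Fin n => ZMod p) k)
    obtain ⟨a', ha'⟩ := kc_all hp hζ (ev.comp (θ.comp φ)) (by
      obtain ⟨E, hE, hle⟩ := hφ
      refine ⟨E, hE, fun σ hσ => ?_⟩
      have h1 : φ σ = 1 := hle hσ
      rw [MonoidHom.mem_ker, MonoidHom.comp_apply, MonoidHom.comp_apply, h1, map_one, map_one])
    refine ⟨a', fun σ => ?_⟩
    unfold kk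
    rw [← ha']
    rfl
  choose a' ha' using hch
  -- the orders of the `a' k`
  have hord : ∀ v, v ∉ D.S0 → ∀ k, ((ord v (a' k) : ℤ) : ZMod p) =
      Multiplicative.toAdd (θ (φ (L.t v))) k := by
    intro v hv k
    rw [← ha' k, gupb_t L hv]
    exact (ld_kk_t hp hζ (hab v hv) (D.pi_self v hv) (L.ld v hv) (a' k)).symm
  have hfS : ∀ i, ∀ w ∈ f i, w ∉ D.S0 := fun i w hw => ((hf i w).1 hw).1.1
  have hES : ∀ w ∈ E, w ∉ D.S0 := fun w hw => ((hE w).1 hw).1.1
  -- the product of the generators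
  have hdvd : ∀ k v, v ∉ D.S0 → (p : ℤ) ∣ ord v (a' k *
      ((∏ w : ↥E, D.pi w.1 ^ (Multiplicative.toAdd (θ (φ (L.t w.1))) k).val) *
        ∏ i, ∏ w ∈ f i, D.pi w ^ (Multiplicative.toAdd (θ (Dg.g i)) k).val)⁻¹) := by
    intro k v hv
    rw [ord_mul, ord_inv, ord_mul, gupb_ord D f hfS _ v hv,
      ukum_ordE D E hES (fun w => (Multiplicative.toAdd (θ (φ (L.t w))) k).val) v hv,
      ← sub_eq_add_neg, ← ZMod.intCast_zmod_eq_zero_iff_dvd, Int.cast_sub, hord v hv k,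
      Int.cast_add, Int.cast_sum, sub_eq_zero]
    by_cases hvE : v ∈ E
    · have h0 : ∀ i, v ∉ f i := fun i h => ((hE v).1 hvE).2 i ((hf i v).1 h)
      rw [if_pos hvE, Int.cast_natCast, ZMod.natCast_zmod_val, Finset.sum_eq_zero, add_zero]
      intro i _
      rw [if_neg (h0 i), Int.cast_zero]
    · rw [if_neg hvE, Int.cast_zero, zero_add]
      by_cases h1 : ∃ i, v ∈ f i
      · obtain ⟨i₀, hi₀⟩ := h1
        have hc₀ := ((hf i₀ v).1 hi₀).2.1
        rw [Finset.sum_eq_single i₀]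
        · rw [if_pos hi₀, lkum_conj θ hc₀, Int.cast_natCast, ZMod.natCast_zmod_val]
        · intro i _ hi
          have h2 : v ∉ f i := by
            intro h
            have h3 := ((hf i v).1 h).2.1
            exact hi (Dg.uni i i₀ (h3.symm.trans hc₀))
          rw [if_neg h2, Int.cast_zero]
        · intro h
          exact absurd (Finset.mem_univ _) h
      · have h0 : ∀ i, v ∉ f i := fun i h => h1 ⟨i, h⟩
        have h2 : ¬ Rm L φ v := fun h => hvE ((hE v).2 ⟨h, fun i hi => h0 i ((hf i v).2 hi)⟩)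
        have h3 : φ (L.t v) = 1 := by
          by_contra h
          exact h2 ⟨hv, L.t v, ukum_t L hv, h⟩
        rw [h3, map_one]
        symm
        apply Finset.sum_eq_zero
        intro i _
        rw [if_neg (h0 i), Int.cast_zero]
  have hε : ∀ k, ∃ u ∈ U, ∃ z : Kˣ, a' k *
      ((∏ w : ↥E, D.pi w.1 ^ (Multiplicative.toAdd (θ (φ (L.t w.1))) k).val) *
        ∏ i, ∏ w ∈ f i, D.pi w ^ (Multiplicative.toAdd (θ (Dg.g i)) k).val)⁻¹ = u * z ^ p := by
    intro k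
    obtain ⟨u', y, hu, hy⟩ := unit_of_ord hp D _ (hdvd k)
    obtain ⟨u'', hu', y', hy'⟩ := hU.2 u' hu
    refine ⟨u'', hu', y' * y, ?_⟩
    rw [hy, hy', mul_pow, mul_assoc]
  choose ε hεU z hz using hε
  let b : Fin n → Kˣ := fun k => ε k *
    ∏ w : ↥E, D.pi w.1 ^ (Multiplicative.toAdd (θ (φ (L.t w.1))) k).val
  have hak : ∀ k, a' k = (b k * ∏ i, ∏ w ∈ f i,
      D.pi w ^ (Multiplicative.toAdd (θ (Dg.g i)) k).val) * z k ^ ((p : ℕ) : ℤ) := by
    intro k
    have h1 := hz k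
    rw [mul_inv_eq_iff_eq_mul] at h1
    rw [h1, zpow_natCast]
    show _ = (ε k * ∏ w : ↥E, D.pi w.1 ^ (Multiplicative.toAdd (θ (φ (L.t w.1))) k).val) *
      (∏ i, ∏ w ∈ f i, D.pi w ^ (Multiplicative.toAdd (θ (Dg.g i)) k).val) * z k ^ p
    rw [mul_assoc, mul_comm (z k ^ p), mul_assoc, mul_assoc, mul_assoc]
  have hbB : b ∈ Bb D U E n := by
    unfold Bb
    rw [Fintype.mem_piFinset]
    intro k
    unfold XE
    rw [Finset.mem_image]
    refine ⟨(ε k, fun w => Multiplicative.toAdd (θ (φ (L.t w.1))) k), ?_, rfl⟩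
    rw [Finset.mem_product]
    exact ⟨hεU k, Finset.mem_univ _⟩
  refine ⟨b, hbB, ⟨hES, ?_⟩, ?_⟩
  · intro k v hv hvE
    show ord v (ε k * _) = 0
    rw [ord_mul, hU.1 _ (hεU k) v hv,
      ukum_ordE D E hES (fun w => (Multiplicative.toAdd (θ (φ (L.t w))) k).val) v hv,
      if_neg hvE, add_zero]
  · intro σ k
    rw [← ha' k σ, hak k, kk_mul_arg hp hζ (b k * ∏ i, ∏ w ∈ f i,
      D.pi w ^ (Multiplicative.toAdd (θ (Dg.g i)) k).val) (z k ^ ((p : ℕ) : ℤ)) σ,
      kk_zpow_arg hp hζ, hpz, zero_mul, add_zero]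

theorem nkum {K : Type} [Field K] [NumberField K] {Ω : Type} [Field Ω] [Algebra K Ω]
    [IsAlgClosure K Ω] {p : ℕ} [NeZero p] {ζ : K} {m l N₀ : ℕ} {G : Type} [Group G] [Finite G]
    (hp : p.Prime) (hζ : IsPrimitiveRoot ζ p) (D : RD0 K p ζ) (L : LDs D Ω)
    (Dg : GDa p m l N₀ G) (U : Finset Kˣ) (hU : UR D U) (φ : Gal(Ω/K) →* G)
    (hφ : H38.ML.FT φ) (hs : Function.Surjective φ) (f : Fin N₀ → Finset (Pl K))
    (E : Finset (Pl K)) (hf : ∀ i v, v ∈ f i ↔ TyN Dg L φ i v)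
    (hE : ∀ v, v ∈ E ↔ Rm L φ v ∧ ∀ i, ¬ TyN Dg L φ i v) :
    ∃ b ∈ Bb D U E m, BS2 D b E ∧
      (∀ (σ : Gal(Ω/K)) k, kk p ζ (akR D Dg.c0 b f k) σ =
        Multiplicative.toAdd (Dg.π (φ σ)) k) ∧ SpG Dg b f ∧ LocG D Dg b f := by
  obtain ⟨b, hb, hbE, hbk⟩ := nkum_aux hp hζ D L Dg U hU φ hφ f E hf hE Dg.π
  have hk : ∀ (σ : Gal(Ω/K)) k, kk p ζ (akR D Dg.c0 b f k) σ =
      Multiplicative.toAdd (Dg.π (φ σ)) k := by
    intro σ k
    have h1 := hbk σ k
    unfold akR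
    have h2 : ∀ i, Dg.c0.x i = Multiplicative.toAdd (Dg.π (Dg.g i)) := fun i => Dg.tg i
    simp only [h2]
    exact h1
  refine ⟨b, hb, hbE, hk, ?_, ?_⟩
  · -- the spanning condition
    intro θ hθ
    by_contra hcon
    rw [not_or, not_exists, not_not] at hcon
    obtain ⟨h0, hpow⟩ := hcon
    have h0' : ∀ i, f i ≠ ∅ → dt θ (Dg.nd.t i) = 0 := by
      intro i hi
      by_contra h
      exact h0 i ⟨hi, h⟩
    have hbp : ∀ σ : Gal(Ω/K), ∑ k, θ k * kk p ζ (b k) σ = 0 := by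
      intro σ
      have h1 := (kk_eq_zero_iff (Ω := Ω) hp hζ _).2 hpow σ
      unfold bp at h1
      rw [kk_prod_arg hp hζ] at h1
      rw [← h1]
      refine Finset.sum_congr rfl fun j _ => ?_
      have h3 := kk_zpow_arg hp hζ (b j) ((θ j).val : ℤ) σ
      rw [zpow_natCast] at h3
      rw [h3, Int.cast_natCast, ZMod.natCast_zmod_val]
    have hall : ∀ σ : Gal(Ω/K), ∑ k, θ k * Multiplicative.toAdd (Dg.π (φ σ)) k = 0 := by
      intro σ
      have h1 : ∀ k, Multiplicative.toAdd (Dg.π (φ σ)) k =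
          kk p ζ (b k) σ + ∑ i, ∑ w ∈ f i, Dg.nd.t i k * kk p ζ (D.pi w) σ := by
        intro k
        rw [← hk σ k]
        unfold akR
        rw [kk_mul_arg hp hζ, kk_prod_arg hp hζ]
        congr 1
        refine Finset.sum_congr rfl fun i _ => ?_
        rw [kk_prod_arg hp hζ]
        refine Finset.sum_congr rfl fun w _ => ?_
        have h3 := kk_zpow_arg hp hζ (D.pi w) ((Dg.c0.x i k).val : ℤ) σ
        rw [zpow_natCast] at h3
        rw [h3, Int.cast_natCast, ZMod.natCast_zmod_val]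
        rfl
      simp only [h1, mul_add, Finset.sum_add_distrib]
      rw [hbp σ, zero_add]
      simp only [Finset.mul_sum]
      rw [Finset.sum_comm]
      refine Finset.sum_eq_zero fun i _ => ?_
      rw [Finset.sum_comm]
      refine Finset.sum_eq_zero fun w hw => ?_
      have h2 := h0' i (Finset.ne_empty_of_mem hw)
      unfold dt at h2
      have h3 : ∑ k, θ k * (Dg.nd.t i k * kk p ζ (D.pi w) σ) =
          (∑ k, θ k * Dg.nd.t i k) * kk p ζ (D.pi w) σ := by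
        rw [Finset.sum_mul]
        exact Finset.sum_congr rfl fun k _ => by ring
      rw [h3, h2, zero_mul]
    apply hθ
    funext k
    obtain ⟨g, hg⟩ := Dg.πs (Multiplicative.ofAdd (Pi.single k (1 : ZMod p)))
    obtain ⟨σ, rfl⟩ := hs g
    have h8 := hall σ
    rw [hg, toAdd_ofAdd, Finset.sum_eq_single k] at h8
    · rwa [Pi.single_eq_same, mul_one] at h8
    · intro j _ hj
      rw [Pi.single_eq_of_ne hj, mul_zero]
    · intro h
      exact absurd (Finset.mem_univ _) h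
  · -- the local condition
    intro i v hv
    obtain ⟨⟨hvS, -⟩, hconj, he⟩ := (hf i v).1 hv
    obtain ⟨F, hFt, hFk⟩ := tfrob_z hp hζ L φ hφ v hvS he (akR D Dg.c0 b f)
    have h1 := Dg.hC i (φ F) (φ (L.t v)) hconj hFt
    have h2 : (fun k => D.LL v (akR D Dg.c0 b f k)) = Multiplicative.toAdd (Dg.π (φ F)) := by
      funext k
      rw [← hFk k, hk]
    rw [h2]
    exact h1

end H77.GN
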