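import Pool.Agent.H77.GN.NSum
import Pool.Agent.H77.GN.NKum
import Pool.Agent.H77.GN.GUb
import Pool.Agent.H77.AB.LGup

/-!
# [H77 GN NGUP] the upper bound for the homomorphisms, 150-200 lines (as LGup in H77/AB)

Copy the proof of `lgup` in H77/AB/LGup. Changes: the data attached to `φ ∈ Rs` are `(E, b)`, `b ∈ Bb D U E m` (`nsets`, `nkum`, `ncnt_nr`); `C₁` from `nsum`; `η = 1/(4a)`, `C₂` from `gubf` (`β = N₀ ≥ 1`, `t = tdN Dg.nd`); `q = #G * p^m` in `usum`. For given `(E, b)`: `#fibre ≤ C₁ (#G)^{#E} ∑_{ε ∈ U^l} SWS(apk b ε) ≤ C₁ (#G)^{#E} (#U)^l C₂ (nr E)^η UY (1 + log UY)^{N₀-1}`: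
`BS2 D (apk b ε) E` holds because `BS2 D b E` and the `ε j ∈ U` are `S0`-units (`ngup_bs`; `Fin.addCases` on the coordinate), `1 + log UY ≤ 2 log B`. The number of the `b` is at most `(#U p^{#E})^m` (`ubb_card`). Sum over `E` by `usum`.
-/

set_option autoImplicit false

open scoped NumberField
open IsDedekindDomain
open scoped Classical

noncomputable section

namespace H77.GN

open H63.MA H38.BB H38.BG H63.BU H77.AB

theorem ngup_bs {K : Type} [Field K] [NumberField K] {p : ℕ} {ζ : K} {m l : ℕ}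
    (D : RD0 K p ζ) (U : Finset Kˣ) (hU : UR D U) (E : Finset (Pl K)) (b : Fin m → Kˣ)
    (hb : BS2 D b E) (ε : Fin l → Kˣ) (hε : ∀ j, ε j ∈ U) : BS2 D (apk b ε) E := by
  refine ⟨hb.1, fun k v hv hvE => ?_⟩
  unfold apk
  refine Fin.addCases (fun i => ?_) (fun i => ?_) k
  · rw [Fin.append_left]
    exact hb.2 i v hv hvE
  · rw [Fin.append_right]
    exact hU.1 _ (hε i) v hv

theorem ngup {K : Type} [Field K] [NumberField K] {Ω : Type} [Field Ω] [Algebra K Ω]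
    [IsAlgClosure K Ω] {p : ℕ} [NeZero p] [Fact p.Prime] {ζ : K} {m l N₀ : ℕ} {G : Type}
    [Group G] [Finite G] (hζ : IsPrimitiveRoot ζ p) (D : RD K p ζ) (L : LDs D.toRD0 Ω)
    (hnil : Group.IsNilpotent G) (Dg : GDa p m l N₀ G) (hN : 1 ≤ N₀) (z : K)
    (hz : IsPrimitiveRoot z (Nat.card G))
    (hS : ∀ v : Pl K, ((Nat.card G : ℕ) : 𝓞 K) ∈ v.asIdeal → v ∈ D.S0) (a : ℕ) (ha : 0 < a)
    (ix : Subgroup G → ℕ) (h1 : ∀ H, H ≠ ⊥ → a ≤ ix H)
    (h2 : ∀ g : G, g ≠ 1 → ix (Subgroup.zpowers g) ≤ a → ∃ i, IsConj g (Dg.g i)) :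
    ∃ C B₀ : ℝ, 0 < C ∧ ∀ B : ℝ, B₀ ≤ B → ∀ Rs : Finset (Gal(Ω/K) →* G),
      (∀ φ ∈ Rs, H38.ML.FT φ ∧ Function.Surjective φ ∧ ∀ T : Finset (Pl K),
        (∀ v ∈ T, v ∉ D.S0) → ∏ v ∈ T, (nm v : ℝ) ^ ix ((inr L v).map φ) ≤ B) →
      (Rs.card : ℝ) ≤ C * B ^ (1 / (a : ℝ)) * Real.log B ^ (N₀ - 1) := by
  have hp : p.Prime := Fact.out
  have haR : (0 : ℝ) < (a : ℝ) := by exact_mod_cast ha
  have ha1 : (1 : ℝ) ≤ (a : ℝ) := by exact_mod_cast ha
  obtain ⟨U, hU1, hU2⟩ := unit_reps hp D.S0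
  have hU : UR D.toRD0 U := ⟨hU1, hU2⟩
  obtain ⟨C₁, hcnt⟩ := nsum hζ D.toRD0 L hnil Dg U hU z hz hS a ha ix h1 h2
  obtain ⟨η, hη⟩ : ∃ η : ℝ, η = 1 / (4 * (a : ℝ)) := ⟨_, rfl⟩
  have hη0 : 0 < η := by
    rw [hη]
    positivity
  obtain ⟨C₂, hC₂, hub⟩ := gubf hp hζ D (tdN Dg.nd) hN η hη0
  obtain ⟨q, hq⟩ : ∃ q : ℝ, q = (Nat.card G : ℝ) * (p : ℝ) ^ m := ⟨_, rfl⟩
  have hq0 : 0 ≤ q := by
    rw [hq]
    positivity
  obtain ⟨C₃, hC₃, hsum⟩ := usum K a ha q hq0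
  rw [← hη] at hsum
  obtain ⟨C₁', hC₁'⟩ : ∃ C₁' : ℝ, C₁' = (C₁ : ℝ) * (U.card : ℝ) ^ l := ⟨_, rfl⟩
  have hC₁0 : 0 ≤ C₁' := by
    rw [hC₁']
    positivity
  refine ⟨C₁' * (U.card : ℝ) ^ m * C₂ * C₃ * 2 ^ (N₀ - 1) + 1, 3, by positivity, ?_⟩
  intro B hB Rs hRs
  have hB1 : 1 ≤ B := by linarith
  have hB0 : 0 < B := by linarith
  have hlog1 : 1 ≤ Real.log B := by
    rw [Real.le_log_iff_exp_le hB0]
    exact Real.exp_one_lt_three.le.trans hB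
  obtain ⟨X, hX⟩ : ∃ X : ℝ, X = B ^ (1 / (a : ℝ)) := ⟨_, rfl⟩
  have hX1 : 1 ≤ X := by
    rw [hX]
    exact Real.one_le_rpow hB1 (by positivity)
  have hX0 : 0 < X := by linarith
  -- the data
  have hex : ∀ φ : Gal(Ω/K) →* G, ∃ (e : Finset (Pl K) × (Fin m → Kˣ)),
      φ ∈ Rs →
      (∀ v, v ∈ e.1 ↔ Rm L φ v ∧ ∀ i, ¬ TyN Dg L φ i v) ∧
      e.2 ∈ Bb D.toRD0 U e.1 m ∧
      BS2 D.toRD0 e.2 e.1 ∧
      1 ≤ UY B a e.1 ∧ nr e.1 ≤ B ∧
      ∀ f : Fin N₀ → Finset (Pl K), (∀ i v, v ∈ f i ↔ TyN Dg L φ i v) →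
          (∀ (σ : Gal(Ω/K)) k, kk p ζ (akR D.toRD0 Dg.c0 e.2 f k) σ =
            Multiplicative.toAdd (Dg.π (φ σ)) k) ∧
          SpG Dg e.2 f ∧ LocG D.toRD0 Dg e.2 f := by
    intro φ
    by_cases hφ : φ ∈ Rs
    · obtain ⟨hft, hs, hT⟩ := hRs φ hφ
      obtain ⟨f, E, hf, hE⟩ := nsets L Dg φ hft
      obtain ⟨b, hb, hbs, hk, hsp, hloc⟩ :=
        nkum hp hζ D.toRD0 L Dg U hU φ hft hs f E hf hE
      obtain ⟨-, -, -, h3, h4, -⟩ :=
        ncnt_nr hp hζ D.toRD0 L Dg hS a ha ix h1 h2 φ hft B hT f E hf hE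
      refine ⟨(E, b), fun _ => ⟨hE, hb, hbs, h3, h4, fun f' hf' => ?_⟩⟩
      have hff : f' = f := by
        funext i
        ext v
        rw [hf' i v, hf i v]
      rw [hff]
      exact ⟨hk, hsp, hloc⟩
    · exact ⟨(∅, fun _ => 1), fun h => absurd h hφ⟩
  choose e he using hex
  -- the fibres
  have hfib : ∀ (E : Finset (Pl K)) (bc : Fin m → Kˣ),
      (((Rs.filter fun φ => (e φ).1 = E).filter fun φ => (e φ).2 = bc).card : ℝ) ≤
        C₁' * (Nat.card G : ℝ) ^ E.card *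
          (C₂ * nr E ^ η * UY B a E * (2 * Real.log B) ^ (N₀ - 1)) := by
    intro E bc
    have hnr := one_le_nr E
    have hUY := uy_le B hB1 a E
    have hUY0 : 0 ≤ UY B a E := hUY.1
    have hrhs : 0 ≤ C₁' * (Nat.card G : ℝ) ^ E.card *
          (C₂ * nr E ^ η * UY B a E * (2 * Real.log B) ^ (N₀ - 1)) := by
      positivity
    rcases ((Rs.filter fun φ => (e φ).1 = E).filter fun φ => (e φ).2 = bc).eq_empty_or_nonempty
      with h0 | ⟨φ₀, hφ₀⟩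
    · rw [h0, Finset.card_empty, Nat.cast_zero]
      exact hrhs
    rw [Finset.mem_filter, Finset.mem_filter] at hφ₀
    obtain ⟨⟨hφ₀, hE₀⟩, hb₀⟩ := hφ₀
    obtain ⟨-, -, hbs, hUY1, -, -⟩ := he φ₀ hφ₀
    rw [hE₀] at hUY1
    rw [hE₀, hb₀] at hbs
    have h3 := hcnt B E bc
      ((Rs.filter fun φ => (e φ).1 = E).filter fun φ => (e φ).2 = bc) hbs (by
      intro φ hφ
      rw [Finset.mem_filter, Finset.mem_filter] at hφ
      obtain ⟨⟨hφ, hE⟩, hb⟩ := hφ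
      obtain ⟨b2, -, -, -, -, b7⟩ := he φ hφ
      rw [hE] at b2
      rw [hb] at b7
      exact ⟨(hRs φ hφ).1, (hRs φ hφ).2.2, b2, b7⟩)
    have hlogU : Real.log (UY B a E) ≤ Real.log B := by
      have h5 : UY B a E ≤ B := by
        refine hUY.2.trans ?_
        calc B ^ (1 / (a : ℝ)) ≤ B ^ (1 : ℝ) := by
              refine Real.rpow_le_rpow_of_exponent_le hB1 ?_
              rw [div_le_one haR]
              exact ha1
          _ = B := Real.rpow_one B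
      exact Real.log_le_log (by linarith) h5
    have hlogU0 : 0 ≤ Real.log (UY B a E) := Real.log_nonneg hUY1
    have h6 : (1 + Real.log (UY B a E)) ^ (N₀ - 1) ≤ (2 * Real.log B) ^ (N₀ - 1) :=
      pow_le_pow_left₀ (by linarith) (by linarith) _
    have h7 : ∀ ε ∈ Fintype.piFinset (fun _ : Fin l => U),
        SWS D.toRD0 (tdN Dg.nd) Finset.univ (apk bc ε) E (UY B a E) ≤
          C₂ * nr E ^ η * UY B a E * (2 * Real.log B) ^ (N₀ - 1) := by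
      intro ε hε
      rw [Fintype.mem_piFinset] at hε
      refine (hub (apk bc ε) E (ngup_bs D.toRD0 U hU E bc hbs ε hε)
        (UY B a E) hUY1).trans ?_
      exact mul_le_mul_of_nonneg_left h6 (by positivity)
    have h8 : ∑ ε ∈ Fintype.piFinset (fun _ : Fin l => U),
        SWS D.toRD0 (tdN Dg.nd) Finset.univ (apk bc ε) E (UY B a E) ≤ (U.card : ℝ) ^ l *
            (C₂ * nr E ^ η * UY B a E * (2 * Real.log B) ^ (N₀ - 1)) := by
      refine (Finset.sum_le_sum h7).trans (le_of_eq ?_)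
      rw [Finset.sum_const, Fintype.card_piFinset_const, nsmul_eq_mul]
      push_cast
      rfl
    refine h3.trans ?_
    calc (C₁ : ℝ) * (Nat.card G : ℝ) ^ E.card *
          ∑ ε ∈ Fintype.piFinset (fun _ : Fin l => U),
            SWS D.toRD0 (tdN Dg.nd) Finset.univ (apk bc ε) E (UY B a E)
        ≤ (C₁ : ℝ) * (Nat.card G : ℝ) ^ E.card * ((U.card : ℝ) ^ l *
            (C₂ * nr E ^ η * UY B a E * (2 * Real.log B) ^ (N₀ - 1))) :=
          mul_le_mul_of_nonneg_left h8 (by positivity)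
      _ = _ := by
          rw [hC₁']
          ring
  have hcardE : ∀ E : Finset (Pl K), (((Rs.filter fun φ => (e φ).1 = E).card : ℕ) : ℝ) ≤
      ((U.card : ℝ) * (p : ℝ) ^ E.card) ^ m * (C₁' * (Nat.card G : ℝ) ^ E.card *
          (C₂ * nr E ^ η * UY B a E * (2 * Real.log B) ^ (N₀ - 1))) := by
    intro E
    have hmap : ∀ φ ∈ Rs.filter fun φ => (e φ).1 = E,
        (e φ).2 ∈ Bb D.toRD0 U E m := by
      intro φ hφ
      rw [Finset.mem_filter] at hφ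
      obtain ⟨-, b3, -⟩ := he φ hφ.1
      rw [hφ.2] at b3
      exact b3
    have hUY := uy_le B hB1 a E
    have hUY0 : 0 ≤ UY B a E := hUY.1
    have hnr := one_le_nr E
    rw [Finset.card_eq_sum_card_fiberwise hmap]
    push_cast
    calc ∑ b ∈ Bb D.toRD0 U E m,
          (((Rs.filter fun φ => (e φ).1 = E).filter fun φ => (e φ).2 = b).card : ℝ) ≤
        ∑ b ∈ Bb D.toRD0 U E m, C₁' * (Nat.card G : ℝ) ^ E.card *
          (C₂ * nr E ^ η * UY B a E * (2 * Real.log B) ^ (N₀ - 1)) :=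
          Finset.sum_le_sum fun b _ => hfib E b
      _ = ((Bb D.toRD0 U E m).card : ℝ) *
          (C₁' * (Nat.card G : ℝ) ^ E.card *
          (C₂ * nr E ^ η * UY B a E * (2 * Real.log B) ^ (N₀ - 1))) := by
          rw [Finset.sum_const, nsmul_eq_mul]
      _ ≤ _ := by
          refine mul_le_mul_of_nonneg_right ?_ (by positivity)
          have h5 := ubb_card D.toRD0 U E m
          exact_mod_cast h5
  have hmapE : ∀ φ ∈ Rs, (e φ).1 ∈ AF K B := by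
    intro φ hφ
    obtain ⟨-, -, -, -, b6, -⟩ := he φ hφ
    exact mem_AF.2 b6
  have hQ : ∀ E : Finset (Pl K), ((U.card : ℝ) * (p : ℝ) ^ E.card) ^ m *
      (C₁' * (Nat.card G : ℝ) ^ E.card *
          (C₂ * nr E ^ η * UY B a E * (2 * Real.log B) ^ (N₀ - 1))) =
      (C₁' * (U.card : ℝ) ^ m * C₂ * X * (2 * Real.log B) ^ (N₀ - 1)) *
        (q ^ E.card * nr E ^ η * ∏ v ∈ E, (nm v : ℝ) ^ (-((co a v : ℝ) / (a : ℝ)))) := by
    intro E
    have e1 : q ^ E.card = (Nat.card G : ℝ) ^ E.card * ((p : ℝ) ^ E.card) ^ m := by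
      rw [hq, mul_pow, ← pow_mul, ← pow_mul, mul_comm m]
    have e2 : UY B a E = X * ∏ v ∈ E, (nm v : ℝ) ^ (-((co a v : ℝ) / (a : ℝ))) := by
      rw [hX]
      rfl
    rw [e1, e2, mul_pow]
    ring
  have hcard := Finset.card_eq_sum_card_fiberwise (f := fun φ => (e φ).1) (s := Rs) (t := AF K B)
    (fun φ hφ => hmapE φ hφ)
  have hlogp : 0 ≤ Real.log B ^ (N₀ - 1) := by positivity
  rw [← hX]
  calc (Rs.card : ℝ) = ∑ E ∈ AF K B, (((Rs.filter fun φ => (e φ).1 = E).card : ℕ) : ℝ) := by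
        rw [hcard]
        push_cast
        rfl
    _ ≤ ∑ E ∈ AF K B, (C₁' * (U.card : ℝ) ^ m * C₂ * X * (2 * Real.log B) ^ (N₀ - 1)) *
        (q ^ E.card * nr E ^ η * ∏ v ∈ E, (nm v : ℝ) ^ (-((co a v : ℝ) / (a : ℝ)))) := by
        refine Finset.sum_le_sum fun E _ => ?_
        rw [← hQ E]
        exact hcardE E
    _ = (C₁' * (U.card : ℝ) ^ m * C₂ * X * (2 * Real.log B) ^ (N₀ - 1)) *
        ∑ E ∈ AF K B, (q ^ E.card * nr E ^ η *
          ∏ v ∈ E, (nm v : ℝ) ^ (-((co a v : ℝ) / (a : ℝ)))) := by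
        rw [Finset.mul_sum]
    _ ≤ (C₁' * (U.card : ℝ) ^ m * C₂ * X * (2 * Real.log B) ^ (N₀ - 1)) * C₃ := by
        refine mul_le_mul_of_nonneg_left (hsum _) ?_
        positivity
    _ = (C₁' * (U.card : ℝ) ^ m * C₂ * C₃ * 2 ^ (N₀ - 1)) * (X * Real.log B ^ (N₀ - 1)) := by
        rw [mul_pow]
        ring
    _ ≤ (C₁' * (U.card : ℝ) ^ m * C₂ * C₃ * 2 ^ (N₀ - 1) + 1) *
        (X * Real.log B ^ (N₀ - 1)) := by
        refine mul_le_mul_of_nonneg_right (by linarith) (by positivity)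
    _ = (C₁' * (U.card : ℝ) ^ m * C₂ * C₃ * 2 ^ (N₀ - 1) + 1) * X *
        Real.log B ^ (N₀ - 1) := by ring

end H77.GN
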