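import Pool.Agent.H77.GN.NCrB
import Pool.Agent.H38.BG.TFrob
import Pool.Agent.H63.BU.UKum

/-!
# H77-GN-NTD: type data, group data and definitions for the Galois part

* `tdN nd`: the type data of `cN nd`.
* `GDa p m l N₀ G`: the group data: `π : G → F_p^m` surjective, representatives `g i` of classes of elements of order `p`, a descending series `N 0 ≥ N 1 ≥ … ≥ N c = 1` of normal subgroups with `[G, g i] ⊆ N 0`, `[G, N j] ⊆ N (j+1)`, `[ker π, N j] ⊆ N (j+2)`, `π (N 0) = 1`, coordinates `cc k` of level `lev k` (`k < l`; together an injective homomorphism on `N j / N (j+1)`), and the numerical data `nd`: `B` describes the commutators, `Dd i` contains the coordinates of the commutators of `g i`, `C i` the image of the centraliser.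
* `TyN`: primes of type `i` (as `TyX` in H77/AB/ADat). `Dg.c0`: the class data with vectors `t i` and `Θ = 0` (used for `akR`).
* `SpG`: the spanning condition for `(b, f)`. `LocG`: the local condition at the typed primes.
* `YS D Dg U b f`: the pairs `(ε, η)`, `ε ∈ U^l`, `η : ⋃ f → F_p^l`, with `η v ∈ Dd i` and `B (t i) (LL v (ε ∏ pi^η)) = B (LL v (akR b f)) (η v)` for `v ∈ f i`.
* `apk b ε`: the Kummer elements `(b, ε)`. `rfN nd f η`: the refined family of `f` and the labels `η`.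
-/

set_option autoImplicit false

open scoped NumberField
open IsDedekindDomain
open scoped Classical

noncomputable section

namespace H77.GN

open H63.MA H38.BB H38.BG H63.BU H77.AB

/-- the type data of `cN nd` -/
def tdN {p m l N₀ : ℕ} [NeZero p] [Fact p.Prime] (nd : ND p m l N₀) : TD (cN nd) N₀ where
  Vs := VsN p m l
  ty := tyN nd
  q := qN nd
  q0 := ncr_q0 nd
  hx := by
    intro k k' hk δ hδ
    have h : ∀ (v : Fin m → ZMod p) (y : Fin l → ZMod p),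
        dt δ (Fin.append v y) = ∑ j : Fin m, δ (Fin.castAdd l j) * v j := by
      intro v y
      unfold dt
      rw [Fin.sum_univ_add]
      have h2 : ∑ j : Fin l, δ (Fin.natAdd m j) * Fin.append v y (Fin.natAdd m j) = 0 :=
        Finset.sum_eq_zero fun j _ => by rw [hδ j, zero_mul]
      rw [h2, add_zero]
      exact Finset.sum_congr rfl fun j _ => by rw [Fin.append_left]
    change dt δ (Fin.append (nd.t (tyN nd k)) (etN nd k)) =
      dt δ (Fin.append (nd.t (tyN nd k')) (etN nd k'))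
    rw [h, h, hk]
  hd := by
    intro k k' hk
    change ThN nd (tyN nd k) (etN nd k) ⊓ VsN p m l = ThN nd (tyN nd k') (etN nd k') ⊓ VsN p m l
    rw [hk]
    exact ncr_hd nd _ _ _
  hq := fun k => ncr_hq nd _ _
  hH := fun U h1 h2 i => ncr_hH nd U h1 h2 i

/-- group data for the Galois part -/
structure GDa (p m l N₀ : ℕ) (G : Type) [Group G] where
  nd : ND p m l N₀
  π : G →* Multiplicative (Fin m → ZMod p)
  πs : Function.Surjective π
  g : Fin N₀ → G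
  pow : ∀ i, g i ^ p = 1
  ne : ∀ i, g i ≠ 1
  uni : ∀ i j, IsConj (g i) (g j) → i = j
  tg : ∀ i, nd.t i = Multiplicative.toAdd (π (g i))
  c : ℕ
  N : ℕ → Subgroup G
  nn : ∀ j, (N j).Normal
  nc : N c = ⊥
  anti : ∀ j, N (j + 1) ≤ N j
  n0 : ∀ i h, h * g i * h⁻¹ * (g i)⁻¹ ∈ N 0
  com : ∀ j x, ∀ u ∈ N j, x * u * x⁻¹ * u⁻¹ ∈ N (j + 1)
  π0 : ∀ u ∈ N 0, π u = 1
  fac : ∀ j x, π x = 1 → ∀ u ∈ N j, x * u * x⁻¹ * u⁻¹ ∈ N (j + 2)
  lev : Fin l → ℕ
  cc : Fin l → G → ZMod p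
  cadd : ∀ k, ∀ a ∈ N (lev k), ∀ b ∈ N (lev k), cc k (a * b) = cc k a + cc k b
  cz : ∀ k, ∀ a ∈ N (lev k + 1), cc k a = 0
  cinj : ∀ j, ∀ a ∈ N j, (∀ k, lev k = j → cc k a = 0) → a ∈ N (j + 1)
  Bk : ∀ k j, lev k = j + 1 → ∀ x, ∀ u ∈ N j, ∀ y : Fin l → ZMod p,
    (∀ k', lev k' = j → y k' = cc k' u) →
      nd.B (Multiplicative.toAdd (π x)) y k = cc k (x * u * x⁻¹ * u⁻¹)
  Bz : ∀ k, lev k = 0 → ∀ v y, nd.B v y k = 0
  hD : ∀ i t, IsConj t (g i) → ∀ h j, h * t * h⁻¹ * t⁻¹ ∈ N j →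
    (fun k => if lev k = j then cc k (h * t * h⁻¹ * t⁻¹) else 0) ∈ nd.Dd i
  hC : ∀ i F t, IsConj t (g i) → F * t = t * F → Multiplicative.toAdd (π F) ∈ nd.C i

/-- the class data of the images of the `g i` -/
def GDa.c0 {p m l N₀ : ℕ} {G : Type} [Group G] (Dg : GDa p m l N₀ G) : CR p m N₀ where
  x i := Dg.nd.t i
  Θ _ := ⊥
  self i θ hθ := by
    rw [(Submodule.mem_bot _).1 hθ]
    exact adat_dt_zero _

section loc

variable {K : Type} [Field K] [NumberField K] {p : ℕ} {ζ : K} {Ω : Type} [Field Ω] [Algebra K Ω]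

/-- primes of type `i` -/
def TyN {D : RD0 K p ζ} {m l N₀ : ℕ} {G : Type} [Group G] (Dg : GDa p m l N₀ G)
    (L : LDs D Ω) (φ : Gal(Ω/K) →* G) (i : Fin N₀) (v : Pl K) : Prop :=
  D.Gd v ∧ IsConj (φ (L.t v)) (Dg.g i) ∧ ∀ τ ∈ inr L v, φ τ ^ p = 1

/-- the spanning condition -/
def SpG {m l N₀ : ℕ} {G : Type} [Group G] (Dg : GDa p m l N₀ G) (b : Fin m → Kˣ)
    (f : Fin N₀ → Finset (Pl K)) : Prop :=
  ∀ θ : Fin m → ZMod p, θ ≠ 0 →
    (∃ i, f i ≠ ∅ ∧ dt θ (Dg.nd.t i) ≠ 0) ∨ ¬ IsPow p (bp b θ)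

/-- the local condition at the typed primes -/
def LocG {m l N₀ : ℕ} {G : Type} [Group G] (D : RD0 K p ζ) (Dg : GDa p m l N₀ G)
    (b : Fin m → Kˣ) (f : Fin N₀ → Finset (Pl K)) : Prop :=
  ∀ i, ∀ v ∈ f i, (fun k => D.LL v (akR D Dg.c0 b f k)) ∈ Dg.nd.C i

/-- the labels -/
def YS {m l N₀ : ℕ} {G : Type} [Group G] [NeZero p] (D : RD0 K p ζ) (Dg : GDa p m l N₀ G)
    (U : Finset Kˣ) (b : Fin m → Kˣ) (f : Fin N₀ → Finset (Pl K)) :
    Finset ((Fin l → Kˣ) × (↥(Finset.univ.biUnion f) → Fin l → ZMod p)) :=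
  ((Fintype.piFinset fun _ : Fin l => U) ×ˢ
    (Finset.univ : Finset (↥(Finset.univ.biUnion f) → Fin l → ZMod p))).filter fun e =>
      ∀ (i : Fin N₀) (v : ↥(Finset.univ.biUnion f)), v.1 ∈ f i →
        e.2 v ∈ Dg.nd.Dd i ∧
        Dg.nd.B (Dg.nd.t i) (fun k => D.LL v.1 (e.1 k *
          ∏ w : ↥(Finset.univ.biUnion f), D.pi w.1 ^ (e.2 w k).val)) =
        Dg.nd.B (fun k => D.LL v.1 (akR D Dg.c0 b f k)) (e.2 v)

/-- the Kummer elements `(b, ε)` -/
def apk {m l : ℕ} (b : Fin m → Kˣ) (ε : Fin l → Kˣ) : Fin (m + l) → Kˣ := Fin.append b ε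

/-- the refined family -/
def rfN {m l N₀ : ℕ} [NeZero p] (nd : ND p m l N₀) (f : Fin N₀ → Finset (Pl K))
    (η : Pl K → Fin l → ZMod p) (k : Fin (NN nd)) : Finset (Pl K) :=
  (f (tyN nd k)).filter fun v => η v = etN nd k

end loc

end H77.GN
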