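import Pool.Agent.H77.GN.NTd
import Pool.Agent.H77.AB.LRL
import Pool.Agent.H63.MA.GTame

/-!
# [H77 GN NRL] the local relation, 100-150 lines (compare LRL in H77/AB)

`φ, φ₀ : Γ → G` of finite type, `φ σ (φ₀ σ)⁻¹ ∈ N j`, `v ∉ S0`, `φ (inertia)` and `φ₀ (inertia)` of exponent `p`, `kk (a k) σ = π (φ₀ σ) k`, and `kk (z k) σ = cc k (φ σ (φ₀ σ)⁻¹)` for the `k` of level `j`. Then for the `k` of level `j + 1`: `B (π (φ₀ t)) (LL v (z ·)) k = B (LL v (a ·)) (ord v (z ·)) k`.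

Proof (copy the first part of `lrl` in H77/AB/LRL). `Φ = φ.prod φ₀ : Γ → G × G` is of finite type, `Φ τ ^ p = 1` for `τ ∈ inr L v`. `tfrob_z` (H38/BG/TFrob) for `Φ` and the family `Fin.append a z` gives `F` with `Φ F` commuting with `Φ t`, `t = L.t v`, `kk (a k) F = LL v (a k)`, `kk (z k) F = LL v (z k)`. Also `kk (z k) t = ord v (z k)` (in `ZMod p`; `ld_kk_t`, `gupb_t`, as in `lrl`).
Let `A = φ₀ F`, `B' = φ₀ t` (`A B' = B' A`), `u = φ F A⁻¹`, `u' = φ t B'⁻¹`, both in `N j`. `φ F φ t = φ t φ F` gives `u (A u' A⁻¹) = u' (B' u B'⁻¹)`, i.e. `u x u' = u' y u` with `x = A u' A⁻¹ u'⁻¹`, `y = B' u B'⁻¹ u⁻¹` in `N (j+1)` (`Dg.com`). Modulo `N (j+2)` the elements `x, y` are central (`Dg.com`) and `u, u'` commute (`Dg.fac`: `π u = 1` as `N j ≤ N 0` (`Dg.anti`), `Dg.π0`), so `x ≡ y` modulo `N (j+2)`: `x y⁻¹ ∈ N (j+2)`.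
For `k` of level `j + 1`: `cc k x = cc k y` (`cadd`, `cz`; `x = (x y⁻¹) y`). By `Dg.Bk` for `x := A`, `u := u'`, `y := ord v (z ·)` (for `k'` of level `j`: `ord v (z k') = kk (z k') t = cc k' u'`): `B (π A) (ord v (z ·)) k = cc k x`, and `π A = LL v (a ·)` (`kk (a k) F = π (φ₀ F) k`). In the same way `B (π B') (LL v (z ·)) k = cc k y`.
-/

set_option autoImplicit false

open scoped NumberField
open IsDedekindDomain
open scoped Classical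

noncomputable section

namespace H77.GN

open H63.MA H38.BB H38.BG H63.BU H77.AB

private theorem nrl_mem0 {p m l N₀ : ℕ} {G : Type} [Group G] (Dg : GDa p m l N₀ G) (j : ℕ)
    (u : G) (hu : u ∈ Dg.N j) : u ∈ Dg.N 0 := by
  induction j with
  | zero => exact hu
  | succ j ih => exact ih (Dg.anti j hu)

private theorem nrl_grp {p m l N₀ : ℕ} {G : Type} [Group G] (Dg : GDa p m l N₀ G) (j : ℕ)
    (A B u u' : G) (hu : u ∈ Dg.N j) (hu' : u' ∈ Dg.N j)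
    (h1 : (u * A) * (u' * B) = (u' * B) * (u * A)) (h2 : A * B = B * A) :
    (A * u' * A⁻¹ * u'⁻¹) * (B * u * B⁻¹ * u⁻¹)⁻¹ ∈ Dg.N (j + 2) := by
  have := Dg.nn (j + 2)
  obtain ⟨q, hq⟩ : ∃ q : G →* G ⧸ Dg.N (j + 2), q = QuotientGroup.mk' (Dg.N (j + 2)) := ⟨_, rfl⟩
  have hone : ∀ g, q g = 1 ↔ g ∈ Dg.N (j + 2) := fun g => by
    rw [hq, QuotientGroup.mk'_apply]
    exact QuotientGroup.eq_one_iff g
  have hcomm : ∀ a b, a * b * a⁻¹ * b⁻¹ ∈ Dg.N (j + 2) → q a * q b = q b * q a := by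
    intro a b h
    have h' := (hone _).2 h
    rw [map_mul, map_mul, map_mul, map_inv, map_inv, mul_inv_eq_one, mul_inv_eq_iff_eq_mul] at h'
    exact h'
  obtain ⟨x, hx⟩ : ∃ x, x = A * u' * A⁻¹ * u'⁻¹ := ⟨_, rfl⟩
  obtain ⟨y, hy⟩ : ∃ y, y = B * u * B⁻¹ * u⁻¹ := ⟨_, rfl⟩
  have hxN : x ∈ Dg.N (j + 1) := hx ▸ Dg.com j A u' hu'
  have hyN : y ∈ Dg.N (j + 1) := hy ▸ Dg.com j B u hu
  have e1 : q u * q x = q x * q u := hcomm _ _ (Dg.com (j + 1) u x hxN)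
  have e2 : q u' * q y = q y * q u' := hcomm _ _ (Dg.com (j + 1) u' y hyN)
  have e3 : q u * q u' = q u' * q u :=
    hcomm _ _ (Dg.fac j u (Dg.π0 u (nrl_mem0 Dg j u hu)) u' hu')
  have h3 : u * x * u' = u' * y * u := by
    have h4 : u * x * u' * (A * B) = u' * y * u * (A * B) := by
      calc u * x * u' * (A * B) = (u * A) * (u' * B) := by rw [hx]; group
        _ = (u' * B) * (u * A) := h1
        _ = u' * y * u * (B * A) := by rw [hy]; group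
        _ = u' * y * u * (A * B) := by rw [h2]
    exact mul_right_cancel h4
  have h5 : q x * (q u * q u') = q y * (q u * q u') := by
    have h6 := congrArg q h3
    rw [map_mul, map_mul, map_mul, map_mul] at h6
    calc q x * (q u * q u') = q u * q x * q u' := by rw [← mul_assoc, e1]
      _ = q u' * q y * q u := h6
      _ = q y * (q u' * q u) := by rw [e2, mul_assoc]
      _ = q y * (q u * q u') := by rw [e3]
  have h7 : q x = q y := mul_right_cancel h5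
  rw [← hx, ← hy, ← hone, map_mul, map_inv, h7, mul_inv_cancel]

theorem nrl {K : Type} [Field K] [NumberField K] {Ω : Type} [Field Ω] [Algebra K Ω]
    [IsAlgClosure K Ω] {p : ℕ} [NeZero p] {ζ : K} {m l N₀ : ℕ} {G : Type} [Group G] [Finite G]
    (hp : p.Prime) (hζ : IsPrimitiveRoot ζ p) (D : RD0 K p ζ) (L : LDs D Ω)
    (Dg : GDa p m l N₀ G) (j : ℕ) (φ₀ φ : Gal(Ω/K) →* G)
    (h₀ : H38.ML.FT φ₀) (h : H38.ML.FT φ) (hφ : ∀ σ, φ σ * (φ₀ σ)⁻¹ ∈ Dg.N j)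
    (a : Fin m → Kˣ)
    (ha : ∀ (σ : Gal(Ω/K)) k, kk p ζ (a k) σ = Multiplicative.toAdd (Dg.π (φ₀ σ)) k)
    (v : Pl K) (hv : v ∉ D.S0) (he₀ : ∀ τ ∈ inr L v, φ₀ τ ^ p = 1)
    (he : ∀ τ ∈ inr L v, φ τ ^ p = 1) (z : Fin l → Kˣ)
    (hz : ∀ k, Dg.lev k = j → ∀ σ : Gal(Ω/K), kk p ζ (z k) σ =
      Dg.cc k (φ σ * (φ₀ σ)⁻¹)) (k : Fin l) (hk : Dg.lev k = j + 1) :
    Dg.nd.B (Multiplicative.toAdd (Dg.π (φ₀ (L.t v)))) (fun k' => D.LL v (z k')) k =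
      Dg.nd.B (fun k' => D.LL v (a k')) (fun k' => ((ord v (z k') : ℤ) : ZMod p)) k := by
  obtain ⟨F, hFt, hFk⟩ := tfrob_z hp hζ L (φ.prod φ₀) (gtame_ft_prod _ _ h h₀) v hv
    (fun τ hτ => by
      rw [MonoidHom.prod_apply]
      exact Prod.ext (he τ hτ) (he₀ τ hτ)) (Fin.append a z)
  have hF1 : φ F * φ (L.t v) = φ (L.t v) * φ F := congrArg Prod.fst hFt
  have hF2 : φ₀ F * φ₀ (L.t v) = φ₀ (L.t v) * φ₀ F := congrArg Prod.snd hFt
  have haF : ∀ k, kk p ζ (a k) F = D.LL v (a k) := by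
    intro k
    have h1 := hFk (Fin.castAdd l k)
    rwa [Fin.append_left] at h1
  have hzF : ∀ k, kk p ζ (z k) F = D.LL v (z k) := by
    intro k
    have h1 := hFk (Fin.natAdd m k)
    rwa [Fin.append_right] at h1
  have hzt : ∀ k, kk p ζ (z k) (L.t v) = ord v (z k) := by
    intro k
    rw [gupb_t L hv]
    exact ld_kk_t hp hζ (fun h => hv (D.above v h)) (D.pi_self v hv) (L.ld v hv) (z k)
  obtain ⟨A, hA⟩ : ∃ A, A = φ₀ F := ⟨_, rfl⟩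
  obtain ⟨B, hB⟩ : ∃ B, B = φ₀ (L.t v) := ⟨_, rfl⟩
  obtain ⟨u, hu⟩ : ∃ u, u = φ F * A⁻¹ := ⟨_, rfl⟩
  obtain ⟨u', hu'⟩ : ∃ u', u' = φ (L.t v) * B⁻¹ := ⟨_, rfl⟩
  have huV : u ∈ Dg.N j := by rw [hu, hA]; exact hφ F
  have huV' : u' ∈ Dg.N j := by rw [hu', hB]; exact hφ (L.t v)
  have e1 : φ F = u * A := by rw [hu, inv_mul_cancel_right]
  have e2 : φ (L.t v) = u' * B := by rw [hu', inv_mul_cancel_right]
  rw [e1, e2] at hF1
  rw [← hA, ← hB] at hF2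
  have hg := nrl_grp Dg j A B u u' huV huV' hF1 hF2
  have hxN : A * u' * A⁻¹ * u'⁻¹ ∈ Dg.N (j + 1) := Dg.com j A u' huV'
  have hyN : B * u * B⁻¹ * u⁻¹ ∈ Dg.N (j + 1) := Dg.com j B u huV
  have hcc : Dg.cc k (A * u' * A⁻¹ * u'⁻¹) = Dg.cc k (B * u * B⁻¹ * u⁻¹) := by
    have h1 : Dg.cc k ((A * u' * A⁻¹ * u'⁻¹) * (B * u * B⁻¹ * u⁻¹)⁻¹ * (B * u * B⁻¹ * u⁻¹)) =
        Dg.cc k ((A * u' * A⁻¹ * u'⁻¹) * (B * u * B⁻¹ * u⁻¹)⁻¹) +
          Dg.cc k (B * u * B⁻¹ * u⁻¹) :=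
      Dg.cadd k _ (by rw [hk]; exact Dg.anti (j + 1) hg) _ (by rw [hk]; exact hyN)
    have h0 : Dg.cc k ((A * u' * A⁻¹ * u'⁻¹) * (B * u * B⁻¹ * u⁻¹)⁻¹) = 0 :=
      Dg.cz k _ (by rw [hk]; exact hg)
    rw [inv_mul_cancel_right, h0, zero_add] at h1
    exact h1
  have hπ : Multiplicative.toAdd (Dg.π A) = fun k' => D.LL v (a k') := by
    funext k'
    rw [← haF k', ha F k', hA]
  have b1 := Dg.Bk k j hk A u' huV' (fun k' => ((ord v (z k') : ℤ) : ZMod p)) (by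
    intro k' hk'
    change ((ord v (z k') : ℤ) : ZMod p) = Dg.cc k' u'
    rw [← hzt k', hz k' hk' (L.t v), hu', hB])
  have b2 := Dg.Bk k j hk B u huV (fun k' => D.LL v (z k')) (by
    intro k' hk'
    change D.LL v (z k') = Dg.cc k' u
    rw [← hzF k', hz k' hk' F, hu, hA])
  rw [hπ] at b1
  rw [← hB, b2, b1, hcc]

end H77.GN
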