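import Pool.Agent.H77.GN.NTot
import Pool.Agent.H77.GN.NEx
import Pool.Agent.H77.GN.NLd
import Pool.Agent.H77.AB.LSum

/-!
# [H77 GN NSUM] the number of homomorphisms with given E and Kummer data, 90-130 lines (as LSum in H77/AB)

`nsum`: there is `C` such that for all `B`, `E`, `b : Fin m → Kˣ` with `BS2 D b E` and every finite set `Rs` of homomorphisms `φ` of finite type with `∏_{v ∈ T} nm v ^ ix (φ (inertia)) ≤ B`, `E` = the ramified primes which are not of a type, and (for the family `f` of the typed primes) `kk (akR D Dg.c0 b f k) σ = π (φ σ) k`, `SpG Dg b f`, `LocG D Dg b f`: `#Rs ≤ C (#G)^{#E} ∑_{ε ∈ U^l} SWS (tdN nd) univ (apk b ε) E (UY B a E)`.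

Proof: copy `lsum` in H77/AB/LSum with `ntot`, `nex`, `ncnt_nr`, `nlead_ty` in place of `ltot`, `lexp`, `lcnt_nr`, `llead_ty`. `fam φ i` = the set of the primes of type `i`. For `f ∈ piFinset (GF D (UY B a E))` the fibre `{φ ∈ Rs : fam φ = f}` is empty or has at most `C (#G)^{#E} #(YS D Dg U b f)` elements (`ntot`), so by `nex` at most `C (#G)^{#E} ∑_ε ∑_{F over f} swS F`. Sum over `f`, exchange the sums, `∑_f ∑_{F : unC … F = f} swS F ≤ ∑_F swS F = SWS` (`nex_nonneg`).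
-/

set_option autoImplicit false

open scoped NumberField
open IsDedekindDomain
open scoped Classical

noncomputable section

namespace H77.GN

open H63.MA H38.BB H38.BG H63.BU H77.AB

theorem nsum {K : Type} [Field K] [NumberField K] {Ω : Type} [Field Ω] [Algebra K Ω]
    [IsAlgClosure K Ω] {p : ℕ} [NeZero p] [Fact p.Prime] {ζ : K} {m l N₀ : ℕ} {G : Type}
    [Group G] [Finite G] (hζ : IsPrimitiveRoot ζ p) (D : RD0 K p ζ) (L : LDs D Ω)
    (hnil : Group.IsNilpotent G) (Dg : GDa p m l N₀ G) (U : Finset Kˣ) (hU : UR D U) (z : K)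
    (hz : IsPrimitiveRoot z (Nat.card G))
    (hS : ∀ v : Pl K, ((Nat.card G : ℕ) : 𝓞 K) ∈ v.asIdeal → v ∈ D.S0) (a : ℕ) (ha : 0 < a)
    (ix : Subgroup G → ℕ) (h1 : ∀ H, H ≠ ⊥ → a ≤ ix H)
    (h2 : ∀ g : G, g ≠ 1 → ix (Subgroup.zpowers g) ≤ a → ∃ i, IsConj g (Dg.g i)) :
    ∃ C : ℕ, ∀ (B : ℝ) (E : Finset (Pl K)) (b : Fin m → Kˣ)
      (Rs : Finset (Gal(Ω/K) →* G)), BS2 D b E →
      (∀ φ ∈ Rs, H38.ML.FT φ ∧ (∀ T : Finset (Pl K), (∀ v ∈ T, v ∉ D.S0) →
          ∏ v ∈ T, (nm v : ℝ) ^ ix ((inr L v).map φ) ≤ B) ∧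
        (∀ v, v ∈ E ↔ Rm L φ v ∧ ∀ i, ¬ TyN Dg L φ i v) ∧
        ∀ f : Fin N₀ → Finset (Pl K), (∀ i v, v ∈ f i ↔ TyN Dg L φ i v) →
          (∀ (σ : Gal(Ω/K)) k, kk p ζ (akR D Dg.c0 b f k) σ =
            Multiplicative.toAdd (Dg.π (φ σ)) k) ∧ SpG Dg b f ∧ LocG D Dg b f) →
      (Rs.card : ℝ) ≤ C * (Nat.card G : ℝ) ^ E.card *
        ∑ ε ∈ Fintype.piFinset (fun _ : Fin l => U),
          SWS D (tdN Dg.nd) Finset.univ (apk b ε) E (UY B a E) := by
  have hp : p.Prime := Fact.out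
  obtain ⟨C, hC⟩ := ntot hp hζ D L hnil Dg U hU z hz hS
  refine ⟨C, fun B E b Rs hb hRs => ?_⟩
  -- the families
  obtain ⟨fam, hfam⟩ : ∃ fam : (Gal(Ω/K) →* G) → Fin N₀ → Finset (Pl K),
      ∀ φ ∈ Rs, ∀ i v, v ∈ fam φ i ↔ TyN Dg L φ i v := by
    have hfin : ∀ φ ∈ Rs, ∀ i, {v : Pl K | TyN Dg L φ i v}.Finite := by
      intro φ hφ i
      refine (uinr_fin L φ (hRs φ hφ).1).subset ?_
      intro v hv
      exact (nlead_ty L Dg φ i v hv).1
    refine ⟨fun φ i => if h : {v : Pl K | TyN Dg L φ i v}.Finite then h.toFinset else ∅,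
      fun φ hφ i v => ?_⟩
    dsimp only
    rw [dif_pos (hfin φ hφ i), Set.Finite.mem_toFinset]
    rfl
  obtain ⟨Z, hZ⟩ : ∃ Z : (Fin N₀ → Finset (Pl K)) → ℝ, Z = fun f =>
      ∑ ε ∈ Fintype.piFinset (fun _ : Fin l => U),
        ∑ F ∈ (Fintype.piFinset fun _ : Fin (NN Dg.nd) => GF D (UY B a E)).filter
          (fun F => unC (tyN Dg.nd) F = f),
          swS D (tdN Dg.nd) Finset.univ (apk b ε) E (UY B a E) F :=
    ⟨_, rfl⟩
  have hZ0 : ∀ f, 0 ≤ Z f := by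
    intro f
    rw [hZ]
    exact Finset.sum_nonneg fun ε _ => Finset.sum_nonneg fun F _ => nex_nonneg _ _ _ _ _ _ _
  have hmap : ∀ φ ∈ Rs, fam φ ∈ Fintype.piFinset (fun _ : Fin N₀ => GF D (UY B a E)) := by
    intro φ hφ
    obtain ⟨r1, r2, r3, r4⟩ := hRs φ hφ
    obtain ⟨-, -, -, -, -, h6⟩ := ncnt_nr hp hζ D L Dg hS a ha ix h1 h2 φ r1 B r2 (fam φ) E
      (hfam φ hφ) r3
    exact Fintype.mem_piFinset.2 h6
  have hfib : ∀ f ∈ Fintype.piFinset (fun _ : Fin N₀ => GF D (UY B a E)),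
      ((Rs.filter fun φ => fam φ = f).card : ℝ) ≤ C * (Nat.card G : ℝ) ^ E.card * Z f := by
    intro f _
    by_cases hemp : (Rs.filter fun φ => fam φ = f) = ∅
    · rw [hemp, Finset.card_empty, Nat.cast_zero]
      have := hZ0 f
      positivity
    · obtain ⟨φ, hφ⟩ := Finset.nonempty_iff_ne_empty.2 hemp
      rw [Finset.mem_filter] at hφ
      obtain ⟨hφ, hff⟩ := hφ
      obtain ⟨r1, r2, r3, r4⟩ := hRs φ hφ
      have hff' : ∀ i v, v ∈ f i ↔ TyN Dg L φ i v := by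
        rw [← hff]
        exact hfam φ hφ
      obtain ⟨g1, g2, g3, -, -, g6⟩ := ncnt_nr hp hζ D L Dg hS a ha ix h1 h2 φ r1 B r2 f E
        hff' r3
      obtain ⟨-, s2, s3⟩ := r4 f hff'
      have h5 := hC E f b (Rs.filter fun φ => fam φ = f)
        (fun ψ hψ => (hRs ψ (Finset.mem_filter.1 hψ).1).1)
        (fun ψ hψ => by
          have h6 := Finset.mem_filter.1 hψ
          rw [← h6.2]
          exact hfam ψ h6.1)
        (fun ψ hψ => (hRs ψ (Finset.mem_filter.1 hψ).1).2.2.1)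
        (fun ψ hψ => by
          have h6 := Finset.mem_filter.1 hψ
          refine ((hRs ψ h6.1).2.2.2 f ?_).1
          rw [← h6.2]
          exact hfam ψ h6.1)
      have h6 := nex hζ D Dg U b f E (UY B a E) g2 g3 g1 g6 s2 s3
      have h7 : ((Rs.filter fun φ => fam φ = f).card : ℝ) ≤
          C * (Nat.card G : ℝ) ^ E.card * ((YS D Dg U b f).card : ℝ) := by
        exact_mod_cast h5
      refine h7.trans ?_
      refine mul_le_mul_of_nonneg_left ?_ (by positivity)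
      rw [hZ]
      exact h6
  have hsum : ∑ f ∈ Fintype.piFinset (fun _ : Fin N₀ => GF D (UY B a E)), Z f ≤
      ∑ ε ∈ Fintype.piFinset (fun _ : Fin l => U),
        SWS D (tdN Dg.nd) Finset.univ (apk b ε) E (UY B a E) := by
    rw [hZ, Finset.sum_comm]
    refine Finset.sum_le_sum fun ε _ => ?_
    unfold SWS
    exact Finset.sum_fiberwise_le_sum_of_sum_fiber_nonneg
      fun f _ => Finset.sum_nonneg fun F _ => nex_nonneg _ _ _ _ _ _ _
  rw [Finset.card_eq_sum_card_fiberwise (fun φ hφ => Finset.mem_coe.2 (hmap φ (Finset.mem_coe.1 hφ))),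
    Nat.cast_sum]
  refine (Finset.sum_le_sum hfib).trans ?_
  rw [← Finset.mul_sum]
  exact mul_le_mul_of_nonneg_left hsum (by positivity)

end H77.GN
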