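import Pool.Agent.H77.GN.NYf
import Pool.Agent.H63.BU.UFib
import Pool.Agent.H77.AB.LTot

/-!
# [H77 GN NTOT] the number of homomorphisms with given ramified primes and Kummer data, 110-160 lines (adaptation of LTot in H77/AB)

`ntot`: there is `C` such that for all finite sets `E`, `f i` of primes, every `b` and every finite set `Rs` of homomorphisms `φ : Γ → G` of finite type with `f i` = the primes of type `i` (`TyN`), `E` = the other ramified primes, `kk (akR D Dg.c0 b f k) σ = π (φ σ) k`: `#Rs ≤ C (#G)^{#E} #(YS D Dg U b f)`.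

Proof (copy `ltot` in H77/AB/LTot and simplify: there are no other inertia conditions). Let `τ v ∈ inr L v` be as in `uinr_cyc` for `Rs`, `H = G`. `ρ φ = (φ (τ v))_{v ∈ E}` takes at most `(#G)^{#E}` values. If `ρ φ = ρ φ'` then `φ = φ'` on `inr L v` for `v ∉ S0`, `v ∉ x = ⋃ f i` (`v ∈ E` by the choice of `τ v`; the other `v` are unramified for both), and for `v ∈ f i` the reductions of `φ` and `φ'` modulo `N 0` agree on `inr L v`: `φ σ = φ (t v) ^ k` with `k = (kk (pi v) σ).val` for both (`tm_z`),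
and `φ (t v) (g i)⁻¹ ∈ N 0` because `φ (t v) = h g i h⁻¹` and `h g i h⁻¹ (g i)⁻¹ ∈ N 0` (`Dg.n0`), so `φ (t v)`, `φ' (t v)` have the same image in `G ⧸ N 0` (normal: `Dg.nn 0`). So for a fixed value of `ρ` the homomorphisms `(QuotientGroup.mk' (N 0)).comp φ` (of finite type, `H38.ML.ft_comp`) agree on all inertia groups outside `S0`, and there are at most `C` of them (`ugsr` for `H = G ⧸ N 0`, `n = #G`; nilpotent, `#(G ⧸ N 0) ∣ #G`).
For a fixed value of this as well all `φ` in the fibre are pairwise congruent modulo `N 0`, and `nyf` gives at most `#(YS D Dg U b f)` of them. (`Finset.card_le_mul_card_image` twice.)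
-/

set_option autoImplicit false

open scoped NumberField
open IsDedekindDomain
open scoped Classical

noncomputable section

namespace H77.GN

open H63.MA H38.BB H38.BG H63.BU H77.AB

theorem ntot {K : Type} [Field K] [NumberField K] {Ω : Type} [Field Ω] [Algebra K Ω]
    [IsAlgClosure K Ω] {p : ℕ} [NeZero p] {ζ : K} {m l N₀ : ℕ} {G : Type} [Group G] [Finite G]
    (hp : p.Prime) (hζ : IsPrimitiveRoot ζ p) (D : RD0 K p ζ) (L : LDs D Ω)
    (hnil : Group.IsNilpotent G) (Dg : GDa p m l N₀ G) (U : Finset Kˣ) (hU : UR D U) (z : K)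
    (hz : IsPrimitiveRoot z (Nat.card G))
    (hS : ∀ v : Pl K, ((Nat.card G : ℕ) : 𝓞 K) ∈ v.asIdeal → v ∈ D.S0) :
    ∃ C : ℕ, ∀ (E : Finset (Pl K)) (f : Fin N₀ → Finset (Pl K)) (b : Fin m → Kˣ)
      (Rs : Finset (Gal(Ω/K) →* G)), (∀ φ ∈ Rs, H38.ML.FT φ) →
      (∀ φ ∈ Rs, ∀ i v, v ∈ f i ↔ TyN Dg L φ i v) →
      (∀ φ ∈ Rs, ∀ v, v ∈ E ↔ Rm L φ v ∧ ∀ i, ¬ TyN Dg L φ i v) →
      (∀ φ ∈ Rs, ∀ (σ : Gal(Ω/K)) k, kk p ζ (akR D Dg.c0 b f k) σ =
        Multiplicative.toAdd (Dg.π (φ σ)) k) →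
      Rs.card ≤ C * Nat.card G ^ E.card * (YS D Dg U b f).card := by
  have hWn : (Dg.N 0).Normal := Dg.nn 0
  have hqnil : Group.IsNilpotent (G ⧸ Dg.N 0) := inferInstance
  have hqdvd : Nat.card (G ⧸ Dg.N 0) ∣ Nat.card G :=
    Dvd.intro _ (Subgroup.card_eq_card_quotient_mul_card_subgroup (Dg.N 0)).symm
  obtain ⟨C₁, hC₁⟩ := ugsr D L (Nat.card G) Nat.card_pos z hz hS (G ⧸ Dg.N 0) hqnil hqdvd
  refine ⟨C₁, ?_⟩
  intro E f b Rs hft hty hE hk
  have hfin : Fintype G := Fintype.ofFinite G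
  have h1 := fun v => uinr_cyc L (Nat.card G) hS (H := G) rfl Rs hft v
  choose τ hτ hτ2 using h1
  let ρ : (Gal(Ω/K) →* G) → (↥E → G) := fun φ v => φ (τ v.1)
  have hmaps : ∀ φ ∈ Rs, ρ φ ∈ (Finset.univ : Finset (↥E → G)) := fun φ _ => Finset.mem_univ _
  -- agreement on the inertia groups
  have hag : ∀ φ ∈ Rs, ∀ φ' ∈ Rs, ρ φ = ρ φ' → ∀ v, v ∉ D.S0 → ∀ σ ∈ inr L v,
      (v ∉ Finset.univ.biUnion f → φ σ = φ' σ) ∧
        QuotientGroup.mk' (Dg.N 0) (φ σ) = QuotientGroup.mk' (Dg.N 0) (φ' σ) := by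
    intro φ hφ φ' hφ' hρ v hv σ hσ
    by_cases hvx : v ∈ Finset.univ.biUnion f
    · refine ⟨fun h => absurd hvx h, ?_⟩
      obtain ⟨i, -, hvi⟩ := Finset.mem_biUnion.1 hvx
      have t1 := (hty φ hφ i v).1 hvi
      have t2 := (hty φ' hφ' i v).1 hvi
      have hq : ∀ a : G, IsConj a (Dg.g i) →
          QuotientGroup.mk' (Dg.N 0) a = QuotientGroup.mk' (Dg.N 0) (Dg.g i) := by
        intro a ha
        obtain ⟨c, hc⟩ := isConj_iff.1 ha
        have h3 : a = c⁻¹ * Dg.g i * c⁻¹⁻¹ := by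
          rw [← hc]
          group
        have h2 := Dg.n0 i c⁻¹
        rw [← h3] at h2
        rw [← mul_inv_eq_one, ← map_inv, ← map_mul]
        exact (QuotientGroup.eq_one_iff _).2 h2
      rw [tm_z hp hζ L φ (hft φ hφ) v hv t1.2.2 σ hσ,
        tm_z hp hζ L φ' (hft φ' hφ') v hv t2.2.2 σ hσ, map_pow, map_pow,
        hq _ t1.2.1, hq _ t2.2.1]
    · have key : φ σ = φ' σ := by
        by_cases hvE : v ∈ E
        · obtain ⟨k, hk⟩ := hτ2 v σ hσ
          have h2 : φ (τ v) = φ' (τ v) := congrFun hρ ⟨v, hvE⟩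
          rw [hk φ hφ, hk φ' hφ', h2]
        · have hone : ∀ χ ∈ Rs, χ σ = 1 := by
            intro χ hχ
            by_contra h3
            exact hvE ((hE χ hχ v).2 ⟨⟨hv, σ, hσ, h3⟩, fun i hi =>
              hvx (Finset.mem_biUnion.2 ⟨i, Finset.mem_univ _, (hty χ hχ i v).2 hi⟩)⟩)
          rw [hone φ hφ, hone φ' hφ']
      exact ⟨fun _ => key, by rw [key]⟩
  let F : (Gal(Ω/K) →* G) → (Gal(Ω/K) →* G ⧸ Dg.N 0) := fun φ =>
    (QuotientGroup.mk' (Dg.N 0)).comp φ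
  have hfib : ∀ e ∈ (Finset.univ : Finset (↥E → G)), (Rs.filter fun φ => ρ φ = e).card ≤
      (YS D Dg U b f).card * C₁ := by
    intro e _
    have him : ((Rs.filter fun φ => ρ φ = e).image F).card ≤ C₁ := by
      refine hC₁ _ ?_ ?_
      · intro ψ hψ
        obtain ⟨φ, hφ, rfl⟩ := Finset.mem_image.1 hψ
        exact H38.ML.ft_comp _ _ (hft φ (Finset.mem_filter.1 hφ).1)
      · intro ψ hψ ψ' hψ' v hv σ hσ
        obtain ⟨φ, hφ, rfl⟩ := Finset.mem_image.1 hψ
        obtain ⟨φ', hφ', rfl⟩ := Finset.mem_image.1 hψ'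
        rw [Finset.mem_filter] at hφ hφ'
        exact (hag φ hφ.1 φ' hφ'.1 (hφ.2.trans hφ'.2.symm) v hv σ hσ).2
    have hff : ∀ ψ ∈ (Rs.filter fun φ => ρ φ = e).image F,
        ((Rs.filter fun φ => ρ φ = e).filter fun φ => F φ = ψ).card ≤ (YS D Dg U b f).card := by
      intro ψ _
      have hm : ∀ φ ∈ (Rs.filter fun φ => ρ φ = e).filter fun φ => F φ = ψ,
          φ ∈ Rs ∧ ρ φ = e ∧ F φ = ψ := by
        intro φ hφ
        rw [Finset.mem_filter, Finset.mem_filter] at hφ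
        exact ⟨hφ.1.1, hφ.1.2, hφ.2⟩
      refine nyf hp hζ D L Dg U hU f b _ (fun φ hφ => hft φ (hm φ hφ).1) ?_ ?_
        (fun φ hφ i v hv => (hty φ (hm φ hφ).1 i v).1 hv) (fun φ hφ => hk φ (hm φ hφ).1)
      · intro φ hφ φ' hφ' σ
        have h2 : QuotientGroup.mk' (Dg.N 0) (φ σ) = QuotientGroup.mk' (Dg.N 0) (φ' σ) :=
          DFunLike.congr_fun ((hm φ hφ).2.2.trans (hm φ' hφ').2.2.symm) σ
        rw [← mul_inv_eq_one, ← map_inv, ← map_mul] at h2
        exact (QuotientGroup.eq_one_iff _).1 h2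
      · intro φ hφ φ' hφ' v hv hvx σ hσ
        exact (hag φ (hm φ hφ).1 φ' (hm φ' hφ').1
          ((hm φ hφ).2.1.trans (hm φ' hφ').2.1.symm) v hv σ hσ).1 hvx
    have h2 := Finset.card_le_mul_card_image (f := F) (Rs.filter fun φ => ρ φ = e) _ hff
    exact h2.trans (Nat.mul_le_mul_left _ him)
  have h2 := Finset.card_le_mul_card_image_of_maps_to hmaps _ hfib
  have h3 : (Finset.univ : Finset (↥E → G)).card = Nat.card G ^ E.card := by
    rw [Finset.card_univ, Fintype.card_fun, Fintype.card_coe, Nat.card_eq_fintype_card]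
  rw [h3] at h2
  refine h2.trans (le_of_eq ?_)
  ring

end H77.GN
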