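import Pool.Agent.H77.GN.NRl
import Pool.Agent.H77.GN.NLd

/-!
# [H77 GN NYA] the homomorphism to F_p^l attached to a homomorphism to G, 180-260 lines

`Rs` a finite set of homomorphisms `φ : Γ → G` of finite type, pairwise congruent modulo `N 0` and equal on the inertia groups outside `S0` and `x = ⋃ f i`; at `v ∈ f i` they are of type `i` (`TyN`); `kk (akR D Dg.c0 b f k) σ = π (φ σ) k`. There is a map `Y` from homomorphisms to `G` to homomorphisms to `F_p^l`, injective on `Rs`, with: `Y φ` of finite type and unramified outside `S0 ∪ x` (`Ux`), `Y φ (t v) ∈ Dd i` for `v ∈ f i`, and the local relation (for all Kummer elements `z` of the coordinates of `Y φ`): `B (t i) (LL v (z ·)) = B (LL v (akR b f)) (ord v (z ·))` for `v ∈ f i`.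

Proof. For `j : ℕ` and `φ ∈ Rs` let `S_j(φ)` be the set of the `ψ ∈ Rs` with `φ σ (ψ σ)⁻¹ ∈ N j` for all `σ` (an equivalence relation on `Rs`, `N j` is normal: `Dg.nn`); choose `r j φ ∈ S_j(φ)` depending only on the set `S_j(φ)` (e.g. `if h : S.Nonempty then h.some`; equal sets give the same choice), so `r j φ = r j φ'` if `φ ≡ φ'` modulo `N j`.
Put `Y φ σ k = cc k (φ σ (r (lev k) φ σ)⁻¹)`. (1) It is a homomorphism (to `Multiplicative (Fin l → ZMod p)`; for `φ ∉ Rs` put `Y φ = 1`): with `u σ = φ σ (φ₀ σ)⁻¹ ∈ N j`, `j = lev k`, `φ₀ = r j φ` (`S_j(φ)` is not empty; for `φ ∈ Rs`): `u (σ τ) = [φ σ, u τ] (u τ) (u σ)` where `[φ σ, u τ] = φ σ u τ (φ σ)⁻¹ (u τ)⁻¹ ∈ N (j+1)` (`Dg.com`; `N (j+1) ≤ N j`), so by `cadd`, `cz`: `cc k (u (σ τ)) = cc k (u τ) + cc k (u σ)`.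
(2) Finite type: it is `1` on the intersection of the kernels of all `ψ ∈ Rs` — for each coordinate it is `1` on `ker φ ∩ ker (r j φ)` (`cc k 1 = 0` by `cadd`); `E ⊔ E'` and `IntermediateField.fixingSubgroup_antitone` as in `ugsr_chi_ft`; take the supremum over the finitely many coordinates (induction over `Rs`: the supremum of the finite extensions of all `ψ ∈ Rs`). Unramified outside `S0 ∪ x`: there `φ = r j φ` on inertia.
(3) Injective on `Rs`: let `Y φ = Y φ'`. By induction on `j`: `φ ≡ φ'` modulo `N j` (`j = 0`: hypothesis). If it holds for `j` then `r j φ = r j φ' = φ₀` and for `k` of level `j` `cc k (φ σ (φ₀ σ)⁻¹) = cc k (φ' σ (φ₀ σ)⁻¹)`, so `cc k (φ σ (φ' σ)⁻¹) = 0` (`φ σ (φ₀ σ)⁻¹ = (φ σ (φ' σ)⁻¹) (φ' σ (φ₀ σ)⁻¹)`, `cadd`), and `φ σ (φ' σ)⁻¹ ∈ N (j+1)` by `cinj`. For `j = c`: `N c = ⊥` (`Dg.nc`): `φ = φ'`.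
(4) `Y φ (t v) ∈ Dd i`, `v ∈ f i`: `Y φ (t v) = ∑_j y_j`, `y_j k = if lev k = j then cc k (φ t (r j φ t)⁻¹) else 0`, the sum over the finitely many levels `j = lev k`. `φ t` and `ψ t`, `ψ = r j φ ∈ Rs`, are both conjugate to `g i`, so `φ t = h (ψ t) h⁻¹` for some `h`, and `φ t (ψ t)⁻¹ = h (ψ t) h⁻¹ (ψ t)⁻¹ ∈ N j`: `y_j ∈ Dd i` by `Dg.hD` (for `t := ψ t`).
(5) The relation, coordinate by coordinate: for `k` with `lev k = 0` both sides are `0` (`Dg.Bz`); for `lev k = j + 1`: `nrl` for `φ₀ = r j φ`, `φ`, `a = akR D Dg.c0 b f` (`kk (z k') σ = Y φ σ k' = cc k' (φ σ (φ₀ σ)⁻¹)` for `lev k' = j`), and `π (φ₀ (t v)) = π (g i)`, `= t i` (`Dg.tg`; conjugate elements have the same image: `lkum_conj` in H77/AB/LKum). The primes `v ∈ f i` are outside `S0` (`TyN`: `D.Gd v`).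
-/

set_option autoImplicit false

open scoped NumberField
open IsDedekindDomain
open scoped Classical

noncomputable section

namespace H77.GN

open H63.MA H38.BB H38.BG H63.BU H77.AB

/-- a common finite extension -/
private theorem nya_ft {K : Type} [Field K] {Ω : Type} [Field Ω] [Algebra K Ω] {G : Type}
    [Group G] (Rs : Finset (Gal(Ω/K) →* G)) (hft : ∀ φ ∈ Rs, H38.ML.FT φ) :
    ∃ E : IntermediateField K Ω, FiniteDimensional K E ∧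
      ∀ σ ∈ E.fixingSubgroup, ∀ φ ∈ Rs, φ σ = 1 := by
  induction Rs using Finset.induction_on with
  | empty => exact ⟨⊥, inferInstance, fun σ _ φ hφ => absurd hφ (Finset.notMem_empty φ)⟩
  | insert a s ha ih =>
    obtain ⟨E, hE, h1⟩ := ih fun φ hφ => hft φ (Finset.mem_insert_of_mem hφ)
    obtain ⟨E', hE', h2⟩ := hft a (Finset.mem_insert_self a s)
    refine ⟨E ⊔ E', IntermediateField.finiteDimensional_sup E E', fun σ hσ φ hφ => ?_⟩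
    have h3 : σ ∈ E.fixingSubgroup := IntermediateField.fixingSubgroup_antitone le_sup_left hσ
    have h4 : σ ∈ E'.fixingSubgroup := IntermediateField.fixingSubgroup_antitone le_sup_right hσ
    rcases Finset.mem_insert.1 hφ with h | h
    · rw [h]
      exact h2 h4
    · exact h1 σ h3 φ h

section grp

variable {p m l N₀ : ℕ} {G : Type} [Group G] {Γ : Type} [Group Γ]

/-- `cc k (φ φ₀⁻¹)` is additive -/
private theorem nya_add (Dg : GDa p m l N₀ G) (φ φ₀ : Γ →* G) (k : Fin l)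
    (h : ∀ σ, φ σ * (φ₀ σ)⁻¹ ∈ Dg.N (Dg.lev k)) (σ τ : Γ) :
    Dg.cc k (φ (σ * τ) * (φ₀ (σ * τ))⁻¹) =
      Dg.cc k (φ σ * (φ₀ σ)⁻¹) + Dg.cc k (φ τ * (φ₀ τ)⁻¹) := by
  have h1 : φ (σ * τ) * (φ₀ (σ * τ))⁻¹ =
      (φ σ * (φ τ * (φ₀ τ)⁻¹) * (φ σ)⁻¹ * (φ τ * (φ₀ τ)⁻¹)⁻¹) *
        ((φ τ * (φ₀ τ)⁻¹) * (φ σ * (φ₀ σ)⁻¹)) := by
    rw [map_mul, map_mul]
    group
  have h2 := Dg.com (Dg.lev k) (φ σ) _ (h τ)
  rw [h1, Dg.cadd k _ (Dg.anti _ h2) _ (Subgroup.mul_mem _ (h τ) (h σ)), Dg.cz k _ h2, zero_add,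
    Dg.cadd k _ (h τ) _ (h σ), add_comm]

/-- the homomorphisms congruent to `φ` modulo `N j` -/
private def nyaS (Dg : GDa p m l N₀ G) (Rs : Finset (Γ →* G)) (j : ℕ) (φ : Γ →* G) :
    Finset (Γ →* G) := Rs.filter fun ψ => ∀ σ, φ σ * (ψ σ)⁻¹ ∈ Dg.N j

/-- a choice of an element -/
private def nyaC (S : Finset (Γ →* G)) : Γ →* G := if h : S.Nonempty then h.choose else 1

private theorem nya_mem (Dg : GDa p m l N₀ G) (Rs : Finset (Γ →* G)) (φ : Γ →* G) (hφ : φ ∈ Rs)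
    (j : ℕ) : nyaC (nyaS Dg Rs j φ) ∈ Rs ∧
      ∀ σ, φ σ * (nyaC (nyaS Dg Rs j φ) σ)⁻¹ ∈ Dg.N j := by
  have h1 : φ ∈ nyaS Dg Rs j φ := by
    unfold nyaS
    rw [Finset.mem_filter]
    refine ⟨hφ, fun σ => ?_⟩
    rw [mul_inv_cancel]
    exact Subgroup.one_mem _
  have h2 : (nyaS Dg Rs j φ).Nonempty := ⟨φ, h1⟩
  have h3 : nyaC (nyaS Dg Rs j φ) ∈ nyaS Dg Rs j φ := by
    unfold nyaC
    rw [dif_pos h2]
    exact h2.choose_spec
  unfold nyaS at h3 ⊢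
  exact Finset.mem_filter.1 h3

private theorem nya_eq (Dg : GDa p m l N₀ G) (Rs : Finset (Γ →* G)) (φ φ' : Γ →* G) (j : ℕ)
    (h : ∀ σ, φ σ * (φ' σ)⁻¹ ∈ Dg.N j) : nyaS Dg Rs j φ = nyaS Dg Rs j φ' := by
  unfold nyaS
  refine Finset.filter_congr fun ψ _ => forall_congr' fun σ => ?_
  have h1 : φ σ * (ψ σ)⁻¹ = (φ σ * (φ' σ)⁻¹) * (φ' σ * (ψ σ)⁻¹) := by group
  rw [h1, Subgroup.mul_mem_cancel_left _ (h σ)]

/-- the homomorphism to `F_p^l` -/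
private def nyaY (Dg : GDa p m l N₀ G) (φ : Γ →* G) (r : ℕ → Γ →* G)
    (h : ∀ j σ, φ σ * (r j σ)⁻¹ ∈ Dg.N j) : Γ →* Multiplicative (Fin l → ZMod p) where
  toFun σ := Multiplicative.ofAdd fun k => Dg.cc k (φ σ * (r (Dg.lev k) σ)⁻¹)
  map_one' := by
    apply congrArg Multiplicative.ofAdd
    funext k
    rw [map_one, map_one, inv_one, mul_one]
    exact Dg.cz k 1 (Subgroup.one_mem _)
  map_mul' σ τ := by
    apply congrArg Multiplicative.ofAdd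
    funext k
    exact nya_add Dg φ (r (Dg.lev k)) k (h (Dg.lev k)) σ τ

end grp

theorem nya {K : Type} [Field K] [NumberField K] {Ω : Type} [Field Ω] [Algebra K Ω]
    [IsAlgClosure K Ω] {p : ℕ} [NeZero p] {ζ : K} {m l N₀ : ℕ} {G : Type} [Group G] [Finite G]
    (hp : p.Prime) (hζ : IsPrimitiveRoot ζ p) (D : RD0 K p ζ) (L : LDs D Ω)
    (Dg : GDa p m l N₀ G) (f : Fin N₀ → Finset (Pl K)) (b : Fin m → Kˣ)
    (Rs : Finset (Gal(Ω/K) →* G)) (hft : ∀ φ ∈ Rs, H38.ML.FT φ)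
    (h0 : ∀ φ ∈ Rs, ∀ φ' ∈ Rs, ∀ σ, φ σ * (φ' σ)⁻¹ ∈ Dg.N 0)
    (hin : ∀ φ ∈ Rs, ∀ φ' ∈ Rs, ∀ v, v ∉ D.S0 → v ∉ Finset.univ.biUnion f →
      ∀ τ ∈ inr L v, φ τ = φ' τ)
    (hty : ∀ φ ∈ Rs, ∀ i, ∀ v ∈ f i, TyN Dg L φ i v)
    (hk : ∀ φ ∈ Rs, ∀ (σ : Gal(Ω/K)) k, kk p ζ (akR D Dg.c0 b f k) σ =
      Multiplicative.toAdd (Dg.π (φ σ)) k) :
    ∃ Y : (Gal(Ω/K) →* G) → (Gal(Ω/K) →* Multiplicative (Fin l → ZMod p)),
      Set.InjOn Y Rs ∧ ∀ φ ∈ Rs, Ux L (Finset.univ.biUnion f) (Y φ) ∧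
        ∀ i, ∀ v ∈ f i, Multiplicative.toAdd (Y φ (L.t v)) ∈ Dg.nd.Dd i ∧
          ∀ z : Fin l → Kˣ, (∀ (σ : Gal(Ω/K)) k, kk p ζ (z k) σ =
              Multiplicative.toAdd (Y φ σ) k) →
            Dg.nd.B (Dg.nd.t i) (fun k => D.LL v (z k)) =
              Dg.nd.B (fun k => D.LL v (akR D Dg.c0 b f k))
                (fun k => ((ord v (z k) : ℤ) : ZMod p)) := by
  -- the representatives
  have hr : ∀ φ ∈ Rs, ∀ j, nyaC (nyaS Dg Rs j φ) ∈ Rs ∧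
      ∀ σ, φ σ * (nyaC (nyaS Dg Rs j φ) σ)⁻¹ ∈ Dg.N j := fun φ hφ j => nya_mem Dg Rs φ hφ j
  obtain ⟨r, hrr⟩ : ∃ r : ℕ → (Gal(Ω/K) →* G) → (Gal(Ω/K) →* G),
      r = fun j φ => nyaC (nyaS Dg Rs j φ) := ⟨_, rfl⟩
  have hr1 : ∀ φ ∈ Rs, ∀ j, r j φ ∈ Rs := fun φ hφ j => by
    rw [hrr]
    exact (hr φ hφ j).1
  have hr2 : ∀ φ ∈ Rs, ∀ j σ, φ σ * (r j φ σ)⁻¹ ∈ Dg.N j := fun φ hφ j σ => by
    rw [hrr]
    exact (hr φ hφ j).2 σ
  have hr3 : ∀ φ φ' : Gal(Ω/K) →* G, ∀ j, (∀ σ, φ σ * (φ' σ)⁻¹ ∈ Dg.N j) → r j φ = r j φ' := by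
    intro φ φ' j h
    rw [hrr]
    show nyaC (nyaS Dg Rs j φ) = nyaC (nyaS Dg Rs j φ')
    rw [nya_eq Dg Rs φ φ' j h]
  clear hrr hr
  obtain ⟨Y, hY⟩ : ∃ Y : (Gal(Ω/K) →* G) → (Gal(Ω/K) →* Multiplicative (Fin l → ZMod p)),
      ∀ φ ∈ Rs, ∀ σ k, Multiplicative.toAdd (Y φ σ) k =
        Dg.cc k (φ σ * (r (Dg.lev k) φ σ)⁻¹) := by
    refine ⟨fun φ => if h : φ ∈ Rs then nyaY Dg φ (fun j => r j φ) (hr2 φ h) else 1, ?_⟩
    intro φ hφ σ k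
    show Multiplicative.toAdd ((if h : φ ∈ Rs then nyaY Dg φ (fun j => r j φ) (hr2 φ h)
      else 1 : Gal(Ω/K) →* Multiplicative (Fin l → ZMod p)) σ) k = _
    rw [dif_pos hφ]
    rfl
  refine ⟨Y, ?_, fun φ hφ => ⟨⟨?_, ?_⟩, fun i v hv => ⟨?_, fun z hz => ?_⟩⟩⟩
  · -- injective
    intro φ hφ φ' hφ' h
    have hN : ∀ j, ∀ σ, φ σ * (φ' σ)⁻¹ ∈ Dg.N j := by
      intro j
      induction j with
      | zero => exact h0 φ hφ φ' hφ'
      | succ j ih =>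
        intro σ
        refine Dg.cinj j _ (ih σ) fun k hkj => ?_
        have e1 := hY φ hφ σ k
        have e2 := hY φ' hφ' σ k
        rw [h, e2, hkj, hr3 φ φ' j ih] at e1
        have h1 : φ σ * (r j φ' σ)⁻¹ = (φ σ * (φ' σ)⁻¹) * (φ' σ * (r j φ' σ)⁻¹) := by group
        have h2 : φ σ * (φ' σ)⁻¹ ∈ Dg.N (Dg.lev k) := by
          rw [hkj]
          exact ih σ
        have h3 : φ' σ * (r j φ' σ)⁻¹ ∈ Dg.N (Dg.lev k) := by
          rw [hkj]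
          exact hr2 φ' hφ' j σ
        have h4 := Dg.cadd k _ h2 _ h3
        rw [← h1, ← e1] at h4
        exact left_eq_add.1 (h4.trans (add_comm _ _))
    refine MonoidHom.ext fun σ => ?_
    have h1 := hN Dg.c σ
    rw [Dg.nc, Subgroup.mem_bot, mul_inv_eq_one] at h1
    exact h1
  · -- finite type
    obtain ⟨E, hE, h1⟩ := nya_ft Rs hft
    refine ⟨E, hE, fun σ hσ => ?_⟩
    rw [MonoidHom.mem_ker]
    apply Multiplicative.toAdd.injective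
    funext k
    rw [hY φ hφ, h1 σ hσ φ hφ, h1 σ hσ _ (hr1 φ hφ _), inv_one, mul_one]
    exact Dg.cz k 1 (Subgroup.one_mem _)
  · -- unramified
    intro v hv hvx τ hτ
    apply Multiplicative.toAdd.injective
    funext k
    rw [hY φ hφ, hin φ hφ _ (hr1 φ hφ (Dg.lev k)) v hv hvx τ hτ, mul_inv_cancel]
    exact Dg.cz k 1 (Subgroup.one_mem _)
  · -- the labels
    have h1 : Multiplicative.toAdd (Y φ (L.t v)) = ∑ j ∈ Finset.univ.image Dg.lev,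
        (fun k => if Dg.lev k = j then Dg.cc k (φ (L.t v) * (r j φ (L.t v))⁻¹) else 0 :
          Fin l → ZMod p) := by
      funext k
      rw [hY φ hφ, Finset.sum_apply, Finset.sum_ite_eq,
        if_pos (Finset.mem_image_of_mem _ (Finset.mem_univ k))]
    rw [h1]
    refine Submodule.sum_mem _ fun j _ => ?_
    have h2 := (hty φ hφ i v hv).2.1
    have h3 := (hty _ (hr1 φ hφ j) i v hv).2.1
    obtain ⟨h, hh⟩ := isConj_iff.1 (h3.trans h2.symm)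
    have h4 := Dg.hD i (r j φ (L.t v)) h3 h j (by
      rw [hh]
      exact hr2 φ hφ j _)
    rw [hh] at h4
    exact h4
  · -- the relation
    funext k
    have hvS : v ∉ D.S0 := (hty φ hφ i v hv).1.1
    rcases Nat.eq_zero_or_eq_succ_pred (Dg.lev k) with hk0 | hk1
    · rw [Dg.Bz k hk0, Dg.Bz k hk0]
    · obtain ⟨j, hj⟩ : ∃ j, Dg.lev k = j + 1 := ⟨_, hk1⟩
      have hφ₀ := hr1 φ hφ j
      have h1 := nrl hp hζ D L Dg j (r j φ) φ (hft _ hφ₀) (hft φ hφ) (hr2 φ hφ j)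
        (akR D Dg.c0 b f) (hk _ hφ₀) v hvS (hty _ hφ₀ i v hv).2.2 (hty φ hφ i v hv).2.2 z
        (fun k' hk' σ => by rw [hz σ k', hY φ hφ, hk']) k hj
      have h2 : Multiplicative.toAdd (Dg.π (r j φ (L.t v))) = Dg.nd.t i := by
        rw [isConj_iff_eq.1 (MonoidHom.map_isConj Dg.π (hty _ hφ₀ i v hv).2.1), Dg.tg]
      rw [h2] at h1
      exact h1

end H77.GN
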