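import Pool.Agent.H77.GN.NYa
import Pool.Agent.H77.AB.LKY

/-!
# [H77 GN NYF] counting by the labels, 90-140 lines

`Rs` as in `nya`; then `#Rs ≤ #(YS D Dg U b f)`.

Proof. `Y` from `nya`, `x = ⋃ f i` (its primes are outside `S0`: `TyN`, `D.Gd`; if `Rs = ∅` there is nothing to prove). For `φ ∈ Rs` and `k < l` the character `σ ↦ Y φ σ k` (to `Multiplicative (ZMod p)`, composition of `Y φ` with an evaluation) satisfies `Ux L x` (`H38.ML.ft_comp`), so by `lky` (H77/AB/LKY) it is `kc p ζ Ω (u k * ∏_{w : x} pi w ^ (η_k w).val)` with `u k ∈ U`, `η_k : x → ZMod p`. Put `e φ = (u, fun w k => η_k w)`.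
`e φ ∈ YS`: let `z k = u k * ∏_{w : x} pi w ^ (η_k w).val`; `kk (z k) σ = Y φ σ k` (`kk p ζ a σ = toAdd (kc p ζ Ω a σ)` by definition, see `LY` in H77/AB), and for `v ∈ f i`: `ord v (z k) = (η_k v).val` (`lky_ord`; `U` consists of `S0`-units), so `(ord v (z k) : ZMod p) = η_k v`, and `Y φ (t v) k = kk (z k) (t v) = (ord v (z k) : ZMod p) = η_k v` (`ld_kk_t`, `gupb_t`, as in `lrl`/`lkum_aux` in H77/AB). So the two conditions of `YS` are the two properties of `nya`.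
`e` is injective on `Rs`: `e φ` determines the characters `σ ↦ Y φ σ k`, so `Y φ`, so `φ`. (`Finset.card_le_card_of_injOn`.)
-/

set_option autoImplicit false

open scoped NumberField
open IsDedekindDomain
open scoped Classical

noncomputable section

namespace H77.GN

open H63.MA H38.BB H38.BG H63.BU H77.AB

theorem nyf {K : Type} [Field K] [NumberField K] {Ω : Type} [Field Ω] [Algebra K Ω]
    [IsAlgClosure K Ω] {p : ℕ} [NeZero p] {ζ : K} {m l N₀ : ℕ} {G : Type} [Group G] [Finite G]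
    (hp : p.Prime) (hζ : IsPrimitiveRoot ζ p) (D : RD0 K p ζ) (L : LDs D Ω)
    (Dg : GDa p m l N₀ G) (U : Finset Kˣ) (hU : UR D U) (f : Fin N₀ → Finset (Pl K))
    (b : Fin m → Kˣ) (Rs : Finset (Gal(Ω/K) →* G)) (hft : ∀ φ ∈ Rs, H38.ML.FT φ)
    (h0 : ∀ φ ∈ Rs, ∀ φ' ∈ Rs, ∀ σ, φ σ * (φ' σ)⁻¹ ∈ Dg.N 0)
    (hin : ∀ φ ∈ Rs, ∀ φ' ∈ Rs, ∀ v, v ∉ D.S0 → v ∉ Finset.univ.biUnion f →
      ∀ τ ∈ inr L v, φ τ = φ' τ)
    (hty : ∀ φ ∈ Rs, ∀ i, ∀ v ∈ f i, TyN Dg L φ i v)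
    (hk : ∀ φ ∈ Rs, ∀ (σ : Gal(Ω/K)) k, kk p ζ (akR D Dg.c0 b f k) σ =
      Multiplicative.toAdd (Dg.π (φ σ)) k) :
    Rs.card ≤ (YS D Dg U b f).card := by
  by_cases hRs : Rs = ∅
  · rw [hRs, Finset.card_empty]
    exact Nat.zero_le _
  obtain ⟨φ₀, hφ₀⟩ := Finset.nonempty_iff_ne_empty.2 hRs
  have hxS : ∀ v ∈ Finset.univ.biUnion f, v ∉ D.S0 := by
    intro v hv
    obtain ⟨i, -, hi⟩ := Finset.mem_biUnion.1 hv
    exact (hty φ₀ hφ₀ i v hi).1.1
  obtain ⟨Y, hinj, hY⟩ := nya hp hζ D L Dg f b Rs hft h0 hin hty hk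
  have hex : ∀ (φ : Gal(Ω/K) →* G) (k : Fin l),
      ∃ (u : Kˣ) (η : ↥(Finset.univ.biUnion f) → ZMod p),
      φ ∈ Rs → u ∈ U ∧ ∀ σ : Gal(Ω/K),
        kk p ζ (u * ∏ w : ↥(Finset.univ.biUnion f), D.pi w.1 ^ (η w).val) σ =
          Multiplicative.toAdd (Y φ σ) k := by
    intro φ k
    by_cases hφ : φ ∈ Rs
    · let ev : Multiplicative (Fin l → ZMod p) →* Multiplicative (ZMod p) :=
        AddMonoidHom.toMultiplicative (Pi.evalAddMonoidHom (fun _ : Fin l => ZMod p) k)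
      obtain ⟨u, hu, η, hη⟩ := lky hp hζ D L U hU _ hxS (ev.comp (Y φ)) (by
        refine ⟨H38.ML.ft_comp _ _ (hY φ hφ).1.1, fun v hv hvx τ hτ => ?_⟩
        rw [MonoidHom.comp_apply, (hY φ hφ).1.2 v hv hvx τ hτ, map_one])
      refine ⟨u, η, fun _ => ⟨hu, fun σ => ?_⟩⟩
      unfold kk
      rw [← hη]
      rfl
    · exact ⟨1, fun _ => 0, fun h => absurd h hφ⟩
  choose u η hu using hex
  have hord : ∀ φ ∈ Rs, ∀ (v : Pl K) (hv : v ∈ Finset.univ.biUnion f) (k : Fin l),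
      ((ord v (u φ k * ∏ w : ↥(Finset.univ.biUnion f), D.pi w.1 ^ (η φ k w).val) : ℤ) : ZMod p) =
        η φ k ⟨v, hv⟩ := by
    intro φ hφ v hv k
    rw [lky_ord D (u φ k) (hU.1 _ (hu φ k hφ).1) _ hxS (η φ k) v (hxS v hv), dif_pos hv,
      Int.cast_natCast, ZMod.natCast_zmod_val]
  refine Finset.card_le_card_of_injOn (fun φ => (fun k => u φ k, fun w k => η φ k w)) ?_ ?_
  · intro φ hφ
    have hφ' : φ ∈ Rs := Finset.mem_coe.1 hφ
    rw [Finset.mem_coe]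
    unfold YS
    rw [Finset.mem_filter, Finset.mem_product, Fintype.mem_piFinset]
    refine ⟨⟨fun k => (hu φ k hφ').1, Finset.mem_univ _⟩, ?_⟩
    intro i v hvi
    obtain ⟨hd, hB⟩ := (hY φ hφ').2 i v.1 hvi
    constructor
    · have h1 : (fun k => η φ k v) = Multiplicative.toAdd (Y φ (L.t v.1)) := by
        funext k
        have hv : v.1 ∉ D.S0 := hxS v.1 v.2
        have hab : ¬ Above p v.1 := fun h => hv (D.above v.1 h)
        rw [← (hu φ k hφ').2, gupb_t L hv,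
          ld_kk_t hp hζ hab (D.pi_self v.1 hv) (L.ld v.1 hv), hord φ hφ' v.1 v.2 k]
      show (fun k => η φ k v) ∈ _
      rw [h1]
      exact hd
    · have h2 := hB (fun k => u φ k * ∏ w : ↥(Finset.univ.biUnion f),
        D.pi w.1 ^ (η φ k w).val) (fun σ k => (hu φ k hφ').2 σ)
      have h3 : (fun k => ((ord v.1 (u φ k * ∏ w : ↥(Finset.univ.biUnion f),
          D.pi w.1 ^ (η φ k w).val) : ℤ) : ZMod p)) = fun k => η φ k v := by
        funext k
        exact hord φ hφ' v.1 v.2 k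
      rw [h3] at h2
      exact h2
  · intro φ hφ φ' hφ' heq
    have hφ1 : φ ∈ Rs := Finset.mem_coe.1 hφ
    have hφ2 : φ' ∈ Rs := Finset.mem_coe.1 hφ'
    have e1 : ∀ k, u φ k = u φ' k := fun k => congrFun (congrArg Prod.fst heq) k
    have e2 : ∀ w k, η φ k w = η φ' k w := fun w k =>
      congrFun (congrFun (congrArg Prod.snd heq) w) k
    apply hinj hφ hφ'
    apply MonoidHom.ext
    intro σ
    apply Multiplicative.toAdd.injective
    funext k
    rw [← (hu φ k hφ1).2 σ, ← (hu φ' k hφ2).2 σ, e1 k]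
    have e3 : η φ k = η φ' k := by
      funext w
      exact e2 w k
    rw [e3]

end H77.GN
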