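import Pool.Agent.H77.GN.QDef
import Pool.Agent.H77.AB.GV

/-!
# [H77 GN QCRD] coordinates, 150-220 lines (finite group theory)

* `qcrd`: `V' ≤ V`, `[V, V] ⊆ V'`, `V^p ⊆ V'`: there is a coordinate map `c : G → F_p^e` of `V / V'` (`Crd V V' c`, LDat in H77/AB: additive on `V`, zero exactly on `V'`, surjective). `V' ` is normal in `V` (`a b a⁻¹ = (a b a⁻¹ b⁻¹) b`), `V / V'` (`↥V ⧸ V'.subgroupOf V`) is abelian of exponent `p`, so `Additive` of it is a `ZMod p`-module (`AddCommGroup.zmodModule`), finite, with a basis (`Module.finBasis`); compare `jsc1` in H77/AB/JSC. For `x ∉ V` put `c x = 0`.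
* `qcrs`: from `N : ℕ → Subgroup G` with `N c = ⊥`, `N (j+1) ≤ N j`, `[G, N j] ⊆ N (j+1)`, `(N j)^p ⊆ N (j+1)`: there are `l`, `lev`, `cc` with `Crs N lev cc`. For `j < c` take `e j`, `c j` from `qcrd` (`V = N j`, `V' = N (j+1)`), `l = ∑_{j < c} e j`, `finSigmaFinEquiv : (Σ j : Fin c, Fin (e j)) ≃ Fin l`, `lev k` = the first component of the inverse image of `k`, `cc k` = the coordinate. For `j ≥ c`: `N j = ⊥` (`anti`), there are no `k` of level `j`, `inj` and `sur` are trivial (`u = 1`).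
* `qpi`: there are `m` and a surjective homomorphism `π : G → F_p^m` with kernel `Fr p G`: `qcrd` for `V = ⊤`, `V' = Fr p G` (which contains the commutators and `p`-th powers); `π x = 1 ↔ x ∈ Fr p G`.
* `qfac`: if `x ∈ Fr p G`, `u ∈ N j` then `x u x⁻¹ u⁻¹ ∈ N (j+2)`: for fixed `u ∈ N j` the `x` with `[x, u] ∈ N (j+2)` contain the `p`-th powers and the commutators: modulo `N (j+2)` the map `x ↦ [x, u] ∈ N (j+1) / N (j+2)` is a homomorphism (`[x y, u] = x [y, u] x⁻¹ [x, u]`, and `N (j+1)` is central modulo `N (j+2)` by `com`) to an abelian group of exponent `p` (`pw`). `Subgroup.closure_induction`.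
-/

set_option autoImplicit false

open scoped Classical

noncomputable section

namespace H77.GN

open H77.AB

theorem qcrd {p : ℕ} (hp : p.Prime) {G : Type} [Group G] [Finite G] (V V' : Subgroup G)
    (hle : V' ≤ V) (hcom : ∀ a ∈ V, ∀ b ∈ V, a * b * a⁻¹ * b⁻¹ ∈ V')
    (hpw : ∀ a ∈ V, a ^ p ∈ V') :
    ∃ (e : ℕ) (c : G → Fin e → ZMod p), Crd V V' c := by
  let N : Subgroup V := V'.subgroupOf V
  have hN : N.Normal := by
    constructor
    rintro ⟨b, hb⟩ hbN ⟨a, ha⟩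
    have hb' : b ∈ V' := hbN
    have e1 : a * b * a⁻¹ = (a * b * a⁻¹ * b⁻¹) * b := by group
    have e2 : a * b * a⁻¹ ∈ V' := by
      rw [e1]
      exact V'.mul_mem (hcom a ha b hb) hb'
    exact e2
  letI cg : CommGroup (V ⧸ N) := { (inferInstance : Group (V ⧸ N)) with
    mul_comm := by
      intro x y
      obtain ⟨⟨a, ha⟩, rfl⟩ := QuotientGroup.mk_surjective x
      obtain ⟨⟨b, hb⟩, rfl⟩ := QuotientGroup.mk_surjective y
      show (QuotientGroup.mk ((⟨a, ha⟩ : V) * ⟨b, hb⟩) : V ⧸ N)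
        = QuotientGroup.mk ((⟨b, hb⟩ : V) * ⟨a, ha⟩)
      rw [QuotientGroup.eq]
      have e1 : (a * b)⁻¹ * (b * a) = b⁻¹ * a⁻¹ * (b⁻¹)⁻¹ * (a⁻¹)⁻¹ := by group
      have e2 : (a * b)⁻¹ * (b * a) ∈ V' := by
        rw [e1]
        exact hcom _ (V.inv_mem hb) _ (V.inv_mem ha)
      exact e2 }
  have hQ : ∀ q : V ⧸ N, q ^ p = 1 := by
    intro q
    obtain ⟨a, rfl⟩ := QuotientGroup.mk_surjective q
    have h1 : (QuotientGroup.mk (a ^ p) : V ⧸ N) = 1 := by
      refine (QuotientGroup.eq_one_iff _).2 ?_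
      exact hpw a a.2
    exact h1
  obtain ⟨e, M', f, h, h1, h2, h3, h4, h5, h6⟩ := gv hp hQ (⊤ : Subgroup (V ⧸ N))
  refine ⟨e, fun a => if ha : a ∈ V then
    Multiplicative.toAdd (f (QuotientGroup.mk (⟨a, ha⟩ : V))) else 0, ?_, ?_, ?_⟩
  · intro a ha b hb
    have hab : a * b ∈ V := V.mul_mem ha hb
    simp only [dif_pos ha, dif_pos hb, dif_pos hab]
    have e1 : (QuotientGroup.mk (⟨a * b, hab⟩ : V) : V ⧸ N) =
        QuotientGroup.mk (⟨a, ha⟩ : V) * QuotientGroup.mk (⟨b, hb⟩ : V) := rfl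
    rw [e1, map_mul, toAdd_mul]
  · intro a ha
    simp only [dif_pos ha]
    constructor
    · intro h0
      have e1 : f (QuotientGroup.mk (⟨a, ha⟩ : V)) = 1 := by
        rw [← ofAdd_toAdd (f _), h0, ofAdd_zero]
      have e2 := h3 _ e1 (h5 _ (Subgroup.mem_top _))
      have e3 : (⟨a, ha⟩ : V) ∈ N := (QuotientGroup.eq_one_iff (⟨a, ha⟩ : V)).1 e2
      exact e3
    · intro h0
      have e2 : (QuotientGroup.mk (⟨a, ha⟩ : V) : V ⧸ N) = 1 :=
        (QuotientGroup.eq_one_iff _).2 h0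
      rw [e2, map_one, toAdd_one]
  · intro x
    obtain ⟨q, -, hq⟩ := h6 (Multiplicative.ofAdd x)
    obtain ⟨a, rfl⟩ := QuotientGroup.mk_surjective q
    refine ⟨a, a.2, ?_⟩
    simp only [dif_pos a.2]
    have e1 : (⟨(a : G), a.2⟩ : V) = a := rfl
    rw [e1, hq, toAdd_ofAdd]

theorem qcrs {p : ℕ} (hp : p.Prime) {G : Type} [Group G] [Finite G] (c : ℕ)
    (N : ℕ → Subgroup G) (nc : N c = ⊥) (anti : ∀ j, N (j + 1) ≤ N j)
    (com : ∀ j x, ∀ u ∈ N j, x * u * x⁻¹ * u⁻¹ ∈ N (j + 1))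
    (pw : ∀ j, ∀ u ∈ N j, u ^ p ∈ N (j + 1)) :
    ∃ (l : ℕ) (lev : Fin l → ℕ) (cc : Fin l → G → ZMod p), (∀ k, lev k < c) ∧
      Crs N lev cc := by
  have h0 : ∀ j, ∃ (e : ℕ) (c : G → Fin e → ZMod p), Crd (N j) (N (j + 1)) c := fun j =>
    qcrd hp (N j) (N (j + 1)) (anti j) (fun a _ b hb => com j a b hb) (pw j)
  choose e c' hc' using h0
  let E := finSigmaFinEquiv (m := c) (n := fun j : Fin c => e j)
  have hanti : ∀ i j, i ≤ j → N j ≤ N i := by
    intro i j hij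
    induction j, hij using Nat.le_induction with
    | base => exact le_refl _
    | succ j _ ih => exact (anti j).trans ih
  refine ⟨_, fun k => ((E.symm k).1 : ℕ), fun k a => c' (E.symm k).1 a (E.symm k).2,
    fun k => (E.symm k).1.2, ?_, ?_, ?_, ?_⟩
  · intro k a ha b hb
    exact congrFun ((hc' _).1 a ha b hb) _
  · intro k a ha
    exact congrFun (((hc' _).2.1 a (anti _ ha)).2 ha) _
  · intro j a ha h
    rcases lt_or_ge j c with hj | hj
    · refine ((hc' j).2.1 a ha).1 ?_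
      funext i
      have h1 := h (E ⟨⟨j, hj⟩, i⟩) (by rw [E.symm_apply_apply])
      rw [E.symm_apply_apply] at h1
      exact h1
    · have h1 : a ∈ N c := hanti c j hj ha
      rw [nc, Subgroup.mem_bot] at h1
      rw [h1]
      exact one_mem _
  · intro j y
    rcases lt_or_ge j c with hj | hj
    · obtain ⟨u, hu, h⟩ := (hc' j).2.2 (fun i => y (E ⟨⟨j, hj⟩, i⟩))
      refine ⟨u, hu, fun k hk => ?_⟩
      obtain ⟨⟨⟨j', hj'⟩, i⟩, rfl⟩ := E.surjective k
      rw [E.symm_apply_apply] at hk ⊢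
      simp only at hk
      subst hk
      simp only
      rw [h]
    · refine ⟨1, one_mem _, fun k hk => ?_⟩
      exfalso
      have := (E.symm k).1.2
      omega

theorem qpi {p : ℕ} (hp : p.Prime) (G : Type) [Group G] [Finite G] :
    ∃ (m : ℕ) (π : G →* Multiplicative (Fin m → ZMod p)), Function.Surjective π ∧
      ∀ x, π x = 1 ↔ x ∈ Fr p G := by
  obtain ⟨m, c, h1, h2, h3⟩ := qcrd hp (⊤ : Subgroup G) (Fr p G) le_top
    (fun a _ b _ => Subgroup.subset_closure (Or.inr ⟨a, b, rfl⟩))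
    (fun a _ => Subgroup.subset_closure (Or.inl ⟨a, rfl⟩))
  refine ⟨m, MonoidHom.mk' (fun x => Multiplicative.ofAdd (c x)) fun a b => ?_, fun y => ?_,
    fun x => ?_⟩
  · rw [h1 a (Subgroup.mem_top _) b (Subgroup.mem_top _), ofAdd_add]
  · obtain ⟨a, -, ha⟩ := h3 (Multiplicative.toAdd y)
    refine ⟨a, ?_⟩
    show Multiplicative.ofAdd (c a) = y
    rw [ha, ofAdd_toAdd]
  · rw [← h2 x (Subgroup.mem_top _)]
    exact ofAdd_eq_one

theorem qfac {p : ℕ} {G : Type} [Group G] (N : ℕ → Subgroup G) (nn : ∀ j, (N j).Normal)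
    (anti : ∀ j, N (j + 1) ≤ N j)
    (com : ∀ j x, ∀ u ∈ N j, x * u * x⁻¹ * u⁻¹ ∈ N (j + 1))
    (pw : ∀ j, ∀ u ∈ N j, u ^ p ∈ N (j + 1)) (j : ℕ) (x : G) (hx : x ∈ Fr p G) (u : G)
    (hu : u ∈ N j) : x * u * x⁻¹ * u⁻¹ ∈ N (j + 2) := by
  have := nn (j + 2)
  -- central elements of the quotient
  have hcen : ∀ w ∈ N (j + 1), ∀ y : G,
      (QuotientGroup.mk y : G ⧸ N (j + 2)) * QuotientGroup.mk w
        = QuotientGroup.mk w * QuotientGroup.mk y := by
    intro w hw y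
    have h1 : (QuotientGroup.mk (y * w * y⁻¹ * w⁻¹) : G ⧸ N (j + 2)) = 1 :=
      (QuotientGroup.eq_one_iff _).2 (com (j + 1) y w hw)
    have h2 : (QuotientGroup.mk (y * w * y⁻¹ * w⁻¹) : G ⧸ N (j + 2))
        = QuotientGroup.mk y * QuotientGroup.mk w * (QuotientGroup.mk y)⁻¹ *
          (QuotientGroup.mk w)⁻¹ := rfl
    rw [h2, mul_inv_eq_one, mul_inv_eq_iff_eq_mul] at h1
    exact h1
  have hmem : ∀ y : G, y * u * y⁻¹ * u⁻¹ ∈ N (j + 1) := fun y => com j y u hu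
  let F : G →* G ⧸ N (j + 2) := MonoidHom.mk'
    (fun y => (QuotientGroup.mk (y * u * y⁻¹ * u⁻¹) : G ⧸ N (j + 2))) (by
      intro a b
      have e1 : a * b * u * (a * b)⁻¹ * u⁻¹
          = a * (b * u * b⁻¹ * u⁻¹) * a⁻¹ * (a * u * a⁻¹ * u⁻¹) := by group
      have e2 : (QuotientGroup.mk (a * b * u * (a * b)⁻¹ * u⁻¹) : G ⧸ N (j + 2))
          = QuotientGroup.mk a * QuotientGroup.mk (b * u * b⁻¹ * u⁻¹) * (QuotientGroup.mk a)⁻¹ *
            QuotientGroup.mk (a * u * a⁻¹ * u⁻¹) := by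
        rw [e1]
        rfl
      rw [e2, hcen _ (hmem b) a, mul_inv_cancel_right]
      exact (hcen _ (hmem a) (b * u * b⁻¹ * u⁻¹)))
  have hFc : ∀ a b : G, F a * F b = F b * F a := fun a b =>
    hcen _ (hmem b) (a * u * a⁻¹ * u⁻¹)
  have hker : ∀ y, y ∈ F.ker ↔ y * u * y⁻¹ * u⁻¹ ∈ N (j + 2) := by
    intro y
    rw [MonoidHom.mem_ker]
    exact QuotientGroup.eq_one_iff _
  rw [← hker]
  refine (Subgroup.closure_le F.ker).2 ?_ hx
  rintro y (⟨z, rfl⟩ | ⟨y, z, rfl⟩)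
  · show z ^ p ∈ F.ker
    rw [MonoidHom.mem_ker, map_pow]
    have h1 : F z ^ p = QuotientGroup.mk ((z * u * z⁻¹ * u⁻¹) ^ p) := rfl
    rw [h1]
    exact (QuotientGroup.eq_one_iff _).2 (pw (j + 1) _ (hmem z))
  · show y * z * y⁻¹ * z⁻¹ ∈ F.ker
    rw [MonoidHom.mem_ker, map_mul, map_mul, map_mul, map_inv, map_inv, hFc y z,
      mul_inv_cancel_right, mul_inv_cancel]

end H77.GN
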