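import Pool.Agent.H77.GN.NTd
import Pool.Agent.H77.AB.LDat

/-!
# H77-GN-QDEF: the hypothesis on the commutator structure

`[x, y] = x y x⁻¹ y⁻¹`. `Fr p G`: the subgroup generated by the `p`-th powers and the commutators.
`SgH p G Λ`: normal subgroups `N 0 ≥ N 1 ≥ … ≥ N c = 1` with `[G, g] ⊆ N 0` for `g ∈ Λ`, `[G, N j] ⊆ N (j+1)`, `(N j)^p ⊆ N (j+1)`, `N 0 ≤ Fr p G`, and for `g ∈ Λ`: `(∏_{j < c} #K_j) #(C(g) Fr) ≤ (∏_{j < c} #H_{j+1}) #G` where `H_j = {x : [x, g] ∈ N j}`, `K_j = {x ∈ H_j : [[x, g], g] ∈ N (j+2)}`, i.e. `∏_j [K_j : H_{j+1}] ≤ [G : C(g) Fr]`.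
`Crs c N lev cc`: the coordinates `cc k` (of level `lev k`) of the quotients `N j / N (j+1)`.
-/

set_option autoImplicit false

open scoped Classical

noncomputable section

namespace H77.GN

open H77.AB

/-- the subgroup generated by the `p`-th powers and the commutators -/
def Fr (p : ℕ) (G : Type) [Group G] : Subgroup G :=
  Subgroup.closure ({x | ∃ y : G, x = y ^ p} ∪ {x | ∃ y z : G, x = y * z * y⁻¹ * z⁻¹})

/-- the hypothesis on the commutator structure -/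
structure SgH (p : ℕ) (G : Type) [Group G] (Λ : Set G) where
  c : ℕ
  N : ℕ → Subgroup G
  nn : ∀ j, (N j).Normal
  nc : N c = ⊥
  anti : ∀ j, N (j + 1) ≤ N j
  n0 : ∀ g ∈ Λ, ∀ h, h * g * h⁻¹ * g⁻¹ ∈ N 0
  com : ∀ j x, ∀ u ∈ N j, x * u * x⁻¹ * u⁻¹ ∈ N (j + 1)
  pw : ∀ j, ∀ u ∈ N j, u ^ p ∈ N (j + 1)
  n0le : N 0 ≤ Fr p G
  ineq : ∀ g ∈ Λ, (∏ j ∈ Finset.range c, Nat.card {x : G // x * g * x⁻¹ * g⁻¹ ∈ N j ∧
      (x * g * x⁻¹ * g⁻¹) * g * (x * g * x⁻¹ * g⁻¹)⁻¹ * g⁻¹ ∈ N (j + 2)}) *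
      Nat.card {x : G // ∃ y : G, y * g = g * y ∧ y⁻¹ * x ∈ Fr p G} ≤
    (∏ j ∈ Finset.range c, Nat.card {x : G // x * g * x⁻¹ * g⁻¹ ∈ N (j + 1)}) * Nat.card G

/-- coordinates of the quotients `N j / N (j+1)` -/
structure Crs {p l : ℕ} {G : Type} [Group G] (N : ℕ → Subgroup G) (lev : Fin l → ℕ)
    (cc : Fin l → G → ZMod p) : Prop where
  add : ∀ k, ∀ a ∈ N (lev k), ∀ b ∈ N (lev k), cc k (a * b) = cc k a + cc k b
  z : ∀ k, ∀ a ∈ N (lev k + 1), cc k a = 0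
  inj : ∀ j, ∀ a ∈ N j, (∀ k, lev k = j → cc k a = 0) → a ∈ N (j + 1)
  sur : ∀ j, ∀ y : Fin l → ZMod p, ∃ u ∈ N j, ∀ k, lev k = j → cc k u = y k

end H77.GN
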