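import Pool.Agent.H77.GN.QDef
import Pool.Agent.H77.AB.GAx

/-!
# [H77 GN QMXA] the central series of a group with a subgroup of index p centralising M cap T, 150-220 lines (finite group theory)

`Λ` a set of elements with `g ^ p = 1`, closed under conjugation, `T = closure Λ`, `M ≤ G` of index `p`, `G` nilpotent, `m a = a m` for `m ∈ M`, `a ∈ M ∩ T`. `cs T 0 = ⁅⊤, T⁆`, `cs T (j+1) = ⁅⊤, cs T j⁆`.
* `qmxa_normal`: `M` is normal (a subgroup of index `p` of a finite nilpotent group: it is maximal, see `gax` in H77/AB/GAx, or `Subgroup.normal_of_index_eq_minFac_card` on …, or `NormalizerCondition`). `qmxa_Fr`: so `Fr p G ≤ M` (`G ⧸ M` has order `p`: commutative of exponent `p`).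
* `qmxa_cs`: `T` is normal (closure of a set stable under conjugation), so all `cs T j` are normal (`Subgroup.commutator_normal`), `cs T (j+1) ≤ cs T j` (`Subgroup.commutator_le_right`), `cs T 0 ≤ T`; `cs T 0 ≤ Fr p G ≤ M` (generated by commutators); `cs T j ≤ lowerCentralSeries G (j+1)`, so `cs T c = ⊥` for some `c`; `[x, u] ∈ cs T (j+1)` for `u ∈ cs T j` and `[h, g] ∈ cs T 0` for `g ∈ Λ` (`Subgroup.commutator_mem_commutator`).
* `qmxa_pw`: `w ^ p ∈ cs T (j+1)` for `w ∈ cs T j`. Let `A = M ⊓ T`, commutative, normal, centralised by `M`; choose `s ∉ M` (`p > 1`). `Nm w = ∏_{i < p} s^i w s^{-i}` for `w ∈ A` (use `List.prod` over `List.range p`, or work in the commutative group `A` with `Finset.prod`). Claim: `Nm w = 1` for `w ∈ cs T 0`. (1) For `t ∉ M`, `t ^ p = 1`, `x ∈ G`, `a = [x, t] ∈ A`: `(a t)^p = (x t x⁻¹)^p = 1` and `(a t)^p = ∏_{i<p} t^i a t^{-i} · t^p`, so `∏_{i<p} t^i a t^{-i} = 1`; conjugation by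 `t` on `A` is `σ^k` (`σ` = conjugation by `s`, `t ∈ M s^k`, `k ≢ 0`),
`σ^p = 1` on `A` (`s^p ∈ M`), so the product is `∏_{i<p} σ^{ki} a = ∏_{i<p} σ^i a = Nm a` (`i ↦ k i` is a bijection modulo `p`). (2) For `t ∈ A`: `[x, t] = σ^k(t) t⁻¹` and `Nm (σ^k t) = Nm t`, so `Nm [x, t] = 1`. (3) `Nm` is multiplicative on `A` and invariant under conjugation; `cs T 0 = ⁅⊤, closure Λ⁆` is generated by the conjugates of the `[x, t]`, `t ∈ Λ` (`[x, t t'] = [x, t] (t [x, t'] t⁻¹)`, `[x, t⁻¹] = t⁻¹ [x, t]⁻¹ t`: for fixed `x` the `t ∈ T` with `Nm [x, t] = 1` form a subgroup containing `Λ`, `Subgroup.closure_induction`; then `Subgroup.commutator_le`/closure induction).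
So for `w ∈ cs T j ≤ cs T 0`: `1 = Nm w = ∏_{i<p} (s^i w s^{-i} w⁻¹) w` and `s^i w s^{-i} w⁻¹ ∈ cs T (j+1)` (normal), so `w^p ∈ cs T (j+1)` (in the quotient by `cs T (j+1)` all factors are equal to `w`).
-/

set_option autoImplicit false

open scoped Classical

noncomputable section

namespace H77.GN

open H77.AB

/-- the series `⁅⊤, T⁆`, `⁅⊤, ⁅⊤, T⁆⁆`, … -/
def cs {G : Type} [Group G] (T : Subgroup G) : ℕ → Subgroup G
  | 0 => ⁅(⊤ : Subgroup G), T⁆
  | j + 1 => ⁅(⊤ : Subgroup G), cs T j⁆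

theorem qmxa_normal {p : ℕ} (hp : p.Prime) {G : Type} [Group G] [Finite G]
    (hnil : Group.IsNilpotent G) (M : Subgroup G) (hi : M.index = p) :
    M.Normal ∧ Fr p G ≤ M := by
  have hMn := gax_normal hnil hp M hi
  refine ⟨hMn, ?_⟩
  have hMt : M ≠ ⊤ := by
    intro h
    rw [h, Subgroup.index_top] at hi
    exact hp.one_lt.ne hi
  obtain ⟨s, hs⟩ : ∃ s, s ∉ M := by
    by_contra h
    push Not at h
    exact hMt ((Subgroup.eq_top_iff' M).2 h)
  obtain ⟨χ, -, hχ⟩ := gax_chi hp M hi s hs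
  refine (Subgroup.closure_le M).2 ?_
  rintro x (⟨y, rfl⟩ | ⟨y, z, rfl⟩)
  · show y ^ p ∈ M
    rw [← hχ, map_pow]
    apply Multiplicative.toAdd.injective
    rw [toAdd_pow, toAdd_one, nsmul_eq_mul, CharP.cast_eq_zero, zero_mul]
  · show y * z * y⁻¹ * z⁻¹ ∈ M
    rw [← hχ, map_mul, map_mul, map_mul, map_inv, map_inv, mul_comm (χ y) (χ z),
      mul_inv_cancel_right, mul_inv_cancel]

theorem qmxa_cs {p : ℕ} {G : Type} [Group G] [Finite G]
    (hnil : Group.IsNilpotent G) (Λ : Set G) (hcj : ∀ g ∈ Λ, ∀ h, h * g * h⁻¹ ∈ Λ) :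
    (Subgroup.closure Λ).Normal ∧ (∀ j, (cs (Subgroup.closure Λ) j).Normal) ∧
      (∀ j, cs (Subgroup.closure Λ) (j + 1) ≤ cs (Subgroup.closure Λ) j) ∧
      (∀ j, cs (Subgroup.closure Λ) j ≤ Subgroup.closure Λ) ∧
      (∀ j, cs (Subgroup.closure Λ) j ≤ Fr p G) ∧
      (∃ c, cs (Subgroup.closure Λ) c = ⊥) ∧
      (∀ j x, ∀ u ∈ cs (Subgroup.closure Λ) j,
        x * u * x⁻¹ * u⁻¹ ∈ cs (Subgroup.closure Λ) (j + 1)) ∧
      ∀ x, ∀ g ∈ Subgroup.closure Λ, x * g * x⁻¹ * g⁻¹ ∈ cs (Subgroup.closure Λ) 0 := by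
  have hT : (Subgroup.closure Λ).Normal := by
    constructor
    intro n hn g
    induction hn using Subgroup.closure_induction with
    | mem x hx => exact Subgroup.subset_closure (hcj x hx g)
    | one => simp
    | mul x y _ _ hx hy =>
      have e : g * (x * y) * g⁻¹ = (g * x * g⁻¹) * (g * y * g⁻¹) := by group
      rw [e]
      exact mul_mem hx hy
    | inv x _ hx =>
      have e : g * x⁻¹ * g⁻¹ = (g * x * g⁻¹)⁻¹ := by group
      rw [e]
      exact inv_mem hx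
  set T := Subgroup.closure Λ with hTdef
  have hcsn : ∀ j, (cs T j).Normal := by
    intro j
    induction j with
    | zero =>
      show (⁅(⊤ : Subgroup G), T⁆).Normal
      infer_instance
    | succ j ih =>
      show (⁅(⊤ : Subgroup G), cs T j⁆).Normal
      infer_instance
  have hanti : ∀ j, cs T (j + 1) ≤ cs T j := by
    intro j
    have := hcsn j
    exact Subgroup.commutator_le_right _ _
  have h0T : cs T 0 ≤ T := Subgroup.commutator_le_right _ _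
  have h0F : cs T 0 ≤ Fr p G := by
    refine Subgroup.commutator_le.2 fun a _ b _ => ?_
    exact Subgroup.subset_closure (Or.inr ⟨a, b, rfl⟩)
  have hj0 : ∀ j, cs T j ≤ cs T 0 := by
    intro j
    induction j with
    | zero => exact le_refl _
    | succ j ih => exact (hanti j).trans ih
  refine ⟨hT, hcsn, hanti, fun j => (hj0 j).trans h0T, fun j => (hj0 j).trans h0F, ?_,
    fun j x u hu => ?_, fun x g hg => ?_⟩
  · obtain ⟨n, hn⟩ := Subgroup.nilpotent_iff_lowerCentralSeries.1 hnil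
    have h1 : ∀ j, cs T j ≤ (⊤ : Subgroup G).lowerCentralSeries j := by
      intro j
      induction j with
      | zero => exact le_top
      | succ j ih =>
        show ⁅(⊤ : Subgroup G), cs T j⁆ ≤ ⁅(⊤ : Subgroup G).lowerCentralSeries j, ⊤⁆
        rw [Subgroup.commutator_comm]
        exact Subgroup.commutator_mono ih le_rfl
    refine ⟨n, ?_⟩
    rw [eq_bot_iff, ← hn]
    exact h1 n
  · exact Subgroup.commutator_mem_commutator (Subgroup.mem_top x) hu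
  · exact Subgroup.commutator_mem_commutator (Subgroup.mem_top x) hg

/-- the norm of a commutative normal subgroup centralised by the kernel of a character -/
private theorem nm_exists {p : ℕ} (hp : p.Prime) {G : Type} [Group G] (A : Subgroup G)
    (hA : A.Normal) (hcomm : ∀ a ∈ A, ∀ b ∈ A, a * b = b * a)
    (χ : G →* Multiplicative (ZMod p)) (s : G) (hs : χ s = Multiplicative.ofAdd 1)
    (hM : ∀ m, χ m = 1 → ∀ a ∈ A, m * a = a * m) :
    ∃ Nm : A →* A,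
      (∀ (g : G) (a : A), Nm ⟨g * a * g⁻¹, hA.conj_mem a a.2 g⟩ = Nm a) ∧
      (∀ t : G, t ^ p = 1 → χ t ≠ 1 → ∀ a : A, ((a : G) * t) ^ p = 1 → Nm a = 1) ∧
      (∀ (S : Subgroup G) (w : A), (∀ g : G, g * w * g⁻¹ * (w : G)⁻¹ ∈ S) → Nm w = 1 →
        (w : G) ^ p ∈ S) := by
  have : Fact p.Prime := ⟨hp⟩
  let cg : CommGroup A := { (inferInstance : Group A) with
    mul_comm := fun a b => Subtype.ext (hcomm a a.2 b b.2) }
  let Φ : ZMod p → A → A := fun i a =>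
    ⟨s ^ i.val * a * (s ^ i.val)⁻¹, hA.conj_mem a a.2 _⟩
  have hΦmul : ∀ i a b, Φ i (a * b) = Φ i a * Φ i b := by
    intro i a b
    refine Subtype.ext ?_
    show s ^ i.val * ((a : G) * b) * (s ^ i.val)⁻¹
      = (s ^ i.val * a * (s ^ i.val)⁻¹) * (s ^ i.val * b * (s ^ i.val)⁻¹)
    group
  have hΦ : ∀ (g : G) (a : A), (⟨g * a * g⁻¹, hA.conj_mem a a.2 g⟩ : A)
      = Φ (Multiplicative.toAdd (χ g)) a := by
    intro g a
    refine Subtype.ext ?_
    show g * a * g⁻¹ = s ^ (Multiplicative.toAdd (χ g)).val * a *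
      (s ^ (Multiplicative.toAdd (χ g)).val)⁻¹
    set k := (Multiplicative.toAdd (χ g)).val with hk
    have h1 : χ (g * (s ^ k)⁻¹) = 1 := by
      rw [map_mul, map_inv, map_pow, hs, ← ofAdd_nsmul, nsmul_eq_mul,
        mul_one, hk, ZMod.natCast_val, ZMod.cast_id, ofAdd_toAdd, mul_inv_cancel]
    have h2 := hM _ h1 (s ^ k * a * (s ^ k)⁻¹) (hA.conj_mem a a.2 _)
    have h3 : g * a * g⁻¹ = (g * (s ^ k)⁻¹) * (s ^ k * a * (s ^ k)⁻¹) * (g * (s ^ k)⁻¹)⁻¹ := by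
      group
    rw [h3, h2, mul_inv_cancel_right]
  let Nm : A →* A :=
    { toFun := fun a => ∏ i : ZMod p, Φ i a
      map_one' := by
        refine Finset.prod_eq_one fun i _ => ?_
        refine Subtype.ext ?_
        show s ^ i.val * (1 : G) * (s ^ i.val)⁻¹ = 1
        group
      map_mul' := by
        intro a b
        rw [← Finset.prod_mul_distrib]
        exact Finset.prod_congr rfl fun i _ => hΦmul i a b }
  have hNm : ∀ a, Nm a = ∏ i : ZMod p, Φ i a := fun a => rfl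
  refine ⟨Nm, ?_, ?_, ?_⟩
  · intro g a
    rw [hNm, hNm]
    refine Fintype.prod_equiv (Equiv.addRight (Multiplicative.toAdd (χ g))) _ _ fun i => ?_
    have h1 : Φ i ⟨g * a * g⁻¹, hA.conj_mem a a.2 g⟩
        = (⟨(s ^ i.val * g) * a * (s ^ i.val * g)⁻¹, hA.conj_mem a a.2 _⟩ : A) := by
      refine Subtype.ext ?_
      show s ^ i.val * (g * a * g⁻¹) * (s ^ i.val)⁻¹ = (s ^ i.val * g) * a * (s ^ i.val * g)⁻¹
      group
    have h2 : Multiplicative.toAdd (χ (s ^ i.val * g)) = i + Multiplicative.toAdd (χ g) := by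
      rw [map_mul, toAdd_mul, map_pow, hs, toAdd_pow, toAdd_ofAdd, nsmul_eq_mul, mul_one,
        ZMod.natCast_val, ZMod.cast_id]
    rw [h1, hΦ, h2]
    rfl
  · intro t htp ht a hat
    have h1 : ∀ n : ℕ, ((a : G) * t) ^ n
        = ((∏ i ∈ Finset.range n, (⟨t ^ i * a * (t ^ i)⁻¹, hA.conj_mem a a.2 _⟩ : A) : A) : G)
          * t ^ n := by
      intro n
      induction n with
      | zero => simp
      | succ n ih =>
        rw [pow_succ, ih, Finset.prod_range_succ]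
        show _ = ((∏ i ∈ Finset.range n, (⟨t ^ i * a * (t ^ i)⁻¹, hA.conj_mem a a.2 _⟩ : A) : A)
          : G) * (t ^ n * a * (t ^ n)⁻¹) * t ^ (n + 1)
        rw [pow_succ]
        group
    have h2 := h1 p
    rw [hat, htp, mul_one] at h2
    have h3 : ∏ i ∈ Finset.range p, (⟨t ^ i * a * (t ^ i)⁻¹, hA.conj_mem a a.2 _⟩ : A) = 1 :=
      Subtype.ext h2.symm
    set k := Multiplicative.toAdd (χ t) with hk
    have hk0 : k ≠ 0 := by
      intro h
      apply ht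
      apply Multiplicative.toAdd.injective
      rw [← hk, h, toAdd_one]
    have h4 : ∏ i ∈ Finset.range p, (⟨t ^ i * a * (t ^ i)⁻¹, hA.conj_mem a a.2 _⟩ : A)
        = ∏ i : ZMod p, Φ (i * k) a := by
      refine Finset.prod_nbij' (fun n => (n : ZMod p)) (fun z => z.val) (fun _ _ => Finset.mem_univ _)
        (fun z _ => Finset.mem_range.2 (ZMod.val_lt z)) (fun n hn => ?_) (fun z _ => ?_)
        (fun n _ => ?_)
      · exact ZMod.val_cast_of_lt (Finset.mem_range.1 hn)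
      · exact ZMod.natCast_zmod_val z
      · rw [hΦ, map_pow, toAdd_pow, nsmul_eq_mul]
    have h5 : ∏ i : ZMod p, Φ (i * k) a = ∏ i : ZMod p, Φ i a :=
      Fintype.prod_equiv (Equiv.mulRight₀ k hk0) _ _ fun i => rfl
    rw [hNm, ← h5, ← h4, h3]
  · intro S w hw hN
    have h1 : ∏ i : ZMod p, (Φ i w * w⁻¹) ∈ S.subgroupOf A := by
      refine Subgroup.prod_mem _ fun i _ => ?_
      exact hw (s ^ i.val)
    rw [Finset.prod_mul_distrib, ← hNm, hN, one_mul, Finset.prod_const, Finset.card_univ,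
      ZMod.card, inv_pow] at h1
    have h2 : (w ^ p : A) ∈ S.subgroupOf A := by
      have := inv_mem h1
      rwa [inv_inv] at this
    exact h2

theorem qmxa_pw {p : ℕ} (hp : p.Prime) {G : Type} [Group G] [Finite G]
    (hnil : Group.IsNilpotent G) (Λ : Set G) (hΛ : ∀ g ∈ Λ, g ^ p = 1)
    (hcj : ∀ g ∈ Λ, ∀ h, h * g * h⁻¹ ∈ Λ) (M : Subgroup G) (hi : M.index = p)
    (hM : ∀ m ∈ M, ∀ a ∈ M, a ∈ Subgroup.closure Λ → m * a = a * m) (j : ℕ) (w : G)
    (hw : w ∈ cs (Subgroup.closure Λ) j) : w ^ p ∈ cs (Subgroup.closure Λ) (j + 1) := by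
  obtain ⟨hMn, hFr⟩ := qmxa_normal hp hnil M hi
  obtain ⟨hTn, hcsn, hanti, hcsT, hcsF, -, hcom, hcom0⟩ := qmxa_cs (p := p) hnil Λ hcj
  set T := Subgroup.closure Λ with hT
  have hMt : M ≠ ⊤ := by
    intro h
    rw [h, Subgroup.index_top] at hi
    exact hp.one_lt.ne hi
  obtain ⟨s, hs⟩ : ∃ s, s ∉ M := by
    by_contra h
    push Not at h
    exact hMt ((Subgroup.eq_top_iff' M).2 h)
  obtain ⟨χ, hχs, hχ⟩ := gax_chi hp M hi s hs
  have hAn : (M ⊓ T).Normal := inferInstance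
  obtain ⟨Nm, N1, N2, N3⟩ := nm_exists hp (M ⊓ T) hAn
    (fun a ha b hb => hM a ha.1 b hb.1 hb.2) χ s hχs
    (fun m hm a ha => hM m ((hχ m).1 hm) a ha.1 ha.2)
  have hmem : ∀ x t, t ∈ T → x * t * x⁻¹ * t⁻¹ ∈ M ⊓ T := fun x t ht =>
    ⟨hFr (Subgroup.subset_closure (Or.inr ⟨x, t, rfl⟩)),
      T.mul_mem (hTn.conj_mem t ht x) (T.inv_mem ht)⟩
  have key : ∀ t ∈ T, ∀ x, ∀ h : x * t * x⁻¹ * t⁻¹ ∈ M ⊓ T, Nm ⟨_, h⟩ = 1 := by
    intro t ht
    induction ht using Subgroup.closure_induction with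
    | mem t ht =>
      intro x h
      by_cases htM : t ∈ M
      · have htA : t ∈ M ⊓ T := ⟨htM, Subgroup.subset_closure ht⟩
        have e1 : (⟨x * t * x⁻¹ * t⁻¹, h⟩ : ↥(M ⊓ T))
            = ⟨x * (⟨t, htA⟩ : ↥(M ⊓ T)) * x⁻¹, hAn.conj_mem _ htA x⟩ * (⟨t, htA⟩ : ↥(M ⊓ T))⁻¹ := rfl
        rw [e1, map_mul, N1, map_inv, mul_inv_cancel]
      · refine N2 t (hΛ t ht) (fun h1 => htM ((hχ t).1 h1)) _ ?_
        show (x * t * x⁻¹ * t⁻¹ * t) ^ p = 1
        rw [inv_mul_cancel_right, conj_pow, hΛ t ht, mul_one, mul_inv_cancel]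
    | one =>
      intro x h
      have e1 : (⟨x * 1 * x⁻¹ * 1⁻¹, h⟩ : ↥(M ⊓ T)) = 1 := by
        refine Subtype.ext ?_
        show x * 1 * x⁻¹ * 1⁻¹ = 1
        group
      rw [e1, map_one]
    | mul t t' ht ht' ih ih' =>
      intro x h
      have h1 := hmem x t ht
      have h2 := hmem x t' ht'
      have e1 : (⟨x * (t * t') * x⁻¹ * (t * t')⁻¹, h⟩ : ↥(M ⊓ T))
          = ⟨x * t * x⁻¹ * t⁻¹, h1⟩ *
            ⟨t * (⟨x * t' * x⁻¹ * t'⁻¹, h2⟩ : ↥(M ⊓ T)) * t⁻¹, hAn.conj_mem _ h2 t⟩ := by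
        refine Subtype.ext ?_
        show x * (t * t') * x⁻¹ * (t * t')⁻¹
          = (x * t * x⁻¹ * t⁻¹) * (t * (x * t' * x⁻¹ * t'⁻¹) * t⁻¹)
        group
      rw [e1, map_mul, N1, ih x h1, ih' x h2, one_mul]
    | inv t ht ih =>
      intro x h
      have h1 := hmem x t ht
      have h3 : (x * t * x⁻¹ * t⁻¹)⁻¹ ∈ M ⊓ T := inv_mem h1
      have e1 : (⟨x * t⁻¹ * x⁻¹ * (t⁻¹)⁻¹, h⟩ : ↥(M ⊓ T))
          = ⟨t⁻¹ * (⟨(x * t * x⁻¹ * t⁻¹)⁻¹, h3⟩ : ↥(M ⊓ T)) * (t⁻¹)⁻¹,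
              hAn.conj_mem _ h3 t⁻¹⟩ := by
        refine Subtype.ext ?_
        show x * t⁻¹ * x⁻¹ * (t⁻¹)⁻¹ = t⁻¹ * (x * t * x⁻¹ * t⁻¹)⁻¹ * (t⁻¹)⁻¹
        group
      have e2 : (⟨(x * t * x⁻¹ * t⁻¹)⁻¹, h3⟩ : ↥(M ⊓ T)) = (⟨x * t * x⁻¹ * t⁻¹, h1⟩)⁻¹ := rfl
      rw [e1, N1, e2, map_inv, ih x h1, inv_one]
  have hK : cs T 0 ≤ (Nm.ker).map (M ⊓ T).subtype := by
    refine Subgroup.commutator_le.2 fun x _ t ht => ?_
    exact ⟨⟨x * t * x⁻¹ * t⁻¹, hmem x t ht⟩, key t ht x _, rfl⟩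
  have hj0 : ∀ j, cs T j ≤ cs T 0 := by
    intro j
    induction j with
    | zero => exact le_refl _
    | succ j ih => exact (hanti j).trans ih
  obtain ⟨a, ha, rfl⟩ := hK (hj0 j hw)
  exact N3 (cs T (j + 1)) a (fun g => hcom j g _ hw) ha

end H77.GN
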