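import Pool.Agent.H77.GN.QMxA

/-!
# [H77 GN QMXB] the inequality for an element outside M, 150-220 lines (finite group theory, counting)

Notation of QMxA; `N j = cs T j`, `T = closure Λ`, `c` with `N c = ⊥`, `g ∈ Λ`, `g ∉ M`. Claim: `(∏_{j<c} #K_j) #(C(g) Fr) ≤ (∏_{j<c} #H_{j+1}) #G`, `H_j = {x : [x, g] ∈ N j}`, `K_j = {x : [x, g] ∈ N j, [[x, g], g] ∈ N (j+2)}`.

Proof. (1) Let `Z_j = {u ∈ N j : [u, g] ∈ N (j+2)}` (a subgroup containing `N (j+1)`: modulo `N (j+2)` the map `u ↦ [u, g]` is a homomorphism `N j → N (j+1)/N (j+2)`, zero on `N (j+1)`). `#K_j * #N (j+1) ≤ #H_{j+1} * #Z_j`: the map `K_j → Z_j / N (j+1)`, `x ↦ [x, g]` has fibres which are contained in cosets `x H_{j+1}`: if `[x, g] ≡ [x', g]` modulo `N (j+1)` then `x' = x h` with `[x h, g] = (x [h, g] x⁻¹) [x, g]`, so `x [h, g] x⁻¹ ∈ N (j+1)`, `h ∈ H_{j+1}`.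
(2) `#Z_j * #N (j+1) ≤ #N j * #N (j+2)`: the homomorphism `N j → N (j+1) / N (j+2)`, `u ↦ [u, g]`, is surjective: `N (j+1) = ⁅⊤, N j⁆` is generated by the `[x, u]`, `x ∈ G`, `u ∈ N j`; `x = m g^i` with `m ∈ M` (`g ∉ M`, `G ⧸ M` of order `p`), `[m g^i, u] = m [g^i, u] m⁻¹ [m, u] = [g^i, u]` (`u`, `[g^i, u] ∈ M ∩ T` are centralised by `m`), `≡ [g, u]^i` modulo `N (j+2)`, `[g, u] = [u, g]⁻¹`. Its kernel is `Z_j`, so `#N j = #Z_j * (#N (j+1) / #N (j+2))`.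
(3) So `#K_j / #H_{j+1} ≤ (#N j / #N (j+1)) / (#N (j+1) / #N (j+2))`; the product over `j < c` telescopes: `∏ #K_j / #H_{j+1} ≤ (#N 0 / #N 1) / (#N c / #N (c+1)) = #N 0 / #N 1` (`N c = N (c+1) = ⊥`; in integers: `∏_{j<c} #K_j * #N 1 ≤ ∏_{j<c} #H_{j+1} * #N 0`, or work with real or rational numbers).
(4) `#(C(g) Fr) * #N 0 ≤ #G * #N 1`: `τ : G → N 0 / N 1`, `x ↦ [x, g]`, is a homomorphism (`[x x', g] = (x [x', g] x⁻¹) [x, g]`, `N 0` is central modulo `N 1`), zero on `C(g)` and on `Fr` (the target is commutative of exponent `p`: `qmxa_pw`), so zero on the set `{x : ∃ y, y g = g y, y⁻¹ x ∈ Fr}`. It is surjective: `N 0 = ⁅⊤, T⁆` is generated by the conjugates of the `[x, t]`, `t ∈ T`; every `t ∈ T` is `a g^k` with `a ∈ M ∩ T` (`g ∈ T`, `g ∉ M`), `[x, a g^k] = [x, a] (a [x, g^k] a⁻¹) ≡ [x, a] [x, g]^k` modulo `N 1`,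
and `[x, a]`, `x = m g^i`: `= [g^i, a] ≡ [g, a]^i = [a, g]^{-i}`. So `N 0` is contained in the subgroup generated by the `[x, g]` and `N 1`. Hence `#G = #ker τ * (#N 0 / #N 1)`.
(3) and (4) together give the claim.
-/

set_option autoImplicit false

open scoped Classical

noncomputable section

namespace H77.GN

open H77.AB

/-- double counting, lower bound for the number of pairs -/
theorem qmxb_cnt {G : Type} [Group G] [Fintype G] (S V N : Finset G) (f : G → G)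
    (hf : ∀ x ∈ S, ∀ n ∈ N, f x * n⁻¹ ∈ V) :
    ∑ v ∈ V, (S.filter (fun x => v⁻¹ * f x ∈ N)).card = S.card * N.card := by
  have h1 : ∑ v ∈ V, (S.filter (fun x => v⁻¹ * f x ∈ N)).card =
      ∑ x ∈ S, (V.filter (fun v => v⁻¹ * f x ∈ N)).card := by
    simp_rw [Finset.card_filter]
    exact Finset.sum_comm
  rw [h1, Finset.sum_const_nat]
  intro x hx
  apply Finset.card_bij (fun v _ => v⁻¹ * f x)
  · intro v hv
    exact (Finset.mem_filter.1 hv).2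
  · intro a _ b _ hab
    have := mul_right_cancel hab
    exact inv_injective this
  · intro n hn
    refine ⟨f x * n⁻¹, Finset.mem_filter.2 ⟨hf x hx n hn, ?_⟩, ?_⟩
    · have : (f x * n⁻¹)⁻¹ * f x = n := by group
      rw [this]; exact hn
    · group

theorem qmxb_cen {G : Type} [Group G] (B C : Subgroup G) [C.Normal]
    (hBC : ∀ x, ∀ v ∈ B, x * v * x⁻¹ * v⁻¹ ∈ C) (x v : G) (hv : v ∈ B) :
    QuotientGroup.mk' C x * QuotientGroup.mk' C v =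
      QuotientGroup.mk' C v * QuotientGroup.mk' C x := by
  rw [← map_mul, ← map_mul, ← mul_inv_eq_one, ← map_inv, ← map_mul]
  have h1 : x * v * (v * x)⁻¹ = x * v * x⁻¹ * v⁻¹ := by group
  rw [h1]
  exact (QuotientGroup.eq_one_iff _).2 (hBC x v hv)

theorem qmxb_hom {G : Type} [Group G] (A B C : Subgroup G) [C.Normal] (g : G)
    (hAB : ∀ u ∈ A, u * g * u⁻¹ * g⁻¹ ∈ B) (hBC : ∀ x, ∀ v ∈ B, x * v * x⁻¹ * v⁻¹ ∈ C) :
    ∃ θ : A →* G ⧸ C, ∀ u : A, θ u = QuotientGroup.mk' C (u * g * (u : G)⁻¹ * g⁻¹) := by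
  have hcen := qmxb_cen B C hBC
  refine ⟨MonoidHom.mk' (fun u : A => QuotientGroup.mk' C (u * g * (u : G)⁻¹ * g⁻¹)) ?_,
    fun u => rfl⟩
  intro a b
  have h1 : ((a * b : A) : G) * g * ((a * b : A) : G)⁻¹ * g⁻¹ =
      a * ((b : G) * g * (b : G)⁻¹ * g⁻¹) * (a : G)⁻¹ * ((a : G) * g * (a : G)⁻¹ * g⁻¹) := by
    push_cast
    group
  show QuotientGroup.mk' C _ = QuotientGroup.mk' C _ * QuotientGroup.mk' C _
  rw [h1, map_mul, map_mul, map_mul, hcen (a : G) _ (hAB b b.2), mul_assoc _ (QuotientGroup.mk' C (a : G)),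
    ← map_mul, mul_inv_cancel, map_one, mul_one]
  exact (hcen _ _ (hAB a a.2))

theorem qmxb_low {G : Type} [Group G] [Fintype G] (A B C : Subgroup G) [C.Normal] (g : G)
    (hCB : C ≤ B)
    (hAB : ∀ u ∈ A, u * g * u⁻¹ * g⁻¹ ∈ B) (hBC : ∀ x, ∀ v ∈ B, x * v * x⁻¹ * v⁻¹ ∈ C)
    (hs : ∀ v ∈ B, ∃ u ∈ A, v⁻¹ * (u * g * u⁻¹ * g⁻¹) ∈ C) :
    Nat.card B * Nat.card {u : G // u ∈ A ∧ u * g * u⁻¹ * g⁻¹ ∈ C} ≤
      Nat.card A * Nat.card C := by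
  obtain ⟨θ, hθ⟩ := qmxb_hom A B C g hAB hBC
  have hcv : ∀ P : G → Prop, Nat.card {x // P x} = (Finset.univ.filter P).card := by
    intro P
    rw [Nat.card_eq_fintype_card, Fintype.card_subtype]
  have e1 : Nat.card A = (Finset.univ.filter (fun x : G => x ∈ A)).card := hcv _
  have e2 : Nat.card B = (Finset.univ.filter (fun x : G => x ∈ B)).card := hcv _
  have e3 : Nat.card C = (Finset.univ.filter (fun x : G => x ∈ C)).card := hcv _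
  rw [e1, e2, e3, hcv]
  rw [← qmxb_cnt (Finset.univ.filter (fun x : G => x ∈ A))
    (Finset.univ.filter (fun x : G => x ∈ B)) (Finset.univ.filter (fun x : G => x ∈ C))
    (fun u => u * g * u⁻¹ * g⁻¹)]
  · rw [← smul_eq_mul]
    apply Finset.card_nsmul_le_sum
    intro v hv
    obtain ⟨u0, hu0, hv0⟩ := hs v (Finset.mem_filter.1 hv).2
    apply Finset.card_le_card_of_injOn (fun z => z * u0)
    · intro z hz
      simp only [Finset.coe_filter, Finset.mem_univ, true_and, Set.mem_ofPred_eq] at hz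
      simp only [Finset.coe_filter, Finset.mem_filter, Finset.mem_univ, true_and,
        Set.mem_ofPred_eq]
      refine ⟨A.mul_mem hz.1 hu0, ?_⟩
      have h1 := θ.map_mul ⟨z, hz.1⟩ ⟨u0, hu0⟩
      have h2 : θ ⟨z, hz.1⟩ = 1 := by
        rw [hθ]
        exact (QuotientGroup.eq_one_iff _).2 hz.2
      rw [h2, one_mul, hθ, hθ] at h1
      have h3 := QuotientGroup.eq.1 h1.symm
      have h4 := C.mul_mem hv0 h3
      have h5 : v⁻¹ * (u0 * g * u0⁻¹ * g⁻¹) * ((u0 * g * u0⁻¹ * g⁻¹)⁻¹ *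
        (z * u0 * g * (z * u0)⁻¹ * g⁻¹)) = v⁻¹ * (z * u0 * g * (z * u0)⁻¹ * g⁻¹) := by group
      rw [← h5]
      exact h4
    · intro a _ b _ hab
      exact mul_right_cancel hab
  · intro x hx n hn
    simp only [Finset.mem_filter, Finset.mem_univ, true_and] at hx hn ⊢
    exact B.mul_mem (hAB x hx) (B.inv_mem (hCB hn))

theorem qmxb_ne {G : Type} (S T : Finset G) (h : ∀ x0 ∈ S, S.card ≤ T.card) :
    S.card ≤ T.card := by
  rcases Finset.eq_empty_or_nonempty S with h1 | ⟨x0, h1⟩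
  · rw [h1]; simp
  · exact h x0 h1

theorem qmxb_up {G : Type} [Group G] [Fintype G] (A B C : Subgroup G) [B.Normal] (g : G)
    (hBA : B ≤ A) (hBC : ∀ v ∈ B, v * g * v⁻¹ * g⁻¹ ∈ C) [C.Normal] :
    Nat.card {x : G // x * g * x⁻¹ * g⁻¹ ∈ A ∧
        (x * g * x⁻¹ * g⁻¹) * g * (x * g * x⁻¹ * g⁻¹)⁻¹ * g⁻¹ ∈ C} * Nat.card B ≤
      Nat.card {x : G // x * g * x⁻¹ * g⁻¹ ∈ B} *
        Nat.card {u : G // u ∈ A ∧ u * g * u⁻¹ * g⁻¹ ∈ C} := by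
  have hcv : ∀ P : G → Prop, Nat.card {x // P x} = (Finset.univ.filter P).card := by
    intro P
    rw [Nat.card_eq_fintype_card, Fintype.card_subtype]
  have e2 : Nat.card B = (Finset.univ.filter (fun x : G => x ∈ B)).card := hcv _
  rw [e2, hcv, hcv, hcv, mul_comm (Finset.card (Finset.univ.filter
    (fun x : G => x * g * x⁻¹ * g⁻¹ ∈ B)))]
  rw [← qmxb_cnt _ (Finset.univ.filter (fun u : G => u ∈ A ∧ u * g * u⁻¹ * g⁻¹ ∈ C))
    (Finset.univ.filter (fun x : G => x ∈ B)) (fun u => u * g * u⁻¹ * g⁻¹)]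
  · rw [← smul_eq_mul]
    refine (Finset.sum_le_card_nsmul _ _ (Finset.card (Finset.univ.filter
      (fun x : G => x * g * x⁻¹ * g⁻¹ ∈ B))) ?_).trans_eq (by congr)
    intro v hv
    refine qmxb_ne _ _ fun x0 hx0 => ?_
    simp only [Finset.mem_filter, Finset.mem_univ, true_and] at hx0
    apply Finset.card_le_card_of_injOn (fun x => x0⁻¹ * x)
    · intro x hx
      simp only [Finset.coe_filter, Finset.mem_filter, Finset.mem_univ, true_and,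
        Set.mem_ofPred_eq] at hx ⊢
      have h1 := B.mul_mem (B.inv_mem hx0.2) hx.2
      have h2 : (v⁻¹ * (x0 * g * x0⁻¹ * g⁻¹))⁻¹ * (v⁻¹ * (x * g * x⁻¹ * g⁻¹)) =
        (x0 * g * x0⁻¹ * g⁻¹)⁻¹ * (x * g * x⁻¹ * g⁻¹) := by group
      rw [h2] at h1
      have h3 := ‹B.Normal›.conj_mem _ h1 (x0⁻¹ * (x0 * g * x0⁻¹ * g⁻¹))
      have h4 : x0⁻¹ * (x0 * g * x0⁻¹ * g⁻¹) * ((x0 * g * x0⁻¹ * g⁻¹)⁻¹ *
        (x * g * x⁻¹ * g⁻¹)) * (x0⁻¹ * (x0 * g * x0⁻¹ * g⁻¹))⁻¹ =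
        (x0⁻¹ * x) * g * (x0⁻¹ * x)⁻¹ * g⁻¹ := by group
      rw [h4] at h3
      exact h3
    · intro a _ b _ hab
      exact mul_left_cancel hab
  · intro x hx n hn
    simp only [Finset.mem_filter, Finset.mem_univ, true_and] at hx hn ⊢
    refine ⟨A.mul_mem hx.1 (A.inv_mem (hBA hn)), ?_⟩
    set w := x * g * x⁻¹ * g⁻¹ with hw
    have h1 : w * n⁻¹ * g * (w * n⁻¹)⁻¹ * g⁻¹ =
      w * (n⁻¹ * g * (n⁻¹)⁻¹ * g⁻¹) * w⁻¹ * (w * g * w⁻¹ * g⁻¹) := by group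
    rw [h1]
    exact C.mul_mem (‹C.Normal›.conj_mem _ (hBC _ (B.inv_mem hn)) w) hx.2

/-- telescoping -/
theorem qmxb_tel (k h n : ℕ → ℕ) (hn : ∀ j, 0 < n j)
    (hk : ∀ j, k j * n (j + 1) * n (j + 1) ≤ h j * n j * n (j + 2)) (c : ℕ) :
    (∏ j ∈ Finset.range c, k j) * n 1 * n c ≤
      (∏ j ∈ Finset.range c, h j) * n 0 * n (c + 1) := by
  induction c with
  | zero => simp; rw [mul_comm]
  | succ c ih =>
    rw [Finset.prod_range_succ, Finset.prod_range_succ]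
    have h1 := Nat.mul_le_mul ih (hk c)
    have h2 : 0 < n c * n (c + 1) := Nat.mul_pos (hn _) (hn _)
    apply Nat.le_of_mul_le_mul_left _ h2
    calc n c * n (c + 1) * ((∏ j ∈ Finset.range c, k j) * k c * n 1 * n (c + 1))
        = (∏ j ∈ Finset.range c, k j) * n 1 * n c * (k c * n (c + 1) * n (c + 1)) := by ring
      _ ≤ _ := h1
      _ = _ := by ring

/-- powers of `g` -/
theorem qmxb_pow {G : Type} [Group G] (B C : Subgroup G) [C.Normal] (g a : G)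
    (hga : g * a * g⁻¹ * a⁻¹ ∈ B) (hBC : ∀ x, ∀ v ∈ B, x * v * x⁻¹ * v⁻¹ ∈ C) (i : ℕ)  :
    QuotientGroup.mk' C (g ^ i * a * (g ^ i)⁻¹ * a⁻¹) =
      (QuotientGroup.mk' C (g * a * g⁻¹ * a⁻¹)) ^ i := by
  induction i with
  | zero => simp
  | succ i ih =>
    have hc := qmxb_cen B C hBC g _ (B.pow_mem hga i)
    rw [map_pow] at hc
    set w := g * a * g⁻¹ * a⁻¹ with hw
    set v := g ^ i * a * (g ^ i)⁻¹ * a⁻¹ with hv
    have h1 : g ^ (i + 1) * a * (g ^ (i + 1))⁻¹ * a⁻¹ = g * v * g⁻¹ * w := by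
      rw [hw, hv, pow_succ']
      group
    rw [h1, map_mul, map_mul, map_mul, ih, hc, mul_assoc _ (QuotientGroup.mk' C g), ← map_mul,
      mul_inv_cancel, map_one, mul_one, pow_succ]

/-- every element is an element of `M` times a power of `g` -/
theorem qmxb_dec {p : ℕ} (hp : p.Prime) {G : Type} [Group G] [Finite G] (M : Subgroup G) [M.Normal]
    (hi : M.index = p) (g : G) (hgM : g ∉ M) (x : G) : ∃ m ∈ M, ∃ i : ℕ, x = m * g ^ i := by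
  have : Fact p.Prime := ⟨hp⟩
  obtain ⟨χ, h1, h2⟩ := gax_chi hp M hi g hgM
  refine ⟨x * (g ^ (Multiplicative.toAdd (χ x)).val)⁻¹, ?_,
    (Multiplicative.toAdd (χ x)).val, by group⟩
  rw [← h2, map_mul, map_inv, map_pow, h1, ← ofAdd_nsmul, nsmul_one, ZMod.natCast_zmod_val]
  exact mul_inv_cancel _

theorem qmxb_mg {G : Type} [Group G] (M T : Subgroup G) [M.Normal] [T.Normal]
    (hM : ∀ m ∈ M, ∀ a ∈ M, a ∈ T → m * a = a * m) (m g u : G) (hm : m ∈ M) (hu : u ∈ M)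
    (huT : u ∈ T) : (m * g) * u * (m * g)⁻¹ * u⁻¹ = g * u * g⁻¹ * u⁻¹ := by
  have h1 := hM m hm (g * u * g⁻¹) (‹M.Normal›.conj_mem _ hu g) (‹T.Normal›.conj_mem _ huT g)
  have h2 : (m * g) * u * (m * g)⁻¹ * u⁻¹ = (m * (g * u * g⁻¹)) * m⁻¹ * u⁻¹ := by group
  rw [h2, h1]
  group

/-- surjectivity on the steps of the series -/
theorem qmxb_s2 {p : ℕ} (hp : p.Prime) {G : Type} [Group G] [Finite G] (M T A B C : Subgroup G)
    [M.Normal] [T.Normal] [C.Normal] (hi : M.index = p)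
    (hM : ∀ m ∈ M, ∀ a ∈ M, a ∈ T → m * a = a * m) (g : G) (hgM : g ∉ M)
    (hAM : A ≤ M) (hAT : A ≤ T) (hB : B = ⁅(⊤ : Subgroup G), A⁆)
    (hAB : ∀ x, ∀ u ∈ A, x * u * x⁻¹ * u⁻¹ ∈ B) (hBC : ∀ x, ∀ v ∈ B, x * v * x⁻¹ * v⁻¹ ∈ C) :
    ∀ v ∈ B, ∃ u ∈ A, v⁻¹ * (u * g * u⁻¹ * g⁻¹) ∈ C := by
  have hAB' : ∀ u ∈ A, u * g * u⁻¹ * g⁻¹ ∈ B := by
    intro u hu
    have h1 := B.inv_mem (hAB g u hu)
    have h2 : (g * u * g⁻¹ * u⁻¹)⁻¹ = u * g * u⁻¹ * g⁻¹ := by group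
    rwa [h2] at h1
  obtain ⟨θ, hθ⟩ := qmxb_hom A B C g hAB' hBC
  have h3 : B ≤ (θ.range).comap (QuotientGroup.mk' C) := by
    rw [hB, Subgroup.commutator_le]
    intro x _ u hu
    obtain ⟨m, hm, i, rfl⟩ := qmxb_dec hp M hi g hgM x
    rw [Subgroup.mem_comap, commutatorElement_def, qmxb_mg M T hM m (g ^ i) u hm (hAM hu) (hAT hu),
      qmxb_pow B C g u (hAB g u hu) hBC]
    have h2 : g * u * g⁻¹ * u⁻¹ = (u * g * u⁻¹ * g⁻¹)⁻¹ := by group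
    rw [h2, map_inv, ← hθ ⟨u, hu⟩]
    exact θ.range.pow_mem (θ.range.inv_mem ⟨_, rfl⟩) i
  intro v hv
  obtain ⟨u, hu⟩ := h3 hv
  refine ⟨u, u.2, ?_⟩
  rw [hθ] at hu
  exact QuotientGroup.eq.1 hu.symm

/-- surjectivity on the top -/
theorem qmxb_s4 {p : ℕ} (hp : p.Prime) {G : Type} [Group G] [Finite G] (M T B C : Subgroup G)
    [M.Normal] [T.Normal] [C.Normal] (hi : M.index = p)
    (hM : ∀ m ∈ M, ∀ a ∈ M, a ∈ T → m * a = a * m) (g : G) (hgM : g ∉ M) (hgT : g ∈ T)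
    (hB : B = ⁅(⊤ : Subgroup G), T⁆)
    (hAB : ∀ x, ∀ u ∈ T, x * u * x⁻¹ * u⁻¹ ∈ B) (hBC : ∀ x, ∀ v ∈ B, x * v * x⁻¹ * v⁻¹ ∈ C) :
    ∀ v ∈ B, ∃ u ∈ (⊤ : Subgroup G), v⁻¹ * (u * g * u⁻¹ * g⁻¹) ∈ C := by
  obtain ⟨θ, hθ⟩ := qmxb_hom ⊤ B C g (fun u _ => hAB u g hgT) hBC
  have h3 : B ≤ (θ.range).comap (QuotientGroup.mk' C) := by
    rw [hB, Subgroup.commutator_le]
    intro x _ t ht
    obtain ⟨a, ha, k, rfl⟩ := qmxb_dec hp M hi g hgM t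
    have haT : a ∈ T := by
      have := T.mul_mem ht (T.inv_mem (T.pow_mem hgT k))
      rwa [mul_inv_cancel_right] at this
    rw [Subgroup.mem_comap, commutatorElement_def]
    have h4 : x * (a * g ^ k) * x⁻¹ * (a * g ^ k)⁻¹ =
        (x * a * x⁻¹ * a⁻¹) * (a * (x * g ^ k * x⁻¹ * (g ^ k)⁻¹) * a⁻¹) := by group
    have h5 : QuotientGroup.mk' C (a * (x * g ^ k * x⁻¹ * (g ^ k)⁻¹) * a⁻¹) =
        QuotientGroup.mk' C (x * g ^ k * x⁻¹ * (g ^ k)⁻¹) := by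
      rw [map_mul (QuotientGroup.mk' C) (a * _), map_mul (QuotientGroup.mk' C) a,
        qmxb_cen B C hBC a _ (hAB x _ (T.pow_mem hgT k)),
        mul_assoc (QuotientGroup.mk' C (x * g ^ k * x⁻¹ * (g ^ k)⁻¹)), ← map_mul,
        mul_inv_cancel, map_one, mul_one]
    rw [h4, map_mul, h5]
    apply θ.range.mul_mem
    · obtain ⟨m, hm, i, rfl⟩ := qmxb_dec hp M hi g hgM x
      rw [qmxb_mg M T hM m (g ^ i) a hm ha haT, qmxb_pow B C g a (hAB g a haT) hBC]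
      have h2 : g * a * g⁻¹ * a⁻¹ = (a * g * a⁻¹ * g⁻¹)⁻¹ := by group
      rw [h2, map_inv, ← hθ ⟨a, Subgroup.mem_top a⟩]
      exact θ.range.pow_mem (θ.range.inv_mem ⟨_, rfl⟩) i
    · have h5 : x * g ^ k * x⁻¹ * (g ^ k)⁻¹ = (g ^ k * x * (g ^ k)⁻¹ * x⁻¹)⁻¹ := by group
      have h6 : g * x * g⁻¹ * x⁻¹ = (x * g * x⁻¹ * g⁻¹)⁻¹ := by group
      rw [h5, map_inv, qmxb_pow B C g x (by rw [h6]; exact B.inv_mem (hAB x g hgT)) hBC, h6,
        map_inv, ← hθ ⟨x, Subgroup.mem_top x⟩]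
      exact θ.range.inv_mem (θ.range.pow_mem (θ.range.inv_mem ⟨_, rfl⟩) k)
  intro v hv
  obtain ⟨u, hu⟩ := h3 hv
  refine ⟨u, u.2, ?_⟩
  rw [hθ] at hu
  exact QuotientGroup.eq.1 hu.symm

/-- the centraliser of `g` times `Fr` is in the kernel -/
theorem qmxb_fr {p : ℕ} {G : Type} [Group G] [Fintype G] (B C : Subgroup G) [C.Normal] (g : G)
    (hAB : ∀ x, x * g * x⁻¹ * g⁻¹ ∈ B) (hBC : ∀ x, ∀ v ∈ B, x * v * x⁻¹ * v⁻¹ ∈ C)
    (hpw : ∀ v ∈ B, v ^ p ∈ C) :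
    Nat.card {x : G // ∃ y : G, y * g = g * y ∧ y⁻¹ * x ∈ Fr p G} ≤
      Nat.card {u : G // u ∈ (⊤ : Subgroup G) ∧ u * g * u⁻¹ * g⁻¹ ∈ C} := by
  obtain ⟨θ, hθ⟩ := qmxb_hom ⊤ B C g (fun u _ => hAB u) hBC
  have hF : ∀ x ∈ Fr p G, θ ⟨x, Subgroup.mem_top x⟩ = 1 := by
    intro x hx
    induction hx using Subgroup.closure_induction with
    | mem x hx =>
      rcases hx with ⟨y, rfl⟩ | ⟨y, z, rfl⟩
      · have h1 : (⟨y ^ p, Subgroup.mem_top _⟩ : (⊤ : Subgroup G)) =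
          (⟨y, Subgroup.mem_top y⟩ : (⊤ : Subgroup G)) ^ p := rfl
        rw [h1, map_pow, hθ, ← map_pow]
        exact (QuotientGroup.eq_one_iff _).2 (hpw _ (hAB y))
      · have h1 : (⟨y * z * y⁻¹ * z⁻¹, Subgroup.mem_top _⟩ : (⊤ : Subgroup G)) =
          (⟨y, Subgroup.mem_top y⟩ : (⊤ : Subgroup G)) * ⟨z, Subgroup.mem_top z⟩ *
            (⟨y, Subgroup.mem_top y⟩ : (⊤ : Subgroup G))⁻¹ *
            (⟨z, Subgroup.mem_top z⟩ : (⊤ : Subgroup G))⁻¹ := rfl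
        have h2 : θ ⟨y, Subgroup.mem_top y⟩ * θ ⟨z, Subgroup.mem_top z⟩ =
            θ ⟨z, Subgroup.mem_top z⟩ * θ ⟨y, Subgroup.mem_top y⟩ := by
          rw [hθ, hθ]
          exact qmxb_cen B C hBC _ _ (hAB z)
        rw [h1, map_mul, map_mul, map_mul, h2, map_inv, map_inv, mul_inv_cancel_right,
          mul_inv_cancel]
    | one => exact map_one θ
    | mul x y _ _ hx hy =>
      have h1 : (⟨x * y, Subgroup.mem_top _⟩ : (⊤ : Subgroup G)) =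
        ⟨x, Subgroup.mem_top x⟩ * ⟨y, Subgroup.mem_top y⟩ := rfl
      rw [h1, map_mul, hx, hy, one_mul]
    | inv x _ hx =>
      have h1 : (⟨x⁻¹, Subgroup.mem_top _⟩ : (⊤ : Subgroup G)) =
        (⟨x, Subgroup.mem_top x⟩)⁻¹ := rfl
      rw [h1, map_inv, hx, inv_one]
  apply Nat.card_le_card_of_injective
    (fun x : {x : G // ∃ y : G, y * g = g * y ∧ y⁻¹ * x ∈ Fr p G} =>
      (⟨x.1, Subgroup.mem_top _, by
        obtain ⟨y, hy, hx⟩ := x.2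
        have h1 := hF _ hx
        have h2 : (⟨y⁻¹ * x.1, Subgroup.mem_top _⟩ : (⊤ : Subgroup G)) =
          (⟨y, Subgroup.mem_top y⟩)⁻¹ * ⟨x.1, Subgroup.mem_top _⟩ := rfl
        have h3 : θ ⟨y, Subgroup.mem_top y⟩ = 1 := by
          rw [hθ]
          show QuotientGroup.mk' C (y * g * y⁻¹ * g⁻¹) = 1
          rw [hy, mul_inv_cancel_right, mul_inv_cancel, map_one]
        rw [h2, map_mul, map_inv, h3, inv_one, one_mul, hθ] at h1
        exact (QuotientGroup.eq_one_iff _).1 h1⟩ :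
        {u : G // u ∈ (⊤ : Subgroup G) ∧ u * g * u⁻¹ * g⁻¹ ∈ C}))
  intro a b hab
  exact Subtype.ext (congrArg (fun z => z.1) hab)

theorem qmxb {p : ℕ} (hp : p.Prime) {G : Type} [Group G] [Finite G]
    (hnil : Group.IsNilpotent G) (Λ : Set G) (hΛ : ∀ g ∈ Λ, g ^ p = 1)
    (hcj : ∀ g ∈ Λ, ∀ h, h * g * h⁻¹ ∈ Λ) (M : Subgroup G) (hi : M.index = p)
    (hM : ∀ m ∈ M, ∀ a ∈ M, a ∈ Subgroup.closure Λ → m * a = a * m) (c : ℕ)
    (nc : cs (Subgroup.closure Λ) c = ⊥) (g : G) (hg : g ∈ Λ) (hgM : g ∉ M) :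
    (∏ j ∈ Finset.range c, Nat.card {x : G // x * g * x⁻¹ * g⁻¹ ∈ cs (Subgroup.closure Λ) j ∧
        (x * g * x⁻¹ * g⁻¹) * g * (x * g * x⁻¹ * g⁻¹)⁻¹ * g⁻¹ ∈
          cs (Subgroup.closure Λ) (j + 2)}) *
        Nat.card {x : G // ∃ y : G, y * g = g * y ∧ y⁻¹ * x ∈ Fr p G} ≤
      (∏ j ∈ Finset.range c, Nat.card {x : G // x * g * x⁻¹ * g⁻¹ ∈
        cs (Subgroup.closure Λ) (j + 1)}) * Nat.card G := by
  have := Fintype.ofFinite G
  obtain ⟨hMn, hFM⟩ := qmxa_normal hp hnil M hi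
  obtain ⟨hTn, hn, han, hle, hFr, -, hcom, h0⟩ := qmxa_cs (p := p) hnil Λ hcj
  have hpw := qmxa_pw hp hnil Λ hΛ hcj M hi hM
  have hgT : g ∈ Subgroup.closure Λ := Subgroup.subset_closure hg
  set N := cs (Subgroup.closure Λ) with hN
  have hcg : ∀ j, ∀ u ∈ N j, u * g * u⁻¹ * g⁻¹ ∈ N (j + 1) := by
    intro j u hu
    have h1 := (N (j + 1)).inv_mem (hcom j g u hu)
    have h2 : (g * u * g⁻¹ * u⁻¹)⁻¹ = u * g * u⁻¹ * g⁻¹ := by group
    rwa [h2] at h1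
  have hpos : ∀ j, 0 < Nat.card (N j) := fun j => Nat.card_pos
  have hk : ∀ j, Nat.card {x : G // x * g * x⁻¹ * g⁻¹ ∈ N j ∧
      (x * g * x⁻¹ * g⁻¹) * g * (x * g * x⁻¹ * g⁻¹)⁻¹ * g⁻¹ ∈ N (j + 2)} *
      Nat.card (N (j + 1)) * Nat.card (N (j + 1)) ≤
      Nat.card {x : G // x * g * x⁻¹ * g⁻¹ ∈ N (j + 1)} * Nat.card (N j) *
        Nat.card (N (j + 2)) := by
    intro j
    have := hn (j + 1)
    have := hn (j + 2)
    have h1 := qmxb_up (N j) (N (j + 1)) (N (j + 2)) g (han j) (hcg (j + 1))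
    have h2 := qmxb_low (N j) (N (j + 1)) (N (j + 2)) g (han (j + 1)) (hcg j)
      (fun x v hv => hcom (j + 1) x v hv)
      (qmxb_s2 hp M (Subgroup.closure Λ) (N j) (N (j + 1)) (N (j + 2)) hi hM g hgM
        ((hFr j).trans hFM) (hle j) rfl (fun x u hu => hcom j x u hu)
        (fun x v hv => hcom (j + 1) x v hv))
    calc _ ≤ (Nat.card {x : G // x * g * x⁻¹ * g⁻¹ ∈ N (j + 1)} *
        Nat.card {u : G // u ∈ N j ∧ u * g * u⁻¹ * g⁻¹ ∈ N (j + 2)}) * Nat.card (N (j + 1)) :=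
          Nat.mul_le_mul_right _ h1
      _ = Nat.card {x : G // x * g * x⁻¹ * g⁻¹ ∈ N (j + 1)} * (Nat.card (N (j + 1)) *
        Nat.card {u : G // u ∈ N j ∧ u * g * u⁻¹ * g⁻¹ ∈ N (j + 2)}) := by ring
      _ ≤ Nat.card {x : G // x * g * x⁻¹ * g⁻¹ ∈ N (j + 1)} * (Nat.card (N j) *
        Nat.card (N (j + 2))) := Nat.mul_le_mul_left _ h2
      _ = _ := by ring
  have ht := qmxb_tel _ _ _ hpos hk c
  have hc1 : N (c + 1) = ⊥ := le_bot_iff.1 ((han c).trans nc.le)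
  rw [nc, hc1, Subgroup.card_bot, mul_one, mul_one] at ht
  have := hn 1
  have h4 := qmxb_low ⊤ (N 0) (N 1) g (han 0) (fun u _ => h0 u g hgT)
    (fun x v hv => hcom 0 x v hv)
    (qmxb_s4 hp M (Subgroup.closure Λ) (N 0) (N 1) hi hM g hgM hgT rfl
      (fun x u hu => h0 x u hu) (fun x v hv => hcom 0 x v hv))
  have h5 := qmxb_fr (p := p) (N 0) (N 1) g (fun x => h0 x g hgT)
    (fun x v hv => hcom 0 x v hv) (fun v hv => hpw 0 v hv)
  rw [Subgroup.card_top] at h4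
  have h6 := (Nat.mul_le_mul_left (Nat.card (N 0)) h5).trans h4
  have h7 := Nat.mul_le_mul ht h6
  apply Nat.le_of_mul_le_mul_left _ (Nat.mul_pos (hpos 0) (hpos 1))
  refine le_trans (le_of_eq ?_) (h7.trans (le_of_eq ?_))
  · ring
  · ring

end H77.GN
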